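import Pool.Agent.Lib.P4f18dfS.Defs

/-!
# Gaussian mean values of Dirichlet polynomials

`∫ exp(-((t-τ)/Δ)²) (m/n)^{-it} dt = √π Δ exp(-Δ² λ²/4) e^{-iτλ}`, `λ = log(m/n)`.  Expand both
polynomials.  Diagonal `m = n`: `√π Δ a(n) conj b(n)/n`. For `m ≠ n`, `n ≤ N'`: `|log(m/n)| ≥ 1/(2N')`, so
the term is at most `√π Δ exp(-Δ²/(16 N'^2)) ‖a m‖ ‖b n‖ (mn)^{-1/2}`.
`mv`: same with `b = a`, `N' = N`, and Cauchy-Schwarz `(∑ ‖a n‖ n^{-1/2})² ≤ N ∑ ‖a n‖²/n`.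
-/

set_option autoImplicit false

open Complex MeasureTheory

namespace Pool.Agent.P4f18dfS

namespace MVAux

/-- `n^{-1/2}` -/
noncomputable def rt (n : ℕ) : ℝ := Real.exp (-(Real.log n) / 2)

lemma rt_pos (n : ℕ) : 0 < rt n := Real.exp_pos _

lemma rt_sq {n : ℕ} (hn : 1 ≤ n) : rt n * rt n = 1 / (n : ℝ) := by
  unfold rt
  rw [← Real.exp_add]
  have h0 : (0:ℝ) < n := by exact_mod_cast hn
  have h1 : -(Real.log n) / 2 + -(Real.log n) / 2 = -Real.log n := by ring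
  rw [h1, Real.exp_neg, Real.exp_log h0, one_div]

lemma rt_le_one (n : ℕ) : rt n ≤ 1 := by
  unfold rt
  apply Real.exp_le_one_iff.mpr
  have : 0 ≤ Real.log n := Real.log_natCast_nonneg n
  linarith

/-- a term of a Dirichlet polynomial -/
lemma cpow_eq {n : ℕ} (hn : 1 ≤ n) (t : ℝ) :
    (n : ℂ) ^ (-((1 / 2 : ℂ) + t * I)) = (rt n : ℂ) * cexp (-(I * (Real.log n : ℂ) * t)) := by
  have h0 : (n : ℂ) ≠ 0 := by exact_mod_cast (by omega : n ≠ 0)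
  rw [Complex.cpow_def_of_ne_zero h0, ← Complex.natCast_log, rt, Complex.ofReal_exp,
    ← Complex.exp_add]
  congr 1
  push_cast
  ring

lemma norm_exp_I (x : ℝ) (t : ℝ) : ‖cexp (-(I * (x : ℂ) * t))‖ = 1 := by
  have : -(I * (x : ℂ) * t) = ((-(x * t) : ℝ) : ℂ) * I := by
    push_cast
    ring
  rw [this, Complex.norm_exp_ofReal_mul_I]

lemma norm_cpow_eq {n : ℕ} (hn : 1 ≤ n) (t : ℝ) :
    ‖(n : ℂ) ^ (-((1 / 2 : ℂ) + t * I))‖ = rt n := by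
  rw [cpow_eq hn, norm_mul, norm_exp_I, mul_one, Complex.norm_real, Real.norm_eq_abs,
    abs_of_pos (rt_pos n)]

lemma conj_cpow_eq {n : ℕ} (hn : 1 ≤ n) (t : ℝ) :
    (starRingEnd ℂ) ((n : ℂ) ^ (-((1 / 2 : ℂ) + t * I))) =
      (rt n : ℂ) * cexp (I * (Real.log n : ℂ) * t) := by
  rw [cpow_eq hn, map_mul, Complex.conj_ofReal, ← Complex.exp_conj]
  congr 2
  simp only [map_neg, map_mul, Complex.conj_I, Complex.conj_ofReal]
  ring

lemma term_mul {m n : ℕ} (hm : 1 ≤ m) (hn : 1 ≤ n) (t : ℝ) :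
    (m : ℂ) ^ (-((1 / 2 : ℂ) + t * I)) *
      (starRingEnd ℂ) ((n : ℂ) ^ (-((1 / 2 : ℂ) + t * I))) =
      ((rt m * rt n : ℝ) : ℂ) * cexp (-(I * ((Real.log m - Real.log n : ℝ) : ℂ) * t)) := by
  rw [cpow_eq hm, conj_cpow_eq hn]
  have : (rt m : ℂ) * cexp (-(I * (Real.log m : ℂ) * t)) *
      ((rt n : ℂ) * cexp (I * (Real.log n : ℂ) * t)) =
      (rt m : ℂ) * (rt n : ℂ) * (cexp (-(I * (Real.log m : ℂ) * t)) *
        cexp (I * (Real.log n : ℂ) * t)) := by ring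
  rw [this, ← Complex.exp_add]
  push_cast
  congr 2
  ring

lemma wt_integrable {Δ : ℝ} (hΔ : 0 < Δ) (τ : ℝ) : Integrable (fun t : ℝ => wt τ Δ t) := by
  have h1 : Integrable (fun x : ℝ => Real.exp (-(1 / Δ ^ 2) * x ^ 2)) :=
    integrable_exp_neg_mul_sq (by positivity)
  have h2 := h1.comp_sub_right τ
  refine h2.congr (Filter.Eventually.of_forall fun t => ?_)
  simp only [wt]
  congr 1
  field_simp

lemma wt_integrableC {Δ : ℝ} (hΔ : 0 < Δ) (τ : ℝ) :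
    Integrable (fun t : ℝ => (wt τ Δ t : ℂ)) := (wt_integrable hΔ τ).ofReal

lemma wt_pos (τ Δ t : ℝ) : 0 < wt τ Δ t := Real.exp_pos _

lemma gauss_int {Δ : ℝ} (hΔ : 0 < Δ) (τ x : ℝ) :
    ∫ t : ℝ, (wt τ Δ t : ℂ) * cexp (-(I * (x : ℂ) * t)) =
      ((Real.sqrt Real.pi * Δ : ℝ) : ℂ) * (cexp (-(I * (x : ℂ) * τ)) *
        ((Real.exp (-(Δ ^ 2 * x ^ 2 / 4)) : ℝ) : ℂ)) := by
  have hΔ' : (Δ : ℂ) ≠ 0 := by exact_mod_cast hΔ.ne'
  have hb : (-(1 / (Δ : ℂ) ^ 2)).re < 0 := by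
    have h1 : (-(1 / (Δ : ℂ) ^ 2)) = ((-(1 / Δ ^ 2) : ℝ) : ℂ) := by push_cast; ring
    rw [h1, Complex.ofReal_re]
    have : 0 < 1 / Δ ^ 2 := by positivity
    linarith
  have h1 := integral_cexp_quadratic hb (2 * τ / (Δ : ℂ) ^ 2 - I * x) (-(τ : ℂ) ^ 2 / (Δ : ℂ) ^ 2)
  have h2 : ∀ t : ℝ, (wt τ Δ t : ℂ) * cexp (-(I * (x : ℂ) * t)) =
      cexp (-(1 / (Δ : ℂ) ^ 2) * (t : ℂ) ^ 2 + (2 * τ / (Δ : ℂ) ^ 2 - I * x) * t +
        (-(τ : ℂ) ^ 2 / (Δ : ℂ) ^ 2)) := by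
    intro t
    rw [wt, Complex.ofReal_exp, ← Complex.exp_add]
    congr 1
    push_cast
    field_simp
    ring
  simp_rw [h2]
  rw [h1]
  have h3 : ((Real.pi : ℂ) / - -(1 / (Δ : ℂ) ^ 2)) ^ (1 / 2 : ℂ) =
      ((Real.sqrt Real.pi * Δ : ℝ) : ℂ) := by
    have h4 : ((Real.pi : ℂ) / - -(1 / (Δ : ℂ) ^ 2)) = ((Real.pi * Δ ^ 2 : ℝ) : ℂ) := by
      push_cast
      field_simp
    have h5 : (1 / 2 : ℂ) = ((1 / 2 : ℝ) : ℂ) := by push_cast; ring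
    rw [h4, h5, ← Complex.ofReal_cpow (by positivity), ← Real.sqrt_eq_rpow,
      Real.sqrt_mul Real.pi_pos.le, Real.sqrt_sq hΔ.le]
  rw [h3]
  congr 1
  rw [Complex.ofReal_exp, ← Complex.exp_add]
  congr 1
  have hI : I ^ 2 = -1 := Complex.I_sq
  push_cast
  field_simp
  linear_combination ((x:ℂ) ^ 2 * (Δ:ℂ) ^ 4) * hI

lemma norm_gauss {Δ : ℝ} (hΔ : 0 < Δ) (τ x : ℝ) :
    ‖∫ t : ℝ, (wt τ Δ t : ℂ) * cexp (-(I * (x : ℂ) * t))‖ =
      Real.sqrt Real.pi * Δ * Real.exp (-(Δ ^ 2 * x ^ 2 / 4)) := by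
  rw [gauss_int hΔ, norm_mul, norm_mul, norm_exp_I, one_mul, Complex.norm_real, Complex.norm_real,
    Real.norm_eq_abs, Real.norm_eq_abs, abs_of_pos (Real.exp_pos _), abs_of_nonneg (by positivity)]

/-- separation of the logarithms -/
lemma log_sep {m n N' : ℕ} (hm : 1 ≤ m) (hn : 1 ≤ n) (hN : n ≤ N') (hmn : m ≠ n) :
    1 / (2 * (N' : ℝ)) ≤ |Real.log m - Real.log n| := by
  have hm0 : (0:ℝ) < m := by exact_mod_cast hm
  have hn0 : (0:ℝ) < n := by exact_mod_cast hn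
  have hn1 : (1:ℝ) ≤ n := by exact_mod_cast hn
  have hN0 : (n:ℝ) ≤ N' := by exact_mod_cast hN
  have hNpos : (0:ℝ) < N' := by linarith
  have h1 : 1 / (2 * (N' : ℝ)) ≤ 1 / (2 * (n:ℝ)) := by
    apply one_div_le_one_div_of_le (by positivity)
    linarith
  refine h1.trans ?_
  rcases lt_or_gt_of_ne hmn with h | h
  · -- m < n
    have h2 : (m:ℝ) + 1 ≤ n := by exact_mod_cast h
    have h3 := Real.one_sub_inv_le_log_of_pos (x := (n:ℝ) / m) (by positivity)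
    rw [Real.log_div hn0.ne' hm0.ne', inv_div] at h3
    have h4 : 1 / (2 * (n:ℝ)) ≤ 1 - (m:ℝ) / n := by
      rw [div_le_iff₀ (by positivity), sub_mul, div_mul_eq_mul_div, le_sub_iff_add_le]
      have : (m:ℝ) * (2 * n) / n = 2 * m := by field_simp
      rw [this]
      linarith
    rw [abs_sub_comm]
    exact h4.trans (h3.trans (le_abs_self _))
  · have h2 : (n:ℝ) + 1 ≤ m := by exact_mod_cast h
    have h3 := Real.one_sub_inv_le_log_of_pos (x := (m:ℝ) / n) (by positivity)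
    rw [Real.log_div hm0.ne' hn0.ne', inv_div] at h3
    have h4 : 1 / (2 * (n:ℝ)) ≤ 1 - (n:ℝ) / m := by
      have h5 : (n:ℝ) / m ≤ n / (n + 1) := div_le_div_of_nonneg_left hn0.le (by positivity) h2
      have h6 : 1 / (2 * (n:ℝ)) ≤ 1 - (n:ℝ) / (n + 1) := by
        have h7 : 1 - (n:ℝ) / (n + 1) = 1 / (n + 1) := by field_simp; ring
        rw [h7]
        apply one_div_le_one_div_of_le (by positivity)
        linarith
      linarith
    exact h4.trans (h3.trans (le_abs_self _))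

lemma norm_gauss_off {Δ : ℝ} (hΔ : 0 < Δ) (τ : ℝ) {m n N' : ℕ} (hm : 1 ≤ m) (hn : 1 ≤ n)
    (hN : n ≤ N') (hmn : m ≠ n) :
    ‖∫ t : ℝ, (wt τ Δ t : ℂ) * cexp (-(I * ((Real.log m - Real.log n : ℝ) : ℂ) * t))‖ ≤
      Real.sqrt Real.pi * Δ * Real.exp (-(Δ ^ 2 / (16 * (N' : ℝ) ^ 2))) := by
  rw [norm_gauss hΔ]
  apply mul_le_mul_of_nonneg_left _ (by positivity)
  apply Real.exp_le_exp.mpr
  have h1 := log_sep hm hn hN hmn
  have hNpos : (0:ℝ) < N' := by exact_mod_cast (by omega : 0 < N')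
  have h2 : (1 / (2 * (N' : ℝ))) ^ 2 ≤ (Real.log m - Real.log n) ^ 2 := by
    rw [← sq_abs (Real.log m - Real.log n)]
    exact pow_le_pow_left₀ (by positivity) h1 2
  have h3 : Δ ^ 2 / (16 * (N' : ℝ) ^ 2) = Δ ^ 2 * (1 / (2 * (N' : ℝ))) ^ 2 / 4 := by
    field_simp
    ring
  rw [h3]
  have h4 : Δ ^ 2 * (1 / (2 * (N' : ℝ))) ^ 2 ≤ Δ ^ 2 * (Real.log m - Real.log n) ^ 2 :=
    mul_le_mul_of_nonneg_left h2 (by positivity)
  linarith

lemma dp_norm_le (a : ArithmeticFunction ℂ) (N : ℕ) (t : ℝ) :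
    ‖dp a N t‖ ≤ ∑ n ∈ Finset.Icc 1 N, ‖a n‖ := by
  unfold dp
  refine (norm_sum_le _ _).trans (Finset.sum_le_sum fun n hn => ?_)
  rw [Finset.mem_Icc] at hn
  rw [norm_mul, norm_cpow_eq hn.1]
  exact mul_le_of_le_one_right (norm_nonneg _) (rt_le_one n)

end MVAux

open MVAux

theorem dp_continuous (a : ArithmeticFunction ℂ) (N : ℕ) : Continuous (dp a N) := by
  unfold dp
  refine continuous_finsetSum _ fun n hn => ?_
  rw [Finset.mem_Icc] at hn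
  have h0 : (n : ℂ) ≠ 0 := by exact_mod_cast (by omega : n ≠ 0)
  refine continuous_const.mul (Continuous.const_cpow ?_ (Or.inl h0))
  exact (continuous_const.add (Complex.continuous_ofReal.mul continuous_const)).neg

/-- The integrand is integrable. -/
theorem mv_integrable {Δ : ℝ} (hΔ : 0 < Δ) (τ : ℝ) (a b : ArithmeticFunction ℂ) (N N' : ℕ) :
    Integrable (fun t : ℝ => (wt τ Δ t : ℂ) * (dp a N t * (starRingEnd ℂ) (dp b N' t))) := by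
  have h1 : Continuous fun t : ℝ => dp a N t * (starRingEnd ℂ) (dp b N' t) :=
    (dp_continuous a N).mul (Complex.continuous_conj.comp (dp_continuous b N'))
  have h2 : Integrable (fun t : ℝ => (dp a N t * (starRingEnd ℂ) (dp b N' t)) *
      (wt τ Δ t : ℂ)) := by
    refine (wt_integrableC hΔ τ).bdd_mul (c := (∑ n ∈ Finset.Icc 1 N, ‖a n‖) *
      (∑ n ∈ Finset.Icc 1 N', ‖b n‖)) h1.aestronglyMeasurable ?_
    refine Filter.Eventually.of_forall fun t => ?_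
    rw [norm_mul, RCLike.norm_conj]
    exact mul_le_mul (dp_norm_le a N t) (dp_norm_le b N' t) (norm_nonneg _)
      (Finset.sum_nonneg fun _ _ => norm_nonneg _)
  exact h2.congr (Filter.Eventually.of_forall fun t => mul_comm _ _)

namespace MVAux

lemma expand {Δ : ℝ} (hΔ : 0 < Δ) (τ : ℝ) (a b : ArithmeticFunction ℂ) (N N' : ℕ) :
    ∫ t : ℝ, (wt τ Δ t : ℂ) * (dp a N t * (starRingEnd ℂ) (dp b N' t)) =
      ∑ n ∈ Finset.Icc 1 N', ∑ m ∈ Finset.Icc 1 N,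
        (a m * (starRingEnd ℂ) (b n) * ((rt m * rt n : ℝ) : ℂ)) *
        ∫ t : ℝ, (wt τ Δ t : ℂ) * cexp (-(I * ((Real.log m - Real.log n : ℝ) : ℂ) * t)) := by
  have hint : ∀ x : ℝ, Integrable (fun t : ℝ => (wt τ Δ t : ℂ) * cexp (-(I * (x : ℂ) * t))) := by
    intro x
    have h2 : Integrable (fun t : ℝ => cexp (-(I * (x : ℂ) * t)) * (wt τ Δ t : ℂ)) := by
      refine (wt_integrableC hΔ τ).bdd_mul (c := 1) ?_ ?_
      · apply Continuous.aestronglyMeasurable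
        exact Complex.continuous_exp.comp
          ((continuous_const.mul Complex.continuous_ofReal).neg)
      · exact Filter.Eventually.of_forall fun t => (norm_exp_I x t).le
    exact h2.congr (Filter.Eventually.of_forall fun t => mul_comm _ _)
  have h1 : ∀ t : ℝ, (wt τ Δ t : ℂ) * (dp a N t * (starRingEnd ℂ) (dp b N' t)) =
      ∑ n ∈ Finset.Icc 1 N', ∑ m ∈ Finset.Icc 1 N,
        (a m * (starRingEnd ℂ) (b n) * ((rt m * rt n : ℝ) : ℂ)) *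
        ((wt τ Δ t : ℂ) * cexp (-(I * ((Real.log m - Real.log n : ℝ) : ℂ) * t))) := by
    intro t
    unfold dp
    rw [map_sum, Finset.sum_mul_sum, Finset.sum_comm, Finset.mul_sum]
    refine Finset.sum_congr rfl fun n hn => ?_
    rw [Finset.mul_sum]
    refine Finset.sum_congr rfl fun m hm => ?_
    rw [Finset.mem_Icc] at hn hm
    have h2 := term_mul hm.1 hn.1 t
    rw [map_mul]
    linear_combination ((wt τ Δ t : ℂ) * a m * (starRingEnd ℂ) (b n)) * h2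
  simp_rw [h1]
  rw [integral_finsetSum]
  · refine Finset.sum_congr rfl fun n _ => ?_
    rw [integral_finsetSum]
    · refine Finset.sum_congr rfl fun m _ => ?_
      rw [integral_const_mul]
    · intro m _
      exact (hint _).const_mul _
  · intro n _
    refine integrable_finsetSum _ fun m _ => ?_
    exact (hint _).const_mul _

lemma bil {Δ : ℝ} (hΔ : 0 < Δ) (τ : ℝ) (a b : ArithmeticFunction ℂ) (N N' : ℕ)
    (hN : N' ≤ N) :
    ‖(∫ t : ℝ, (wt τ Δ t : ℂ) * (dp a N t * (starRingEnd ℂ) (dp b N' t))) -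
      ((Real.sqrt Real.pi * Δ : ℝ) : ℂ) * ∑ n ∈ Finset.Icc 1 N', a n * (starRingEnd ℂ) (b n) / (n : ℂ)‖ ≤
      Real.sqrt Real.pi * Δ * Real.exp (-(Δ ^ 2 / (16 * (N' : ℝ) ^ 2))) *
        (∑ n ∈ Finset.Icc 1 N, ‖a n‖ * rt n) * (∑ n ∈ Finset.Icc 1 N', ‖b n‖ * rt n) := by
  rw [expand hΔ]
  rw [Finset.mul_sum, ← Finset.sum_sub_distrib]
  have key : ∀ n ∈ Finset.Icc 1 N',
      ‖(∑ m ∈ Finset.Icc 1 N, (a m * (starRingEnd ℂ) (b n) * ((rt m * rt n : ℝ) : ℂ)) *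
        ∫ t : ℝ, (wt τ Δ t : ℂ) * cexp (-(I * ((Real.log m - Real.log n : ℝ) : ℂ) * t))) -
        ((Real.sqrt Real.pi * Δ : ℝ) : ℂ) * (a n * (starRingEnd ℂ) (b n) / (n : ℂ))‖ ≤
      Real.sqrt Real.pi * Δ * Real.exp (-(Δ ^ 2 / (16 * (N' : ℝ) ^ 2))) *
        (∑ m ∈ Finset.Icc 1 N, ‖a m‖ * rt m) * (‖b n‖ * rt n) := by
    intro n hn
    have hn' := Finset.mem_Icc.mp hn
    have hnN : n ∈ Finset.Icc 1 N := Finset.mem_Icc.mpr ⟨hn'.1, hn'.2.trans hN⟩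
    rw [← Finset.add_sum_erase _ _ hnN]
    have hdiag : (a n * (starRingEnd ℂ) (b n) * ((rt n * rt n : ℝ) : ℂ)) *
        ∫ t : ℝ, (wt τ Δ t : ℂ) * cexp (-(I * ((Real.log n - Real.log n : ℝ) : ℂ) * t)) =
        ((Real.sqrt Real.pi * Δ : ℝ) : ℂ) * (a n * (starRingEnd ℂ) (b n) / (n : ℂ)) := by
      rw [gauss_int hΔ, rt_sq hn'.1]
      simp only [sub_self]
      push_cast
      simp
      ring
    rw [hdiag, add_sub_cancel_left]
    refine (norm_sum_le _ _).trans ?_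
    have h1 : ∀ m ∈ (Finset.Icc 1 N).erase n,
        ‖(a m * (starRingEnd ℂ) (b n) * ((rt m * rt n : ℝ) : ℂ)) *
        ∫ t : ℝ, (wt τ Δ t : ℂ) * cexp (-(I * ((Real.log m - Real.log n : ℝ) : ℂ) * t))‖ ≤
        Real.sqrt Real.pi * Δ * Real.exp (-(Δ ^ 2 / (16 * (N' : ℝ) ^ 2))) *
          (‖a m‖ * rt m) * (‖b n‖ * rt n) := by
      intro m hm
      rw [Finset.mem_erase, Finset.mem_Icc] at hm
      rw [norm_mul, norm_mul, norm_mul, RCLike.norm_conj, Complex.norm_real, Real.norm_eq_abs,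
        abs_of_pos (mul_pos (rt_pos m) (rt_pos n))]
      have h2 := norm_gauss_off hΔ τ hm.2.1 hn'.1 hn'.2 hm.1
      calc ‖a m‖ * ‖b n‖ * (rt m * rt n) * _ ≤ ‖a m‖ * ‖b n‖ * (rt m * rt n) *
            (Real.sqrt Real.pi * Δ * Real.exp (-(Δ ^ 2 / (16 * (N' : ℝ) ^ 2)))) :=
          mul_le_mul_of_nonneg_left h2 (mul_nonneg (by positivity)
            (mul_pos (rt_pos m) (rt_pos n)).le)
        _ = _ := by ring
    refine (Finset.sum_le_sum h1).trans ?_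
    rw [← Finset.sum_mul, ← Finset.mul_sum]
    have h3 : ∑ m ∈ (Finset.Icc 1 N).erase n, ‖a m‖ * rt m ≤
        ∑ m ∈ Finset.Icc 1 N, ‖a m‖ * rt m :=
      Finset.sum_le_sum_of_subset_of_nonneg (Finset.erase_subset _ _)
        fun m _ _ => mul_nonneg (norm_nonneg _) (rt_pos m).le
    apply mul_le_mul_of_nonneg_right _ (mul_nonneg (norm_nonneg _) (rt_pos n).le)
    exact mul_le_mul_of_nonneg_left h3 (by positivity)
  refine (norm_sum_le _ _).trans ((Finset.sum_le_sum key).trans ?_)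
  rw [← Finset.mul_sum]

end MVAux

theorem mv_bil {Δ : ℝ} (hΔ : 0 < Δ) (τ : ℝ) (a b : ArithmeticFunction ℂ) (N N' : ℕ) (hN' : 1 ≤ N')
    (hN : N' ≤ N) :
    ‖(∫ t : ℝ, (wt τ Δ t : ℂ) * (dp a N t * (starRingEnd ℂ) (dp b N' t))) -
      ((Real.sqrt Real.pi * Δ : ℝ) : ℂ) * ∑ n ∈ Finset.Icc 1 N', a n * (starRingEnd ℂ) (b n) / (n : ℂ)‖ ≤
      Real.sqrt Real.pi * Δ * Real.exp (-(Δ ^ 2 / (16 * (N' : ℝ) ^ 2))) *
        (∑ n ∈ Finset.Icc 1 N, ‖a n‖) * (∑ n ∈ Finset.Icc 1 N', ‖b n‖) := by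
  refine (bil hΔ τ a b N N' hN).trans ?_
  have h : ∀ (c : ArithmeticFunction ℂ) (M : ℕ), ∑ n ∈ Finset.Icc 1 M, ‖c n‖ * rt n ≤
      ∑ n ∈ Finset.Icc 1 M, ‖c n‖ := fun c M =>
    Finset.sum_le_sum fun n _ => mul_le_of_le_one_right (norm_nonneg _) (rt_le_one n)
  have h0 : ∀ (c : ArithmeticFunction ℂ) (M : ℕ), 0 ≤ ∑ n ∈ Finset.Icc 1 M, ‖c n‖ * rt n :=
    fun c M => Finset.sum_nonneg fun n _ => mul_nonneg (norm_nonneg _) (rt_pos n).le
  apply mul_le_mul _ (h b N') (h0 b N') _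
  · exact mul_le_mul_of_nonneg_left (h a N) (by positivity)
  · exact mul_nonneg (by positivity) (Finset.sum_nonneg fun _ _ => norm_nonneg _)

theorem mv {Δ : ℝ} (hΔ : 0 < Δ) (τ : ℝ) (a : ArithmeticFunction ℂ) (N : ℕ) (hN : 1 ≤ N) :
    ∫ t : ℝ, wt τ Δ t * ‖dp a N t‖ ^ 2 ≤
      Real.sqrt Real.pi * Δ * (1 + N * Real.exp (-(Δ ^ 2 / (16 * (N : ℝ) ^ 2)))) *
        ∑ n ∈ Finset.Icc 1 N, ‖a n‖ ^ 2 / (n : ℝ) := by
  have h1 := bil hΔ τ a a N N le_rfl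
  have h2 : (∫ t : ℝ, (wt τ Δ t : ℂ) * (dp a N t * (starRingEnd ℂ) (dp a N t))) =
      ((∫ t : ℝ, wt τ Δ t * ‖dp a N t‖ ^ 2 : ℝ) : ℂ) := by
    rw [← integral_complex_ofReal]
    congr 1
    funext t
    rw [Complex.mul_conj, Complex.normSq_eq_norm_sq]
    push_cast
    rfl
  have h3 : ∑ n ∈ Finset.Icc 1 N, a n * (starRingEnd ℂ) (a n) / (n : ℂ) =
      ((∑ n ∈ Finset.Icc 1 N, ‖a n‖ ^ 2 / (n : ℝ) : ℝ) : ℂ) := by
    push_cast
    refine Finset.sum_congr rfl fun n _ => ?_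
    rw [Complex.mul_conj, Complex.normSq_eq_norm_sq]
    push_cast
    rfl
  rw [h2, h3, ← Complex.ofReal_mul, ← Complex.ofReal_sub, Complex.norm_real, Real.norm_eq_abs] at h1
  have h4 := (abs_le.mp h1).2
  have h5 : (∑ n ∈ Finset.Icc 1 N, ‖a n‖ * rt n) * (∑ n ∈ Finset.Icc 1 N, ‖a n‖ * rt n) ≤
      N * ∑ n ∈ Finset.Icc 1 N, ‖a n‖ ^ 2 / (n : ℝ) := by
    have h6 := sq_sum_le_card_mul_sum_sq (s := Finset.Icc 1 N) (f := fun n => ‖a n‖ * rt n)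
    rw [Nat.card_Icc, Nat.add_sub_cancel, sq] at h6
    refine h6.trans (le_of_eq ?_)
    congr 1
    refine Finset.sum_congr rfl fun n hn => ?_
    rw [mul_pow, sq (rt n), rt_sq (Finset.mem_Icc.mp hn).1]
    ring
  have h7 : Real.sqrt Real.pi * Δ * Real.exp (-(Δ ^ 2 / (16 * (N : ℝ) ^ 2))) *
        (∑ n ∈ Finset.Icc 1 N, ‖a n‖ * rt n) * (∑ n ∈ Finset.Icc 1 N, ‖a n‖ * rt n) ≤
      Real.sqrt Real.pi * Δ * Real.exp (-(Δ ^ 2 / (16 * (N : ℝ) ^ 2))) *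
        (N * ∑ n ∈ Finset.Icc 1 N, ‖a n‖ ^ 2 / (n : ℝ)) := by
    rw [mul_assoc]
    exact mul_le_mul_of_nonneg_left h5 (by positivity)
  calc ∫ t : ℝ, wt τ Δ t * ‖dp a N t‖ ^ 2 ≤
        Real.sqrt Real.pi * Δ * (∑ n ∈ Finset.Icc 1 N, ‖a n‖ ^ 2 / (n : ℝ)) +
        Real.sqrt Real.pi * Δ * Real.exp (-(Δ ^ 2 / (16 * (N : ℝ) ^ 2))) *
        (N * ∑ n ∈ Finset.Icc 1 N, ‖a n‖ ^ 2 / (n : ℝ)) := by linarith
    _ = _ := by ring

/-- Products of Dirichlet polynomials. -/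
theorem dp_mul (a b : ArithmeticFunction ℂ) (N N' : ℕ) (ha : ∀ n, N < n → a n = 0)
    (hb : ∀ n, N' < n → b n = 0) (t : ℝ) : dp a N t * dp b N' t = dp (a * b) (N * N') t := by
  classical
  unfold dp
  rw [Finset.sum_mul_sum, ← Finset.sum_product']
  have hmaps : ∀ x ∈ Finset.Icc 1 N ×ˢ Finset.Icc 1 N', x.1 * x.2 ∈ Finset.Icc 1 (N * N') := by
    intro x hx
    rw [Finset.mem_product, Finset.mem_Icc, Finset.mem_Icc] at hx
    rw [Finset.mem_Icc]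
    exact ⟨Nat.mul_pos hx.1.1 hx.2.1, Nat.mul_le_mul hx.1.2 hx.2.2⟩
  rw [← Finset.sum_fiberwise_of_maps_to hmaps]
  refine Finset.sum_congr rfl fun k hk => ?_
  have hk1 : 1 ≤ k := (Finset.mem_Icc.mp hk).1
  rw [ArithmeticFunction.mul_apply, Finset.sum_mul]
  have hsub : (Finset.Icc 1 N ×ˢ Finset.Icc 1 N').filter (fun x => x.1 * x.2 = k) ⊆
      k.divisorsAntidiagonal := by
    intro x hx
    rw [Finset.mem_filter] at hx
    rw [Nat.mem_divisorsAntidiagonal]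
    exact ⟨hx.2, by omega⟩
  have hterm : ∀ x ∈ k.divisorsAntidiagonal, a x.1 * b x.2 * (k : ℂ) ^ (-((1 / 2 : ℂ) + t * I)) =
      a x.1 * (x.1 : ℂ) ^ (-((1 / 2 : ℂ) + t * I)) *
        (b x.2 * (x.2 : ℂ) ^ (-((1 / 2 : ℂ) + t * I))) := by
    intro x hx
    rw [Nat.mem_divisorsAntidiagonal] at hx
    rw [← hx.1, Nat.cast_mul, Complex.natCast_mul_natCast_cpow]
    ring
  rw [Finset.sum_congr rfl hterm]
  refine Finset.sum_subset hsub ?_
  intro x hx hx'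
  rw [Nat.mem_divisorsAntidiagonal] at hx
  rw [Finset.mem_filter, Finset.mem_product, Finset.mem_Icc, Finset.mem_Icc] at hx'
  have h1 : 1 ≤ x.1 := by
    rcases Nat.eq_zero_or_pos x.1 with h | h
    · rw [h, zero_mul] at hx
      omega
    · exact h
  have h2 : 1 ≤ x.2 := by
    rcases Nat.eq_zero_or_pos x.2 with h | h
    · rw [h, mul_zero] at hx
      omega
    · exact h
  by_cases h3 : x.1 ≤ N
  · by_cases h4 : x.2 ≤ N'
    · exact absurd ⟨⟨⟨h1, h3⟩, ⟨h2, h4⟩⟩, hx.1⟩ hx'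
    · rw [hb x.2 (not_le.mp h4)]
      ring
  · rw [ha x.1 (not_le.mp h3)]
    ring

/-- Extending the range of summation. -/
theorem dp_mono (a : ArithmeticFunction ℂ) {N N' : ℕ} (h : N ≤ N') (ha : ∀ n, N < n → a n = 0) (t : ℝ) :
    dp a N t = dp a N' t := by
  unfold dp
  refine Finset.sum_subset (Finset.Icc_subset_Icc_right h) ?_
  intro n hn hn'
  rw [Finset.mem_Icc] at hn hn'
  rw [ha n (by omega), zero_mul]

end Pool.Agent.P4f18dfS
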