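import Pool.Agent.Lib.P4f18dfV.Shift

/-!
# Contour shifts for functions of polynomial decay

Deduced from the contour shifts with a Gaussian kernel by letting the width of the kernel tend to infinity.
-/

set_option autoImplicit false

open Complex MeasureTheory Filter Topology

namespace Pool.Agent.P4f18dfS

open Pool.Agent.P4f18dfV

namespace ShiftPolyAux

/-- The Gaussian kernel tends to one. -/
theorem tendsto_gk (ρ s : ℂ) :
    Tendsto (fun n : ℕ => gk 0 (1 / ((n : ℝ) + 1)) ρ s) atTop (𝓝 1) := by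
  have h1 : Tendsto (fun n : ℕ => (1 / ((n : ℝ) + 1))) atTop (𝓝 0) :=
    tendsto_one_div_add_atTop_nhds_zero_nat
  have hc : Continuous (fun h : ℝ => gk 0 h ρ s) := by
    unfold gk
    fun_prop
  have h2 : gk 0 0 ρ s = 1 := by
    unfold gk
    simp
  have h3 := (hc.tendsto 0).comp h1
  rw [h2] at h3
  exact h3

theorem gk_le (ρ : ℂ) (c t : ℝ) (n : ℕ) :
    ‖gk 0 (1 / ((n : ℝ) + 1)) ρ (c + t * I)‖ ≤ Real.exp ((c - ρ.re) ^ 2) := by
  rw [gk_norm]
  apply Real.exp_le_exp.2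
  have hre : ((c : ℂ) + t * I).re = c := by simp
  have him : ((c : ℂ) + t * I).im = t := by simp
  rw [hre, him, zero_mul, zero_add]
  have hn : (0 : ℝ) < (n : ℝ) + 1 := by positivity
  have h0 : 0 ≤ (1 / ((n : ℝ) + 1)) ^ 2 / 2 := by positivity
  have h1 : (1 / ((n : ℝ) + 1)) ^ 2 / 2 ≤ 1 := by
    have h2 : 1 / ((n : ℝ) + 1) ≤ 1 := by
      rw [div_le_one hn]
      have : (0 : ℝ) ≤ n := Nat.cast_nonneg n
      linarith
    have h3 : 0 ≤ 1 / ((n : ℝ) + 1) := by positivity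
    nlinarith
  calc (1 / ((n : ℝ) + 1)) ^ 2 / 2 * ((c - ρ.re) ^ 2 - (t - ρ.im) ^ 2)
      ≤ (1 / ((n : ℝ) + 1)) ^ 2 / 2 * (c - ρ.re) ^ 2 := by
        apply mul_le_mul_of_nonneg_left _ h0
        nlinarith [sq_nonneg (t - ρ.im)]
    _ ≤ 1 * (c - ρ.re) ^ 2 := mul_le_mul_of_nonneg_right h1 (sq_nonneg _)
    _ = _ := one_mul _

theorem limit (ρ : ℂ) (c : ℝ) {G : ℝ → ℂ} (hG : Continuous G) {C : ℝ}
    (hC : ∀ t, ‖G t‖ ≤ C * (1 + t ^ 2)⁻¹) :
    Tendsto (fun n : ℕ => ∫ t : ℝ, G t * gk 0 (1 / ((n : ℝ) + 1)) ρ (c + t * I)) atTop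
      (𝓝 (∫ t : ℝ, G t)) := by
  have hcg : ∀ n : ℕ, Continuous (fun t : ℝ => gk 0 (1 / ((n : ℝ) + 1)) ρ (c + t * I)) := by
    intro n
    unfold gk
    fun_prop
  apply tendsto_integral_of_dominated_convergence
    (fun t => C * Real.exp ((c - ρ.re) ^ 2) * (1 + t ^ 2)⁻¹)
  · intro n
    exact (hG.mul (hcg n)).aestronglyMeasurable
  · exact integrable_inv_one_add_sq.const_mul _
  · intro n
    refine Eventually.of_forall fun t => ?_
    rw [norm_mul]
    calc ‖G t‖ * ‖gk 0 (1 / ((n : ℝ) + 1)) ρ (c + t * I)‖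
        ≤ (C * (1 + t ^ 2)⁻¹) * Real.exp ((c - ρ.re) ^ 2) :=
          mul_le_mul (hC t) (gk_le ρ c t n) (norm_nonneg _) ((norm_nonneg _).trans (hC t))
      _ = _ := by ring
  · refine Eventually.of_forall fun t => ?_
    have h := (tendsto_gk ρ (c + t * I)).const_mul (G t)
    rw [mul_one] at h
    exact h

theorem inv_sq_le {K t : ℝ} (hK : 0 ≤ K) : K / (1 + |t|) ^ 2 ≤ K * (1 + t ^ 2)⁻¹ := by
  rw [div_eq_mul_inv]
  apply mul_le_mul_of_nonneg_left _ hK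
  apply inv_anti₀ (by positivity)
  have := abs_nonneg t
  have h2 : |t| ^ 2 = t ^ 2 := sq_abs t
  nlinarith

theorem pole_ne {c t : ℝ} {ρ : ℂ} (hc : c ≠ ρ.re) : (c : ℂ) + t * I - ρ ≠ 0 := by
  intro h
  have := congrArg Complex.re h
  simp at this
  exact hc (by linarith)

theorem pole_le {c t : ℝ} {ρ : ℂ} (hc : c ≠ ρ.re) :
    (1 + |t|) ≤ ((1 + |ρ.im|) / |c - ρ.re| + 1) * ‖(c : ℂ) + t * I - ρ‖ := by
  have hd : 0 < |c - ρ.re| := abs_pos.2 (sub_ne_zero.2 hc)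
  have h1 : |c - ρ.re| ≤ ‖(c : ℂ) + t * I - ρ‖ := by
    have := Complex.abs_re_le_norm ((c : ℂ) + t * I - ρ)
    simpa using this
  have h2 : |t - ρ.im| ≤ ‖(c : ℂ) + t * I - ρ‖ := by
    have := Complex.abs_im_le_norm ((c : ℂ) + t * I - ρ)
    simpa using this
  have h3 : |t| ≤ |ρ.im| + |t - ρ.im| := by
    calc |t| = |ρ.im + (t - ρ.im)| := by ring_nf
      _ ≤ _ := abs_add_le _ _
  have h4 : (1 + |ρ.im|) ≤ (1 + |ρ.im|) / |c - ρ.re| * ‖(c : ℂ) + t * I - ρ‖ := by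
    rw [div_mul_eq_mul_div, le_div_iff₀ hd]
    exact mul_le_mul_of_nonneg_left h1 (by positivity)
  linarith

end ShiftPolyAux

open ShiftPolyAux

theorem shift_poly_on {F : ℂ → ℂ} {a b K : ℝ} (hab : a ≤ b) {U : Set ℂ} (hU : IsOpen U)
    (hUs : ∀ s : ℂ, a ≤ s.re → s.re ≤ b → s ∈ U) (hF : DifferentiableOn ℂ F U)
    (hK : ∀ s : ℂ, a ≤ s.re → s.re ≤ b → ‖F s‖ ≤ K / (1 + |s.im|) ^ 2) :
    ∫ t : ℝ, F (a + t * I) = ∫ t : ℝ, F (b + t * I) := by
  have hcont : ∀ c : ℝ, a ≤ c → c ≤ b → Continuous (fun t : ℝ => F (c + t * I)) := by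
    intro c hc1 hc2
    rw [continuous_iff_continuousAt]
    intro t
    have h1 : ((c : ℂ) + t * I) ∈ U := hUs _ (by simpa using hc1) (by simpa using hc2)
    have h2 : ContinuousAt F ((c : ℂ) + t * I) := (hF.differentiableAt (hU.mem_nhds h1)).continuousAt
    have h3 : ContinuousAt (fun t : ℝ => (c : ℂ) + t * I) t := by fun_prop
    exact ContinuousAt.comp (f := fun t : ℝ => (c : ℂ) + t * I) h2 h3
  have hK0 : 0 ≤ K := by
    have := (norm_nonneg _).trans (hK (a : ℂ) (by simp) (by simpa using hab))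
    simpa using this
  have hKe : ∀ s : ℂ, a ≤ s.re → s.re ≤ b → ‖F s‖ ≤ K * Real.exp (K * |s.im|) := by
    intro s h1 h2
    refine (hK s h1 h2).trans ?_
    have e1 : K / (1 + |s.im|) ^ 2 ≤ K := by
      apply div_le_self hK0
      have := abs_nonneg s.im
      nlinarith
    have e2 : 1 ≤ Real.exp (K * |s.im|) := Real.one_le_exp (by positivity)
    nlinarith
  have hbd : ∀ c : ℝ, a ≤ c → c ≤ b → ∀ t : ℝ, ‖F (c + t * I)‖ ≤ K * (1 + t ^ 2)⁻¹ := by
    intro c h1 h2 t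
    have := hK ((c : ℂ) + t * I) (by simpa using h1) (by simpa using h2)
    refine this.trans ?_
    have him : ((c : ℂ) + t * I).im = t := by simp
    rw [him]
    exact inv_sq_le hK0
  have e : ∀ n : ℕ, ∫ t : ℝ, F (a + t * I) * gk 0 (1 / ((n : ℝ) + 1)) 0 (a + t * I) =
      ∫ t : ℝ, F (b + t * I) * gk 0 (1 / ((n : ℝ) + 1)) 0 (b + t * I) := fun n =>
    shift_on hab hU hUs hF hKe (h := 1 / ((n : ℝ) + 1)) (by positivity) 0 0
  have l1 := limit 0 a (hcont a le_rfl hab) (hbd a le_rfl hab)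
  have l2 := limit 0 b (hcont b hab le_rfl) (hbd b hab le_rfl)
  simp_rw [e] at l1
  exact tendsto_nhds_unique l1 l2

theorem shift_pole_poly {F : ℂ → ℂ} (hF : Differentiable ℂ F) {a b K : ℝ}
    (hK : ∀ s : ℂ, a ≤ s.re → s.re ≤ b → ‖F s‖ ≤ K / (1 + |s.im|)) (ρ : ℂ) (ha : a < ρ.re) (hb : ρ.re < b) :
    ∫ t : ℝ, F (b + t * I) / (b + t * I - ρ) =
      (∫ t : ℝ, F (a + t * I) / (a + t * I - ρ)) + 2 * Real.pi * F ρ := by
  have hab : a ≤ b := (ha.trans hb).le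
  have hK0 : 0 ≤ K := by
    have := (norm_nonneg _).trans (hK (a : ℂ) (by simp) (by simpa using hab))
    simpa using this
  have hKe : ∀ s : ℂ, a ≤ s.re → s.re ≤ b → ‖F s‖ ≤ K * Real.exp (K * |s.im|) := by
    intro s h1 h2
    refine (hK s h1 h2).trans ?_
    have e1 : K / (1 + |s.im|) ≤ K := by
      apply div_le_self hK0
      have := abs_nonneg s.im
      linarith
    have e2 : 1 ≤ Real.exp (K * |s.im|) := Real.one_le_exp (by positivity)
    nlinarith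
  have hcont : ∀ c : ℝ, c ≠ ρ.re → Continuous (fun t : ℝ => F (c + t * I) / (c + t * I - ρ)) := by
    intro c hc
    apply Continuous.div
    · exact hF.continuous.comp (by fun_prop)
    · fun_prop
    · intro t
      exact pole_ne hc
  have hbd : ∀ c : ℝ, a ≤ c → c ≤ b → c ≠ ρ.re → ∀ t : ℝ, ‖F (c + t * I) / (c + t * I - ρ)‖ ≤
      (K * ((1 + |ρ.im|) / |c - ρ.re| + 1)) * (1 + t ^ 2)⁻¹ := by
    intro c h1 h2 hc t
    have h3 := hK ((c : ℂ) + t * I) (by simpa using h1) (by simpa using h2)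
    have him : ((c : ℂ) + t * I).im = t := by simp
    rw [him] at h3
    have h4 := pole_le (t := t) hc
    have h5 : 0 < ‖(c : ℂ) + t * I - ρ‖ := norm_pos_iff.2 (pole_ne hc)
    have hM : 0 < (1 + |ρ.im|) / |c - ρ.re| + 1 := by positivity
    have ht : 0 < 1 + |t| := by positivity
    refine le_trans ?_ (inv_sq_le (by positivity))
    rw [norm_div, div_le_div_iff₀ h5 (by positivity)]
    have h6 : ‖F (c + t * I)‖ * (1 + |t|) ≤ K := by
      rwa [le_div_iff₀ ht] at h3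
    calc ‖F (c + t * I)‖ * (1 + |t|) ^ 2 = (‖F (c + t * I)‖ * (1 + |t|)) * (1 + |t|) := by ring
      _ ≤ K * (((1 + |ρ.im|) / |c - ρ.re| + 1) * ‖(c : ℂ) + t * I - ρ‖) :=
          mul_le_mul h6 h4 ht.le hK0
      _ = _ := by ring
  have e : ∀ n : ℕ, ∫ t : ℝ, F (b + t * I) / (b + t * I - ρ) *
        gk 0 (1 / ((n : ℝ) + 1)) ρ (b + t * I) =
      (∫ t : ℝ, F (a + t * I) / (a + t * I - ρ) * gk 0 (1 / ((n : ℝ) + 1)) ρ (a + t * I)) +
        2 * Real.pi * F ρ := by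
    intro n
    have h1 := shift_pole hF hKe (h := 1 / ((n : ℝ) + 1)) (by positivity) 0 ρ ha hb
    have h2 : ∀ (c t : ℝ), F (c + t * I) * gk 0 (1 / ((n : ℝ) + 1)) ρ (c + t * I) /
        (c + t * I - ρ) = F (c + t * I) / (c + t * I - ρ) * gk 0 (1 / ((n : ℝ) + 1)) ρ (c + t * I) := by
      intro c t
      ring
    simp_rw [h2] at h1
    exact h1
  have l1 := limit ρ b (hcont b hb.ne') (hbd b hab le_rfl hb.ne')
  have l2 := (limit ρ a (hcont a ha.ne) (hbd a le_rfl hab ha.ne)).add_const (2 * Real.pi * F ρ)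
  simp_rw [e] at l1
  exact tendsto_nhds_unique l1 l2

end Pool.Agent.P4f18dfS
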