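import Mathlib

/-!
# Ratios of Gamma values on a vertical line direction

Euler's product `Γ(s) = lim_n n^s n!/(s(s+1)...(s+n))`, compared factor by factor with the telescoping sum of
`(1/2) log (j² + y²)`.
-/

set_option autoImplicit false

open Complex

namespace Pool.Agent.P4f18dfS

namespace GammaRatio

/-- `(1/2) log (u² + y²)`. -/
noncomputable def g (y u : ℝ) : ℝ := Real.log (u ^ 2 + y ^ 2) / 2

lemma q_pos {y : ℝ} (hy : 1 / 8 ≤ |y|) (u : ℝ) : 0 < u ^ 2 + y ^ 2 := by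
  have h : 0 < y ^ 2 := by
    have : 0 < |y| := by linarith
    have := pow_pos this 2
    rwa [sq_abs] at this
  have := sq_nonneg u
  linarith

lemma g_upper {y : ℝ} (hy : 1 / 8 ≤ |y|) (j : ℝ) (_hj : 0 ≤ j) :
    g y (j + 1) - g y j ≤ (j + 1 / 2) / (j ^ 2 + y ^ 2) := by
  have h0 := q_pos hy j
  have h1 := q_pos hy (j + 1)
  have h2 : Real.log ((j + 1) ^ 2 + y ^ 2) - Real.log (j ^ 2 + y ^ 2) ≤ (2 * j + 1) / (j ^ 2 + y ^ 2) := by
    rw [← Real.log_div h1.ne' h0.ne']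
    refine (Real.log_le_sub_one_of_pos (by positivity)).trans (le_of_eq ?_)
    field_simp
    ring
  unfold g
  have h3 : (j + 1 / 2) / (j ^ 2 + y ^ 2) = (2 * j + 1) / (j ^ 2 + y ^ 2) / 2 := by
    field_simp
  rw [h3]
  linarith

lemma g_lower {y : ℝ} (hy : 1 / 8 ≤ |y|) (j : ℝ) (_hj : 0 ≤ j) :
    (j + 1 / 2) / ((j + 1) ^ 2 + y ^ 2) ≤ g y (j + 1) - g y j := by
  have h0 := q_pos hy j
  have h1 := q_pos hy (j + 1)
  have h2 : Real.log (j ^ 2 + y ^ 2) - Real.log ((j + 1) ^ 2 + y ^ 2) ≤ -((2 * j + 1) / ((j + 1) ^ 2 + y ^ 2)) := by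
    rw [← Real.log_div h0.ne' h1.ne']
    refine (Real.log_le_sub_one_of_pos (by positivity)).trans (le_of_eq ?_)
    field_simp
    ring
  unfold g
  have h3 : (j + 1 / 2) / ((j + 1) ^ 2 + y ^ 2) = (2 * j + 1) / ((j + 1) ^ 2 + y ^ 2) / 2 := by
    field_simp
  rw [h3]
  linarith

/-- Upper bound for one factor. -/
lemma factor_upper {x1 x2 y : ℝ} (h2 : 1 / 16 ≤ x2) (h12 : x2 ≤ x1) (h1 : x1 ≤ 2) (hy : 1 / 8 ≤ |y|)
    (j : ℝ) (hj : 0 ≤ j) :
    (x1 + j) ^ 2 + y ^ 2 ≤ ((x2 + j) ^ 2 + y ^ 2) *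
      Real.exp (2 * ((x1 - x2) * (g y (j + 1) - g y j + 5 / (j ^ 2 + y ^ 2)))) := by
  have hq := q_pos hy j
  have hA := q_pos hy (x2 + j)
  have hB := q_pos hy (j + 1)
  have hd : 0 ≤ x1 - x2 := by linarith
  have hAj : j ^ 2 + y ^ 2 ≤ (x2 + j) ^ 2 + y ^ 2 := by nlinarith
  have key : (x2 + j + (x1 - x2) / 2) / ((x2 + j) ^ 2 + y ^ 2) ≤ g y (j + 1) - g y j + 5 / (j ^ 2 + y ^ 2) := by
    have hl := g_lower hy j hj
    have ha : (x2 + j + (x1 - x2) / 2) / ((x2 + j) ^ 2 + y ^ 2) ≤ (j + 2) / (j ^ 2 + y ^ 2) := by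
      apply div_le_div₀ (by linarith) (by linarith) hq hAj
    have hb : (j + 2) / (j ^ 2 + y ^ 2) - (j + 1 / 2) / ((j + 1) ^ 2 + y ^ 2) ≤ 5 / (j ^ 2 + y ^ 2) := by
      rw [div_sub_div _ _ hq.ne' hB.ne', div_le_div_iff₀ (by positivity) hq]
      have : ((j + 2) * ((j + 1) ^ 2 + y ^ 2) - (j ^ 2 + y ^ 2) * (j + 1 / 2)) ≤ 5 * ((j + 1) ^ 2 + y ^ 2) := by
        nlinarith [sq_nonneg y, sq_nonneg j]
      calc ((j + 2) * ((j + 1) ^ 2 + y ^ 2) - (j ^ 2 + y ^ 2) * (j + 1 / 2)) * (j ^ 2 + y ^ 2)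
          ≤ (5 * ((j + 1) ^ 2 + y ^ 2)) * (j ^ 2 + y ^ 2) := mul_le_mul_of_nonneg_right this hq.le
        _ = 5 * ((j ^ 2 + y ^ 2) * ((j + 1) ^ 2 + y ^ 2)) := by ring
    linarith
  have hexp : 1 + 2 * ((x1 - x2) * (g y (j + 1) - g y j + 5 / (j ^ 2 + y ^ 2))) ≤
      Real.exp (2 * ((x1 - x2) * (g y (j + 1) - g y j + 5 / (j ^ 2 + y ^ 2)))) := by
    have := Real.add_one_le_exp (2 * ((x1 - x2) * (g y (j + 1) - g y j + 5 / (j ^ 2 + y ^ 2))))
    linarith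
  refine le_trans ?_ (mul_le_mul_of_nonneg_left hexp hA.le)
  have h3 : (x1 - x2) * ((x2 + j + (x1 - x2) / 2) / ((x2 + j) ^ 2 + y ^ 2)) ≤
      (x1 - x2) * (g y (j + 1) - g y j + 5 / (j ^ 2 + y ^ 2)) := mul_le_mul_of_nonneg_left key hd
  have h4 : ((x2 + j) ^ 2 + y ^ 2) * ((x1 - x2) * ((x2 + j + (x1 - x2) / 2) / ((x2 + j) ^ 2 + y ^ 2))) =
      (x1 - x2) * (x2 + j + (x1 - x2) / 2) := by
    field_simp
  have h5 := mul_le_mul_of_nonneg_left h3 hA.le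
  rw [h4] at h5
  nlinarith

/-- Lower bound for one factor. -/
lemma factor_lower {x1 x2 y : ℝ} (h2 : 1 / 16 ≤ x2) (h12 : x2 ≤ x1) (h1 : x1 ≤ 2) (hy : 1 / 8 ≤ |y|)
    (j : ℝ) (hj : 0 ≤ j) :
    (x2 + j) ^ 2 + y ^ 2 ≤ ((x1 + j) ^ 2 + y ^ 2) *
      Real.exp (-(2 * ((x1 - x2) * (g y (j + 1) - g y j - 5 / (j ^ 2 + y ^ 2))))) := by
  have hq := q_pos hy j
  have hA := q_pos hy (x1 + j)
  have hB := q_pos hy (j + 2)
  have hd : 0 ≤ x1 - x2 := by linarith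
  have hAj : (x1 + j) ^ 2 + y ^ 2 ≤ (j + 2) ^ 2 + y ^ 2 := by nlinarith
  have key : g y (j + 1) - g y j - 5 / (j ^ 2 + y ^ 2) ≤ (x2 + j + (x1 - x2) / 2) / ((x1 + j) ^ 2 + y ^ 2) := by
    have hl := g_upper hy j hj
    have ha : j / ((j + 2) ^ 2 + y ^ 2) ≤ (x2 + j + (x1 - x2) / 2) / ((x1 + j) ^ 2 + y ^ 2) := by
      apply div_le_div₀ (by linarith) (by linarith) hA hAj
    have hb : (j + 1 / 2) / (j ^ 2 + y ^ 2) - j / ((j + 2) ^ 2 + y ^ 2) ≤ 5 / (j ^ 2 + y ^ 2) := by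
      rw [div_sub_div _ _ hq.ne' hB.ne', div_le_div_iff₀ (by positivity) hq]
      have : ((j + 1 / 2) * ((j + 2) ^ 2 + y ^ 2) - (j ^ 2 + y ^ 2) * j) ≤ 5 * ((j + 2) ^ 2 + y ^ 2) := by
        nlinarith [sq_nonneg y, sq_nonneg j]
      calc ((j + 1 / 2) * ((j + 2) ^ 2 + y ^ 2) - (j ^ 2 + y ^ 2) * j) * (j ^ 2 + y ^ 2)
          ≤ (5 * ((j + 2) ^ 2 + y ^ 2)) * (j ^ 2 + y ^ 2) := mul_le_mul_of_nonneg_right this hq.le
        _ = 5 * ((j ^ 2 + y ^ 2) * ((j + 2) ^ 2 + y ^ 2)) := by ring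
    linarith
  have hexp : 1 - 2 * ((x1 - x2) * (g y (j + 1) - g y j - 5 / (j ^ 2 + y ^ 2))) ≤
      Real.exp (-(2 * ((x1 - x2) * (g y (j + 1) - g y j - 5 / (j ^ 2 + y ^ 2))))) := by
    have := Real.add_one_le_exp (-(2 * ((x1 - x2) * (g y (j + 1) - g y j - 5 / (j ^ 2 + y ^ 2)))))
    linarith
  refine le_trans ?_ (mul_le_mul_of_nonneg_left hexp hA.le)
  have h3 : (x1 - x2) * (g y (j + 1) - g y j - 5 / (j ^ 2 + y ^ 2)) ≤
      (x1 - x2) * ((x2 + j + (x1 - x2) / 2) / ((x1 + j) ^ 2 + y ^ 2)) := mul_le_mul_of_nonneg_left key hd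
  have h4 : ((x1 + j) ^ 2 + y ^ 2) * ((x1 - x2) * ((x2 + j + (x1 - x2) / 2) / ((x1 + j) ^ 2 + y ^ 2))) =
      (x1 - x2) * (x2 + j + (x1 - x2) / 2) := by
    field_simp
  have h5 := mul_le_mul_of_nonneg_left h3 hA.le
  rw [h4] at h5
  nlinarith

/-- The modulus of one factor. -/
lemma norm_factor (x y : ℝ) (j : ℕ) : ‖((x : ℂ) + y * I) + (j : ℂ)‖ = Real.sqrt ((x + j) ^ 2 + y ^ 2) := by
  rw [Complex.norm_def, Complex.normSq_apply]
  congr 1
  simp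
  ring

lemma sum_inv_le {y : ℝ} (hy : 1 / 8 ≤ |y|) (n : ℕ) :
    ∑ j ∈ Finset.range n, 5 / ((j : ℝ) ^ 2 + y ^ 2) ≤ 330 := by
  have hy2 : (1 / 64 : ℝ) ≤ y ^ 2 := by
    rw [← sq_abs]
    nlinarith [abs_nonneg y]
  have key : ∀ m : ℕ, ∑ j ∈ Finset.range (m + 2), 5 / ((j : ℝ) ^ 2 + y ^ 2) ≤ 330 - 5 / ((m : ℝ) + 1) := by
    intro m
    induction m with
    | zero =>
      rw [Finset.sum_range_succ, Finset.sum_range_one]
      have h0 : 5 / (((0 : ℕ) : ℝ) ^ 2 + y ^ 2) ≤ 320 := by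
        rw [div_le_iff₀ (by push_cast; nlinarith)]
        push_cast
        nlinarith
      have h1 : 5 / (((1 : ℕ) : ℝ) ^ 2 + y ^ 2) ≤ 5 := by
        rw [div_le_iff₀ (by push_cast; nlinarith)]
        push_cast
        nlinarith
      norm_num at h0 h1 ⊢
      linarith
    | succ m ih =>
      rw [Finset.sum_range_succ]
      have h1 : (5 : ℝ) / (((m + 2 : ℕ) : ℝ) ^ 2 + y ^ 2) ≤ 5 / ((m : ℝ) + 1) - 5 / (((m + 1 : ℕ) : ℝ) + 1) := by
        push_cast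
        have hm : (0 : ℝ) < (m : ℝ) + 1 := by positivity
        rw [div_sub_div _ _ (by positivity) (by positivity), div_le_div_iff₀ (by positivity) (by positivity)]
        nlinarith [sq_nonneg y, (Nat.cast_nonneg m : (0 : ℝ) ≤ m)]
      have h2 : m + 1 + 2 = (m + 2) + 1 := by ring
      linarith
  have hnn : ∀ j ∈ Finset.range (n + 2), 0 ≤ 5 / ((j : ℝ) ^ 2 + y ^ 2) := fun j _ => by positivity
  have h1 : ∑ j ∈ Finset.range n, 5 / ((j : ℝ) ^ 2 + y ^ 2) ≤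
      ∑ j ∈ Finset.range (n + 2), 5 / ((j : ℝ) ^ 2 + y ^ 2) :=
    Finset.sum_le_sum_of_subset_of_nonneg (Finset.range_mono (by omega)) (fun j hj _ => hnn j hj)
  have := key n
  have h2 : 0 ≤ 5 / ((n : ℝ) + 1) := by positivity
  linarith

/-- The product of the moduli of the factors. -/
noncomputable def Pr (x y : ℝ) (n : ℕ) : ℝ := ∏ j ∈ Finset.range (n + 1), Real.sqrt ((x + j) ^ 2 + y ^ 2)

lemma Pr_pos {y : ℝ} (hy : 1 / 8 ≤ |y|) (x : ℝ) (n : ℕ) : 0 < Pr x y n :=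
  Finset.prod_pos (fun j _ => Real.sqrt_pos.mpr (q_pos hy _))

lemma sqrt_step {a b c : ℝ} (hb : 0 ≤ b) (h : a ≤ b * Real.exp (2 * c)) :
    Real.sqrt a ≤ Real.sqrt b * Real.exp c := by
  have h1 : b * Real.exp (2 * c) = (Real.sqrt b * Real.exp c) ^ 2 := by
    rw [mul_pow, Real.sq_sqrt hb, ← Real.exp_nat_mul]
    norm_num
  rw [h1] at h
  calc Real.sqrt a ≤ Real.sqrt ((Real.sqrt b * Real.exp c) ^ 2) := Real.sqrt_le_sqrt h
    _ = Real.sqrt b * Real.exp c := Real.sqrt_sq (by positivity)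

lemma sum_tel (y : ℝ) (n : ℕ) :
    ∑ j ∈ Finset.range (n + 1), (g y ((j : ℝ) + 1) - g y j) = g y ((n : ℝ) + 1) - g y 0 := by
  have := Finset.sum_range_sub (fun j : ℕ => g y (j : ℝ)) (n + 1)
  push_cast at this
  exact this

lemma Pr_upper {x1 x2 y : ℝ} (h2 : 1 / 16 ≤ x2) (h12 : x2 ≤ x1) (h1 : x1 ≤ 2) (hy : 1 / 8 ≤ |y|) (n : ℕ) :
    Pr x1 y n ≤ Pr x2 y n * Real.exp ((x1 - x2) * (g y ((n : ℝ) + 1) - g y 0 + 330)) := by
  have hd : 0 ≤ x1 - x2 := by linarith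
  have step : Pr x1 y n ≤ ∏ j ∈ Finset.range (n + 1), (Real.sqrt ((x2 + j) ^ 2 + y ^ 2) *
      Real.exp ((x1 - x2) * (g y ((j : ℝ) + 1) - g y j + 5 / ((j : ℝ) ^ 2 + y ^ 2)))) := by
    apply Finset.prod_le_prod
    · intro j _
      positivity
    · intro j _
      exact sqrt_step (q_pos hy _).le (factor_upper h2 h12 h1 hy j (Nat.cast_nonneg j))
  refine step.trans ?_
  rw [Finset.prod_mul_distrib, ← Real.exp_sum]
  refine mul_le_mul_of_nonneg_left (Real.exp_le_exp.mpr ?_) (Pr_pos hy x2 n).le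
  rw [← Finset.mul_sum]
  refine mul_le_mul_of_nonneg_left ?_ hd
  rw [Finset.sum_add_distrib, sum_tel]
  linarith [sum_inv_le hy (n + 1)]

lemma Pr_lower {x1 x2 y : ℝ} (h2 : 1 / 16 ≤ x2) (h12 : x2 ≤ x1) (h1 : x1 ≤ 2) (hy : 1 / 8 ≤ |y|) (n : ℕ) :
    Pr x2 y n ≤ Pr x1 y n * Real.exp (-((x1 - x2) * (g y ((n : ℝ) + 1) - g y 0 - 330))) := by
  have hd : 0 ≤ x1 - x2 := by linarith
  have step : Pr x2 y n ≤ ∏ j ∈ Finset.range (n + 1), (Real.sqrt ((x1 + j) ^ 2 + y ^ 2) *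
      Real.exp (-((x1 - x2) * (g y ((j : ℝ) + 1) - g y j - 5 / ((j : ℝ) ^ 2 + y ^ 2))))) := by
    apply Finset.prod_le_prod
    · intro j _
      positivity
    · intro j _
      refine sqrt_step (q_pos hy _).le ?_
      have := factor_lower h2 h12 h1 hy j (Nat.cast_nonneg j)
      rwa [← mul_neg] at this
  refine step.trans ?_
  rw [Finset.prod_mul_distrib, ← Real.exp_sum]
  refine mul_le_mul_of_nonneg_left (Real.exp_le_exp.mpr ?_) (Pr_pos hy x1 n).le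
  rw [Finset.sum_neg_distrib, ← Finset.mul_sum]
  apply neg_le_neg
  refine mul_le_mul_of_nonneg_left ?_ hd
  rw [Finset.sum_sub_distrib, sum_tel]
  linarith [sum_inv_le hy (n + 1)]

/-- The modulus of the Euler sequence. -/
lemma norm_seq (x y : ℝ) {n : ℕ} (hn : 0 < n) :
    ‖Complex.GammaSeq ((x : ℂ) + y * I) n‖ = (n : ℝ) ^ x * (n.factorial : ℝ) / Pr x y n := by
  unfold Complex.GammaSeq Pr
  rw [norm_div, norm_mul, norm_prod, Complex.norm_natCast_cpow_of_pos hn]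
  have h1 : ((x : ℂ) + y * I).re = x := by simp
  rw [h1]
  have h2 : ‖((n.factorial : ℕ) : ℂ)‖ = (n.factorial : ℝ) := by
    rw [Complex.norm_natCast]
  rw [h2]
  congr 1
  exact Finset.prod_congr rfl (fun j _ => norm_factor x y j)

/-- The limit of the correction factor. -/
lemma lim_corr {y : ℝ} (hy : 1 / 8 ≤ |y|) :
    Filter.Tendsto (fun n : ℕ => Real.log (n : ℝ) - (g y ((n : ℝ) + 1) - g y 0)) Filter.atTop
      (nhds (Real.log |y|)) := by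
  have hy0 : 0 < |y| := by linarith
  have h1 : Filter.Tendsto (fun n : ℕ => (1 + (n : ℝ)⁻¹) ^ 2 + y ^ 2 * ((n : ℝ)⁻¹) ^ 2) Filter.atTop (nhds 1) := by
    have h0 : Filter.Tendsto (fun n : ℕ => ((n : ℝ))⁻¹) Filter.atTop (nhds 0) :=
      tendsto_inv_atTop_nhds_zero_nat
    have h2 := ((h0.const_add 1).pow 2).add ((h0.pow 2).const_mul (y ^ 2))
    simpa using h2
  have h2 : Filter.Tendsto (fun n : ℕ => Real.log ((1 + (n : ℝ)⁻¹) ^ 2 + y ^ 2 * ((n : ℝ)⁻¹) ^ 2)) Filter.atTop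
      (nhds (Real.log 1)) := (Real.continuousAt_log one_ne_zero).tendsto.comp h1
  rw [Real.log_one] at h2
  have h3 : Filter.Tendsto (fun n : ℕ => Real.log |y| -
      Real.log ((1 + (n : ℝ)⁻¹) ^ 2 + y ^ 2 * ((n : ℝ)⁻¹) ^ 2) / 2) Filter.atTop (nhds (Real.log |y|)) := by
    simpa using (h2.div_const 2).const_sub (Real.log |y|)
  refine h3.congr' ?_
  filter_upwards [Filter.eventually_gt_atTop 0] with n hn
  have hn' : (0 : ℝ) < n := by exact_mod_cast hn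
  unfold g
  have h4 : Real.log ((0 : ℝ) ^ 2 + y ^ 2) = 2 * Real.log |y| := by
    rw [zero_pow (by norm_num), zero_add, ← sq_abs, Real.log_pow]
    norm_num
  have h5 : ((n : ℝ) + 1) ^ 2 + y ^ 2 = (n : ℝ) ^ 2 * ((1 + (n : ℝ)⁻¹) ^ 2 + y ^ 2 * ((n : ℝ)⁻¹) ^ 2) := by
    field_simp
  rw [h4, h5, Real.log_mul (by positivity) (by positivity), Real.log_pow]
  push_cast
  ring

end GammaRatio

open GammaRatio in
theorem gamma_ratio : ∃ C : ℝ, 0 < C ∧ ∀ x1 x2 y : ℝ, 1 / 16 ≤ x2 → x2 ≤ x1 → x1 ≤ 2 → 1 / 8 ≤ |y| →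
    Real.exp (-(C * (x1 - x2))) * |y| ^ (x1 - x2) * ‖Complex.Gamma ((x2 : ℂ) + y * I)‖ ≤
      ‖Complex.Gamma ((x1 : ℂ) + y * I)‖ ∧
    ‖Complex.Gamma ((x1 : ℂ) + y * I)‖ ≤
      Real.exp (C * (x1 - x2)) * |y| ^ (x1 - x2) * ‖Complex.Gamma ((x2 : ℂ) + y * I)‖ := by
  refine ⟨330, by norm_num, ?_⟩
  intro x1 x2 y h2 h12 h1 hy
  have hy0 : 0 < |y| := by linarith
  have L1 := (Complex.GammaSeq_tendsto_Gamma ((x1 : ℂ) + y * I)).norm
  have L2 := (Complex.GammaSeq_tendsto_Gamma ((x2 : ℂ) + y * I)).norm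
  have hc := lim_corr hy
  have hpow : Real.exp ((x1 - x2) * Real.log |y|) = |y| ^ (x1 - x2) := by
    rw [Real.rpow_def_of_pos hy0, mul_comm]
  have M1 : Filter.Tendsto (fun n : ℕ => Real.exp ((x1 - x2) * (Real.log (n : ℝ) - (g y ((n : ℝ) + 1) - g y 0))) )
      Filter.atTop (nhds (|y| ^ (x1 - x2))) := by
    rw [← hpow]
    exact (Real.continuous_exp.tendsto _).comp (hc.const_mul (x1 - x2))
  constructor
  · have T1 := (M1.const_mul (Real.exp (-(330 * (x1 - x2))))).mul L2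
    refine le_of_tendsto_of_tendsto T1 L1 ?_
    filter_upwards [Filter.eventually_gt_atTop 0] with n hn
    have hn' : (0 : ℝ) < n := by exact_mod_cast hn
    rw [norm_seq x1 y hn, norm_seq x2 y hn]
    have hP1 := Pr_pos hy x1 n
    have hP2 := Pr_pos hy x2 n
    have hu := Pr_upper h2 h12 h1 hy n
    rw [mul_div_assoc', div_le_div_iff₀ hP2 hP1]
    have hnx : (n : ℝ) ^ x1 = (n : ℝ) ^ x2 * Real.exp ((x1 - x2) * Real.log n) := by
      rw [mul_comm (x1 - x2), ← Real.rpow_def_of_pos hn', ← Real.rpow_add hn']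
      congr 1
      ring
    have hexp : Real.exp (-(330 * (x1 - x2))) *
        Real.exp ((x1 - x2) * (Real.log (n : ℝ) - (g y ((n : ℝ) + 1) - g y 0))) *
        Real.exp ((x1 - x2) * (g y ((n : ℝ) + 1) - g y 0 + 330)) = Real.exp ((x1 - x2) * Real.log n) := by
      rw [← Real.exp_add, ← Real.exp_add]
      congr 1
      ring
    calc Real.exp (-(330 * (x1 - x2))) *
          Real.exp ((x1 - x2) * (Real.log (n : ℝ) - (g y ((n : ℝ) + 1) - g y 0))) *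
          ((n : ℝ) ^ x2 * (n.factorial : ℝ)) * Pr x1 y n
        ≤ Real.exp (-(330 * (x1 - x2))) *
          Real.exp ((x1 - x2) * (Real.log (n : ℝ) - (g y ((n : ℝ) + 1) - g y 0))) *
          ((n : ℝ) ^ x2 * (n.factorial : ℝ)) *
          (Pr x2 y n * Real.exp ((x1 - x2) * (g y ((n : ℝ) + 1) - g y 0 + 330))) :=
          mul_le_mul_of_nonneg_left hu (by positivity)
      _ = (Real.exp (-(330 * (x1 - x2))) *
          Real.exp ((x1 - x2) * (Real.log (n : ℝ) - (g y ((n : ℝ) + 1) - g y 0))) *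
          Real.exp ((x1 - x2) * (g y ((n : ℝ) + 1) - g y 0 + 330))) * ((n : ℝ) ^ x2 * (n.factorial : ℝ) * Pr x2 y n) := by
          ring
      _ = (n : ℝ) ^ x1 * (n.factorial : ℝ) * Pr x2 y n := by
          rw [hexp, hnx]
          ring
  · have T1 := (M1.const_mul (Real.exp (330 * (x1 - x2)))).mul L2
    refine le_of_tendsto_of_tendsto L1 T1 ?_
    filter_upwards [Filter.eventually_gt_atTop 0] with n hn
    have hn' : (0 : ℝ) < n := by exact_mod_cast hn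
    rw [norm_seq x1 y hn, norm_seq x2 y hn]
    have hP1 := Pr_pos hy x1 n
    have hP2 := Pr_pos hy x2 n
    have hu := Pr_lower h2 h12 h1 hy n
    rw [mul_div_assoc', div_le_div_iff₀ hP1 hP2]
    have hnx : (n : ℝ) ^ x1 = (n : ℝ) ^ x2 * Real.exp ((x1 - x2) * Real.log n) := by
      rw [mul_comm (x1 - x2), ← Real.rpow_def_of_pos hn', ← Real.rpow_add hn']
      congr 1
      ring
    have hexp : Real.exp ((x1 - x2) * Real.log n) *
        Real.exp (-((x1 - x2) * (g y ((n : ℝ) + 1) - g y 0 - 330))) = Real.exp (330 * (x1 - x2)) *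
        Real.exp ((x1 - x2) * (Real.log (n : ℝ) - (g y ((n : ℝ) + 1) - g y 0))) := by
      rw [← Real.exp_add, ← Real.exp_add]
      congr 1
      ring
    calc (n : ℝ) ^ x1 * (n.factorial : ℝ) * Pr x2 y n
        ≤ (n : ℝ) ^ x1 * (n.factorial : ℝ) *
          (Pr x1 y n * Real.exp (-((x1 - x2) * (g y ((n : ℝ) + 1) - g y 0 - 330)))) :=
          mul_le_mul_of_nonneg_left hu (by positivity)
      _ = (Real.exp ((x1 - x2) * Real.log n) *
        Real.exp (-((x1 - x2) * (g y ((n : ℝ) + 1) - g y 0 - 330)))) *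
          ((n : ℝ) ^ x2 * (n.factorial : ℝ) * Pr x1 y n) := by
          rw [hnx]
          ring
      _ = Real.exp (330 * (x1 - x2)) *
          Real.exp ((x1 - x2) * (Real.log (n : ℝ) - (g y ((n : ℝ) + 1) - g y 0))) *
          ((n : ℝ) ^ x2 * (n.factorial : ℝ)) * Pr x1 y n := by
          rw [hexp]
          ring

end Pool.Agent.P4f18dfS
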