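import Pool.Agent.Lib.P4f18dfS.Defs
import Pool.Agent.Lib.P4f18dfS.GammaRatio

/-!
# The factor of the functional equation

`XF w = Gammaℝ(1-w)/Gammaℝ(w)`, `Gammaℝ w = π^{-w/2} Γ(w/2)` (Mathlib `Complex.Gammaℝ`).

`xf_eq` is the functional equation of zeta, `xf_diff` the holomorphy for `Re w < 1`, `xf_local` the size
`|v|^{1/2-σ}` up to `exp(O(|σ-1/2|))` near the critical line, `xf_growth` a polynomial bound to the left, by the
recurrence `XF(w) = -w (w+1) / (4 π^2) XF(w+2)`.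
-/

set_option autoImplicit false

open Complex

namespace Pool.Agent.P4f18dfS

namespace XFac

/-- The functional form of the comparison of Gamma values, symmetric in the two abscissae. -/
lemma gamma_ratio_sym : ∃ C : ℝ, 0 < C ∧ ∀ x1 x2 y : ℝ, 1 / 16 ≤ x1 → 1 / 16 ≤ x2 → x1 ≤ 2 → x2 ≤ 2 →
    1 / 8 ≤ |y| →
    Real.exp (-(C * |x1 - x2|)) * |y| ^ (x1 - x2) * ‖Complex.Gamma ((x2 : ℂ) + y * I)‖ ≤
      ‖Complex.Gamma ((x1 : ℂ) + y * I)‖ ∧
    ‖Complex.Gamma ((x1 : ℂ) + y * I)‖ ≤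
      Real.exp (C * |x1 - x2|) * |y| ^ (x1 - x2) * ‖Complex.Gamma ((x2 : ℂ) + y * I)‖ := by
  obtain ⟨C, hC, H⟩ := gamma_ratio
  refine ⟨C, hC, ?_⟩
  intro x1 x2 y h1 h2 h1' h2' hy
  have hy0 : 0 < |y| := by linarith
  rcases le_total x2 x1 with h | h
  · have := H x1 x2 y h2 h h1' hy
    rw [abs_of_nonneg (by linarith : (0 : ℝ) ≤ x1 - x2)]
    exact this
  · obtain ⟨ha, hb⟩ := H x2 x1 y h1 h h2' hy
    have hE : |x1 - x2| = x2 - x1 := by rw [abs_sub_comm]; exact abs_of_nonneg (by linarith)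
    rw [hE]
    have hp : |y| ^ (x1 - x2) * |y| ^ (x2 - x1) = 1 := by
      rw [← Real.rpow_add hy0]
      simp
    have he : Real.exp (-(C * (x2 - x1))) * Real.exp (C * (x2 - x1)) = 1 := by
      rw [← Real.exp_add]
      simp
    have hpp : 0 < |y| ^ (x1 - x2) := Real.rpow_pos_of_pos hy0 _
    constructor
    · calc Real.exp (-(C * (x2 - x1))) * |y| ^ (x1 - x2) * ‖Complex.Gamma ((x2 : ℂ) + y * I)‖
          ≤ Real.exp (-(C * (x2 - x1))) * |y| ^ (x1 - x2) *
            (Real.exp (C * (x2 - x1)) * |y| ^ (x2 - x1) * ‖Complex.Gamma ((x1 : ℂ) + y * I)‖) :=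
            mul_le_mul_of_nonneg_left hb (by positivity)
        _ = (Real.exp (-(C * (x2 - x1))) * Real.exp (C * (x2 - x1))) * (|y| ^ (x1 - x2) * |y| ^ (x2 - x1)) *
            ‖Complex.Gamma ((x1 : ℂ) + y * I)‖ := by ring
        _ = ‖Complex.Gamma ((x1 : ℂ) + y * I)‖ := by rw [hp, he]; ring
    · calc ‖Complex.Gamma ((x1 : ℂ) + y * I)‖
          = (Real.exp (-(C * (x2 - x1))) * Real.exp (C * (x2 - x1))) * (|y| ^ (x1 - x2) * |y| ^ (x2 - x1)) *
            ‖Complex.Gamma ((x1 : ℂ) + y * I)‖ := by rw [hp, he]; ring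
        _ = Real.exp (C * (x2 - x1)) * |y| ^ (x1 - x2) *
            (Real.exp (-(C * (x2 - x1))) * |y| ^ (x2 - x1) * ‖Complex.Gamma ((x1 : ℂ) + y * I)‖) := by ring
        _ ≤ Real.exp (C * (x2 - x1)) * |y| ^ (x1 - x2) * ‖Complex.Gamma ((x2 : ℂ) + y * I)‖ :=
            mul_le_mul_of_nonneg_left ha (by positivity)

lemma norm_gammaR (w : ℂ) : ‖Complex.Gammaℝ w‖ = Real.pi ^ (-w.re / 2) * ‖Complex.Gamma (w / 2)‖ := by
  rw [Complex.Gammaℝ_def, norm_mul, Complex.norm_cpow_eq_rpow_re_of_pos Real.pi_pos]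
  congr 2
  have : (-w / 2) = ((1 / 2 : ℝ) : ℂ) * (-w) := by push_cast; ring
  rw [this, Complex.re_ofReal_mul, Complex.neg_re]
  ring

/-- The norm of `XF` in terms of two Gamma values with the same imaginary part. -/
lemma norm_xf (σ v : ℝ) : ‖XF ((σ : ℂ) + v * I)‖ =
    Real.pi ^ (σ - 1 / 2) * ‖Complex.Gamma ((((1 - σ) / 2 : ℝ) : ℂ) + ((v / 2 : ℝ) : ℂ) * I)‖ /
      ‖Complex.Gamma (((σ / 2 : ℝ) : ℂ) + ((v / 2 : ℝ) : ℂ) * I)‖ := by
  unfold XF
  rw [norm_div, norm_gammaR, norm_gammaR]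
  have h1 : (1 - ((σ : ℂ) + v * I)) / 2 =
      (starRingEnd ℂ) ((((1 - σ) / 2 : ℝ) : ℂ) + ((v / 2 : ℝ) : ℂ) * I) := by
    rw [map_add, map_mul, Complex.conj_ofReal, Complex.conj_ofReal, Complex.conj_I]
    push_cast
    ring
  have h2 : ((σ : ℂ) + v * I) / 2 = (((σ / 2 : ℝ) : ℂ) + ((v / 2 : ℝ) : ℂ) * I) := by
    push_cast
    ring
  rw [h1, h2, Complex.Gamma_conj, Complex.norm_conj]
  have h3 : (1 - ((σ : ℂ) + v * I)).re = 1 - σ := by simp
  have h4 : ((σ : ℂ) + v * I).re = σ := by simp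
  rw [h3, h4]
  have hpi := Real.pi_pos
  have h5 : Real.pi ^ (-(1 - σ) / 2) = Real.pi ^ (σ - 1 / 2) * Real.pi ^ (-σ / 2) := by
    rw [← Real.rpow_add hpi]
    congr 1
    ring
  rw [h5]
  have h6 : Real.pi ^ (-σ / 2) ≠ 0 := (Real.rpow_pos_of_pos hpi _).ne'
  rw [mul_assoc, mul_comm (Real.pi ^ (-σ / 2)) ‖_‖, mul_comm (Real.pi ^ (-σ / 2)) ‖_‖, ← mul_assoc,
    mul_div_mul_right _ _ h6]

lemma xf_rec {w : ℂ} (hw : w.re < -1) : XF w = -(w * (w + 1)) / (4 * (Real.pi : ℂ) ^ 2) * XF (w + 2) := by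
  unfold XF
  have hw0 : w ≠ 0 := by
    rintro rfl
    simp at hw
    linarith
  have hw1 : (-1 - w) ≠ 0 := by
    intro h
    have : (-1 - w).re = 0 := by rw [h]; simp
    simp at this
    linarith
  have e1 : Complex.Gammaℝ (1 - w) = Complex.Gammaℝ (-1 - w) * (-1 - w) / 2 / Real.pi := by
    have := Complex.Gammaℝ_add_two hw1
    rw [← this]
    congr 1
    ring
  have e2 := Complex.Gammaℝ_add_two hw0
  have e3 : (1 - (w + 2)) = -1 - w := by ring
  have hpi : (Real.pi : ℂ) ≠ 0 := by exact_mod_cast Real.pi_ne_zero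
  rw [e3, e1, e2]
  by_cases h0 : Complex.Gammaℝ w = 0
  · simp [h0]
  · field_simp
    ring

end XFac

open XFac

theorem xf_eq {w : ℂ} (hw0 : w ≠ 0) (hw1 : w.re < 1) : riemannZeta w = XF w * riemannZeta (1 - w) := by
  have h1 : (1 - w) ≠ 0 := by
    intro h
    have : (1 - w).re = 0 := by rw [h]; simp
    simp at this
    linarith
  have h2 : Complex.Gammaℝ (1 - w) ≠ 0 := Complex.Gammaℝ_ne_zero_of_re_pos (by simp; linarith)
  rw [riemannZeta_def_of_ne_zero hw0, riemannZeta_def_of_ne_zero h1, completedRiemannZeta_one_sub]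
  unfold XF
  field_simp

theorem xf_diff : DifferentiableOn ℂ XF {w : ℂ | w.re < 1} := by
  intro w hw
  have hw' : w.re < 1 := hw
  apply DifferentiableAt.differentiableWithinAt
  have e : XF = fun w => Complex.Gammaℝ (1 - w) * (Complex.Gammaℝ w)⁻¹ := by
    funext w
    unfold XF
    rw [div_eq_mul_inv]
  rw [e]
  apply DifferentiableAt.mul
  · have hG : DifferentiableAt ℂ Complex.Gammaℝ (1 - w) := by
      have : Complex.Gammaℝ = fun s : ℂ => ((Real.pi : ℂ) ^ (-s / 2)) * Complex.Gamma (s / 2) := by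
        funext s
        rw [Complex.Gammaℝ_def]
      rw [this]
      apply DifferentiableAt.mul
      · apply DifferentiableAt.const_cpow
        · fun_prop
        · left
          exact_mod_cast Real.pi_ne_zero
      · apply DifferentiableAt.fun_comp' (1 - w) (f := fun s : ℂ => s / 2) (g := Complex.Gamma)
        · apply Complex.differentiableAt_Gamma
          intro m h
          have := congrArg Complex.re h
          have e2 : ((1 - w) / 2).re = (1 - w.re) / 2 := by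
            have : ((1 - w) / 2) = ((1 / 2 : ℝ) : ℂ) * (1 - w) := by push_cast; ring
            rw [this, Complex.re_ofReal_mul, Complex.sub_re, Complex.one_re]
            ring
          rw [e2] at this
          simp at this
          have hm : (0 : ℝ) ≤ m := Nat.cast_nonneg m
          linarith
        · fun_prop
    exact DifferentiableAt.fun_comp' w (f := fun s : ℂ => 1 - s) hG (by fun_prop)
  · exact Complex.differentiable_Gammaℝ_inv w

theorem xf_local : ∃ C : ℝ, 0 < C ∧ ∀ σ v : ℝ, 1 / 4 ≤ σ → σ ≤ 3 / 4 → 1 / 4 ≤ |v| →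
    Real.exp (-(C * |σ - 1 / 2|)) * |v| ^ (1 / 2 - σ) ≤ ‖XF ((σ : ℂ) + v * I)‖ ∧
    ‖XF ((σ : ℂ) + v * I)‖ ≤ Real.exp (C * |σ - 1 / 2|) * |v| ^ (1 / 2 - σ) := by
  obtain ⟨C, hC, H⟩ := gamma_ratio_sym
  have hpi := Real.pi_pos
  have hpi3 := Real.pi_gt_three
  have hlog : 0 ≤ Real.log (2 * Real.pi) := Real.log_nonneg (by linarith)
  refine ⟨C + Real.log (2 * Real.pi), by linarith, ?_⟩
  intro σ v h1 h2 hv
  have hv0 : 0 < |v| := by linarith
  have hy : 1 / 8 ≤ |v / 2| := by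
    rw [abs_div, abs_two]
    linarith
  obtain ⟨ha, hb⟩ := H ((1 - σ) / 2) (σ / 2) (v / 2) (by linarith) (by linarith) (by linarith) (by linarith) hy
  have hd : (1 - σ) / 2 - σ / 2 = 1 / 2 - σ := by ring
  rw [hd] at ha hb
  have habs : |1 / 2 - σ| = |σ - 1 / 2| := abs_sub_comm _ _
  rw [habs] at ha hb
  rw [norm_xf]
  have hG2 : 0 < ‖Complex.Gamma (((σ / 2 : ℝ) : ℂ) + ((v / 2 : ℝ) : ℂ) * I)‖ := by
    rw [norm_pos_iff]
    apply Complex.Gamma_ne_zero_of_re_pos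
    simp
    linarith
  set G1 := ‖Complex.Gamma ((((1 - σ) / 2 : ℝ) : ℂ) + ((v / 2 : ℝ) : ℂ) * I)‖ with hG1def
  set G2 := ‖Complex.Gamma (((σ / 2 : ℝ) : ℂ) + ((v / 2 : ℝ) : ℂ) * I)‖ with hG2def
  -- the elementary factor
  have hfac : Real.pi ^ (σ - 1 / 2) * |v / 2| ^ (1 / 2 - σ) =
      Real.exp (Real.log (2 * Real.pi) * (σ - 1 / 2)) * |v| ^ (1 / 2 - σ) := by
    rw [abs_div, abs_two, Real.div_rpow hv0.le (by norm_num), Real.log_mul (by norm_num) hpi.ne', add_mul,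
      Real.exp_add, ← Real.rpow_def_of_pos hpi, ← Real.rpow_def_of_pos (by norm_num : (0 : ℝ) < 2)]
    have : (2 : ℝ) ^ (σ - 1 / 2) * 2 ^ (1 / 2 - σ) = 1 := by
      rw [← Real.rpow_add (by norm_num)]
      simp
    have h2p : (2 : ℝ) ^ (1 / 2 - σ) ≠ 0 := (Real.rpow_pos_of_pos (by norm_num) _).ne'
    rw [← mul_div_assoc, div_eq_iff h2p]
    calc Real.pi ^ (σ - 1 / 2) * |v| ^ (1 / 2 - σ)
        = ((2 : ℝ) ^ (σ - 1 / 2) * 2 ^ (1 / 2 - σ)) * (Real.pi ^ (σ - 1 / 2) * |v| ^ (1 / 2 - σ)) := by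
          rw [this, one_mul]
      _ = _ := by ring
  have hpp : 0 < Real.pi ^ (σ - 1 / 2) := Real.rpow_pos_of_pos hpi _
  have hvp : 0 < |v| ^ (1 / 2 - σ) := Real.rpow_pos_of_pos hv0 _
  have hle1 : Real.log (2 * Real.pi) * (σ - 1 / 2) ≤ Real.log (2 * Real.pi) * |σ - 1 / 2| :=
    mul_le_mul_of_nonneg_left (le_abs_self _) hlog
  have hle2 : -(Real.log (2 * Real.pi) * |σ - 1 / 2|) ≤ Real.log (2 * Real.pi) * (σ - 1 / 2) := by
    have := mul_le_mul_of_nonneg_left (neg_abs_le (σ - 1 / 2)) hlog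
    linarith
  constructor
  · rw [le_div_iff₀ hG2]
    calc Real.exp (-((C + Real.log (2 * Real.pi)) * |σ - 1 / 2|)) * |v| ^ (1 / 2 - σ) * G2
        = Real.exp (-(C * |σ - 1 / 2|)) * Real.exp (-(Real.log (2 * Real.pi) * |σ - 1 / 2|)) *
          |v| ^ (1 / 2 - σ) * G2 := by
          rw [← Real.exp_add]
          congr 3
          ring
      _ ≤ Real.exp (-(C * |σ - 1 / 2|)) * Real.exp (Real.log (2 * Real.pi) * (σ - 1 / 2)) *
          |v| ^ (1 / 2 - σ) * G2 := by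
          have := Real.exp_le_exp.mpr hle2
          gcongr
      _ = (Real.exp (Real.log (2 * Real.pi) * (σ - 1 / 2)) * |v| ^ (1 / 2 - σ)) *
          (Real.exp (-(C * |σ - 1 / 2|)) * G2) := by ring
      _ = Real.pi ^ (σ - 1 / 2) * |v / 2| ^ (1 / 2 - σ) * (Real.exp (-(C * |σ - 1 / 2|)) * G2) := by
          rw [hfac]
      _ = Real.pi ^ (σ - 1 / 2) * (Real.exp (-(C * |σ - 1 / 2|)) * |v / 2| ^ (1 / 2 - σ) * G2) := by ring
      _ ≤ Real.pi ^ (σ - 1 / 2) * G1 := mul_le_mul_of_nonneg_left ha hpp.le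
  · rw [div_le_iff₀ hG2]
    calc Real.pi ^ (σ - 1 / 2) * G1
        ≤ Real.pi ^ (σ - 1 / 2) * (Real.exp (C * |σ - 1 / 2|) * |v / 2| ^ (1 / 2 - σ) * G2) :=
          mul_le_mul_of_nonneg_left hb hpp.le
      _ = Real.pi ^ (σ - 1 / 2) * |v / 2| ^ (1 / 2 - σ) * (Real.exp (C * |σ - 1 / 2|) * G2) := by ring
      _ = (Real.exp (Real.log (2 * Real.pi) * (σ - 1 / 2)) * |v| ^ (1 / 2 - σ)) *
          (Real.exp (C * |σ - 1 / 2|) * G2) := by rw [hfac]
      _ = Real.exp (C * |σ - 1 / 2|) * Real.exp (Real.log (2 * Real.pi) * (σ - 1 / 2)) *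
          |v| ^ (1 / 2 - σ) * G2 := by ring
      _ ≤ Real.exp (C * |σ - 1 / 2|) * Real.exp (Real.log (2 * Real.pi) * |σ - 1 / 2|) *
          |v| ^ (1 / 2 - σ) * G2 := by
          have := Real.exp_le_exp.mpr hle1
          gcongr
      _ = Real.exp ((C + Real.log (2 * Real.pi)) * |σ - 1 / 2|) * |v| ^ (1 / 2 - σ) * G2 := by
          rw [← Real.exp_add]
          congr 3
          ring

namespace XFac

/-- The bound in the base strip. -/
lemma xf_base : ∃ C : ℝ, 0 < C ∧ ∀ w : ℂ, -(5 / 4 : ℝ) ≤ w.re → w.re ≤ 3 / 4 →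
    ‖XF w‖ ≤ C * (1 + |w.im|) ^ 2 := by
  obtain ⟨C, hC, H⟩ := gamma_ratio_sym
  -- compact part
  have hcpt : IsCompact (Set.Icc (-(5 / 4 : ℝ)) (3 / 4) ×ℂ Set.Icc (-2 : ℝ) 2) :=
    isCompact_Icc.reProdIm isCompact_Icc
  obtain ⟨D, hD⟩ := hcpt.exists_bound_of_continuousOn (f := XF) (by
    apply xf_diff.continuousOn.mono
    intro z hz
    rw [Complex.mem_reProdIm] at hz
    have := hz.1.2
    show z.re < 1
    linarith)
  refine ⟨|D| + Real.exp (C * 2) * 8, by positivity, ?_⟩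
  intro w h1 h2
  have hone : (1 : ℝ) ≤ (1 + |w.im|) ^ 2 := by
    have := abs_nonneg w.im
    nlinarith
  by_cases hv : |w.im| ≤ 2
  · have hm : w ∈ (Set.Icc (-(5 / 4 : ℝ)) (3 / 4) ×ℂ Set.Icc (-2 : ℝ) 2) := by
      rw [Complex.mem_reProdIm]
      exact ⟨⟨h1, h2⟩, abs_le.mp hv⟩
    calc ‖XF w‖ ≤ D := hD w hm
      _ ≤ |D| := le_abs_self D
      _ ≤ (|D| + Real.exp (C * 2) * 8) * 1 := by
        have : 0 < Real.exp (C * 2) := Real.exp_pos _
        linarith
      _ ≤ (|D| + Real.exp (C * 2) * 8) * (1 + |w.im|) ^ 2 := by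
        apply mul_le_mul_of_nonneg_left hone
        positivity
  · push Not at hv
    set σ := w.re with hσ
    set v := w.im with hvdef
    have hw : w = (σ : ℂ) + v * I := by rw [hσ, hvdef, Complex.re_add_im]
    have hvne : v ≠ 0 := by
      intro h
      rw [h] at hv
      simp at hv
      linarith
    have hy1 : 1 ≤ |v / 2| := by
      rw [abs_div, abs_two]
      linarith
    have hy : 1 / 8 ≤ |v / 2| := by linarith
    obtain ⟨-, hb⟩ := H ((1 - σ) / 2) (σ / 2 + 1) (v / 2) (by linarith) (by linarith) (by linarith)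
      (by linarith) hy
    rw [hw, norm_xf]
    set z : ℂ := ((σ / 2 : ℝ) : ℂ) + ((v / 2 : ℝ) : ℂ) * I with hz
    have hz0 : z ≠ 0 := by
      intro h
      have := congrArg Complex.im h
      simp [hz] at this
      exact hvne this
    have hzz : (((σ / 2 + 1 : ℝ) : ℂ) + ((v / 2 : ℝ) : ℂ) * I) = z + 1 := by
      rw [hz]
      push_cast
      ring
    rw [hzz, Complex.Gamma_add_one z hz0, norm_mul] at hb
    have hGz : 0 < ‖Complex.Gamma z‖ := by
      rw [norm_pos_iff]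
      apply Complex.Gamma_ne_zero
      intro m h
      have := congrArg Complex.im h
      simp [hz] at this
      exact hvne this
    have hdle : |(1 - σ) / 2 - (σ / 2 + 1)| ≤ 2 := by
      rw [abs_le]
      constructor <;> linarith
    have hexp : Real.exp (C * |(1 - σ) / 2 - (σ / 2 + 1)|) ≤ Real.exp (C * 2) :=
      Real.exp_le_exp.mpr (mul_le_mul_of_nonneg_left hdle hC.le)
    have hpow : |v / 2| ^ ((1 - σ) / 2 - (σ / 2 + 1)) ≤ |v / 2| := by
      calc |v / 2| ^ ((1 - σ) / 2 - (σ / 2 + 1)) ≤ |v / 2| ^ (1 : ℝ) :=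
            Real.rpow_le_rpow_of_exponent_le hy1 (by linarith)
        _ = |v / 2| := Real.rpow_one _
    have hpi1 : Real.pi ^ (σ - 1 / 2) ≤ 2 := by
      calc Real.pi ^ (σ - 1 / 2) ≤ Real.pi ^ (1 / 2 : ℝ) :=
            Real.rpow_le_rpow_of_exponent_le (by linarith [Real.pi_gt_three]) (by linarith)
        _ ≤ 4 ^ (1 / 2 : ℝ) := Real.rpow_le_rpow Real.pi_pos.le Real.pi_le_four (by norm_num)
        _ = 2 := by
          rw [← Real.sqrt_eq_rpow, show (4 : ℝ) = 2 ^ 2 by norm_num, Real.sqrt_sq (by norm_num)]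
    have hznorm : ‖z‖ ≤ 1 + |v| := by
      calc ‖z‖ ≤ ‖((σ / 2 : ℝ) : ℂ)‖ + ‖((v / 2 : ℝ) : ℂ) * I‖ := norm_add_le _ _
        _ = |σ / 2| + |v / 2| := by
          rw [norm_mul, Complex.norm_I, mul_one, Complex.norm_real, Complex.norm_real, Real.norm_eq_abs,
            Real.norm_eq_abs]
        _ ≤ 1 + |v| := by
          have : |σ / 2| ≤ 1 := by
            rw [abs_le]
            constructor <;> linarith
          rw [abs_div v, abs_two]
          linarith [abs_nonneg v]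
    have hv2 : |v / 2| ≤ 1 + |v| := by
      rw [abs_div, abs_two]
      linarith [abs_nonneg v]
    rw [div_le_iff₀ hGz]
    have hz' : 0 ≤ ‖z‖ := norm_nonneg z
    calc Real.pi ^ (σ - 1 / 2) * ‖Complex.Gamma ((((1 - σ) / 2 : ℝ) : ℂ) + ((v / 2 : ℝ) : ℂ) * I)‖
        ≤ 2 * (Real.exp (C * |(1 - σ) / 2 - (σ / 2 + 1)|) * |v / 2| ^ ((1 - σ) / 2 - (σ / 2 + 1)) *
          (‖z‖ * ‖Complex.Gamma z‖)) := by
          apply mul_le_mul hpi1 hb (norm_nonneg _) (by norm_num)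
      _ ≤ 2 * (Real.exp (C * 2) * (1 + |v|) * ((1 + |v|) * ‖Complex.Gamma z‖)) := by
          have hpow' := hpow.trans hv2
          gcongr
      _ = Real.exp (C * 2) * 2 * ((1 + |v|) ^ 2 * ‖Complex.Gamma z‖) := by ring
      _ ≤ (|D| + Real.exp (C * 2) * 8) * ((1 + |v|) ^ 2 * ‖Complex.Gamma z‖) := by
          apply mul_le_mul_of_nonneg_right _ (by positivity)
          have : 0 < Real.exp (C * 2) := Real.exp_pos _
          linarith [abs_nonneg D]
      _ = (|D| + Real.exp (C * 2) * 8) * (1 + |v|) ^ 2 * ‖Complex.Gamma z‖ := by ring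

end XFac

theorem xf_growth (n : ℕ) : ∃ C : ℝ, 0 < C ∧ ∀ w : ℂ, -(n : ℝ) ≤ w.re → w.re ≤ 3 / 4 →
    ‖XF w‖ ≤ C * (1 + |w.im|) ^ (n + 2) := by
  obtain ⟨B, hB, HB⟩ := xf_base
  have hup : ∀ (w : ℂ) (m : ℕ), 2 ≤ m → -(5 / 4 : ℝ) ≤ w.re → w.re ≤ 3 / 4 →
      ‖XF w‖ ≤ B * (1 + |w.im|) ^ m := by
    intro w m hm h1 h2
    refine (HB w h1 h2).trans ?_
    apply mul_le_mul_of_nonneg_left _ hB.le
    exact pow_le_pow_right₀ (by linarith [abs_nonneg w.im]) hm
  induction n using Nat.twoStepInduction with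
  | zero => exact ⟨B, hB, fun w h1 h2 => hup w _ (by omega) (by simp at h1; linarith) h2⟩
  | one => exact ⟨B, hB, fun w h1 h2 => hup w _ (by omega) (by simp at h1; linarith) h2⟩
  | more n ih _ =>
    obtain ⟨C, hC, H⟩ := ih
    refine ⟨B + C * ((n : ℝ) + 3) ^ 2, by positivity, ?_⟩
    intro w h1 h2
    push_cast at h1
    by_cases hb : -(5 / 4 : ℝ) ≤ w.re
    · refine (hup w (n + 2 + 2) (by omega) hb h2).trans ?_
      apply mul_le_mul_of_nonneg_right _ (by positivity)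
      have : 0 ≤ C * ((n : ℝ) + 3) ^ 2 := by positivity
      linarith
    · push Not at hb
      have hrec := xf_rec (w := w) (by linarith)
      have him : (w + 2).im = w.im := by simp
      have hre : (w + 2).re = w.re + 2 := by simp
      have hI := H (w + 2) (by rw [hre]; linarith) (by rw [hre]; linarith)
      rw [him] at hI
      rw [hrec, norm_mul, norm_div, norm_neg, norm_mul]
      have hn0 : (0 : ℝ) ≤ n := Nat.cast_nonneg n
      have hwn : ‖w‖ ≤ ((n : ℝ) + 3) * (1 + |w.im|) := by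
        calc ‖w‖ ≤ |w.re| + |w.im| := Complex.norm_le_abs_re_add_abs_im w
          _ ≤ (n + 2) + |w.im| := by
            have : |w.re| ≤ n + 2 := by
              rw [abs_le]
              constructor <;> linarith
            linarith
          _ ≤ ((n : ℝ) + 3) * (1 + |w.im|) := by nlinarith [abs_nonneg w.im]
      have hwn1 : ‖w + 1‖ ≤ ((n : ℝ) + 3) * (1 + |w.im|) := by
        calc ‖w + 1‖ ≤ ‖w‖ + ‖(1 : ℂ)‖ := norm_add_le _ _
          _ ≤ ((n + 2) + |w.im|) + 1 := by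
            have h3 : ‖w‖ ≤ (n + 2) + |w.im| := by
              refine (Complex.norm_le_abs_re_add_abs_im w).trans ?_
              have : |w.re| ≤ n + 2 := by
                rw [abs_le]
                constructor <;> linarith
              linarith
            rw [norm_one]
            linarith
          _ ≤ ((n : ℝ) + 3) * (1 + |w.im|) := by nlinarith [abs_nonneg w.im]
      have hden : (1 : ℝ) ≤ ‖(4 * (Real.pi : ℂ) ^ 2)‖ := by
        rw [norm_mul, norm_pow, Complex.norm_real, Real.norm_eq_abs, abs_of_pos Real.pi_pos]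
        have := Real.pi_gt_three
        simp
        nlinarith
      calc ‖w‖ * ‖w + 1‖ / ‖(4 * (Real.pi : ℂ) ^ 2)‖ * ‖XF (w + 2)‖
          ≤ ‖w‖ * ‖w + 1‖ * ‖XF (w + 2)‖ := by
            apply mul_le_mul_of_nonneg_right _ (norm_nonneg _)
            exact div_le_self (by positivity) hden
        _ ≤ (((n : ℝ) + 3) * (1 + |w.im|)) * (((n : ℝ) + 3) * (1 + |w.im|)) *
            (C * (1 + |w.im|) ^ (n + 2)) := by gcongr
        _ = C * ((n : ℝ) + 3) ^ 2 * (1 + |w.im|) ^ (n + 2 + 2) := by ring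
        _ ≤ (B + C * ((n : ℝ) + 3) ^ 2) * (1 + |w.im|) ^ (n + 2 + 2) := by
            apply mul_le_mul_of_nonneg_right _ (by positivity)
            linarith

end Pool.Agent.P4f18dfS
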