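import Mathlib

/-!
# Sharp lower bound for the variance of the Möbius function in short intervals: definitions

`Ex w = (e^w - 1) / w` (entire), `ker b δ k z = e^{b z} Ex(δ z)^k` the numerator of the smoothing kernel `ker z / z`,
`spl b δ k` the spline with Laplace transform `ker`: it is `1` on `x ≤ b` and `0` on `x ≥ b + k δ`,
`dp a N t = ∑_{n ≤ N} a(n) n^{-1/2-it}`, `wt τ Δ t` the Gaussian weight, `XF` the factor of the functional equation.
-/

set_option autoImplicit false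

open Complex MeasureTheory

namespace Pool.Agent.P4f18dfS

/-- The entire function `(e^w - 1) / w`. -/
noncomputable def Ex (w : ℂ) : ℂ := dslope Complex.exp 0 w

/-- The numerator of the smoothing kernel. -/
noncomputable def ker (b δ : ℝ) (k : ℕ) (z : ℂ) : ℂ := Complex.exp ((b : ℂ) * z) * Ex ((δ : ℂ) * z) ^ k

/-- The spline: `1` for `x ≤ b`, `0` for `x ≥ b + k δ`. -/
noncomputable def spl (b δ : ℝ) (k : ℕ) (x : ℝ) : ℝ :=
  (∑ j ∈ Finset.range (k + 1), (-1 : ℝ) ^ (k - j) * (k.choose j : ℝ) * (max (b + j * δ - x) 0) ^ k) /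
    ((k.factorial : ℝ) * δ ^ k)

/-- The weight `(1 - x / B)_+ ^ k`. -/
noncomputable def pwt (B : ℝ) (k : ℕ) (x : ℝ) : ℝ := (max (1 - x / B) 0) ^ k

/-- The arithmetic function `g(n) n^β` (zero at zero). -/
noncomputable def tw (g : ℕ → ℂ) (β : ℂ) : ArithmeticFunction ℂ :=
  ⟨fun n => if n = 0 then 0 else g n * (n : ℂ) ^ β, by simp⟩

/-- The arithmetic function `μ(n) g(n)`. -/
noncomputable def mt (g : ℕ → ℂ) : ArithmeticFunction ℂ :=
  ⟨fun n => ((ArithmeticFunction.moebius n : ℤ) : ℂ) * g n, by simp⟩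

/-- Dirichlet polynomial on the critical line. -/
noncomputable def dp (a : ArithmeticFunction ℂ) (N : ℕ) (t : ℝ) : ℂ :=
  ∑ n ∈ Finset.Icc 1 N, a n * (n : ℂ) ^ (-((1 / 2 : ℂ) + t * I))

/-- Gaussian weight centred at `τ` of width `Δ`. -/
noncomputable def wt (τ Δ t : ℝ) : ℝ := Real.exp (-((t - τ) / Δ) ^ 2)

/-- The factor of the functional equation `ζ(w) = XF(w) ζ(1 - w)`. -/
noncomputable def XF (w : ℂ) : ℂ := Complex.Gammaℝ (1 - w) / Complex.Gammaℝ w

/-- `g` is a superposition of the functions `n^{-(c+iy)}` of total mass at most `A`. -/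
def Rep (L c : ℝ) (g : ℕ → ℂ) (A : ℝ) : Prop :=
  ∃ h : ℝ → ℂ, Continuous h ∧
    Integrable (fun y : ℝ => ‖h y‖ * (1 + L * ‖(c : ℂ) + y * I‖) ^ 4) ∧
    ∫ y : ℝ, ‖h y‖ * (1 + L * ‖(c : ℂ) + y * I‖) ^ 4 ≤ A ∧
    ∀ n : ℕ, 1 ≤ n → g n = ∫ y : ℝ, h y * (n : ℂ) ^ (-((c : ℂ) + y * I))

/-- The order of the splines used for zeta and for the mollifier. -/
def K0 : ℕ := 100

/-- Coefficients of the long mollifier: plateau up to `T^{1/40}`, support up to `T^{1/20}`, `L = log T`. -/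
noncomputable def gM (L : ℝ) (n : ℕ) : ℂ := (spl (L / 40) (L / 40 / K0) K0 (Real.log n) : ℂ)

/-- Coefficients of the short mollifier: support up to `T^{1/40}`. -/
noncomputable def gm (L : ℝ) (n : ℕ) : ℂ := (pwt (L / 40) K0 (Real.log n) : ℂ)

/-- Long mollifier. -/
noncomputable def M1 (T t : ℝ) : ℂ := dp (mt (gM (Real.log T))) ⌊T ^ (1 / 20 : ℝ)⌋₊ t

/-- Short mollifier. -/
noncomputable def M2 (T t : ℝ) : ℂ := dp (mt (gm (Real.log T))) ⌊T ^ (1 / 20 : ℝ)⌋₊ t

/-- The width of the Gaussian weight. -/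
noncomputable def De (T : ℝ) : ℝ := T ^ (9 / 10 : ℝ)

end Pool.Agent.P4f18dfS
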