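import Pool.Agent.Lib.P4f18dfV.Defs
import Pool.Agent.Lib.P4f18dfV.HalfPlane
import Pool.Agent.Lib.P4f18dfV.Crude
import Pool.Agent.Lib.P4f18dfV.ZetaLeft

/-!
# Polynomial growth of `zE s = (s - 1) ζ(s)` in right half-planes

Phragmen-Lindelöf (`PhragmenLindelof.vertical_strip`) on `-n ≤ Re s ≤ 1/4` for
`f(s) = zE(s)/(s + n + 2)^{n+2}`, bounded on both edges (`zeta_left`, `zE_half`), and `O(exp(K' (1 + |Im s|)))`
(`zE_crude`).
-/

set_option autoImplicit false

open Complex

namespace Pool.Agent.P4f18dfS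

open Pool.Agent.P4f18dfV

theorem zE_poly (n : ℕ) (hn : 1 ≤ n) : ∃ C : ℝ, 0 < C ∧ ∀ s : ℂ, -(n : ℝ) ≤ s.re →
    ‖zE s‖ ≤ C * (1 + ‖s‖) ^ (n + 2) := by
  obtain ⟨C, hC, hhalf⟩ := zE_half
  obtain ⟨K, hK, hleft⟩ := zeta_left n hn
  obtain ⟨L, hL, hcrude⟩ := zE_crude
  have hn1 : (1 : ℝ) ≤ n := by exact_mod_cast hn
  set M : ℝ := (K + 4 * C) * 2 ^ (n + 2) with hM
  have hMpos : 0 < M := by positivity
  -- lower bounds for the denominator
  have hden : ∀ z : ℂ, -(n : ℝ) ≤ z.re → (1 + |z.im|) / 2 ≤ ‖z + n + 2‖ := by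
    intro z hz
    have h1 : z.re + n + 2 ≤ ‖z + n + 2‖ := by
      have := Complex.re_le_norm (z + n + 2)
      simpa using this
    have h2 : |z.im| ≤ ‖z + n + 2‖ := by
      have := Complex.abs_im_le_norm (z + n + 2)
      simpa using this
    linarith
  have hden1 : ∀ z : ℂ, -(n : ℝ) ≤ z.re → 1 ≤ ‖z + n + 2‖ := by
    intro z hz
    have h1 : z.re + n + 2 ≤ ‖z + n + 2‖ := by
      have := Complex.re_le_norm (z + n + 2)
      simpa using this
    linarith
  have hden0 : ∀ z : ℂ, -(n : ℝ) ≤ z.re → z + n + 2 ≠ 0 := by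
    intro z hz h
    have := hden1 z hz
    rw [h, norm_zero] at this
    linarith
  have hedge : ∀ z : ℂ, -(n : ℝ) ≤ z.re → ‖zE z‖ ≤ (K + 4 * C) * (1 + |z.im|) ^ (n + 2) →
      ‖zE z / (z + n + 2) ^ (n + 2)‖ ≤ M := by
    intro z hz hb
    have hp : 0 < ‖(z + n + 2) ^ (n + 2)‖ := by
      rw [norm_pos_iff]
      exact pow_ne_zero _ (hden0 z hz)
    rw [norm_div, div_le_iff₀ hp, norm_pow]
    refine hb.trans ?_
    rw [hM, mul_assoc, ← mul_pow]
    apply mul_le_mul_of_nonneg_left _ (by positivity)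
    apply pow_le_pow_left₀ (by positivity)
    have := hden z hz
    linarith
  have key : ∀ z : ℂ, -(n : ℝ) ≤ z.re → z.re ≤ 1 / 4 → ‖zE z / (z + n + 2) ^ (n + 2)‖ ≤ M := by
    intro z hz1 hz2
    refine PhragmenLindelof.vertical_strip (f := fun z : ℂ => zE z / (z + n + 2) ^ (n + 2))
      (a := -(n : ℝ)) (b := 1 / 4) ?_ ?_ ?_ ?_ hz1 hz2
    · -- regularity
      apply DifferentiableOn.diffContOnCl
      intro w hw
      have hw' : -(n : ℝ) ≤ w.re := by
        have hcl : closure (Complex.re ⁻¹' Set.Ioo (-(n : ℝ)) (1 / 4)) ⊆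
            Complex.re ⁻¹' Set.Icc (-(n : ℝ)) (1 / 4) := by
          apply closure_minimal
          · exact Set.preimage_mono Set.Ioo_subset_Icc_self
          · exact isClosed_Icc.preimage Complex.continuous_re
        exact (hcl hw).1
      apply DifferentiableAt.differentiableWithinAt
      apply DifferentiableAt.div
      · exact zE_diff w
      · fun_prop
      · exact pow_ne_zero _ (hden0 w hw')
    · -- growth
      refine ⟨1 / ((n : ℝ) + 1), ?_, L + L * ((n : ℝ) + 1) + L * ((n : ℝ) + 2) * Real.log ((n : ℝ) + 2), ?_⟩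
      · have hpos : (0 : ℝ) < 1 / 4 - -(n : ℝ) := by linarith
        rw [div_lt_div_iff₀ (by linarith) hpos]
        nlinarith [Real.pi_gt_three]
      · apply Asymptotics.IsBigO.of_bound 1
        rw [Filter.eventually_inf_principal]
        apply Filter.Eventually.of_forall
        intro w hw
        have hw1 : -(n : ℝ) < w.re := hw.1
        have hw2 : w.re < 1 / 4 := hw.2
        rw [one_mul, Real.norm_eq_abs, Real.abs_exp]
        have hd1 : 1 ≤ ‖(w + n + 2) ^ (n + 2)‖ := by
          rw [norm_pow]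
          exact one_le_pow₀ (hden1 w hw1.le)
        have hre : |w.re| ≤ (n : ℝ) + 2 := by
          rw [abs_le]
          constructor <;> linarith
        have hcr := hcrude ((n : ℝ) + 2) (by linarith) w hre
        rw [norm_div]
        refine (div_le_self (norm_nonneg _) hd1).trans (hcr.trans ?_)
        apply Real.exp_le_exp.mpr
        set e := Real.exp (1 / ((n : ℝ) + 1) * |w.im|) with he
        have hn1' : (0 : ℝ) < (n : ℝ) + 1 := by linarith
        have he1 : 1 ≤ e := by
          rw [he]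
          apply Real.one_le_exp
          positivity
        have him : |w.im| ≤ ((n : ℝ) + 1) * e := by
          have h1 : 1 / ((n : ℝ) + 1) * |w.im| ≤ e := by
            have := Real.add_one_le_exp (1 / ((n : ℝ) + 1) * |w.im|)
            linarith
          calc |w.im| = ((n : ℝ) + 1) * (1 / ((n : ℝ) + 1) * |w.im|) := by field_simp
            _ ≤ ((n : ℝ) + 1) * e := mul_le_mul_of_nonneg_left h1 hn1'.le
        have hlog : 0 ≤ L * ((n : ℝ) + 2) * Real.log ((n : ℝ) + 2) := by
          have := Real.log_nonneg (by linarith : (1 : ℝ) ≤ (n : ℝ) + 2)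
          positivity
        calc L * (1 + |w.im|) + L * ((n : ℝ) + 2) * Real.log ((n : ℝ) + 2)
            = L * 1 + L * |w.im| + L * ((n : ℝ) + 2) * Real.log ((n : ℝ) + 2) * 1 := by ring
          _ ≤ L * e + L * (((n : ℝ) + 1) * e) + L * ((n : ℝ) + 2) * Real.log ((n : ℝ) + 2) * e := by
              gcongr
          _ = (L + L * ((n : ℝ) + 1) + L * ((n : ℝ) + 2) * Real.log ((n : ℝ) + 2)) * e := by ring
    · -- left edge
      intro w hw
      apply hedge w (by rw [hw])
      have e : w = -(n : ℂ) + (w.im : ℂ) * I := by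
        apply Complex.ext
        · simp [hw]
        · simp
      have h := hleft w.im
      rw [← e] at h
      refine h.trans ?_
      apply mul_le_mul_of_nonneg_right _ (by positivity)
      linarith
    · -- right edge
      intro w hw
      apply hedge w (by rw [hw]; linarith)
      have h := hhalf w (by rw [hw])
      have hnw : ‖w‖ ≤ 1 / 4 + |w.im| := by
        have := Complex.norm_le_abs_re_add_abs_im w
        rw [hw] at this
        rwa [abs_of_pos (by norm_num : (0 : ℝ) < 1 / 4)] at this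
      have ha : 0 ≤ |w.im| := abs_nonneg _
      calc ‖zE w‖ ≤ C * (1 + ‖w‖) ^ 2 := h
        _ ≤ C * (2 * (1 + |w.im|)) ^ 2 := by
            have : 1 + ‖w‖ ≤ 2 * (1 + |w.im|) := by linarith
            gcongr
        _ = 4 * C * (1 + |w.im|) ^ 2 := by ring
        _ ≤ (K + 4 * C) * (1 + |w.im|) ^ (n + 2) := by
            apply mul_le_mul (by linarith) _ (by positivity) (by positivity)
            exact pow_le_pow_right₀ (by linarith) (by omega)
  refine ⟨M * ((n : ℝ) + 2) ^ (n + 2) + C, by positivity, ?_⟩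
  intro s hs
  have hs0 : 0 ≤ ‖s‖ := norm_nonneg s
  by_cases hq : s.re ≤ 1 / 4
  · have h := key s hs hq
    have hp : 0 < ‖(s + n + 2) ^ (n + 2)‖ := by
      rw [norm_pos_iff]
      exact pow_ne_zero _ (hden0 s hs)
    rw [norm_div, div_le_iff₀ hp, norm_pow] at h
    have hle : ‖s + n + 2‖ ≤ ((n : ℝ) + 2) * (1 + ‖s‖) := by
      calc ‖s + n + 2‖ = ‖s + ((n : ℂ) + 2)‖ := by rw [add_assoc]
        _ ≤ ‖s‖ + ‖((n : ℂ) + 2)‖ := norm_add_le _ _
        _ = ‖s‖ + ((n : ℝ) + 2) := by
            congr 1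
            have : ((n : ℂ) + 2) = (((n : ℝ) + 2 : ℝ) : ℂ) := by push_cast; ring
            rw [this, Complex.norm_real, Real.norm_eq_abs, abs_of_pos (by linarith)]
        _ ≤ ((n : ℝ) + 2) * (1 + ‖s‖) := by nlinarith
    calc ‖zE s‖ ≤ M * ‖s + n + 2‖ ^ (n + 2) := h
      _ ≤ M * (((n : ℝ) + 2) * (1 + ‖s‖)) ^ (n + 2) := by gcongr
      _ = M * ((n : ℝ) + 2) ^ (n + 2) * (1 + ‖s‖) ^ (n + 2) := by rw [mul_pow]; ring
      _ ≤ (M * ((n : ℝ) + 2) ^ (n + 2) + C) * (1 + ‖s‖) ^ (n + 2) := by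
          apply mul_le_mul_of_nonneg_right _ (by positivity)
          linarith
  · push Not at hq
    calc ‖zE s‖ ≤ C * (1 + ‖s‖) ^ 2 := hhalf s hq.le
      _ ≤ C * (1 + ‖s‖) ^ (n + 2) := by
          apply mul_le_mul_of_nonneg_left _ hC.le
          exact pow_le_pow_right₀ (by linarith) (by omega)
      _ ≤ (M * ((n : ℝ) + 2) ^ (n + 2) + C) * (1 + ‖s‖) ^ (n + 2) := by
          apply mul_le_mul_of_nonneg_right _ (by positivity)
          have : 0 ≤ M * ((n : ℝ) + 2) ^ (n + 2) := by positivity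
          linarith

end Pool.Agent.P4f18dfS
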