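import Pool.Agent.Lib.P4f18dfS.AFECore
import Pool.Agent.Lib.P4f18dfS.XFac

/-!
# Approximate functional equations with log-smooth weights

Notation: `L = log T`, `ρ = 1/2 + α + it`, `|Re α| ≤ R/L`, `Im ρ ∈ [T/20, T]`, `dp (tw g (-α)) N t = ∑_{m ≤ N} g(m) m^{-ρ}`.

`afe_long`: `afe_core` with `n = 60`, `k = K0 = 100`, `b = 11 L/10`, `δ = L/10/100`, `b + kδ = 6L/5`, `N = ⌊T^{6/5}⌋`.

`afe`: `afe_core` with `n = 60`, `k = 100`, `b = 11 L/20`, `δ = L/20/100`, `N = ⌊T^{3/5}⌋`. On `Re w = -60`: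
`ζ(w) = XF(w) ζ(1-w)`, `ζ(1-w) = G(w) + R(w)`, `G(w) = ∑_{m ≤ N} gz(m) m^{w-1}`; the `R` part is small, the `G` part is
shifted to `Re w = Re ρ - 1/L`.
-/

set_option autoImplicit false

open Complex MeasureTheory

namespace Pool.Agent.P4f18dfS

open Pool.Agent.P4f18dfV

/-- Weights of the long approximation. -/
noncomputable def gl (L : ℝ) (n : ℕ) : ℂ := (spl (11 / 10 * L) (L / 10 / K0) K0 (Real.log n) : ℂ)

/-- Weights of the approximate functional equation. -/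
noncomputable def gz (L : ℝ) (n : ℕ) : ℂ := (spl (11 / 20 * L) (L / 20 / K0) K0 (Real.log n) : ℂ)

/-- The kernel of the approximate functional equation on the line `Re z = -1/L`. -/
noncomputable def kz (L y : ℝ) : ℂ :=
  ker (11 / 20 * L) (L / 20 / K0) K0 (((-(1 / L) : ℝ) : ℂ) + y * I) / (((-(1 / L) : ℝ) : ℂ) + y * I)

namespace AFEaux

lemma one_add_abs_le (t : ℝ) {v : ℝ} (hv : 0 ≤ v) : 1 + |t| ≤ (1 + v) * (1 + |t - v|) := by
  have h1 : |t| ≤ |t - v| + v := by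
    calc |t| = |(t - v) + v| := by ring_nf
      _ ≤ |t - v| + |v| := abs_add_le _ _
      _ = |t - v| + v := by rw [abs_of_nonneg hv]
  have h2 : 0 ≤ v * |t - v| := by positivity
  nlinarith

lemma cauchy_int (A v : ℝ) : Integrable (fun t : ℝ => A * (1 + (t - v) ^ 2)⁻¹) :=
  (integrable_inv_one_add_sq.comp_sub_right v).const_mul A

lemma cauchy_val (A v : ℝ) : ∫ t : ℝ, A * (1 + (t - v) ^ 2)⁻¹ = A * Real.pi := by
  rw [integral_const_mul, integral_sub_right_eq_self (fun t : ℝ => (1 + t ^ 2)⁻¹) v,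
    integral_univ_inv_one_add_sq]

/-- the kernel on the left line -/
lemma ker_left (n k : ℕ) (hn : 1 ≤ n) {b δ : ℝ} (hb : 0 ≤ b) (hδ : 1 ≤ δ) {ρ : ℂ}
    (h1 : 1 / 4 ≤ ρ.re) (t : ℝ) :
    ‖ker b δ k (-(n : ℂ) + t * I - ρ) / (-(n : ℂ) + t * I - ρ)‖ ≤
      Real.exp (-(n * b)) * (4 / (1 + |t - ρ.im|)) ^ k := by
  set z : ℂ := -(n : ℂ) + t * I - ρ with hz
  have hn' : (1 : ℝ) ≤ n := by exact_mod_cast hn
  have hre : z.re = -n - ρ.re := by simp [hz]
  have him : z.im = t - ρ.im := by simp [hz]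
  have hznorm1 : 1 ≤ ‖z‖ := by
    have h2 := Complex.abs_re_le_norm z
    rw [hre, abs_of_neg (by linarith)] at h2
    linarith
  have hznorm2 : |t - ρ.im| ≤ ‖z‖ := by
    have h2 := Complex.abs_im_le_norm z
    rwa [him] at h2
  have hz0 : z ≠ 0 := by
    intro h
    rw [h, norm_zero] at hznorm1
    linarith
  have hk := ker_le' b (δ := δ) (by linarith) k z hz0
  have hmax : max z.re 0 = 0 := max_eq_right (by rw [hre]; linarith)
  rw [hmax] at hk
  have hexp : Real.exp (b * z.re + k * δ * 0) ≤ Real.exp (-(n * b)) := by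
    apply Real.exp_le_exp.2
    rw [hre]
    have : 0 ≤ b * ρ.re := mul_nonneg hb (by linarith)
    nlinarith
  have hbase : 2 / (δ * ‖z‖) ≤ 4 / (1 + |t - ρ.im|) := by
    have ha := abs_nonneg (t - ρ.im)
    rw [div_le_div_iff₀ (by positivity) (by positivity)]
    have h3 : ‖z‖ ≤ δ * ‖z‖ := by nlinarith
    nlinarith
  rw [norm_div]
  calc ‖ker b δ k z‖ / ‖z‖ ≤ ‖ker b δ k z‖ / 1 := by gcongr
    _ = ‖ker b δ k z‖ := div_one _
    _ ≤ Real.exp (b * z.re + k * δ * 0) * (2 / (δ * ‖z‖)) ^ k := hk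
    _ ≤ Real.exp (-(n * b)) * (4 / (1 + |t - ρ.im|)) ^ k := by gcongr

/-- integrals over the left line -/
lemma int_left (n k : ℕ) (hn : 1 ≤ n) (hk : n + 6 ≤ k) {b δ : ℝ} (hb : 0 ≤ b) (hδ : 1 ≤ δ) {ρ : ℂ}
    (h1 : 1 / 4 ≤ ρ.re) (h3 : 0 ≤ ρ.im) {f : ℝ → ℂ} {K : ℝ} (hK : 0 ≤ K)
    (hf : ∀ t : ℝ, ‖f t‖ ≤ K * (1 + |t|) ^ (n + 2)) :
    ‖∫ t : ℝ, f t * (ker b δ k (-(n : ℂ) + t * I - ρ) / (-(n : ℂ) + t * I - ρ))‖ ≤
      K * (1 + ρ.im) ^ (n + 2) * Real.exp (-(n * b)) * 4 ^ k * Real.pi := by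
  set A : ℝ := K * (1 + ρ.im) ^ (n + 2) * Real.exp (-(n * b)) * 4 ^ k with hA
  rw [← cauchy_val A ρ.im]
  refine norm_integral_le_of_norm_le (cauchy_int A ρ.im) (Filter.Eventually.of_forall fun t => ?_)
  rw [norm_mul]
  have e1 := ker_left n k hn hb hδ h1 t
  have e2 := hf t
  have e3 := one_add_abs_le t h3
  set P : ℝ := 1 + |t - ρ.im| with hP
  have hP1 : 1 ≤ P := by
    have := abs_nonneg (t - ρ.im)
    linarith
  have hP0 : 0 < P := by linarith
  have e4 : (1 + (t - ρ.im) ^ 2) * P ^ (n + 2) ≤ P ^ k := by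
    have h4 : 1 + (t - ρ.im) ^ 2 ≤ P ^ 2 := by
      have h5 := abs_nonneg (t - ρ.im)
      rw [hP, ← sq_abs (t - ρ.im)]
      nlinarith
    calc (1 + (t - ρ.im) ^ 2) * P ^ (n + 2) ≤ P ^ 2 * P ^ (n + 2) := by gcongr
      _ = P ^ (2 + (n + 2)) := by rw [← pow_add]
      _ ≤ P ^ k := pow_le_pow_right₀ hP1 (by omega)
  have hQ : 0 < 1 + (t - ρ.im) ^ 2 := by positivity
  calc ‖f t‖ * ‖ker b δ k (-(n : ℂ) + t * I - ρ) / (-(n : ℂ) + t * I - ρ)‖
      ≤ (K * ((1 + ρ.im) * P) ^ (n + 2)) * (Real.exp (-(n * b)) * (4 / P) ^ k) := by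
        have : ‖f t‖ ≤ K * ((1 + ρ.im) * P) ^ (n + 2) := by
          refine e2.trans ?_
          gcongr
        gcongr
    _ = A * (P ^ (n + 2) / P ^ k) := by
        rw [hA, mul_pow, div_pow]
        ring
    _ ≤ A * (1 + (t - ρ.im) ^ 2)⁻¹ := by
        have hA0 : 0 ≤ A := by positivity
        have : P ^ (n + 2) / P ^ k ≤ (1 + (t - ρ.im) ^ 2)⁻¹ := by
          rw [div_le_iff₀ (by positivity), inv_mul_eq_div, le_div_iff₀ hQ]
          linarith
        gcongr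

lemma zeta_left_bd (n : ℕ) (hn : 1 ≤ n) : ∃ K : ℝ, 0 < K ∧
    ∀ t : ℝ, ‖riemannZeta (-(n : ℂ) + t * I)‖ ≤ K * (1 + |t|) ^ (n + 2) := by
  obtain ⟨K, hK, h⟩ := zeta_left n hn
  refine ⟨K, hK, fun t => ?_⟩
  have hn' : (1 : ℝ) ≤ n := by exact_mod_cast hn
  have hre : (-(n : ℂ) + t * I - 1).re = -n - 1 := by simp
  have hnorm : 1 ≤ ‖-(n : ℂ) + t * I - 1‖ := by
    have h2 := Complex.abs_re_le_norm (-(n : ℂ) + t * I - 1)
    rw [hre, abs_of_neg (by linarith)] at h2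
    linarith
  have hne : (-(n : ℂ) + t * I) ≠ 1 := by
    intro h2
    rw [h2, sub_self, norm_zero] at hnorm
    linarith
  have h3 := h t
  rw [zE_of_ne hne, norm_mul] at h3
  refine le_trans ?_ h3
  nlinarith [norm_nonneg (riemannZeta (-(n : ℂ) + t * I))]

/-- the polar term -/
lemma ker_one (k : ℕ) {b δ T : ℝ} (hb : 0 ≤ b) (hδ : 1 ≤ δ) (hT : 1600 ≤ T) {ρ : ℂ}
    (h1 : 1 / 4 ≤ ρ.re) (h2 : ρ.re < 1) (h3 : T / 20 ≤ ρ.im) :
    ‖ker b δ (2 * k) (1 - ρ) / (1 - ρ)‖ ≤ Real.exp ((b + (2 * k : ℕ) * δ) * (3 / 4)) * (1 / T) ^ k := by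
  set z : ℂ := 1 - ρ with hz
  have hre : z.re = 1 - ρ.re := by simp [hz]
  have him : z.im = -ρ.im := by simp [hz]
  have hzn : T / 20 ≤ ‖z‖ := by
    have h4 := Complex.abs_im_le_norm z
    rw [him, abs_neg] at h4
    exact h3.trans ((le_abs_self _).trans h4)
  have hz1 : 1 ≤ ‖z‖ := by linarith
  have hz0 : z ≠ 0 := by
    intro h
    rw [h, norm_zero] at hz1
    linarith
  have hk := ker_le' b (δ := δ) (by linarith) (2 * k) z hz0
  have hmax : max z.re 0 = z.re := max_eq_left (by rw [hre]; linarith)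
  rw [hmax] at hk
  have hexp : Real.exp (b * z.re + (2 * k : ℕ) * δ * z.re) ≤
      Real.exp ((b + (2 * k : ℕ) * δ) * (3 / 4)) := by
    apply Real.exp_le_exp.2
    have h5 : z.re ≤ 3 / 4 := by rw [hre]; linarith
    have h6 : 0 ≤ b + (2 * k : ℕ) * δ := by positivity
    nlinarith
  have hbase : (2 / (δ * ‖z‖)) ^ 2 ≤ 1 / T := by
    have h7 : 2 / (δ * ‖z‖) ≤ 40 / T := by
      rw [div_le_div_iff₀ (by positivity) (by linarith)]
      have : ‖z‖ ≤ δ * ‖z‖ := by nlinarith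
      nlinarith
    calc (2 / (δ * ‖z‖)) ^ 2 ≤ (40 / T) ^ 2 := by gcongr
      _ ≤ 1 / T := by
        rw [div_pow, div_le_div_iff₀ (by positivity) (by linarith)]
        nlinarith
  rw [norm_div]
  calc ‖ker b δ (2 * k) z‖ / ‖z‖ ≤ ‖ker b δ (2 * k) z‖ / 1 := by gcongr
    _ = ‖ker b δ (2 * k) z‖ := div_one _
    _ ≤ Real.exp (b * z.re + (2 * k : ℕ) * δ * z.re) * (2 / (δ * ‖z‖)) ^ (2 * k) := hk
    _ ≤ Real.exp ((b + (2 * k : ℕ) * δ) * (3 / 4)) * (1 / T) ^ k := by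
        rw [pow_mul]
        gcongr

lemma tw_dp (g : ℕ → ℂ) (β : ℂ) (N : ℕ) (t : ℝ) :
    dp (tw g β) N t = ∑ m ∈ Finset.Icc 1 N, g m * (m : ℂ) ^ (β - ((1 / 2 : ℂ) + t * I)) := by
  unfold dp
  refine Finset.sum_congr rfl fun m hm => ?_
  have hm1 : m ≠ 0 := by
    have := (Finset.mem_Icc.1 hm).1
    omega
  have hm2 : (m : ℂ) ≠ 0 := by exact_mod_cast hm1
  have e : tw g β m = g m * (m : ℂ) ^ β := by
    simp [tw, hm1]
  rw [e, mul_assoc, ← Complex.cpow_add _ _ hm2, sub_eq_add_neg]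

lemma log_floor {T c : ℝ} (hT : 1 ≤ T) :
    c * Real.log T ≤ Real.log ((⌊T ^ c⌋₊ : ℝ) + 1) := by
  have hT0 : 0 < T := by linarith
  rw [← Real.log_rpow hT0]
  exact Real.log_le_log (Real.rpow_pos_of_pos hT0 c) (Nat.lt_floor_add_one _).le

lemma exp_neg_log {T : ℝ} (hT : 0 < T) (m : ℕ) : Real.exp (-((m : ℝ) * Real.log T)) = 1 / T ^ m := by
  rw [Real.exp_neg, Real.exp_nat_mul, Real.exp_log hT, one_div]

end AFEaux

open AFEaux

theorem afe_long (R : ℝ) (hR : 1 ≤ R) : ∃ T0 : ℝ, ∀ T : ℝ, T0 ≤ T → ∀ α : ℂ, |α.re| ≤ R / Real.log T →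
    ∀ t : ℝ, T / 20 ≤ t + α.im → t + α.im ≤ T →
    ‖riemannZeta (1 / 2 + α + t * I) - dp (tw (gl (Real.log T)) (-α)) ⌊T ^ (6 / 5 : ℝ)⌋₊ t‖ ≤ 1 / T := by
  obtain ⟨K, hK, hζ⟩ := zeta_left_bd 60 (by norm_num)
  set B : ℝ := K * 2 ^ 62 * 4 ^ 100 with hB
  have hB0 : 0 < B := by positivity
  refine ⟨max (Real.exp (1000 + 4 * R)) (max 1600 B), fun T hT α hα t ht1 ht2 => ?_⟩
  have hT1 : Real.exp (1000 + 4 * R) ≤ T := (le_max_left _ _).trans hT
  have hT2 : 1600 ≤ T := (le_max_left _ _).trans ((le_max_right _ _).trans hT)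
  have hT3 : B ≤ T := (le_max_right _ _).trans ((le_max_right _ _).trans hT)
  have hT0 : 0 < T := by linarith
  set L := Real.log T with hL
  have hLT : 1000 + 4 * R ≤ L := by
    rw [hL, Real.le_log_iff_exp_le hT0]
    exact hT1
  have hL0 : 0 < L := by linarith
  have hRL : R / L ≤ 1 / 4 := by
    rw [div_le_iff₀ hL0]
    linarith
  set ρ : ℂ := 1 / 2 + α + t * I with hρ
  have hre : ρ.re = 1 / 2 + α.re := by simp [hρ]
  have him : ρ.im = t + α.im := by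
    simp [hρ]
    ring
  have hα' := abs_le.1 (hα.trans hRL)
  have h1 : 1 / 4 ≤ ρ.re := by rw [hre]; linarith
  have h2 : ρ.re < 1 := by rw [hre]; linarith
  have h3 : T / 20 ≤ ρ.im := by rw [him]; exact ht1
  have h3' : ρ.im ≤ T := by rw [him]; exact ht2
  have h3'' : 1 ≤ ρ.im := by linarith
  set b : ℝ := 11 / 10 * L with hb
  set δ : ℝ := L / 10 / K0 with hδ
  have hK0 : (K0 : ℝ) = 100 := by norm_num [K0]
  have hb0 : 0 ≤ b := by positivity
  have hδ1 : 1 ≤ δ := by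
    rw [hδ, hK0]
    linarith
  have hbk : b + (100 : ℕ) * δ = 6 / 5 * L := by
    rw [hb, hδ, hK0]
    push_cast
    ring
  have hN : b + (100 : ℕ) * δ ≤ Real.log ((⌊T ^ (6 / 5 : ℝ)⌋₊ : ℝ) + 1) := by
    rw [hbk]
    exact log_floor (by linarith)
  have hcore := afe_core 60 100 (by norm_num) (by norm_num) b (by linarith : (0 : ℝ) < δ) _ hN h1 h2 h3''
  have hsum : dp (tw (gl L) (-α)) ⌊T ^ (6 / 5 : ℝ)⌋₊ t =
      ∑ m ∈ Finset.Icc 1 ⌊T ^ (6 / 5 : ℝ)⌋₊, (spl b δ 100 (Real.log m) : ℂ) * (m : ℂ) ^ (-ρ) := by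
    rw [tw_dp]
    refine Finset.sum_congr rfl fun m _ => ?_
    have e : -α - ((1 / 2 : ℂ) + t * I) = -ρ := by
      rw [hρ]
      ring
    rw [e]
    rfl
  rw [hsum, hcore]
  have hI := int_left 60 100 (by norm_num) (by norm_num) hb0 hδ1 h1 (by linarith) hK.le hζ
  have hO := ker_one 50 hb0 hδ1 hT2 h1 h2 h3
  have hexp1 : Real.exp (-((60 : ℕ) * b)) = 1 / T ^ 66 := by
    rw [← exp_neg_log hT0 66, hb]
    congr 1
    push_cast
    ring
  have hI2 : ‖(1 / (2 * Real.pi) : ℂ) * (∫ t : ℝ, riemannZeta (-((60 : ℕ) : ℂ) + t * I) *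
        (ker b δ 100 (-((60 : ℕ) : ℂ) + t * I - ρ) / (-((60 : ℕ) : ℂ) + t * I - ρ)))‖ ≤ 1 / (2 * T) := by
    rw [norm_mul]
    have hpi := Real.pi_pos
    have e1 : ‖(1 / (2 * Real.pi) : ℂ)‖ = 1 / (2 * Real.pi) := by
      rw [norm_div, norm_mul, norm_one, Complex.norm_real, Real.norm_eq_abs, abs_of_pos hpi]
      simp
    rw [e1]
    have e2 : (1 + ρ.im) ^ (60 + 2) ≤ (2 * T) ^ 62 := by
      have : 1 + ρ.im ≤ 2 * T := by linarith
      gcongr
    calc 1 / (2 * Real.pi) * _ ≤ 1 / (2 * Real.pi) *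
          (K * (1 + ρ.im) ^ (60 + 2) * Real.exp (-((60 : ℕ) * b)) * 4 ^ 100 * Real.pi) := by gcongr
      _ ≤ 1 / (2 * Real.pi) * (K * (2 * T) ^ 62 * (1 / T ^ 66) * 4 ^ 100 * Real.pi) := by
          rw [hexp1]
          gcongr
      _ = B / (2 * T ^ 4) := by
          rw [hB]
          field_simp
      _ ≤ 1 / (2 * T) := by
          rw [div_le_div_iff₀ (by positivity) (by positivity)]
          have h5 : B ≤ T ^ 3 := by
            calc B ≤ T := hT3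
              _ = T ^ 1 := (pow_one T).symm
              _ ≤ T ^ 3 := pow_le_pow_right₀ (by linarith) (by norm_num)
          calc B * (2 * T) ≤ T ^ 3 * (2 * T) := by gcongr
            _ = 1 * (2 * T ^ 4) := by ring
  have hO2 : ‖ker b δ 100 (1 - ρ) / (1 - ρ)‖ ≤ 1 / (2 * T) := by
    have e0 : (2 * 50 : ℕ) = 100 := by norm_num
    rw [e0] at hO
    refine hO.trans ?_
    rw [hbk]
    have e1 : Real.exp (6 / 5 * L * (3 / 4)) ≤ T := by
      calc Real.exp (6 / 5 * L * (3 / 4)) ≤ Real.exp L := by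
            apply Real.exp_le_exp.2
            linarith
        _ = T := Real.exp_log hT0
    have e2 : (1 / T) ^ 50 ≤ 1 / T ^ 3 := by
      rw [one_div_pow]
      apply one_div_le_one_div_of_le (by positivity)
      exact pow_le_pow_right₀ (by linarith) (by norm_num)
    calc Real.exp (6 / 5 * L * (3 / 4)) * (1 / T) ^ 50 ≤ T * (1 / T ^ 3) := by gcongr
      _ = 1 / T ^ 2 := by field_simp
      _ ≤ 1 / (2 * T) := by
          apply one_div_le_one_div_of_le (by positivity)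
          nlinarith
  set S := ∑ m ∈ Finset.Icc 1 ⌊T ^ (6 / 5 : ℝ)⌋₊, (spl b δ 100 (Real.log m) : ℂ) * (m : ℂ) ^ (-ρ) with hS
  set J := (1 / (2 * Real.pi) : ℂ) * (∫ t : ℝ, riemannZeta (-((60 : ℕ) : ℂ) + t * I) *
        (ker b δ 100 (-((60 : ℕ) : ℂ) + t * I - ρ) / (-((60 : ℕ) : ℂ) + t * I - ρ))) with hJ
  have e : S - J - ker b δ 100 (1 - ρ) / (1 - ρ) - S = -(J + ker b δ 100 (1 - ρ) / (1 - ρ)) := by ring
  rw [e, norm_neg]
  calc ‖J + ker b δ 100 (1 - ρ) / (1 - ρ)‖ ≤ ‖J‖ + ‖ker b δ 100 (1 - ρ) / (1 - ρ)‖ := norm_add_le _ _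
    _ ≤ 1 / (2 * T) + 1 / (2 * T) := add_le_add hI2 hO2
    _ = 1 / T := by field_simp; ring

namespace AFEaux

/-- The Dirichlet polynomial on the other side of the functional equation. -/
noncomputable def Gp (g : ℕ → ℂ) (N : ℕ) (w : ℂ) : ℂ := ∑ m ∈ Finset.Icc 1 N, g m * (m : ℂ) ^ (w - 1)

lemma Gp_diff (g : ℕ → ℂ) (N : ℕ) : Differentiable ℂ (Gp g N) := by
  unfold Gp
  refine Differentiable.fun_sum fun m hm => ?_
  have hm1 : m ≠ 0 := by
    have := (Finset.mem_Icc.1 hm).1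
    omega
  have hm2 : (m : ℂ) ≠ 0 := by exact_mod_cast hm1
  refine Differentiable.const_mul ?_ _
  exact Differentiable.const_cpow (by fun_prop) (Or.inl hm2)

lemma Gp_norm (g : ℕ → ℂ) (N : ℕ) {w : ℂ} (hw : w.re ≤ 1) :
    ‖Gp g N w‖ ≤ ∑ m ∈ Finset.Icc 1 N, ‖g m‖ := by
  unfold Gp
  refine (norm_sum_le _ _).trans (Finset.sum_le_sum fun m hm => ?_)
  have hm1 : 0 < m := (Finset.mem_Icc.1 hm).1
  have hm2 : (1 : ℝ) ≤ m := by exact_mod_cast hm1
  rw [norm_mul, norm_natCast_cpow_of_pos hm1]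
  have : (m : ℝ) ^ (w - 1).re ≤ 1 := by
    apply Real.rpow_le_one_of_one_le_of_nonpos hm2
    simp only [sub_re, one_re]
    linarith
  calc ‖g m‖ * (m : ℝ) ^ (w - 1).re ≤ ‖g m‖ * 1 := by gcongr
    _ = ‖g m‖ := mul_one _

lemma conj_natCast_cpow (m : ℕ) (s : ℂ) :
    (m : ℂ) ^ ((starRingEnd ℂ) s) = (starRingEnd ℂ) ((m : ℂ) ^ s) := by
  have h := Complex.cpow_conj (m : ℂ) s (by
    rw [Complex.natCast_arg]
    exact Real.pi_pos.ne)
  rw [h]
  simp

/-- `G(ρ + z)` as a Dirichlet polynomial on the critical line. -/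
lemma Gp_dp {g : ℕ → ℂ} (hg : ∀ m, (starRingEnd ℂ) (g m) = g m) (N : ℕ) (α z : ℂ) (t : ℝ) :
    ‖Gp g N (1 / 2 + α + t * I + z)‖ = ‖dp (tw g ((starRingEnd ℂ) α + (starRingEnd ℂ) z)) N t‖ := by
  rw [tw_dp, ← Complex.norm_conj, Gp, map_sum]
  congr 1
  refine Finset.sum_congr rfl fun m _ => ?_
  rw [map_mul, hg, ← conj_natCast_cpow]
  congr 2
  simp only [map_sub, map_add, map_mul, Complex.conj_I, Complex.conj_ofReal, map_one, map_div₀,
    Complex.conj_ofNat]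
  ring

lemma rearr (c u g x y v : ℝ) : c * u * g * (x * (y / v)) = c * g * x * y * (u / v) := by ring

/-- polynomial decay of the shifted integrand in the strip -/
lemma F_bound {g : ℕ → ℂ} {N : ℕ} {b δ L C1 : ℝ} (hC1 : 0 ≤ C1) (hb : 0 ≤ b) (hδ : 0 < δ)
    (hL : 0 < L) {ρ : ℂ} (h2 : ρ.re ≤ 3 / 4) (h3 : 0 ≤ ρ.im)
    (hX : ∀ w : ℂ, -(60 : ℝ) ≤ w.re → w.re ≤ 3 / 4 → ‖XF w‖ ≤ C1 * (1 + |w.im|) ^ 62) :
    ∃ K : ℝ, 0 ≤ K ∧ ∀ w : ℂ, -(60 : ℝ) ≤ w.re → w.re ≤ ρ.re - 1 / L →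
      ‖XF w * Gp g N w * (ker b δ 100 (w - ρ) / (w - ρ))‖ ≤ K / (1 + |w.im|) ^ 2 := by
  set A : ℝ := (1 + L) * (1 + ρ.im) with hA
  set Gc : ℝ := ∑ m ∈ Finset.Icc 1 N, ‖g m‖ with hGc
  have hGc0 : 0 ≤ Gc := Finset.sum_nonneg fun _ _ => norm_nonneg _
  have hA0 : 0 < A := by positivity
  refine ⟨C1 * Gc * (2 / δ) ^ 100 * A ^ 101, by positivity, fun w hw1 hw2 => ?_⟩
  have hLi : 0 < 1 / L := by positivity
  set z : ℂ := w - ρ with hz
  have hzre : z.re = w.re - ρ.re := by simp [hz]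
  have hzim : z.im = w.im - ρ.im := by simp [hz]
  have hzn : 1 / L ≤ ‖z‖ := by
    have h4 := Complex.abs_re_le_norm z
    rw [hzre, abs_of_neg (by linarith)] at h4
    linarith
  have hzn2 : |w.im - ρ.im| ≤ ‖z‖ := by
    have h4 := Complex.abs_im_le_norm z
    rwa [hzim] at h4
  have hzp : 0 < ‖z‖ := lt_of_lt_of_le hLi hzn
  have hz0 : z ≠ 0 := norm_pos_iff.1 hzp
  set P : ℝ := 1 + |w.im| with hP
  have hP1 : 1 ≤ P := by
    have := abs_nonneg w.im
    linarith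
  have hP0 : 0 < P := by linarith
  have hPz : P ≤ A * ‖z‖ := by
    have h5 := one_add_abs_le w.im h3
    have h6 : 1 ≤ L * ‖z‖ := by
      calc 1 = L * (1 / L) := by field_simp
        _ ≤ L * ‖z‖ := by gcongr
    calc P ≤ (1 + ρ.im) * (1 + |w.im - ρ.im|) := h5
      _ ≤ (1 + ρ.im) * (L * ‖z‖ + ‖z‖) := by
          have : 1 + |w.im - ρ.im| ≤ L * ‖z‖ + ‖z‖ := by linarith
          gcongr
      _ = A * ‖z‖ := by
          rw [hA]
          ring
  have hzinv : 1 / ‖z‖ ≤ A / P := by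
    rw [div_le_div_iff₀ hzp hP0]
    linarith
  have hk := ker_le' b hδ 100 z hz0
  have hmax : max z.re 0 = 0 := max_eq_right (by rw [hzre]; linarith)
  rw [hmax] at hk
  have hexp : Real.exp (b * z.re + (100 : ℕ) * δ * 0) ≤ 1 := by
    rw [← Real.exp_zero]
    apply Real.exp_le_exp.2
    have : b * z.re ≤ 0 := mul_nonpos_of_nonneg_of_nonpos hb (by rw [hzre]; linarith)
    linarith
  have hk2 : ‖ker b δ 100 z‖ ≤ (2 / δ) ^ 100 * (A / P) ^ 100 := by
    calc ‖ker b δ 100 z‖ ≤ Real.exp (b * z.re + (100 : ℕ) * δ * 0) * (2 / (δ * ‖z‖)) ^ 100 := hk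
      _ ≤ 1 * (2 / (δ * ‖z‖)) ^ 100 := by gcongr
      _ = (2 / δ) ^ 100 * (1 / ‖z‖) ^ 100 := by
          rw [one_mul, ← mul_pow]
          congr 1
          field_simp
      _ ≤ (2 / δ) ^ 100 * (A / P) ^ 100 := by gcongr
  have hX2 := hX w hw1 (by linarith)
  have hG := Gp_norm g N (w := w) (by linarith)
  rw [norm_mul, norm_mul, norm_div]
  calc ‖XF w‖ * ‖Gp g N w‖ * (‖ker b δ 100 z‖ / ‖z‖)
      = ‖XF w‖ * ‖Gp g N w‖ * (‖ker b δ 100 z‖ * (1 / ‖z‖)) := by ring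
    _ ≤ (C1 * P ^ 62) * Gc * ((2 / δ) ^ 100 * (A / P) ^ 100 * (A / P)) := by
        gcongr
    _ = C1 * Gc * (2 / δ) ^ 100 * A ^ 101 * (P ^ 62 / P ^ 101) := by
        rw [mul_assoc ((2 / δ) ^ 100), ← pow_succ, div_pow A P]
        exact rearr _ _ _ _ _ _
    _ ≤ C1 * Gc * (2 / δ) ^ 100 * A ^ 101 * (1 / P ^ 2) := by
        have : P ^ 62 / P ^ 101 ≤ 1 / P ^ 2 := by
          rw [div_le_div_iff₀ (by positivity) (by positivity), ← pow_add, one_mul]
          exact pow_le_pow_right₀ hP1 (by norm_num)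
        exact mul_le_mul_of_nonneg_left this (by positivity)
    _ = C1 * Gc * (2 / δ) ^ 100 * A ^ 101 / P ^ 2 := by rw [mul_one_div]

/-- an integrable function on a line from polynomial decay -/
lemma int_of_bound {f : ℝ → ℂ} (hf : Continuous f) {K : ℝ}
    (h : ∀ t : ℝ, ‖f t‖ ≤ K / (1 + |t|) ^ 2) : Integrable f := by
  have hK : 0 ≤ K := by
    have := (norm_nonneg _).trans (h 0)
    simpa using this
  refine (cauchy_int K 0).mono' hf.aestronglyMeasurable (Filter.Eventually.of_forall fun t => ?_)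
  refine (h t).trans ?_
  rw [sub_zero, div_eq_mul_inv]
  have h1 : 1 + t ^ 2 ≤ (1 + |t|) ^ 2 := by
    have := abs_nonneg t
    rw [← sq_abs t]
    nlinarith
  gcongr

lemma summ_sq : Summable (fun n : ℕ => 1 / ((n : ℝ) + 1) ^ 2) := by
  have := (summable_nat_add_iff 1).2 (Real.summable_one_div_nat_pow.2 (by norm_num : 1 < 2))
  simpa using this

/-- the tail of the smoothed Dirichlet series on the far side -/
lemma tail_bd {L Cs : ℝ} (hL : 0 ≤ L) (hCs : 0 ≤ Cs) {g : ℕ → ℂ} {N : ℕ}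
    (hg1 : ∀ m : ℕ, 1 ≤ m → Real.log m ≤ 11 / 20 * L → g m = 1)
    (hg0 : ∀ m : ℕ, N < m → g m = 0) (hgC : ∀ m : ℕ, ‖g m‖ ≤ Cs) {w : ℂ} (hw : w.re = -60) :
    ‖riemannZeta (1 - w) - Gp g N w‖ ≤
      (1 + Cs) * (∑' n : ℕ, 1 / ((n : ℝ) + 1) ^ 2) * Real.exp (-(32 * L)) := by
  have h1 : 1 < (1 - w).re := by
    simp only [sub_re, one_re, hw]
    norm_num
  have hz := zeta_eq_tsum_one_div_nat_add_one_cpow h1
  have hterm : ∀ n : ℕ, 1 / ((n : ℂ) + 1) ^ (1 - w) = ((n + 1 : ℕ) : ℂ) ^ (w - 1) := by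
    intro n
    have e : (w - 1 : ℂ) = -(1 - w) := by ring
    rw [e, Complex.cpow_neg]
    push_cast
    rw [one_div]
  have hnorm : ∀ n : ℕ, ‖((n + 1 : ℕ) : ℂ) ^ (w - 1)‖ = 1 / ((n : ℝ) + 1) ^ 61 := by
    intro n
    rw [norm_natCast_cpow_of_pos (Nat.succ_pos n)]
    have e : (w - 1).re = -((61 : ℕ) : ℝ) := by
      simp only [sub_re, one_re, hw]
      norm_num
    rw [e, Real.rpow_neg (by positivity), Real.rpow_natCast, one_div]
    push_cast
    rfl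
  have hG : Gp g N w = ∑' n : ℕ, g (n + 1) * ((n + 1 : ℕ) : ℂ) ^ (w - 1) := by
    unfold Gp
    rw [tsum_eq_sum (s := Finset.range N) (fun n hn => by
      rw [hg0 (n + 1) (by
        rw [Finset.mem_range] at hn
        omega), zero_mul])]
    rw [Finset.range_eq_Ico, Finset.sum_Ico_add' (fun m : ℕ => g m * (m : ℂ) ^ (w - 1)) 0 N 1]
    apply Finset.sum_congr _ fun _ _ => rfl
    ext m
    simp only [Finset.mem_Icc, Finset.mem_Ico]
    omega
  have hsm : Summable (fun n : ℕ => 1 / ((n : ℝ) + 1) ^ 61) := by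
    have := (summable_nat_add_iff 1).2 (Real.summable_one_div_nat_pow.2 (by norm_num : 1 < 61))
    simpa using this
  have hs1 : Summable (fun n : ℕ => ((n + 1 : ℕ) : ℂ) ^ (w - 1)) := by
    refine Summable.of_norm ?_
    simp_rw [hnorm]
    exact hsm
  have hs2 : Summable (fun n : ℕ => g (n + 1) * ((n + 1 : ℕ) : ℂ) ^ (w - 1)) := by
    refine Summable.of_norm_bounded (hsm.mul_left Cs) fun n => ?_
    rw [norm_mul, hnorm]
    have := hgC (n + 1)
    gcongr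
  have hsq := summ_sq
  have hE0 : 0 < Real.exp (-(32 * L)) := Real.exp_pos _
  rw [hz, hG]
  simp_rw [hterm]
  rw [← hs1.tsum_sub hs2]
  have hb : ∀ n : ℕ, ‖((n + 1 : ℕ) : ℂ) ^ (w - 1) - g (n + 1) * ((n + 1 : ℕ) : ℂ) ^ (w - 1)‖ ≤
      (1 + Cs) * Real.exp (-(32 * L)) * (1 / ((n : ℝ) + 1) ^ 2) := by
    intro n
    have e : ((n + 1 : ℕ) : ℂ) ^ (w - 1) - g (n + 1) * ((n + 1 : ℕ) : ℂ) ^ (w - 1) =
        (1 - g (n + 1)) * ((n + 1 : ℕ) : ℂ) ^ (w - 1) := by ring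
    rw [e, norm_mul, hnorm]
    by_cases hl : Real.log ((n + 1 : ℕ) : ℝ) ≤ 11 / 20 * L
    · rw [hg1 (n + 1) (by omega) hl, sub_self, norm_zero, zero_mul]
      positivity
    · push Not at hl
      have h2 : ‖1 - g (n + 1)‖ ≤ 1 + Cs := by
        calc ‖1 - g (n + 1)‖ ≤ ‖(1 : ℂ)‖ + ‖g (n + 1)‖ := norm_sub_le _ _
          _ ≤ 1 + Cs := by
            rw [norm_one]
            have := hgC (n + 1)
            linarith
      have hn0 : (0 : ℝ) < (n : ℝ) + 1 := by positivity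
      have h3 : 1 / ((n : ℝ) + 1) ^ 61 ≤ Real.exp (-(32 * L)) * (1 / ((n : ℝ) + 1) ^ 2) := by
        have e2 : 1 / ((n : ℝ) + 1) ^ 61 = Real.exp (-((59 : ℕ) * Real.log ((n : ℝ) + 1))) *
            (1 / ((n : ℝ) + 1) ^ 2) := by
          rw [exp_neg_log hn0 59]
          rw [one_div_mul_one_div, ← pow_add]
        rw [e2]
        push_cast at hl
        have : Real.exp (-((59 : ℕ) * Real.log ((n : ℝ) + 1))) ≤ Real.exp (-(32 * L)) := by
          apply Real.exp_le_exp.2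
          push_cast
          nlinarith
        gcongr
      calc ‖1 - g (n + 1)‖ * (1 / ((n : ℝ) + 1) ^ 61)
          ≤ (1 + Cs) * (Real.exp (-(32 * L)) * (1 / ((n : ℝ) + 1) ^ 2)) := by gcongr
        _ = _ := by ring
  calc ‖∑' n : ℕ, (((n + 1 : ℕ) : ℂ) ^ (w - 1) - g (n + 1) * ((n + 1 : ℕ) : ℂ) ^ (w - 1))‖
      ≤ ∑' n : ℕ, (1 + Cs) * Real.exp (-(32 * L)) * (1 / ((n : ℝ) + 1) ^ 2) :=
        tsum_of_norm_bounded (hsq.mul_left _).hasSum hb
    _ = (1 + Cs) * (∑' n : ℕ, 1 / ((n : ℝ) + 1) ^ 2) * Real.exp (-(32 * L)) := by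
        rw [tsum_mul_left]
        ring

/-- the factor of the functional equation on the shifted line -/
lemma xf_line : ∃ C : ℝ, 0 < C ∧ ∀ R : ℝ, 1 ≤ R → ∃ T0 : ℝ, ∀ T : ℝ, T0 ≤ T → ∀ a y v : ℝ,
    |a| ≤ R / Real.log T → T / 20 ≤ v → v ≤ T →
    ‖XF (((1 / 2 + a - 1 / Real.log T : ℝ) : ℂ) + ((v + y : ℝ) : ℂ) * I)‖ ≤
      C * Real.exp (-(Real.log T * a)) * (1 + |y|) ^ 3 := by
  obtain ⟨C3, hC3, hloc⟩ := xf_local
  obtain ⟨C2, hC2, hgr⟩ := xf_growth 0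
  refine ⟨max (Real.exp 3) (C2 * 41 ^ 2), by positivity, fun R hR => ?_⟩
  refine ⟨max (Real.exp (10 + 10 * R + C3 * (R + 1))) (max 100 (40 * Real.exp R)),
    fun T hT a y v ha hv1 hv2 => ?_⟩
  have hT1 := (le_max_left _ _).trans hT
  have hT2 : 100 ≤ T := (le_max_left _ _).trans ((le_max_right _ _).trans hT)
  have hT3 : 40 * Real.exp R ≤ T := (le_max_right _ _).trans ((le_max_right _ _).trans hT)
  have hT0 : 0 < T := by linarith
  set L := Real.log T with hL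
  have hLT : 10 + 10 * R + C3 * (R + 1) ≤ L := by
    rw [hL, Real.le_log_iff_exp_le hT0]
    exact hT1
  have hCR : 0 ≤ C3 * (R + 1) := by positivity
  have hL0 : 0 < L := by linarith
  have hRL : (R + 1) / L ≤ 1 / 8 := by
    rw [div_le_iff₀ hL0]
    linarith
  set θ : ℝ := a - 1 / L with hθ
  have hθ1 : |θ| ≤ (R + 1) / L := by
    calc |θ| ≤ |a| + |1 / L| := abs_sub _ _
      _ ≤ R / L + 1 / L := by
          rw [abs_of_pos (by positivity : (0 : ℝ) < 1 / L)]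
          gcongr
      _ = (R + 1) / L := by ring
  have hθ2 := abs_le.1 (hθ1.trans hRL)
  have haL : |L * a| ≤ R := by
    rw [abs_mul, abs_of_pos hL0]
    calc L * |a| ≤ L * (R / L) := by gcongr
      _ = R := by field_simp
  have haL2 := abs_le.1 haL
  have hsig : (1 / 2 + a - 1 / L : ℝ) = 1 / 2 + θ := by rw [hθ]; ring
  rw [hsig]
  have hM1 : Real.exp 3 ≤ max (Real.exp 3) (C2 * 41 ^ 2) := le_max_left _ _
  have hM2 : C2 * 41 ^ 2 ≤ max (Real.exp 3) (C2 * 41 ^ 2) := le_max_right _ _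
  set M := max (Real.exp 3) (C2 * 41 ^ 2) with hM
  have hM0 : 0 < M := lt_of_lt_of_le (Real.exp_pos 3) hM1
  have hy0 := abs_nonneg y
  rcases le_or_gt |y| (v / 2) with hy | hy
  · have hy2 := abs_le.1 hy
    have hvy1 : T / 40 ≤ v + y := by linarith
    have hvy2 : v + y ≤ 2 * T := by linarith
    have hvy0 : 0 < v + y := by linarith
    have habs : |v + y| = v + y := abs_of_pos hvy0
    have h4 := (hloc (1 / 2 + θ) (v + y) (by linarith) (by linarith) (by rw [habs]; linarith)).2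
    have e1 : (1 / 2 + θ - 1 / 2 : ℝ) = θ := by ring
    have e2 : (1 / 2 - (1 / 2 + θ) : ℝ) = -θ := by ring
    rw [e1, e2, habs] at h4
    have h5 : Real.exp (C3 * |θ|) ≤ Real.exp 1 := by
      apply Real.exp_le_exp.2
      calc C3 * |θ| ≤ C3 * ((R + 1) / L) := by gcongr
        _ = (C3 * (R + 1)) / L := by ring
        _ ≤ 1 := by
            rw [div_le_one hL0]
            linarith
    have h6 : (v + y) ^ (-θ) ≤ Real.exp (-(L * a) + 2) := by
      rw [Real.rpow_def_of_pos hvy0]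
      apply Real.exp_le_exp.2
      set e := Real.log ((v + y) / T) with he
      have hlog : Real.log (v + y) = L + e := by
        rw [he, Real.log_div hvy0.ne' hT0.ne', hL]
        ring
      have he1 : |e| ≤ 4 := by
        rw [abs_le]
        constructor
        · rw [he, Real.le_log_iff_exp_le (by positivity)]
          have : Real.exp (-4) ≤ 1 / 40 := by
            rw [Real.exp_neg, inv_eq_one_div]
            apply one_div_le_one_div_of_le (by norm_num)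
            have h7 : (2.7182818283 : ℝ) < Real.exp 1 := Real.exp_one_gt_d9
            have h8 : Real.exp 4 = Real.exp 1 ^ 4 := by
              rw [← Real.exp_nat_mul]
              norm_num
            rw [h8]
            calc (40 : ℝ) ≤ 2.7182818283 ^ 4 := by norm_num
              _ ≤ Real.exp 1 ^ 4 := by gcongr
          refine this.trans ?_
          rw [le_div_iff₀ hT0]
          linarith
        · rw [he, Real.log_le_iff_le_exp (by positivity)]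
          have h7 : (v + y) / T ≤ 2 := by
            rw [div_le_iff₀ hT0]
            linarith
          have h8 := Real.add_one_le_exp (4 : ℝ)
          linarith
      rw [hlog]
      have h9 : |θ * e| ≤ 1 := by
        rw [abs_mul]
        calc |θ| * |e| ≤ (1 / 8) * 4 := by
              have := hθ1.trans hRL
              gcongr
          _ ≤ 1 := by norm_num
      have h10 := abs_le.1 h9
      have h11 : L * θ = L * a - 1 := by
        rw [hθ]
        field_simp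
      nlinarith
    calc ‖XF (((1 / 2 + θ : ℝ) : ℂ) + ((v + y : ℝ) : ℂ) * I)‖
        ≤ Real.exp (C3 * |θ|) * (v + y) ^ (-θ) := h4
      _ ≤ Real.exp 1 * Real.exp (-(L * a) + 2) := by gcongr
      _ = Real.exp 3 * Real.exp (-(L * a)) * 1 := by
          rw [mul_one, ← Real.exp_add, ← Real.exp_add]
          congr 1
          ring
      _ ≤ M * Real.exp (-(L * a)) * (1 + |y|) ^ 3 := by
          have : (1 : ℝ) ≤ (1 + |y|) ^ 3 := one_le_pow₀ (by linarith)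
          gcongr
  · have hyT : T / 40 ≤ |y| := by linarith
    have hre : (((1 / 2 + θ : ℝ) : ℂ) + ((v + y : ℝ) : ℂ) * I).re = 1 / 2 + θ := by simp
    have him : (((1 / 2 + θ : ℝ) : ℂ) + ((v + y : ℝ) : ℂ) * I).im = v + y := by simp
    have h4 := hgr (((1 / 2 + θ : ℝ) : ℂ) + ((v + y : ℝ) : ℂ) * I) (by
      rw [hre]
      push_cast
      linarith) (by
      rw [hre]
      linarith)
    rw [him] at h4
    have h5 : 1 + |v + y| ≤ 41 * (1 + |y|) := by
      have h6 : |v + y| ≤ v + |y| := by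
        calc |v + y| ≤ |v| + |y| := abs_add_le _ _
          _ = v + |y| := by rw [abs_of_pos (by linarith)]
      linarith
    have h7 : 1 ≤ Real.exp (-(L * a)) * (1 + |y|) := by
      have h8 : Real.exp (-R) ≤ Real.exp (-(L * a)) := by
        apply Real.exp_le_exp.2
        linarith
      have h9 : Real.exp R ≤ 1 + |y| := by linarith
      calc (1 : ℝ) = Real.exp (-R) * Real.exp R := by
            rw [← Real.exp_add]
            simp
        _ ≤ Real.exp (-(L * a)) * (1 + |y|) := by gcongr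
    have h10 : 0 ≤ (1 + |y|) ^ 2 := by positivity
    calc ‖XF (((1 / 2 + θ : ℝ) : ℂ) + ((v + y : ℝ) : ℂ) * I)‖
        ≤ C2 * (1 + |v + y|) ^ (0 + 2) := h4
      _ ≤ C2 * (41 * (1 + |y|)) ^ 2 := by
          have : (1 + |v + y|) ^ (0 + 2) ≤ (41 * (1 + |y|)) ^ 2 := by
            have h0 : 0 ≤ 1 + |v + y| := by positivity
            rw [zero_add]
            gcongr
          gcongr
      _ = (C2 * 41 ^ 2) * (1 + |y|) ^ 2 * 1 := by ring
      _ ≤ M * (1 + |y|) ^ 2 * (Real.exp (-(L * a)) * (1 + |y|)) := by gcongr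
      _ = M * Real.exp (-(L * a)) * (1 + |y|) ^ 3 := by ring

end AFEaux


namespace AFEaux

lemma gz_real (L : ℝ) (m : ℕ) : (starRingEnd ℂ) (gz L m) = gz L m := by
  unfold gz
  exact Complex.conj_ofReal _

lemma kz_cont (L : ℝ) (hL : 0 < L) : Continuous (kz L) := by
  unfold kz
  have h1 : Continuous (fun y : ℝ => ((-(1 / L) : ℝ) : ℂ) + y * I) := by fun_prop
  refine ((ker_diff _ _ _).continuous.comp h1).div h1 fun y h => ?_
  have h2 := congrArg Complex.re h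
  have h3 : 0 < 1 / L := by positivity
  simp only [add_re, ofReal_re, mul_re, I_re, mul_zero, ofReal_im, I_im, mul_one, sub_self,
    add_zero, zero_re] at h2
  linarith

/-- integrability of the right hand side -/
lemma rhs_int {L : ℝ} (hL : 1 ≤ L) {D : ℝ → ℂ} (hD : Continuous D) {B : ℝ} (hB : ∀ y, ‖D y‖ ≤ B) :
    Integrable (fun y : ℝ => ‖kz L y‖ * (1 + |y|) ^ 3 * ‖D y‖) := by
  obtain ⟨C, _, h⟩ := ker_norm 100 3 (by norm_num) (θ := 1 / 2000) (by norm_num)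
  have hL0 : 0 < L := by linarith
  have hc : (-(1 / L) : ℝ) ≠ 0 := by
    have : 0 < 1 / L := by positivity
    linarith
  have h1 := (h L hL (11 / 20 * L) (-(1 / L)) hc).1
  have hδ : (1 / 2000 * L : ℝ) = L / 20 / K0 := by
    have : (K0 : ℝ) = 100 := by norm_num [K0]
    rw [this]
    ring
  rw [hδ] at h1
  have hB0 : 0 ≤ B := (norm_nonneg _).trans (hB 0)
  refine (h1.mul_const B).mono' ?_ (Filter.Eventually.of_forall fun y => ?_)
  · apply Continuous.aestronglyMeasurable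
    have := kz_cont L hL0
    fun_prop
  · rw [Real.norm_of_nonneg (by positivity)]
    have h2 : (1 : ℝ) ≤ (1 + L * ‖((-(1 / L) : ℝ) : ℂ) + y * I‖) ^ 8 := by
      apply one_le_pow₀
      have : 0 ≤ L * ‖((-(1 / L) : ℝ) : ℂ) + y * I‖ := by positivity
      linarith
    have h3 := hB y
    have e : ‖ker (11 / 20 * L) (L / 20 / K0) 100 (((-(1 / L) : ℝ) : ℂ) + y * I) /
        (((-(1 / L) : ℝ) : ℂ) + y * I)‖ = ‖kz L y‖ := rfl
    rw [e]
    calc ‖kz L y‖ * (1 + |y|) ^ 3 * ‖D y‖ = ‖kz L y‖ * (1 + |y|) ^ 3 * 1 * ‖D y‖ := by ring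
      _ ≤ ‖kz L y‖ * (1 + |y|) ^ 3 * (1 + L * ‖((-(1 / L) : ℝ) : ℂ) + y * I‖) ^ 8 * B := by
          gcongr

end AFEaux

theorem afe : ∃ C : ℝ, 0 < C ∧ ∀ R : ℝ, 1 ≤ R → ∃ T0 : ℝ, ∀ T : ℝ, T0 ≤ T → ∀ α : ℂ,
    |α.re| ≤ R / Real.log T → ∀ t : ℝ, T / 20 ≤ t + α.im → t + α.im ≤ T →
    ‖riemannZeta (1 / 2 + α + t * I)‖ ≤ ‖dp (tw (gz (Real.log T)) (-α)) ⌊T ^ (3 / 5 : ℝ)⌋₊ t‖ +
      C * Real.exp (-(Real.log T * α.re)) * (∫ y : ℝ, ‖kz (Real.log T) y‖ * (1 + |y|) ^ 3 *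
        ‖dp (tw (gz (Real.log T)) ((starRingEnd ℂ) α + (starRingEnd ℂ) (((-(1 / Real.log T) : ℝ) : ℂ) + y * I)))
          ⌊T ^ (3 / 5 : ℝ)⌋₊ t‖) + 1 / T := by
  obtain ⟨Cx, hCx, hline⟩ := xf_line
  obtain ⟨C1, hC1, hX1⟩ := xf_growth 60
  obtain ⟨Cs, hCs, hspl⟩ := spl_bound 100 (by norm_num)
  have hX : ∀ w : ℂ, -(60 : ℝ) ≤ w.re → w.re ≤ 3 / 4 → ‖XF w‖ ≤ C1 * (1 + |w.im|) ^ 62 := by
    intro w h1 h2
    exact hX1 w (by push_cast; exact h1) h2
  refine ⟨Cx, hCx, fun R hR => ?_⟩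
  obtain ⟨T1, hT1⟩ := hline R hR
  set Sq : ℝ := ∑' n : ℕ, 1 / ((n : ℝ) + 1) ^ 2 with hSq
  have hSq0 : 0 ≤ Sq := tsum_nonneg fun n => by positivity
  set B0 : ℝ := C1 * ((1 + Cs) * Sq) with hB0
  have hB00 : 0 ≤ B0 := by positivity
  set B : ℝ := B0 * 2 ^ 62 * 4 ^ 100 with hB
  have hBB : 0 ≤ B := by positivity
  refine ⟨max (max T1 (Real.exp (2000 + 8 * R))) (max 1600 B), fun T hT α hα t ht1 ht2 => ?_⟩
  have hTT1 : T1 ≤ T := (le_max_left _ _).trans ((le_max_left _ _).trans hT)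
  have hTe : Real.exp (2000 + 8 * R) ≤ T := (le_max_right _ _).trans ((le_max_left _ _).trans hT)
  have hT2 : 1600 ≤ T := (le_max_left _ _).trans ((le_max_right _ _).trans hT)
  have hT3 : B ≤ T := (le_max_right _ _).trans ((le_max_right _ _).trans hT)
  have hT0 : 0 < T := by linarith
  have hxf := hT1 T hTT1
  set L := Real.log T with hL
  have hLT : 2000 + 8 * R ≤ L := by
    rw [hL, Real.le_log_iff_exp_le hT0]
    exact hTe
  have hL0 : 0 < L := by linarith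
  have hRL : R / L ≤ 1 / 8 := by
    rw [div_le_iff₀ hL0]
    linarith
  have hLi : 1 / L ≤ 1 / 8 := by
    rw [div_le_iff₀ hL0]
    linarith
  have hLi0 : 0 < 1 / L := by positivity
  set ρ : ℂ := 1 / 2 + α + t * I with hρ
  have hre : ρ.re = 1 / 2 + α.re := by simp [hρ]
  have him : ρ.im = t + α.im := by
    simp [hρ]
    ring
  have hα' := abs_le.1 (hα.trans hRL)
  have h1 : 1 / 4 ≤ ρ.re := by rw [hre]; linarith
  have h2 : ρ.re < 1 := by rw [hre]; linarith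
  have h2' : ρ.re ≤ 3 / 4 := by rw [hre]; linarith
  have h3 : T / 20 ≤ ρ.im := by rw [him]; exact ht1
  have h3' : ρ.im ≤ T := by rw [him]; exact ht2
  have h3'' : 1 ≤ ρ.im := by linarith
  set b : ℝ := 11 / 20 * L with hb
  set δ : ℝ := L / 20 / K0 with hδ
  have hK0 : (K0 : ℝ) = 100 := by norm_num [K0]
  have hb0 : 0 ≤ b := by positivity
  have hδ1 : 1 ≤ δ := by
    rw [hδ, hK0]
    linarith
  have hδ0 : 0 < δ := by linarith
  have hbk : b + (100 : ℕ) * δ = 3 / 5 * L := by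
    rw [hb, hδ, hK0]
    push_cast
    ring
  set N : ℕ := ⌊T ^ (3 / 5 : ℝ)⌋₊ with hNdef
  have hN : b + (100 : ℕ) * δ ≤ Real.log ((N : ℝ) + 1) := by
    rw [hbk]
    exact log_floor (by linarith)
  have hcore := afe_core 60 100 (by norm_num) (by norm_num) b hδ0 N hN h1 h2 h3''
  have hcint := afe_core_int 60 100 (by norm_num) (by norm_num) b hδ0 h1 (ρ := ρ)
  have hsum : dp (tw (gz L) (-α)) N t =
      ∑ m ∈ Finset.Icc 1 N, (spl b δ 100 (Real.log m) : ℂ) * (m : ℂ) ^ (-ρ) := by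
    rw [tw_dp]
    refine Finset.sum_congr rfl fun m _ => ?_
    have e : -α - ((1 / 2 : ℂ) + t * I) = -ρ := by
      rw [hρ]
      ring
    rw [e]
    rfl
  -- properties of the weights
  have hg1 : ∀ m : ℕ, 1 ≤ m → Real.log m ≤ 11 / 20 * L → gz L m = 1 := by
    intro m _ hm
    unfold gz
    rw [spl_eq_one (by exact hδ0) K0 hm]
    simp
  have hg0 : ∀ m : ℕ, N < m → gz L m = 0 := by
    intro m hm
    unfold gz
    have hm' : (N : ℝ) + 1 ≤ m := by exact_mod_cast hm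
    have h4 : b + (K0 : ℝ) * δ ≤ Real.log m := by
      have h5 : Real.log ((N : ℝ) + 1) ≤ Real.log m := Real.log_le_log (by positivity) hm'
      have h6 : ((100 : ℕ) : ℝ) = (K0 : ℝ) := by norm_num [K0]
      rw [← h6]
      exact hN.trans h5
    rw [spl_eq_zero hδ0 K0 (by norm_num [K0]) h4]
    simp
  have hgC : ∀ m : ℕ, ‖gz L m‖ ≤ Cs := by
    intro m
    unfold gz
    rw [Complex.norm_real, Real.norm_eq_abs]
    exact hspl _ _ _ hδ0
  -- the two parts of the integral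
  set F : ℂ → ℂ := fun w => XF w * Gp (gz L) N w * (ker b δ 100 (w - ρ) / (w - ρ)) with hF
  obtain ⟨Kf, hKf0, hKf⟩ := F_bound (g := gz L) (N := N) hC1.le hb0 hδ0 hL0 h2' (by linarith) hX
  set U : Set ℂ := {w : ℂ | w.re < ρ.re} with hU
  have hUo : IsOpen U := isOpen_lt Complex.continuous_re continuous_const
  have hFd : DifferentiableOn ℂ F U := by
    refine DifferentiableOn.mul (DifferentiableOn.mul ?_ (Gp_diff _ _).differentiableOn) ?_
    · refine xf_diff.mono fun w hw => ?_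
      exact lt_trans hw h2
    · refine DifferentiableOn.div ?_ (by fun_prop) ?_
      · exact ((ker_diff b δ 100).comp (differentiable_id.sub_const ρ)).differentiableOn
      · intro w hw h0
        have : w = ρ := sub_eq_zero.1 h0
        rw [this] at hw
        exact absurd (show ρ.re < ρ.re from hw) (lt_irrefl _)
  have hshift := shift_poly_on (F := F) (a := -60) (b := ρ.re - 1 / L) (K := Kf) (by linarith) hUo
    (fun s _ hs => by
      have : s.re < ρ.re := by linarith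
      exact this) hFd (fun s hs1 hs2 => hKf s hs1 hs2)
  have hline60 : ∀ s : ℝ, (((-60 : ℝ) : ℂ) + s * I) = -((60 : ℕ) : ℂ) + s * I := by
    intro s
    push_cast
    ring
  have hFcont : Continuous (fun s : ℝ => F (-((60 : ℕ) : ℂ) + s * I)) := by
    refine hFd.continuousOn.comp_continuous (by fun_prop) fun s => ?_
    have : (-((60 : ℕ) : ℂ) + s * I).re = -60 := by simp
    show (-((60 : ℕ) : ℂ) + s * I).re < ρ.re
    rw [this]
    linarith
  have hFint : Integrable (fun s : ℝ => F (-((60 : ℕ) : ℂ) + s * I)) := by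
    refine int_of_bound hFcont (K := Kf) fun s => ?_
    have e1 : (-((60 : ℕ) : ℂ) + s * I).re = -60 := by simp
    have e2 : (-((60 : ℕ) : ℂ) + s * I).im = s := by simp
    have := hKf (-((60 : ℕ) : ℂ) + s * I) (by rw [e1]) (by rw [e1]; linarith)
    rwa [e2] at this
  set f2 : ℝ → ℂ := fun s => riemannZeta (-((60 : ℕ) : ℂ) + s * I) -
    XF (-((60 : ℕ) : ℂ) + s * I) * Gp (gz L) N (-((60 : ℕ) : ℂ) + s * I) with hf2
  have hsplit : (∫ s : ℝ, riemannZeta (-((60 : ℕ) : ℂ) + s * I) *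
        (ker b δ 100 (-((60 : ℕ) : ℂ) + s * I - ρ) / (-((60 : ℕ) : ℂ) + s * I - ρ))) =
      (∫ s : ℝ, F (-((60 : ℕ) : ℂ) + s * I)) +
      ∫ s : ℝ, f2 s * (ker b δ 100 (-((60 : ℕ) : ℂ) + s * I - ρ) / (-((60 : ℕ) : ℂ) + s * I - ρ)) := by
    have e : ∀ s : ℝ, f2 s * (ker b δ 100 (-((60 : ℕ) : ℂ) + s * I - ρ) / (-((60 : ℕ) : ℂ) + s * I - ρ)) =
        riemannZeta (-((60 : ℕ) : ℂ) + s * I) *
        (ker b δ 100 (-((60 : ℕ) : ℂ) + s * I - ρ) / (-((60 : ℕ) : ℂ) + s * I - ρ)) -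
        F (-((60 : ℕ) : ℂ) + s * I) := by
      intro s
      rw [hf2, hF]
      ring
    simp_rw [e]
    rw [integral_sub hcint hFint]
    ring
  have hf2b : ∀ s : ℝ, ‖f2 s‖ ≤ (B0 * Real.exp (-(32 * L))) * (1 + |s|) ^ (60 + 2) := by
    intro s
    set w : ℂ := -((60 : ℕ) : ℂ) + s * I with hw
    have e1 : w.re = -60 := by simp [hw]
    have e2 : w.im = s := by simp [hw]
    have hw0 : w ≠ 0 := by
      intro h0
      rw [h0, zero_re] at e1
      norm_num at e1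
    have e3 : f2 s = XF w * (riemannZeta (1 - w) - Gp (gz L) N w) := by
      have : f2 s = riemannZeta w - XF w * Gp (gz L) N w := rfl
      rw [this, xf_eq hw0 (by rw [e1]; norm_num)]
      ring
    rw [e3, norm_mul]
    have h5 := tail_bd hL0.le (by linarith : (0 : ℝ) ≤ Cs) hg1 hg0 hgC e1
    have h6 := hX w (by rw [e1]) (by rw [e1]; norm_num)
    rw [e2] at h6
    calc ‖XF w‖ * ‖riemannZeta (1 - w) - Gp (gz L) N w‖
        ≤ (C1 * (1 + |s|) ^ 62) * ((1 + Cs) * Sq * Real.exp (-(32 * L))) := by gcongr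
      _ = (B0 * Real.exp (-(32 * L))) * (1 + |s|) ^ (60 + 2) := by
          rw [hB0]
          ring
  have hI := int_left 60 100 (by norm_num) (by norm_num) hb0 hδ1 h1 (by linarith)
    (by positivity : 0 ≤ B0 * Real.exp (-(32 * L))) hf2b
  have hexp1 : Real.exp (-((60 : ℕ) * b)) = 1 / T ^ 33 := by
    rw [← exp_neg_log hT0 33, hb]
    congr 1
    push_cast
    ring
  have hexp2 : Real.exp (-(32 * L)) = 1 / T ^ 32 := by
    rw [← exp_neg_log hT0 32]
    congr 1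
  have hpi := Real.pi_pos
  have hpi1 : 1 / (2 * Real.pi) ≤ 1 := by
    rw [div_le_one (by positivity)]
    have := Real.pi_gt_three
    linarith
  have hpn : ‖(1 / (2 * Real.pi) : ℂ)‖ = 1 / (2 * Real.pi) := by
    rw [norm_div, norm_mul, norm_one, Complex.norm_real, Real.norm_eq_abs, abs_of_pos hpi]
    simp
  have hI2 : 1 / (2 * Real.pi) * ‖∫ s : ℝ, f2 s *
      (ker b δ 100 (-((60 : ℕ) : ℂ) + s * I - ρ) / (-((60 : ℕ) : ℂ) + s * I - ρ))‖ ≤ 1 / (2 * T) := by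
    have e2 : (1 + ρ.im) ^ (60 + 2) ≤ (2 * T) ^ 62 := by
      have : 1 + ρ.im ≤ 2 * T := by linarith
      gcongr
    calc 1 / (2 * Real.pi) * _ ≤ 1 / (2 * Real.pi) *
          (B0 * Real.exp (-(32 * L)) * (1 + ρ.im) ^ (60 + 2) * Real.exp (-((60 : ℕ) * b)) * 4 ^ 100 *
            Real.pi) := by gcongr
      _ ≤ 1 / (2 * Real.pi) * (B0 * (1 / T ^ 32) * (2 * T) ^ 62 * (1 / T ^ 33) * 4 ^ 100 * Real.pi) := by
          rw [hexp1, hexp2]
          gcongr
      _ = B / (2 * T ^ 3) := by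
          rw [hB]
          field_simp
      _ ≤ 1 / (2 * T) := by
          rw [div_le_div_iff₀ (by positivity) (by positivity)]
          have h5 : B ≤ T ^ 2 := by
            calc B ≤ T := hT3
              _ = T ^ 1 := (pow_one T).symm
              _ ≤ T ^ 2 := pow_le_pow_right₀ (by linarith) (by norm_num)
          calc B * (2 * T) ≤ T ^ 2 * (2 * T) := by gcongr
            _ = 1 * (2 * T ^ 3) := by ring
  have hO2 : ‖ker b δ 100 (1 - ρ) / (1 - ρ)‖ ≤ 1 / (2 * T) := by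
    have hO := ker_one 50 hb0 hδ1 hT2 h1 h2 h3
    have e0 : (2 * 50 : ℕ) = 100 := by norm_num
    rw [e0] at hO
    refine hO.trans ?_
    rw [hbk]
    have e1 : Real.exp (3 / 5 * L * (3 / 4)) ≤ T := by
      calc Real.exp (3 / 5 * L * (3 / 4)) ≤ Real.exp L := by
            apply Real.exp_le_exp.2
            linarith
        _ = T := Real.exp_log hT0
    have e2 : (1 / T) ^ 50 ≤ 1 / T ^ 3 := by
      rw [one_div_pow]
      apply one_div_le_one_div_of_le (by positivity)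
      exact pow_le_pow_right₀ (by linarith) (by norm_num)
    calc Real.exp (3 / 5 * L * (3 / 4)) * (1 / T) ^ 50 ≤ T * (1 / T ^ 3) := by gcongr
      _ = 1 / T ^ 2 := by field_simp
      _ ≤ 1 / (2 * T) := by
          apply one_div_le_one_div_of_le (by positivity)
          nlinarith
  -- the main integral
  set D : ℝ → ℂ := fun y => dp (tw (gz L) ((starRingEnd ℂ) α +
    (starRingEnd ℂ) (((-(1 / L) : ℝ) : ℂ) + y * I))) N t with hD
  have hwy : ∀ y : ℝ, (((ρ.re - 1 / L : ℝ) : ℂ) + ((y + ρ.im : ℝ) : ℂ) * I) =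
      ρ + (((-(1 / L) : ℝ) : ℂ) + y * I) := by
    intro y
    apply Complex.ext
    · simp
      ring
    · simp
      ring
  have hDn : ∀ y : ℝ, ‖Gp (gz L) N (ρ + (((-(1 / L) : ℝ) : ℂ) + y * I))‖ = ‖D y‖ := by
    intro y
    exact Gp_dp (gz_real L) N α _ t
  have hDcont : Continuous (fun y : ℝ => ‖D y‖) := by
    have : (fun y : ℝ => ‖D y‖) = fun y : ℝ => ‖Gp (gz L) N (ρ + (((-(1 / L) : ℝ) : ℂ) + y * I))‖ := by
      funext y
      exact (hDn y).symm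
    rw [this]
    exact ((Gp_diff (gz L) N).continuous.comp (by fun_prop)).norm
  have hDcont' : Continuous (fun y : ℝ => ((‖D y‖ : ℝ) : ℂ)) := Complex.continuous_ofReal.comp hDcont
  have hDb : ∀ y : ℝ, ‖((‖D y‖ : ℝ) : ℂ)‖ ≤ ∑ m ∈ Finset.Icc 1 N, ‖gz L m‖ := by
    intro y
    rw [Complex.norm_real, norm_norm, ← hDn y]
    apply Gp_norm
    have e : (((ρ.re - 1 / L : ℝ) : ℂ) + ((y + ρ.im : ℝ) : ℂ) * I).re = ρ.re - 1 / L := by
      rw [Complex.add_re, Complex.ofReal_re, Complex.re_ofReal_mul, Complex.I_re, mul_zero, add_zero]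
    rw [← hwy y, e]
    linarith
  have hrint := rhs_int (by linarith : 1 ≤ L) hDcont' hDb
  simp only [Complex.norm_real, norm_norm] at hrint
  have hmain : ‖∫ s : ℝ, F (-((60 : ℕ) : ℂ) + s * I)‖ ≤
      Cx * Real.exp (-(L * α.re)) * ∫ y : ℝ, ‖kz L y‖ * (1 + |y|) ^ 3 * ‖D y‖ := by
    have e1 : (∫ s : ℝ, F (-((60 : ℕ) : ℂ) + s * I)) = ∫ s : ℝ, F (((-60 : ℝ) : ℂ) + s * I) := by
      simp_rw [hline60]
    rw [e1, hshift, ← integral_add_right_eq_self
      (fun s : ℝ => F (((ρ.re - 1 / L : ℝ) : ℂ) + s * I)) ρ.im, ← integral_const_mul]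
    refine norm_integral_le_of_norm_le (hrint.const_mul _) (Filter.Eventually.of_forall fun y => ?_)
    rw [hwy y, hF]
    simp only
    rw [norm_mul, norm_mul, hDn y, add_sub_cancel_left]
    have h7 := hxf α.re y ρ.im hα h3 h3'
    have e2 : (((1 / 2 + α.re - 1 / L : ℝ) : ℂ) + ((ρ.im + y : ℝ) : ℂ) * I) =
        ρ + (((-(1 / L) : ℝ) : ℂ) + y * I) := by
      rw [← hwy y, hre, add_comm y ρ.im]
    rw [e2] at h7
    have e3 : ‖ker b δ 100 (((-(1 / L) : ℝ) : ℂ) + y * I) / (((-(1 / L) : ℝ) : ℂ) + y * I)‖ = ‖kz L y‖ := rfl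
    rw [e3]
    calc ‖XF (ρ + (((-(1 / L) : ℝ) : ℂ) + y * I))‖ * ‖D y‖ * ‖kz L y‖
        ≤ (Cx * Real.exp (-(L * α.re)) * (1 + |y|) ^ 3) * ‖D y‖ * ‖kz L y‖ := by gcongr
      _ = Cx * Real.exp (-(L * α.re)) * (‖kz L y‖ * (1 + |y|) ^ 3 * ‖D y‖) := by ring
  -- assembly
  have hcore2 := hcore
  rw [← hsum, hsplit] at hcore2
  rw [hcore2]
  set J1 := ∫ s : ℝ, F (-((60 : ℕ) : ℂ) + s * I) with hJ1
  set J2 := ∫ s : ℝ, f2 s *
      (ker b δ 100 (-((60 : ℕ) : ℂ) + s * I - ρ) / (-((60 : ℕ) : ℂ) + s * I - ρ)) with hJ2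
  set O := ker b δ 100 (1 - ρ) / (1 - ρ) with hO
  set D0 := dp (tw (gz L) (-α)) N t with hD0
  have hJ1' : 1 / (2 * Real.pi) * ‖J1‖ ≤
      Cx * Real.exp (-(L * α.re)) * ∫ y : ℝ, ‖kz L y‖ * (1 + |y|) ^ 3 * ‖D y‖ := by
    refine le_trans ?_ hmain
    calc 1 / (2 * Real.pi) * ‖J1‖ ≤ 1 * ‖J1‖ := by gcongr
      _ = ‖J1‖ := one_mul _
  have e9 : D0 - (1 / (2 * Real.pi) : ℂ) * (J1 + J2) - O =
      D0 + (-((1 / (2 * Real.pi) : ℂ) * J1)) + (-((1 / (2 * Real.pi) : ℂ) * J2) + (-O)) := by ring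
  rw [e9]
  have n1 : ‖-((1 / (2 * Real.pi) : ℂ) * J1)‖ = 1 / (2 * Real.pi) * ‖J1‖ := by
    rw [norm_neg, norm_mul, hpn]
  have n2 : ‖-((1 / (2 * Real.pi) : ℂ) * J2)‖ = 1 / (2 * Real.pi) * ‖J2‖ := by
    rw [norm_neg, norm_mul, hpn]
  calc ‖D0 + (-((1 / (2 * Real.pi) : ℂ) * J1)) + (-((1 / (2 * Real.pi) : ℂ) * J2) + (-O))‖
      ≤ ‖D0 + (-((1 / (2 * Real.pi) : ℂ) * J1))‖ + ‖-((1 / (2 * Real.pi) : ℂ) * J2) + (-O)‖ :=
        norm_add_le _ _
    _ ≤ (‖D0‖ + ‖-((1 / (2 * Real.pi) : ℂ) * J1)‖) + (‖-((1 / (2 * Real.pi) : ℂ) * J2)‖ + ‖-O‖) :=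
        add_le_add (norm_add_le _ _) (norm_add_le _ _)
    _ ≤ (‖D0‖ + Cx * Real.exp (-(L * α.re)) * ∫ y : ℝ, ‖kz L y‖ * (1 + |y|) ^ 3 * ‖D y‖) +
        (1 / (2 * T) + 1 / (2 * T)) := by
        rw [n1, n2, norm_neg]
        exact add_le_add (add_le_add le_rfl hJ1') (add_le_add hI2 hO2)
    _ = ‖D0‖ + Cx * Real.exp (-(L * α.re)) * (∫ y : ℝ, ‖kz L y‖ * (1 + |y|) ^ 3 * ‖D y‖) + 1 / T := by
        have : 1 / (2 * T) + 1 / (2 * T) = 1 / T := by
          field_simp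
          ring
        rw [this]

end Pool.Agent.P4f18dfS
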