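import Pool.Agent.Lib.P4f18dfS.KerNorm
import Pool.Agent.Lib.P4f18dfS.ZPoly
import Pool.Agent.Lib.P4f18dfS.ShiftPoly

/-!
# Smoothed Dirichlet series for zeta

Let `z = s - ρ`. For `Re s = 2`: `∫ ζ(s) ker(s-ρ)/(s-ρ) dt = 2π ∑_m m^{-ρ} spl(log m)` (`spl_rep`). Shift to `Re s = -n`:
as `ζ(s)/(s-ρ) = (zE(s)/(s-ρ) - zE(s)/(s-1))/(ρ-1)`, apply `shift_pole_poly` with `F(s) = zE(s) ker(s-ρ)` at the pole `ρ` and
at the pole `1`.
-/

set_option autoImplicit false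

open Complex MeasureTheory

namespace Pool.Agent.P4f18dfS

open Pool.Agent.P4f18dfV

namespace AFECoreAux

/-- Decay of the kernel on vertical strips. -/
lemma ker_decay {A : ℝ} (hA : 0 ≤ A) (k : ℕ) (b : ℝ) {δ : ℝ} (hδ : 0 < δ) : ∃ E : ℝ, 0 < E ∧ ∀ z : ℂ,
    -A ≤ z.re → z.re ≤ 2 → ‖ker b δ k z‖ ≤ E / (1 + ‖z‖) ^ k := by
  set e0 : ℝ := |b| * (A + 2) + k * δ * 2 with he0
  have hd : 0 < 1 + 2 / δ := by positivity
  refine ⟨Real.exp e0 * (1 + 2 / δ) ^ k, by positivity, ?_⟩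
  intro z h1 h2
  have hexp : Real.exp (b * z.re + k * δ * max z.re 0) ≤ Real.exp e0 := by
    rw [Real.exp_le_exp, he0]
    have hb : b * z.re ≤ |b| * (A + 2) := by
      calc b * z.re ≤ |b * z.re| := le_abs_self _
        _ = |b| * |z.re| := abs_mul _ _
        _ ≤ |b| * (A + 2) := by
            refine mul_le_mul_of_nonneg_left ?_ (abs_nonneg _)
            rw [abs_le]
            constructor <;> linarith
    have hm : max z.re 0 ≤ 2 := max_le h2 (by norm_num)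
    have hkd : (0 : ℝ) ≤ k * δ := by positivity
    have := mul_le_mul_of_nonneg_left hm hkd
    linarith
  have hz0 : 0 ≤ ‖z‖ := norm_nonneg z
  have hz1 : 0 < 1 + ‖z‖ := by linarith
  rcases le_or_gt ‖z‖ (2 / δ) with hz | hz
  · refine (ker_le b hδ k z).trans (hexp.trans ?_)
    rw [mul_div_assoc, ← div_pow]
    have : 1 ≤ (1 + 2 / δ) / (1 + ‖z‖) := by
      rw [le_div_iff₀ hz1]
      linarith
    exact le_mul_of_one_le_right (Real.exp_pos _).le (one_le_pow₀ this)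
  · have hpos : 0 < ‖z‖ := lt_of_le_of_lt (by positivity) hz
    have hzne : z ≠ 0 := norm_pos_iff.mp hpos
    refine (ker_le' b hδ k z hzne).trans ?_
    rw [mul_div_assoc, ← div_pow]
    refine mul_le_mul hexp ?_ (by positivity) (Real.exp_pos _).le
    refine pow_le_pow_left₀ (by positivity) ?_ k
    rw [div_le_div_iff₀ (by positivity) hz1]
    have h3 : 2 < δ * ‖z‖ := by
      rw [div_lt_iff₀ hδ] at hz
      linarith
    have e1 : (1 + 2 / δ) * (δ * ‖z‖) = δ * ‖z‖ + 2 * ‖z‖ := by field_simp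
    rw [e1]
    linarith

lemma line_re (a t : ℝ) : ((a : ℂ) + t * I).re = a := by simp

lemma line_im (a t : ℝ) : ((a : ℂ) + t * I).im = t := by simp

/-- Decay of `zE s * ker (s - ρ)`. -/
lemma F_decay (n k : ℕ) (hn : 1 ≤ n) (hk : n + 6 ≤ k) (b : ℝ) {δ : ℝ} (hδ : 0 < δ) {ρ : ℂ}
    (h1 : 0 ≤ ρ.re) : ∃ K : ℝ, 0 < K ∧ ∀ s : ℂ, -(n : ℝ) ≤ s.re → s.re ≤ 2 →
    ‖zE s * ker b δ k (s - ρ)‖ ≤ K / (1 + |s.im|) ^ 4 := by
  obtain ⟨C, hC, hCb⟩ := zE_poly n hn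
  obtain ⟨E, hE, hEb⟩ := ker_decay (A := n + ρ.re) (by positivity) k b hδ
  refine ⟨C * E * (1 + ‖ρ‖) ^ (n + 2) * (1 + |ρ.im|) ^ 4, by positivity, ?_⟩
  intro s hs1 hs2
  have h3 := hCb s hs1
  have h4 := hEb (s - ρ) (by rw [Complex.sub_re]; linarith) (by rw [Complex.sub_re]; linarith)
  set z := s - ρ with hz
  have hz0 : 0 ≤ ‖z‖ := norm_nonneg z
  have hz1 : 0 < 1 + ‖z‖ := by linarith
  have h5 : 1 + ‖s‖ ≤ (1 + ‖ρ‖) * (1 + ‖z‖) := by
    have : ‖s‖ ≤ ‖z‖ + ‖ρ‖ := by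
      have e : s = z + ρ := by rw [hz]; ring
      calc ‖s‖ = ‖z + ρ‖ := by rw [← e]
        _ ≤ _ := norm_add_le _ _
    nlinarith [norm_nonneg ρ, mul_nonneg (norm_nonneg ρ) hz0]
  have h6 : 1 + |s.im| ≤ (1 + |ρ.im|) * (1 + ‖z‖) := by
    have h7 : |s.im| ≤ ‖z‖ + |ρ.im| := by
      have e : s.im = z.im + ρ.im := by rw [hz, Complex.sub_im]; ring
      rw [e]
      exact (abs_add_le _ _).trans (by linarith [Complex.abs_im_le_norm z])
    nlinarith [abs_nonneg ρ.im, mul_nonneg (abs_nonneg ρ.im) hz0]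
  rw [norm_mul]
  have h8 : ‖zE s‖ * ‖ker b δ k z‖ ≤ (C * ((1 + ‖ρ‖) * (1 + ‖z‖)) ^ (n + 2)) * (E / (1 + ‖z‖) ^ k) := by
    refine mul_le_mul (h3.trans ?_) h4 (norm_nonneg _) (by positivity)
    exact mul_le_mul_of_nonneg_left (pow_le_pow_left₀ (by positivity) h5 _) hC.le
  refine h8.trans ?_
  rw [mul_pow]
  have h9 : (1 + ‖z‖) ^ (n + 2) / (1 + ‖z‖) ^ k ≤ 1 / (1 + ‖z‖) ^ 4 := by
    rw [div_le_div_iff₀ (by positivity) (by positivity), one_mul, ← pow_add]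
    exact pow_le_pow_right₀ (by linarith) (by omega)
  have h10 : 1 / (1 + ‖z‖) ^ 4 ≤ (1 + |ρ.im|) ^ 4 / (1 + |s.im|) ^ 4 := by
    rw [div_le_div_iff₀ (by positivity) (by positivity), one_mul, ← mul_pow]
    exact pow_le_pow_left₀ (by positivity) h6 4
  calc C * ((1 + ‖ρ‖) ^ (n + 2) * (1 + ‖z‖) ^ (n + 2)) * (E / (1 + ‖z‖) ^ k) =
        C * E * (1 + ‖ρ‖) ^ (n + 2) * ((1 + ‖z‖) ^ (n + 2) / (1 + ‖z‖) ^ k) := by ring
    _ ≤ C * E * (1 + ‖ρ‖) ^ (n + 2) * ((1 + |ρ.im|) ^ 4 / (1 + |s.im|) ^ 4) :=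
        mul_le_mul_of_nonneg_left (h9.trans h10) (by positivity)
    _ = _ := by ring

lemma F_diff (b δ : ℝ) (k : ℕ) (ρ : ℂ) : Differentiable ℂ (fun s => zE s * ker b δ k (s - ρ)) :=
  zE_diff.mul ((ker_diff b δ k).comp (differentiable_id.sub_const ρ))

/-- The dominating function is integrable. -/
lemma dom_integrable (K : ℝ) : Integrable (fun t : ℝ => K / (1 + |t|) ^ 4) := by
  have h1 : Integrable (fun t : ℝ => (1 + t ^ 2)⁻¹) := integrable_inv_one_add_sq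
  refine (h1.const_mul |K|).mono' ?_ ?_
  · exact (Measurable.div measurable_const (by fun_prop)).aestronglyMeasurable
  · refine Filter.Eventually.of_forall (fun t => ?_)
    rw [Real.norm_eq_abs, abs_div, abs_of_pos (show (0 : ℝ) < (1 + |t|) ^ 4 by positivity), div_eq_mul_inv]
    refine mul_le_mul_of_nonneg_left ?_ (abs_nonneg K)
    refine inv_anti₀ (by positivity) ?_
    have ht : 0 ≤ |t| := abs_nonneg t
    have hsq : t ^ 2 = |t| ^ 2 := (sq_abs t).symm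
    rw [hsq]
    nlinarith [pow_nonneg ht 2, pow_nonneg ht 3, pow_nonneg ht 4]

/-- Integrability of the smoothing kernel on a vertical line. -/
lemma H_int {a : ℝ} (k : ℕ) (hk : 4 ≤ k) (b : ℝ) {δ : ℝ} (hδ : 0 < δ) {ρ : ℂ} (ha : a - ρ.re ≤ 2)
    (hne : 0 < a - ρ.re) :
    Integrable (fun t : ℝ => ker b δ k ((a : ℂ) + t * I - ρ) / ((a : ℂ) + t * I - ρ)) := by
  obtain ⟨E, hE, hEb⟩ := ker_decay (A := 0) le_rfl k b hδ
  have hre : ∀ t : ℝ, ((a : ℂ) + t * I - ρ).re = a - ρ.re := fun t => by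
    rw [Complex.sub_re, line_re]
  have hz : ∀ t : ℝ, a - ρ.re ≤ ‖(a : ℂ) + t * I - ρ‖ := fun t => by
    rw [← hre t]; exact Complex.re_le_norm _
  have hzne : ∀ t : ℝ, (a : ℂ) + t * I - ρ ≠ 0 := fun t => by
    rw [← norm_pos_iff]; exact lt_of_lt_of_le hne (hz t)
  refine (dom_integrable (E * (1 + |ρ.im|) ^ 4 / (a - ρ.re))).mono' ?_ ?_
  · refine Continuous.aestronglyMeasurable ?_
    refine Continuous.div ?_ (by fun_prop) hzne
    exact (ker_diff b δ k).continuous.comp (by fun_prop)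
  · refine Filter.Eventually.of_forall (fun t => ?_)
    have h4 := hEb ((a : ℂ) + t * I - ρ) (by rw [hre]; linarith) (by rw [hre]; exact ha)
    have h6 : 1 + |t| ≤ (1 + |ρ.im|) * (1 + ‖(a : ℂ) + t * I - ρ‖) := by
      have h7 : |t| ≤ ‖(a : ℂ) + t * I - ρ‖ + |ρ.im| := by
        have e : t = ((a : ℂ) + t * I - ρ).im + ρ.im := by rw [Complex.sub_im, line_im]; ring
        calc |t| = |((a : ℂ) + t * I - ρ).im + ρ.im| := by rw [← e]
          _ ≤ |((a : ℂ) + t * I - ρ).im| + |ρ.im| := abs_add_le _ _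
          _ ≤ _ := by linarith [Complex.abs_im_le_norm ((a : ℂ) + t * I - ρ)]
      nlinarith [abs_nonneg ρ.im, mul_nonneg (abs_nonneg ρ.im) (norm_nonneg ((a : ℂ) + t * I - ρ))]
    rw [norm_div]
    set Z : ℝ := ‖(a : ℂ) + t * I - ρ‖ with hZ
    have hZ0 : 0 ≤ Z := norm_nonneg _
    have h8 : 1 / (1 + Z) ^ k ≤ (1 + |ρ.im|) ^ 4 / (1 + |t|) ^ 4 := by
      calc 1 / (1 + Z) ^ k ≤ 1 / (1 + Z) ^ 4 := by
            refine one_div_le_one_div_of_le (by positivity) ?_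
            exact pow_le_pow_right₀ (by linarith) hk
        _ ≤ _ := by
            rw [div_le_div_iff₀ (by positivity) (by positivity), one_mul, ← mul_pow]
            exact pow_le_pow_left₀ (by positivity) h6 4
    calc ‖ker b δ k ((a : ℂ) + t * I - ρ)‖ / Z ≤ (E / (1 + Z) ^ k) / (a - ρ.re) :=
          div_le_div₀ (by positivity) h4 hne (hz t)
      _ = E / (a - ρ.re) * (1 / (1 + Z) ^ k) := by ring
      _ ≤ E / (a - ρ.re) * ((1 + |ρ.im|) ^ 4 / (1 + |t|) ^ 4) :=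
          mul_le_mul_of_nonneg_left h8 (by positivity)
      _ = _ := by ring

lemma sum_shift_one {M : Type*} [AddCommMonoid M] (f : ℕ → M) (N : ℕ) :
    ∑ m ∈ Finset.range N, f (m + 1) = ∑ m ∈ Finset.Icc 1 N, f m := by
  induction N with
  | zero => simp
  | succ N ih => rw [Finset.sum_range_succ, Finset.sum_Icc_succ_top (by omega), ih]

/-- The termwise integral. -/
lemma term_int (k : ℕ) (hk : 1 ≤ k) (b : ℝ) {δ : ℝ} (hδ : 0 < δ) {ρ : ℂ} (h2 : ρ.re < 1) (m : ℕ) :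
    ∫ t : ℝ, (1 / ((m : ℂ) + 1) ^ (((2 : ℝ) : ℂ) + t * I)) *
      (ker b δ k (((2 : ℝ) : ℂ) + t * I - ρ) / (((2 : ℝ) : ℂ) + t * I - ρ)) =
      (2 * Real.pi : ℂ) * ((spl b δ k (Real.log ((m + 1 : ℕ) : ℝ)) : ℂ) * (((m + 1 : ℕ) : ℂ)) ^ (-ρ)) := by
  have hc : 0 < 2 - ρ.re := by linarith
  have h := spl_rep b hδ k hk hc (Real.log ((m + 1 : ℕ) : ℝ))
  have hm : ((m : ℂ) + 1) ≠ 0 := by exact_mod_cast Nat.succ_ne_zero m
  have hlog : Complex.log ((m : ℂ) + 1) = ((Real.log ((m + 1 : ℕ) : ℝ) : ℝ) : ℂ) := by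
    rw [Complex.ofReal_log (by positivity)]
    push_cast
    rfl
  set g : ℝ → ℂ := fun y => Complex.exp (-((((2 - ρ.re : ℝ) : ℂ) + y * I) * (Real.log ((m + 1 : ℕ) : ℝ) : ℝ))) *
    (ker b δ k (((2 - ρ.re : ℝ) : ℂ) + y * I) / (((2 - ρ.re : ℝ) : ℂ) + y * I)) with hg
  have hz : ∀ t : ℝ, (((2 : ℝ) : ℂ) + t * I - ρ) = ((2 - ρ.re : ℝ) : ℂ) + ((t - ρ.im : ℝ) : ℂ) * I := fun t => by
    apply Complex.ext <;> simp
  have e1 : (fun t : ℝ => (1 / ((m : ℂ) + 1) ^ (((2 : ℝ) : ℂ) + t * I)) *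
      (ker b δ k (((2 : ℝ) : ℂ) + t * I - ρ) / (((2 : ℝ) : ℂ) + t * I - ρ))) =
      fun t : ℝ => ((m : ℂ) + 1) ^ (-ρ) * g (t - ρ.im) := by
    funext t
    rw [hg]
    simp only
    rw [← hz t, ← mul_assoc]
    congr 1
    rw [one_div, ← Complex.cpow_neg, Complex.cpow_def_of_ne_zero hm, Complex.cpow_def_of_ne_zero hm, hlog,
      ← Complex.exp_add]
    congr 1
    ring
  rw [e1, integral_const_mul, integral_sub_right_eq_self g ρ.im, hg]
  rw [h]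
  push_cast
  ring

/-- The integral on the right line. -/
lemma right_line (k : ℕ) (hk : 4 ≤ k) (b : ℝ) {δ : ℝ} (hδ : 0 < δ) (N : ℕ)
    (hN : b + k * δ ≤ Real.log (N + 1)) {ρ : ℂ} (h1 : 0 ≤ ρ.re) (h2 : ρ.re < 1) :
    ∫ t : ℝ, riemannZeta (((2 : ℝ) : ℂ) + t * I) *
      (ker b δ k (((2 : ℝ) : ℂ) + t * I - ρ) / (((2 : ℝ) : ℂ) + t * I - ρ)) =
      (2 * Real.pi : ℂ) * ∑ m ∈ Finset.Icc 1 N, (spl b δ k (Real.log m) : ℂ) * (m : ℂ) ^ (-ρ) := by
  set H : ℝ → ℂ := fun t => ker b δ k (((2 : ℝ) : ℂ) + t * I - ρ) / (((2 : ℝ) : ℂ) + t * I - ρ) with hH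
  have hHi : Integrable H := H_int (a := 2) k hk b hδ (by linarith) (by linarith)
  set G : ℕ → ℝ → ℂ := fun m t => (1 / ((m : ℂ) + 1) ^ (((2 : ℝ) : ℂ) + t * I)) * H t with hG
  have hnorm : ∀ (m : ℕ) (t : ℝ), ‖(1 / ((m : ℂ) + 1) ^ (((2 : ℝ) : ℂ) + t * I))‖ = 1 / ((m : ℝ) + 1) ^ 2 := by
    intro m t
    rw [norm_div, norm_one]
    congr 1
    have e : ((m : ℂ) + 1) = (((m : ℝ) + 1 : ℝ) : ℂ) := by push_cast; rfl
    rw [e, Complex.norm_cpow_eq_rpow_re_of_pos (by positivity), line_re]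
    norm_num
  have hGi : ∀ m, Integrable (G m) := by
    intro m
    have hcont : Continuous (fun t : ℝ => (1 / ((m : ℂ) + 1) ^ (((2 : ℝ) : ℂ) + t * I))) := by
      have hm : ((m : ℂ) + 1) ≠ 0 := by exact_mod_cast Nat.succ_ne_zero m
      refine Continuous.div continuous_const ?_ (fun t => ?_)
      · exact Continuous.const_cpow (by fun_prop) (Or.inl hm)
      · rw [Complex.cpow_def_of_ne_zero hm]; exact Complex.exp_ne_zero _
    refine hHi.bdd_mul (c := 1 / ((m : ℝ) + 1) ^ 2) hcont.aestronglyMeasurable ?_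
    exact Filter.Eventually.of_forall (fun t => (hnorm m t).le)
  have hGn : ∀ m, ∫ t, ‖G m t‖ = 1 / ((m : ℝ) + 1) ^ 2 * ∫ t, ‖H t‖ := by
    intro m
    rw [← integral_const_mul]
    congr 1
    funext t
    rw [hG]
    simp only
    rw [norm_mul, hnorm]
  have hsum : Summable (fun m => ∫ t, ‖G m t‖) := by
    simp_rw [hGn]
    refine Summable.mul_right _ ?_
    have := (summable_nat_add_iff (f := fun n : ℕ => 1 / (n : ℝ) ^ 2) 1).2 (Real.summable_one_div_nat_pow.2 (by norm_num))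
    simpa using this
  have hmain := hasSum_integral_of_summable_integral_norm hGi hsum
  have e1 : (∫ t : ℝ, riemannZeta (((2 : ℝ) : ℂ) + t * I) * H t) = ∫ t, ∑' m, G m t := by
    congr 1
    funext t
    rw [hG]
    simp only
    rw [tsum_mul_right, zeta_eq_tsum_one_div_nat_add_one_cpow (by rw [line_re]; norm_num)]
  rw [e1, ← hmain.tsum_eq]
  have e2 : ∀ m, ∫ t, G m t = (2 * Real.pi : ℂ) * ((spl b δ k (Real.log ((m + 1 : ℕ) : ℝ)) : ℂ) *
      (((m + 1 : ℕ) : ℂ)) ^ (-ρ)) := fun m => term_int k (by omega) b hδ h2 m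
  simp_rw [e2]
  rw [tsum_eq_sum (s := Finset.range N), ← Finset.mul_sum,
    sum_shift_one (fun m : ℕ => (spl b δ k (Real.log (m : ℝ)) : ℂ) * (m : ℂ) ^ (-ρ)) N]
  intro m hm
  rw [Finset.mem_range, not_lt] at hm
  have : spl b δ k (Real.log ((m + 1 : ℕ) : ℝ)) = 0 := by
    refine spl_eq_zero hδ k (by omega) (hN.trans ?_)
    refine Real.log_le_log (by positivity) ?_
    push_cast
    have : (N : ℝ) ≤ m := by exact_mod_cast hm
    linarith
  rw [this]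
  simp

/-- Partial fractions, in terms of `zE`. -/
lemma pf {s ρ : ℂ} (k : ℂ) (h1 : s ≠ 1) (h2 : s ≠ ρ) (h3 : ρ ≠ 1) (hZ : zE s = (s - 1) * riemannZeta s)  :
    riemannZeta s * (k / (s - ρ)) = (zE s * k / (s - ρ) - zE s * k / (s - 1)) / (ρ - 1) := by
  have e1 : s - 1 ≠ 0 := sub_ne_zero.2 h1
  have e2 : s - ρ ≠ 0 := sub_ne_zero.2 h2
  have e3 : ρ - 1 ≠ 0 := sub_ne_zero.2 h3
  rw [hZ]
  field_simp
  ring

/-- Integrability of `zE s ker(s-ρ)/(s-w)` on a vertical line. -/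
lemma line_int (n k : ℕ) (hn : 1 ≤ n) (hk : n + 6 ≤ k) (b : ℝ) {δ : ℝ} (hδ : 0 < δ) {ρ : ℂ}
    (h1 : 0 ≤ ρ.re) {a : ℝ} (ha1 : -(n : ℝ) ≤ a) (ha2 : a ≤ 2) (w : ℂ) (hw : 1 / 4 ≤ |a - w.re|) :
    Integrable (fun t : ℝ => zE ((a : ℂ) + t * I) * ker b δ k ((a : ℂ) + t * I - ρ) / ((a : ℂ) + t * I - w)) := by
  obtain ⟨K, hK, hKb⟩ := F_decay n k hn hk b hδ h1
  have hz : ∀ t : ℝ, 1 / 4 ≤ ‖(a : ℂ) + t * I - w‖ := fun t => by
    refine hw.trans ?_
    have : a - w.re = ((a : ℂ) + t * I - w).re := by rw [Complex.sub_re, line_re]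
    rw [this]
    exact Complex.abs_re_le_norm _
  have hzne : ∀ t : ℝ, (a : ℂ) + t * I - w ≠ 0 := fun t => by
    rw [← norm_pos_iff]; exact lt_of_lt_of_le (by norm_num) (hz t)
  refine (dom_integrable (4 * K)).mono' ?_ ?_
  · refine Continuous.aestronglyMeasurable ?_
    refine Continuous.div ?_ (by fun_prop) hzne
    exact (F_diff b δ k ρ).continuous.comp (by fun_prop : Continuous (fun t : ℝ => (a : ℂ) + t * I))
  · refine Filter.Eventually.of_forall (fun t => ?_)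
    have h4 := hKb ((a : ℂ) + t * I) (by rw [line_re]; exact ha1) (by rw [line_re]; exact ha2)
    rw [line_im] at h4
    rw [norm_div]
    calc _ ≤ (K / (1 + |t|) ^ 4) / (1 / 4) := div_le_div₀ (by positivity) h4 (by norm_num) (hz t)
      _ = _ := by ring

end AFECoreAux

open AFECoreAux

theorem afe_core (n k : ℕ) (hn : 1 ≤ n) (hk : n + 6 ≤ k) (b : ℝ) {δ : ℝ} (hδ : 0 < δ) (N : ℕ)
    (hN : b + k * δ ≤ Real.log (N + 1)) {ρ : ℂ} (h1 : 1 / 4 ≤ ρ.re) (h2 : ρ.re < 1) (h3 : 1 ≤ ρ.im) :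
    riemannZeta ρ = ∑ m ∈ Finset.Icc 1 N, (spl b δ k (Real.log m) : ℂ) * (m : ℂ) ^ (-ρ) -
      (1 / (2 * Real.pi) : ℂ) * (∫ t : ℝ, riemannZeta (-(n : ℂ) + t * I) *
        (ker b δ k (-(n : ℂ) + t * I - ρ) / (-(n : ℂ) + t * I - ρ))) -
      ker b δ k (1 - ρ) / (1 - ρ) := by
  have hnR : (1 : ℝ) ≤ n := by exact_mod_cast hn
  have hρ1 : ρ ≠ 1 := fun h => by rw [h, Complex.one_re] at h2; exact lt_irrefl _ h2
  have hρ1' : ρ - 1 ≠ 0 := sub_ne_zero.2 hρ1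
  have hρ1'' : 1 - ρ ≠ 0 := sub_ne_zero.2 hρ1.symm
  obtain ⟨K, hK, hKb⟩ := F_decay n k hn hk b hδ (ρ := ρ) (by linarith)
  have hKb1 : ∀ s : ℂ, -(n : ℝ) ≤ s.re → s.re ≤ 2 → ‖zE s * ker b δ k (s - ρ)‖ ≤ K / (1 + |s.im|) := by
    intro s hs1 hs2
    refine (hKb s hs1 hs2).trans ?_
    refine div_le_div_of_nonneg_left hK.le (by positivity) ?_
    have : 1 ≤ 1 + |s.im| := by linarith [abs_nonneg s.im]
    calc 1 + |s.im| = (1 + |s.im|) ^ 1 := (pow_one _).symm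
      _ ≤ _ := pow_le_pow_right₀ this (by norm_num)
  have s1 := shift_pole_poly (F_diff b δ k ρ) hKb1 ρ (by linarith) (by linarith)
  have s2 := shift_pole_poly (F_diff b δ k ρ) hKb1 1 (by rw [Complex.one_re]; linarith)
    (by rw [Complex.one_re]; norm_num)
  have hF1 : zE 1 * ker b δ k (1 - ρ) = ker b δ k (1 - ρ) := by rw [zE_one, one_mul]
  have hFρ : zE ρ * ker b δ k (ρ - ρ) = (ρ - 1) * riemannZeta ρ := by
    rw [sub_self, ker_zero, mul_one, zE_of_ne hρ1]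
  rw [hFρ] at s1
  rw [hF1] at s2
  have hcast : (((-(n : ℝ) : ℝ)) : ℂ) = -(n : ℂ) := by push_cast; rfl
  rw [hcast] at s1 s2
  have i1 := line_int n k hn hk b hδ (ρ := ρ) (by linarith) (a := 2) (by linarith) le_rfl ρ
    (by rw [abs_of_pos (by linarith)]; linarith)
  have i2 := line_int n k hn hk b hδ (ρ := ρ) (by linarith) (a := 2) (by linarith) le_rfl 1
    (by rw [Complex.one_re]; norm_num)
  have i3 := line_int n k hn hk b hδ (ρ := ρ) (by linarith) (a := -(n : ℝ)) le_rfl (by linarith) ρ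
    (by rw [abs_of_neg (by linarith)]; linarith)
  have i4 := line_int n k hn hk b hδ (ρ := ρ) (by linarith) (a := -(n : ℝ)) le_rfl (by linarith) 1
    (by rw [Complex.one_re, abs_of_neg (by linarith)]; linarith)
  rw [hcast] at i3 i4
  have e2 : ∫ t : ℝ, riemannZeta (((2 : ℝ) : ℂ) + t * I) *
      (ker b δ k (((2 : ℝ) : ℂ) + t * I - ρ) / (((2 : ℝ) : ℂ) + t * I - ρ)) =
      ((∫ t : ℝ, zE (((2 : ℝ) : ℂ) + t * I) * ker b δ k (((2 : ℝ) : ℂ) + t * I - ρ) / (((2 : ℝ) : ℂ) + t * I - ρ)) -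
       (∫ t : ℝ, zE (((2 : ℝ) : ℂ) + t * I) * ker b δ k (((2 : ℝ) : ℂ) + t * I - ρ) / (((2 : ℝ) : ℂ) + t * I - 1))) /
        (ρ - 1) := by
    rw [← integral_sub i1 i2, ← integral_div]
    congr 1
    funext t
    have hs1 : (((2 : ℝ) : ℂ) + t * I) ≠ 1 := fun h => by
      have := congrArg Complex.re h
      rw [line_re, Complex.one_re] at this
      norm_num at this
    have hs2 : (((2 : ℝ) : ℂ) + t * I) ≠ ρ := fun h => by
      have := congrArg Complex.re h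
      rw [line_re] at this
      linarith
    exact pf _ hs1 hs2 hρ1 (zE_of_ne hs1)
  have e3 : ∫ t : ℝ, riemannZeta (-(n : ℂ) + t * I) *
      (ker b δ k (-(n : ℂ) + t * I - ρ) / (-(n : ℂ) + t * I - ρ)) =
      ((∫ t : ℝ, zE (-(n : ℂ) + t * I) * ker b δ k (-(n : ℂ) + t * I - ρ) / (-(n : ℂ) + t * I - ρ)) -
       (∫ t : ℝ, zE (-(n : ℂ) + t * I) * ker b δ k (-(n : ℂ) + t * I - ρ) / (-(n : ℂ) + t * I - 1))) /
        (ρ - 1) := by
    rw [← integral_sub i3 i4, ← integral_div]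
    congr 1
    funext t
    have hre : (-(n : ℂ) + t * I).re = -(n : ℝ) := by rw [← hcast, line_re]
    have hs1 : (-(n : ℂ) + t * I) ≠ 1 := fun h => by
      have := congrArg Complex.re h
      rw [hre, Complex.one_re] at this
      linarith
    have hs2 : (-(n : ℂ) + t * I) ≠ ρ := fun h => by
      have := congrArg Complex.re h
      rw [hre] at this
      linarith
    exact pf _ hs1 hs2 hρ1 (zE_of_ne hs1)
  have hR := right_line k (by omega) b hδ N hN (ρ := ρ) (by linarith) h2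
  rw [e2, s1, s2] at hR
  rw [e3]
  have hpi : (Real.pi : ℂ) ≠ 0 := by exact_mod_cast Real.pi_ne_zero
  set S := ∑ m ∈ Finset.Icc 1 N, (spl b δ k (Real.log m) : ℂ) * (m : ℂ) ^ (-ρ)
  set A := ∫ t : ℝ, zE (-(n : ℂ) + t * I) * ker b δ k (-(n : ℂ) + t * I - ρ) / (-(n : ℂ) + t * I - ρ)
  set B := ∫ t : ℝ, zE (-(n : ℂ) + t * I) * ker b δ k (-(n : ℂ) + t * I - ρ) / (-(n : ℂ) + t * I - 1)
  have hS : S = (1 / (2 * Real.pi) : ℂ) * ((A + 2 * Real.pi * ((ρ - 1) * riemannZeta ρ) -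
      (B + 2 * Real.pi * ker b δ k (1 - ρ))) / (ρ - 1)) := by
    rw [hR]; field_simp
  rw [hS]
  have : (1 - ρ) = -(ρ - 1) := by ring
  rw [this]
  field_simp
  ring

/-- Integrability on the left line. -/
theorem afe_core_int (n k : ℕ) (hn : 1 ≤ n) (hk : n + 6 ≤ k) (b : ℝ) {δ : ℝ} (hδ : 0 < δ)
    {ρ : ℂ} (h1 : 1 / 4 ≤ ρ.re) :
    Integrable (fun t : ℝ => riemannZeta (-(n : ℂ) + t * I) *
        (ker b δ k (-(n : ℂ) + t * I - ρ) / (-(n : ℂ) + t * I - ρ))) := by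
  have hnR : (1 : ℝ) ≤ n := by exact_mod_cast hn
  have hcast : (((-(n : ℝ) : ℝ)) : ℂ) = -(n : ℂ) := by push_cast; rfl
  have i3 := line_int n k hn hk b hδ (ρ := ρ) (by linarith) (a := -(n : ℝ)) le_rfl (by linarith) ρ
    (by rw [abs_of_neg (by linarith)]; linarith)
  rw [hcast] at i3
  have hre : ∀ t : ℝ, (-(n : ℂ) + t * I).re = -(n : ℝ) := fun t => by rw [← hcast, line_re]
  have hs1 : ∀ t : ℝ, (-(n : ℂ) + t * I) ≠ 1 := fun t h => by
    have := congrArg Complex.re h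
    rw [hre, Complex.one_re] at this
    linarith
  have hb : ∀ t : ℝ, ‖(1 / (-(n : ℂ) + t * I - 1))‖ ≤ 1 := fun t => by
    rw [norm_div, norm_one]
    refine (div_le_one (norm_pos_iff.2 (sub_ne_zero.2 (hs1 t)))).2 ?_
    have h := Complex.abs_re_le_norm (-(n : ℂ) + t * I - 1)
    rw [Complex.sub_re, hre, Complex.one_re, abs_of_neg (by linarith)] at h
    linarith
  have hcont : Continuous (fun t : ℝ => (1 / (-(n : ℂ) + t * I - 1))) := by
    refine Continuous.div continuous_const (by fun_prop) (fun t => sub_ne_zero.2 (hs1 t))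
  have := i3.bdd_mul (c := 1) hcont.aestronglyMeasurable (Filter.Eventually.of_forall hb)
  refine this.congr (Filter.Eventually.of_forall (fun t => ?_))
  have h1 : (-(n : ℂ) + t * I - 1) ≠ 0 := sub_ne_zero.2 (hs1 t)
  simp only
  rw [zE_of_ne (hs1 t)]
  field_simp

end Pool.Agent.P4f18dfS
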