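import Pool.Agent.Lib.P4f18dfS.Euler

/-!
# Mean square of the coefficients for smooth weights

For `g = ∫ h(y) n^{-(c+iy)} dy` etc. (`Rep`) the coefficients are superpositions of those of `euler_bound`;
Minkowski's inequality three times.
-/

set_option autoImplicit false

open Complex MeasureTheory

namespace Pool.Agent.P4f18dfS

namespace CoreRep

/-- Minkowski's inequality for a finite weighted `l²` norm. -/
lemma mink (s : Finset ℕ) (w : ℕ → ℝ) (hw : ∀ n, 0 ≤ w n) (h : ℝ → ℂ) (f : ℝ → ℕ → ℂ) (W : ℝ → ℝ)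
    (hW : ∀ y, 0 ≤ W y) {B : ℝ} (hB : 0 ≤ B)
    (hf : ∀ n, Integrable (fun y => h y * f y n)) (hhW : Integrable (fun y => ‖h y‖ * W y))
    (hb : ∀ y, ∑ n ∈ s, w n * ‖f y n‖ ^ 2 ≤ (B * W y) ^ 2) :
    ∑ n ∈ s, w n * ‖∫ y, h y * f y n‖ ^ 2 ≤ (B * ∫ y, ‖h y‖ * W y) ^ 2 := by
  set v : ℕ → ℂ := fun n => ∫ y, h y * f y n with hv
  set S : ℝ := ∑ n ∈ s, w n * ‖v n‖ ^ 2 with hS
  have hS0 : 0 ≤ S := Finset.sum_nonneg fun n _ => mul_nonneg (hw n) (by positivity)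
  have hI0 : 0 ≤ ∫ y, ‖h y‖ * W y := integral_nonneg fun y => mul_nonneg (norm_nonneg _) (hW y)
  -- the identity
  have e1 : (S : ℂ) = ∫ y, ∑ n ∈ s, ((w n : ℂ) * (starRingEnd ℂ) (v n)) * (h y * f y n) := by
    rw [integral_finsetSum _ (fun n _ => (hf n).const_mul _)]
    rw [hS]
    push_cast
    refine Finset.sum_congr rfl fun n _ => ?_
    rw [integral_const_mul, ← ofReal_pow, ← Complex.normSq_eq_norm_sq, ← Complex.mul_conj]
    ring
  have e2 : ∀ y, ‖∑ n ∈ s, ((w n : ℂ) * (starRingEnd ℂ) (v n)) * (h y * f y n)‖ ≤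
      (Real.sqrt S * B) * (‖h y‖ * W y) := by
    intro y
    have a1 : ‖∑ n ∈ s, ((w n : ℂ) * (starRingEnd ℂ) (v n)) * (h y * f y n)‖ ≤
        ‖h y‖ * ∑ n ∈ s, (Real.sqrt (w n) * ‖v n‖) * (Real.sqrt (w n) * ‖f y n‖) := by
      refine (norm_sum_le _ _).trans (le_of_eq ?_)
      rw [Finset.mul_sum]
      refine Finset.sum_congr rfl fun n _ => ?_
      rw [norm_mul, norm_mul, norm_mul, RCLike.norm_conj, Complex.norm_real, Real.norm_eq_abs,
        abs_of_nonneg (hw n)]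
      have := Real.mul_self_sqrt (hw n)
      calc w n * ‖v n‖ * (‖h y‖ * ‖f y n‖) = ‖h y‖ * (w n * ‖v n‖ * ‖f y n‖) := by ring
        _ = ‖h y‖ * ((Real.sqrt (w n) * Real.sqrt (w n)) * ‖v n‖ * ‖f y n‖) := by rw [this]
        _ = _ := by ring
    have a2 : ∑ n ∈ s, (Real.sqrt (w n) * ‖v n‖) * (Real.sqrt (w n) * ‖f y n‖) ≤
        Real.sqrt (∑ n ∈ s, (Real.sqrt (w n) * ‖v n‖) ^ 2) *
          Real.sqrt (∑ n ∈ s, (Real.sqrt (w n) * ‖f y n‖) ^ 2) :=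
      Real.sum_mul_le_sqrt_mul_sqrt _ _ _
    have a3 : ∑ n ∈ s, (Real.sqrt (w n) * ‖v n‖) ^ 2 = S := by
      rw [hS]
      exact Finset.sum_congr rfl fun n _ => by rw [mul_pow, Real.sq_sqrt (hw n)]
    have a4 : ∑ n ∈ s, (Real.sqrt (w n) * ‖f y n‖) ^ 2 = ∑ n ∈ s, w n * ‖f y n‖ ^ 2 :=
      Finset.sum_congr rfl fun n _ => by rw [mul_pow, Real.sq_sqrt (hw n)]
    have a5 : Real.sqrt (∑ n ∈ s, w n * ‖f y n‖ ^ 2) ≤ B * W y := by
      rw [Real.sqrt_le_left (mul_nonneg hB (hW y))]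
      exact hb y
    rw [a3, a4] at a2
    calc _ ≤ ‖h y‖ * (Real.sqrt S * (B * W y)) :=
          a1.trans (mul_le_mul_of_nonneg_left
            (a2.trans (mul_le_mul_of_nonneg_left a5 (Real.sqrt_nonneg _))) (norm_nonneg _))
      _ = _ := by ring
  have e3 : S ≤ (Real.sqrt S * B) * ∫ y, ‖h y‖ * W y := by
    have b1 : ‖(S : ℂ)‖ = S := by rw [Complex.norm_real, Real.norm_eq_abs, abs_of_nonneg hS0]
    have b2 : ‖(S : ℂ)‖ ≤ ∫ y, (Real.sqrt S * B) * (‖h y‖ * W y) := by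
      rw [e1]
      exact norm_integral_le_of_norm_le (hhW.const_mul _) (Filter.Eventually.of_forall e2)
    rw [integral_const_mul] at b2
    linarith
  have e4 : Real.sqrt S ≤ B * ∫ y, ‖h y‖ * W y := by
    by_contra hcon
    push Not at hcon
    have hpos : 0 < Real.sqrt S := lt_of_le_of_lt (mul_nonneg hB hI0) hcon
    have c1 : S = Real.sqrt S * Real.sqrt S := (Real.mul_self_sqrt hS0).symm
    have c2 : Real.sqrt S * (B * ∫ y, ‖h y‖ * W y) < Real.sqrt S * Real.sqrt S :=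
      mul_lt_mul_of_pos_left hcon hpos
    rw [← c1] at c2
    linarith
  calc S = Real.sqrt S ^ 2 := (Real.sq_sqrt hS0).symm
    _ ≤ _ := pow_le_pow_left₀ (Real.sqrt_nonneg _) e4 2

/-- `G` is the superposition of the `F y` with density `h`. -/
def RB (h : ℝ → ℂ) (F : ℝ → ArithmeticFunction ℂ) (G : ArithmeticFunction ℂ) : Prop :=
  ∀ n, Integrable (fun y => h y * F y n) ∧ G n = ∫ y, h y * F y n

lemma RB.mul_right {h : ℝ → ℂ} {F : ℝ → ArithmeticFunction ℂ} {G : ArithmeticFunction ℂ}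
    (H : RB h F G) (q : ArithmeticFunction ℂ) : RB h (fun y => F y * q) (G * q) := by
  intro n
  have e1 : ∀ y, h y * (F y * q) n =
      ∑ x ∈ n.divisorsAntidiagonal, (h y * F y x.1) * q x.2 := fun y => by
    rw [ArithmeticFunction.mul_apply, Finset.mul_sum]
    exact Finset.sum_congr rfl fun x _ => by ring
  have e2 : (fun y => h y * (F y * q) n) = fun y =>
      ∑ x ∈ n.divisorsAntidiagonal, (h y * F y x.1) * q x.2 := funext e1
  constructor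
  · rw [e2]
    exact integrable_finsetSum _ fun x _ => (H x.1).1.mul_const _
  · rw [e2, integral_finsetSum _ (fun x _ => (H x.1).1.mul_const _), ArithmeticFunction.mul_apply]
    refine Finset.sum_congr rfl fun x _ => ?_
    rw [integral_mul_const, ← (H x.1).2]

lemma RB.mul_left {h : ℝ → ℂ} {F : ℝ → ArithmeticFunction ℂ} {G : ArithmeticFunction ℂ}
    (H : RB h F G) (q : ArithmeticFunction ℂ) : RB h (fun y => q * F y) (q * G) := by
  have := H.mul_right q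
  simpa only [mul_comm q] using this

lemma int_h {L c : ℝ} (hL : 0 ≤ L) {h : ℝ → ℂ} (hc : Continuous h)
    (hi : Integrable (fun y : ℝ => ‖h y‖ * (1 + L * ‖(c : ℂ) + y * I‖) ^ 4)) : Integrable h := by
  refine hi.mono' hc.aestronglyMeasurable (Filter.Eventually.of_forall fun y => ?_)
  have : (1:ℝ) ≤ (1 + L * ‖(c : ℂ) + y * I‖) ^ 4 :=
    one_le_pow₀ (by have := mul_nonneg hL (norm_nonneg ((c : ℂ) + y * I)); linarith)
  exact le_mul_of_one_le_right (norm_nonneg _) this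

lemma int_cpow {h : ℝ → ℂ} (hh : Integrable h) {n : ℕ} (hn : 1 ≤ n) (β : ℂ) (c : ℝ) :
    Integrable (fun y : ℝ => h y * (n : ℂ) ^ (β - ((c : ℂ) + y * I))) := by
  have hn0 : (n : ℂ) ≠ 0 := by exact_mod_cast (by omega : n ≠ 0)
  have hcont : Continuous fun y : ℝ => (n : ℂ) ^ (β - ((c : ℂ) + y * I)) :=
    Continuous.const_cpow (by fun_prop) (Or.inl hn0)
  refine (hh.norm.mul_const ((n:ℝ) ^ (β.re - c))).mono'
    (hh.aestronglyMeasurable.mul hcont.aestronglyMeasurable) (Filter.Eventually.of_forall fun y => ?_)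
  rw [norm_mul, Complex.norm_natCast_cpow_of_pos (by omega)]
  simp

lemma rb_tw {L c : ℝ} (hL : 0 ≤ L) {g : ℕ → ℂ} {h : ℝ → ℂ} (hc : Continuous h)
    (hi : Integrable (fun y : ℝ => ‖h y‖ * (1 + L * ‖(c : ℂ) + y * I‖) ^ 4))
    (hg : ∀ n : ℕ, 1 ≤ n → g n = ∫ y : ℝ, h y * (n : ℂ) ^ (-((c : ℂ) + y * I))) (β : ℂ) :
    RB h (fun y => tw (fun _ => 1) (β - ((c : ℂ) + y * I))) (tw g β) := by
  intro n
  rcases Nat.eq_zero_or_pos n with h0 | h0
  · subst h0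
    simp
  · have hn0 : (n : ℂ) ≠ 0 := by exact_mod_cast (by omega : n ≠ 0)
    have e1 : ∀ w : ℂ, (tw (fun _ => 1) w) n = (n : ℂ) ^ w := fun w => by
      change (if n = 0 then 0 else (1:ℂ) * (n:ℂ) ^ w) = _
      rw [if_neg (by omega), one_mul]
    have e2 : (tw g β) n = g n * (n : ℂ) ^ β := by
      change (if n = 0 then 0 else g n * (n:ℂ) ^ β) = _
      rw [if_neg (by omega)]
    simp only [e1, e2]
    refine ⟨int_cpow (int_h hL hc hi) h0 β c, ?_⟩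
    rw [hg n h0, ← integral_mul_const]
    refine integral_congr_ae (Filter.Eventually.of_forall fun y => ?_)
    simp only
    rw [mul_assoc, ← Complex.cpow_add _ _ hn0]
    congr 2
    ring

lemma rb_mt {L c : ℝ} (hL : 0 ≤ L) {g : ℕ → ℂ} {h : ℝ → ℂ} (hc : Continuous h)
    (hi : Integrable (fun y : ℝ => ‖h y‖ * (1 + L * ‖(c : ℂ) + y * I‖) ^ 4))
    (hg : ∀ n : ℕ, 1 ≤ n → g n = ∫ y : ℝ, h y * (n : ℂ) ^ (-((c : ℂ) + y * I))) :
    RB h (fun y => mt (fun n => (n : ℂ) ^ (-((c : ℂ) + y * I)))) (mt g) := by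
  intro n
  rcases Nat.eq_zero_or_pos n with h0 | h0
  · subst h0
    simp
  · have e1 : ∀ p : ℕ → ℂ, (mt p) n = ((ArithmeticFunction.moebius n : ℤ) : ℂ) * p n := fun p => rfl
    simp only [e1]
    have i1 := int_cpow (int_h hL hc hi) h0 0 c
    simp only [zero_sub] at i1
    have e3 : (fun y : ℝ => h y * (((ArithmeticFunction.moebius n : ℤ) : ℂ) *
        (n : ℂ) ^ (-((c : ℂ) + y * I)))) = fun y : ℝ => ((ArithmeticFunction.moebius n : ℤ) : ℂ) *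
        (h y * (n : ℂ) ^ (-((c : ℂ) + y * I))) := funext fun y => by ring
    rw [e3]
    refine ⟨i1.const_mul _, ?_⟩
    rw [integral_const_mul, ← hg n h0]

lemma sum_le_aux {L : ℝ} (hL : 0 ≤ L) (a b : ℂ) :
    1 + L * ‖a - b‖ ≤ (1 + L * ‖a‖) * (1 + L * ‖b‖) := by
  have h1 := norm_sub_le a b
  have h2 : L * ‖a - b‖ ≤ L * (‖a‖ + ‖b‖) := mul_le_mul_of_nonneg_left h1 hL
  have h3 : 0 ≤ (L * ‖a‖) * (L * ‖b‖) := by positivity
  nlinarith

end CoreRep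

open CoreRep in
theorem core_bound : ∃ C : ℝ, 0 < C ∧ ∀ L : ℝ, 1 ≤ L → ∀ N : ℕ, 1 ≤ N → Real.log N ≤ L →
    ∀ (c c1 c2 : ℝ) (β : ℂ), β.re ≤ c → 0 ≤ c1 → 0 ≤ c2 →
    ∀ (g p1 p2 : ℕ → ℂ) (A A1 A2 : ℝ), Rep L c g A → Rep L c1 p1 A1 → Rep L c2 p2 A2 →
    ∑ n ∈ Finset.Icc 1 N, ‖(tw g β * mt p1 * mt p2) n‖ ^ 2 / (n : ℝ) ≤
      C * L * (1 + L * ‖β‖) ^ 8 * (A * A1 * A2) ^ 2 := by
  obtain ⟨C, hC, hEu⟩ := euler_bound
  refine ⟨2 * C, by positivity, ?_⟩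
  intro L hL N hN hlog c c1 c2 β hβ hc1 hc2 g p1 p2 A A1 A2 hg hp1 hp2
  obtain ⟨h, hcont, hint, hle, hrep⟩ := hg
  obtain ⟨h1, hcont1, hint1, hle1, hrep1⟩ := hp1
  obtain ⟨h2, hcont2, hint2, hle2, hrep2⟩ := hp2
  have hL0 : 0 ≤ L := by linarith
  have hlog0 : 0 ≤ Real.log (N:ℝ) := Real.log_natCast_nonneg N
  have nn : ∀ c y : ℝ, 0 ≤ (1 + L * ‖(c : ℂ) + y * I‖) ^ 4 := fun c y => by positivity
  have hA : 0 ≤ A := le_trans (integral_nonneg fun y => mul_nonneg (norm_nonneg _) (nn c y)) hle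
  have hA1 : 0 ≤ A1 := le_trans (integral_nonneg fun y => mul_nonneg (norm_nonneg _) (nn c1 y)) hle1
  have hA2 : 0 ≤ A2 := le_trans (integral_nonneg fun y => mul_nonneg (norm_nonneg _) (nn c2 y)) hle2
  set B : ℝ := Real.sqrt (C * (1 + L)) with hBdef
  have hB0 : 0 ≤ B := Real.sqrt_nonneg _
  have hBsq : B ^ 2 = C * (1 + L) := Real.sq_sqrt (by positivity)
  set s := Finset.Icc 1 N with hs
  set w : ℕ → ℝ := fun n => 1 / (n:ℝ) with hw
  have hw0 : ∀ n, 0 ≤ w n := fun n => by positivity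
  have conv : ∀ f : ℕ → ℂ, ∑ n ∈ s, ‖f n‖ ^ 2 / (n : ℝ) = ∑ n ∈ s, w n * ‖f n‖ ^ 2 := fun f =>
    Finset.sum_congr rfl fun n _ => by rw [hw]; ring
  -- step 0
  have st0 : ∀ w0 w1 w2 : ℂ, w0.re ≤ 0 → w1.re ≤ 0 → w2.re ≤ 0 →
      ∑ n ∈ s, w n * ‖(tw (fun _ => 1) w0 * mt (fun n => (n : ℂ) ^ w1) *
        mt (fun n => (n : ℂ) ^ w2)) n‖ ^ 2 ≤ (B * (1 + L * ‖w0 - w1‖) ^ 4) ^ 2 := by
    intro w0 w1 w2 hw0' hw1 hw2
    rw [← conv]
    refine (hEu N hN w0 w1 w2 hw0' hw1 hw2).trans ?_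
    rw [mul_pow, hBsq, ← pow_mul]
    refine mul_le_mul ?_ ?_ (by positivity) (by positivity)
    · exact mul_le_mul_of_nonneg_left (by linarith) hC.le
    · refine pow_le_pow_left₀ (by positivity) ?_ 8
      have := mul_le_mul_of_nonneg_right hlog (norm_nonneg (w0 - w1))
      linarith
  -- step 1
  have st1 : ∀ w0 w1 : ℂ, w0.re ≤ 0 → w1.re ≤ 0 →
      ∑ n ∈ s, w n * ‖(tw (fun _ => 1) w0 * mt (fun n => (n : ℂ) ^ w1) * mt p2) n‖ ^ 2 ≤
        ((B * (1 + L * ‖w0 - w1‖) ^ 4) * A2) ^ 2 := by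
    intro w0 w1 hw0' hw1
    have r2 := (rb_mt hL0 hcont2 hint2 hrep2).mul_left (tw (fun _ => 1) w0 *
      mt (fun n => (n : ℂ) ^ w1))
    have m2 := mink s w hw0 h2 (fun y n => (tw (fun _ => 1) w0 * mt (fun n => (n : ℂ) ^ w1) *
      mt (fun n => (n : ℂ) ^ (-((c2 : ℂ) + y * I)))) n)
      (fun y => (1 + L * ‖(c2 : ℂ) + y * I‖) ^ 4) (nn c2)
      (B := B * (1 + L * ‖w0 - w1‖) ^ 4) (by positivity) (fun n => (r2 n).1) hint2 (fun y => by
        refine (st0 w0 w1 _ hw0' hw1 (by simp; exact hc2)).trans ?_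
        refine pow_le_pow_left₀ (by positivity) ?_ 2
        refine le_mul_of_one_le_right (by positivity) (one_le_pow₀ ?_)
        have := mul_nonneg hL0 (norm_nonneg ((c2 : ℂ) + y * I))
        linarith)
    have m2' : ∑ n ∈ s, w n * ‖(tw (fun _ => 1) w0 * mt (fun n => (n : ℂ) ^ w1) * mt p2) n‖ ^ 2 ≤
        ((B * (1 + L * ‖w0 - w1‖) ^ 4) * ∫ y : ℝ, ‖h2 y‖ * (1 + L * ‖(c2 : ℂ) + y * I‖) ^ 4) ^ 2 := by
      refine le_trans (le_of_eq ?_) m2
      exact Finset.sum_congr rfl fun n _ => by rw [(r2 n).2]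
    refine m2'.trans (pow_le_pow_left₀ ?_ (mul_le_mul_of_nonneg_left hle2 (by positivity)) 2)
    exact mul_nonneg (by positivity) (integral_nonneg fun y => mul_nonneg (norm_nonneg _) (nn c2 y))
  -- step 2
  have st2 : ∀ w0 : ℂ, w0.re ≤ 0 →
      ∑ n ∈ s, w n * ‖(tw (fun _ => 1) w0 * mt p1 * mt p2) n‖ ^ 2 ≤
        ((B * (1 + L * ‖w0‖) ^ 4 * A2) * A1) ^ 2 := by
    intro w0 hw0'
    have r1 := ((rb_mt hL0 hcont1 hint1 hrep1).mul_left (tw (fun _ => 1) w0)).mul_right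
      (mt p2)
    have m1 := mink s w hw0 h1 (fun y n => (tw (fun _ => 1) w0 *
      mt (fun n => (n : ℂ) ^ (-((c1 : ℂ) + y * I))) * mt p2) n)
      (fun y => (1 + L * ‖(c1 : ℂ) + y * I‖) ^ 4) (nn c1)
      (B := B * (1 + L * ‖w0‖) ^ 4 * A2) (by positivity) (fun n => (r1 n).1) hint1 (fun y => by
        refine (st1 w0 _ hw0' (by simp; exact hc1)).trans ?_
        refine pow_le_pow_left₀ (by positivity) ?_ 2
        have a1 := sum_le_aux hL0 w0 (-((c1 : ℂ) + y * I))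
        rw [norm_neg] at a1
        have a2 := pow_le_pow_left₀ (by positivity) a1 4
        rw [mul_pow] at a2
        calc B * (1 + L * ‖w0 - -((c1 : ℂ) + y * I)‖) ^ 4 * A2 ≤
            B * ((1 + L * ‖w0‖) ^ 4 * (1 + L * ‖(c1 : ℂ) + y * I‖) ^ 4) * A2 :=
              mul_le_mul_of_nonneg_right (mul_le_mul_of_nonneg_left a2 hB0) hA2
          _ = _ := by ring)
    have m1' : ∑ n ∈ s, w n * ‖(tw (fun _ => 1) w0 * mt p1 * mt p2) n‖ ^ 2 ≤
        ((B * (1 + L * ‖w0‖) ^ 4 * A2) * ∫ y : ℝ, ‖h1 y‖ * (1 + L * ‖(c1 : ℂ) + y * I‖) ^ 4) ^ 2 := by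
      refine le_trans (le_of_eq ?_) m1
      exact Finset.sum_congr rfl fun n _ => by rw [(r1 n).2]
    refine m1'.trans (pow_le_pow_left₀ ?_ (mul_le_mul_of_nonneg_left hle1 (by positivity)) 2)
    exact mul_nonneg (by positivity) (integral_nonneg fun y => mul_nonneg (norm_nonneg _) (nn c1 y))
  -- step 3
  have r0 := ((rb_tw hL0 hcont hint hrep β).mul_right (mt p1)).mul_right (mt p2)
  have m0 := mink s w hw0 h (fun y n => (tw (fun _ => 1) (β - ((c : ℂ) + y * I)) * mt p1 * mt p2) n)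
    (fun y => (1 + L * ‖(c : ℂ) + y * I‖) ^ 4) (nn c)
    (B := B * (1 + L * ‖β‖) ^ 4 * A2 * A1) (by positivity) (fun n => (r0 n).1) hint (fun y => by
      refine (st2 _ (by simp; exact hβ)).trans ?_
      refine pow_le_pow_left₀ (by positivity) ?_ 2
      have a1 := sum_le_aux hL0 β ((c : ℂ) + y * I)
      have a2 := pow_le_pow_left₀ (by positivity) a1 4
      rw [mul_pow] at a2
      calc B * (1 + L * ‖β - ((c : ℂ) + y * I)‖) ^ 4 * A2 * A1 ≤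
          B * ((1 + L * ‖β‖) ^ 4 * (1 + L * ‖(c : ℂ) + y * I‖) ^ 4) * A2 * A1 :=
            mul_le_mul_of_nonneg_right (mul_le_mul_of_nonneg_right
              (mul_le_mul_of_nonneg_left a2 hB0) hA2) hA1
        _ = _ := by ring)
  rw [conv]
  have m0' : ∑ n ∈ s, w n * ‖(tw g β * mt p1 * mt p2) n‖ ^ 2 ≤
      ((B * (1 + L * ‖β‖) ^ 4 * A2 * A1) * ∫ y : ℝ, ‖h y‖ * (1 + L * ‖(c : ℂ) + y * I‖) ^ 4) ^ 2 := by
    refine le_trans (le_of_eq ?_) m0
    exact Finset.sum_congr rfl fun n _ => by rw [(r0 n).2]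
  have m0'' : ∑ n ∈ s, w n * ‖(tw g β * mt p1 * mt p2) n‖ ^ 2 ≤
      ((B * (1 + L * ‖β‖) ^ 4 * A2 * A1) * A) ^ 2 := by
    refine m0'.trans (pow_le_pow_left₀ ?_ (mul_le_mul_of_nonneg_left hle (by positivity)) 2)
    exact mul_nonneg (by positivity) (integral_nonneg fun y => mul_nonneg (norm_nonneg _) (nn c y))
  refine m0''.trans ?_
  have f1 : ((B * (1 + L * ‖β‖) ^ 4 * A2 * A1) * A) ^ 2 =
      (B ^ 2) * ((1 + L * ‖β‖) ^ 8 * (A * A1 * A2) ^ 2) := by ring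
  rw [f1, hBsq]
  have f2 : C * (1 + L) ≤ 2 * C * L := by nlinarith
  calc C * (1 + L) * ((1 + L * ‖β‖) ^ 8 * (A * A1 * A2) ^ 2) ≤
      (2 * C * L) * ((1 + L * ‖β‖) ^ 8 * (A * A1 * A2) ^ 2) :=
        mul_le_mul_of_nonneg_right f2 (by positivity)
    _ = _ := by ring

end Pool.Agent.P4f18dfS
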