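import Pool.Agent.Lib.P4f18dfS.KerNorm
import Pool.Agent.Lib.P4f18dfS.ZPoly
import Pool.Agent.Lib.P4f18dfS.ShiftPoly
import Pool.Agent.Lib.P4f18dfV.PZ4

/-!
# `ζ P1 - m` as a smooth frequency projection of `ζ P2`

`G(s) = zE(s) P1(s) - (s-1) m(s)` is entire, `G(ρ) = (ρ-1) D(ρ)` and `G = - zE (P2 + P3)` for `Re s > 1`. The kernel
`ker(s-ρ)/(s-ρ)` and a shift from `Re s = n` to `Re s = -n` give `2π G(ρ)` (`core2`); the `P2` part is moved to
`Re s = Re ρ + 1/L`, the other terms and the tail `|y| > T/100` are smaller than `T^{-3}`.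
-/

set_option autoImplicit false

open Complex MeasureTheory

namespace Pool.Agent.P4f18dfS

open Pool.Agent.P4f18dfV

/-- `ζ P1 - m`. -/
noncomputable def Dd (T u : ℝ) (ρ : ℂ) : ℂ := riemannZeta ρ * PX T (-ell T) u ρ - mm T ρ

namespace DR

lemma ker_dec (b : ℝ) {δ : ℝ} (hδ : 0 < δ) (k : ℕ) (z : ℂ) :
    ‖ker b δ k z‖ ≤ Real.exp (b * z.re + k * δ * max z.re 0) *
      ((1 + 2 / δ) / (1 + |z.im|)) ^ k := by
  have hE := Real.exp_pos (b * z.re + k * δ * max z.re 0)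
  have hd : 0 < 2 / δ := by positivity
  rcases le_or_gt |z.im| (2 / δ) with h | h
  · refine (ker_le b hδ k z).trans (le_mul_of_one_le_right hE.le (one_le_pow₀ ?_))
    rw [one_le_div (by positivity)]
    linarith
  · have him : 0 < |z.im| := hd.trans h
    have hzn : |z.im| ≤ ‖z‖ := Complex.abs_im_le_norm z
    have hz : z ≠ 0 := by
      rintro rfl
      simp at him
    refine (ker_le' b hδ k z hz).trans (mul_le_mul_of_nonneg_left ?_ hE.le)
    refine pow_le_pow_left₀ (by positivity) ?_ k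
    have hn : 0 < ‖z‖ := him.trans_le hzn
    rw [div_le_div_iff₀ (by positivity) (by positivity)]
    have h1 : (1 + 2 / δ) * (δ * ‖z‖) = δ * ‖z‖ + 2 * ‖z‖ := by
      field_simp
    have h2 : 2 < δ * |z.im| := by rwa [div_lt_iff₀' hδ] at h
    rw [h1]
    nlinarith

lemma pow_frac {m k : ℕ} (hk : m + 2 ≤ k) {M w : ℝ} (hM : 0 ≤ M) (hw : 0 ≤ w) :
    (1 + w) ^ m * (M / (1 + w)) ^ k ≤ M ^ k / (1 + w) ^ 2 := by
  obtain ⟨j, rfl⟩ := Nat.exists_eq_add_of_le hk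
  have h1 : 0 < 1 + w := by linarith
  rw [div_pow, mul_div_assoc', div_le_div_iff₀ (by positivity) (by positivity)]
  have h2 : (1 : ℝ) ≤ (1 + w) ^ j := one_le_pow₀ (by linarith)
  calc (1 + w) ^ m * M ^ (m + 2 + j) * (1 + w) ^ 2 =
        M ^ (m + 2 + j) * (1 + w) ^ (m + 2) * 1 := by ring
    _ ≤ M ^ (m + 2 + j) * (1 + w) ^ (m + 2) * (1 + w) ^ j :=
        mul_le_mul_of_nonneg_left h2 (by positivity)
    _ = _ := by ring

lemma int_bound {f : ℝ → ℂ} {A γ : ℝ} (h : ∀ t, ‖f t‖ ≤ A / (1 + |t - γ|) ^ 2) :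
    ‖∫ t, f t‖ ≤ A * Real.pi := by
  have hA : 0 ≤ A := by
    have h0 := (norm_nonneg _).trans (h γ)
    simpa using h0
  have hint : Integrable (fun t : ℝ => A * (1 + (t - γ) ^ 2)⁻¹) :=
    (integrable_inv_one_add_sq.comp_sub_right γ).const_mul A
  have h1 := norm_integral_le_of_norm_le hint (Filter.Eventually.of_forall (fun t => (h t).trans ?_))
  · refine h1.trans (le_of_eq ?_)
    rw [integral_const_mul, integral_sub_right_eq_self (fun t : ℝ => (1 + t ^ 2)⁻¹) γ,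
      integral_univ_inv_one_add_sq]
  · rw [div_eq_mul_inv]
    refine mul_le_mul_of_nonneg_left ?_ hA
    refine inv_anti₀ (by positivity) ?_
    have h2 : (t - γ) ^ 2 = |t - γ| ^ 2 := (sq_abs _).symm
    rw [h2]
    nlinarith [abs_nonneg (t - γ)]

lemma strip_ker (b : ℝ) {δ : ℝ} (hδ : 0 < δ) (k : ℕ) (R : ℝ) (hR : 0 ≤ R) (ρ : ℂ) :
    ∃ K : ℝ, 0 ≤ K ∧ ∀ s : ℂ, |s.re| ≤ R → ‖ker b δ k (s - ρ)‖ ≤ K / (1 + |s.im|) ^ k := by
  refine ⟨Real.exp (|b| * (R + |ρ.re|) + k * δ * (R + |ρ.re|)) *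
    ((1 + 2 / δ) * (1 + |ρ.im|)) ^ k, by positivity, fun s hs => ?_⟩
  refine (ker_dec b hδ k (s - ρ)).trans ?_
  rw [mul_div_assoc, ← div_pow]
  have hre : |(s - ρ).re| ≤ R + |ρ.re| := by
    rw [Complex.sub_re]
    exact (abs_sub _ _).trans (by linarith)
  refine mul_le_mul ?_ ?_ (by positivity) (Real.exp_pos _).le
  · rw [Real.exp_le_exp]
    have h1 : b * (s - ρ).re ≤ |b| * (R + |ρ.re|) := by
      refine (le_abs_self _).trans ?_
      rw [abs_mul]
      exact mul_le_mul_of_nonneg_left hre (abs_nonneg _)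
    have h2 : k * δ * max (s - ρ).re 0 ≤ k * δ * (R + |ρ.re|) := by
      refine mul_le_mul_of_nonneg_left ?_ (by positivity)
      exact max_le ((le_abs_self _).trans hre) (by positivity)
    linarith
  · refine pow_le_pow_left₀ (by positivity) ?_ k
    have h3 : 1 + |s.im| ≤ (1 + |(s - ρ).im|) * (1 + |ρ.im|) := by
      have h4 : |s.im| ≤ |(s - ρ).im| + |ρ.im| := by
        calc |s.im| = |(s - ρ).im + ρ.im| := by rw [Complex.sub_im]; congr 1; ring
          _ ≤ _ := abs_add_le _ _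
      nlinarith [mul_nonneg (abs_nonneg (s - ρ).im) (abs_nonneg ρ.im)]
    rw [div_le_div_iff₀ (by positivity) (by positivity), mul_assoc]
    refine mul_le_mul_of_nonneg_left ?_ (by positivity)
    linarith

lemma norm_le_strip {s : ℂ} {R : ℝ} (hs : |s.re| ≤ R) : ‖s‖ ≤ R + |s.im| :=
  (Complex.norm_le_abs_re_add_abs_im s).trans (by linarith)

lemma strip_fun {g : ℂ → ℂ} {m : ℕ} {C R : ℝ} (hC : 0 ≤ C) (hR : 0 ≤ R)
    (hg : ∀ s : ℂ, |s.re| ≤ R → ‖g s‖ ≤ C * (1 + ‖s‖) ^ m) (b : ℝ) {δ : ℝ} (hδ : 0 < δ) {k : ℕ}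
    (hk : m + 2 ≤ k) (ρ : ℂ) :
    ∃ K : ℝ, 0 ≤ K ∧ ∀ s : ℂ, |s.re| ≤ R → ‖g s‖ * ‖ker b δ k (s - ρ)‖ ≤ K / (1 + |s.im|) ^ 2 := by
  obtain ⟨K, hK, h⟩ := strip_ker b hδ k R hR ρ
  refine ⟨C * (1 + R) ^ m * K, by positivity, fun s hs => ?_⟩
  have h1 : ‖g s‖ ≤ C * (1 + R) ^ m * (1 + |s.im|) ^ m := by
    refine (hg s hs).trans ?_
    rw [mul_assoc, ← mul_pow]
    refine mul_le_mul_of_nonneg_left (pow_le_pow_left₀ (by positivity) ?_ m) hC
    have h2 := norm_le_strip hs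
    nlinarith [mul_nonneg hR (abs_nonneg s.im)]
  obtain ⟨j, rfl⟩ := Nat.exists_eq_add_of_le hk
  have hw : 0 < 1 + |s.im| := by positivity
  have hj : (1 : ℝ) ≤ (1 + |s.im|) ^ j := one_le_pow₀ (by linarith [abs_nonneg s.im])
  calc ‖g s‖ * ‖ker b δ (m + 2 + j) (s - ρ)‖ ≤ C * (1 + R) ^ m * (1 + |s.im|) ^ m *
        (K / (1 + |s.im|) ^ (m + 2 + j)) :=
        mul_le_mul h1 (h s hs) (norm_nonneg _) (by positivity)
    _ = C * (1 + R) ^ m * K / ((1 + |s.im|) ^ 2 * (1 + |s.im|) ^ j) := by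
        rw [pow_add, pow_add]
        field_simp
    _ ≤ C * (1 + R) ^ m * K / ((1 + |s.im|) ^ 2 * 1) :=
        div_le_div_of_nonneg_left (by positivity) (by positivity)
          (mul_le_mul_of_nonneg_left hj (by positivity))
    _ = _ := by rw [mul_one]

lemma line_int {F : ℝ → ℂ} {K : ℝ} (hc : Continuous F)
    (hK : ∀ t : ℝ, ‖F t‖ ≤ K / (1 + |t|) ^ 2) : Integrable F := by
  have hint : Integrable (fun t : ℝ => K * (1 + t ^ 2)⁻¹) := integrable_inv_one_add_sq.const_mul K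
  have hK0 : 0 ≤ K := by
    have h0 := (norm_nonneg _).trans (hK 0)
    simpa using h0
  refine hint.mono' hc.aestronglyMeasurable (Filter.Eventually.of_forall (fun t => ?_))
  refine (hK t).trans ?_
  rw [div_eq_mul_inv]
  refine mul_le_mul_of_nonneg_left (inv_anti₀ (by positivity) ?_) hK0
  rw [← sq_abs]
  nlinarith [abs_nonneg t]


/-- `(s - 1) D(s)`. -/
noncomputable def GG (T u : ℝ) (s : ℂ) : ℂ := zE s * PX T (-ell T) u s - (s - 1) * mm T s

lemma GG_diff {T u : ℝ} (hT : 1 ≤ T) (hu : 0 ≤ u) : Differentiable ℂ (GG T u) := by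
  have hell := ell_pos (show 0 < T by linarith)
  exact (zE_diff.mul (PX_diff hT (by linarith))).sub
    ((differentiable_id.sub_const 1).mul (mm_diff (by linarith)))

lemma GG_right {T u v : ℝ} (hT : 1 ≤ T) (hu : 0 ≤ u) (huv : u ≤ v) {s : ℂ} (hs : 1 < s.re) :
    GG T u s = -(zE s * PX T u v s) - zE s * P3 T v s := by
  unfold GG
  rw [← mellin_split hT hu huv hs]
  ring

lemma zE_strip {n : ℕ} (hn : 1 ≤ n) : ∃ C : ℝ, 0 < C ∧ ∀ s : ℂ, |s.re| ≤ (n : ℝ) →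
    ‖zE s‖ ≤ C * (1 + ‖s‖) ^ (n + 2) := by
  obtain ⟨C, hC, h⟩ := zE_poly n hn
  exact ⟨C, hC, fun s hs => h s (abs_le.mp hs).1⟩

lemma PX_strip {T : ℝ} (hT : 1 ≤ T) {u v : ℝ} (huv : u ≤ v) (R : ℝ) :
    ∃ B : ℝ, 0 ≤ B ∧ ∀ s : ℂ, |s.re| ≤ R → ‖PX T u v s‖ ≤ B := by
  refine ⟨(Real.exp v + 1) * Real.exp (R * (|u| + |v|)) * (v - u), ?_, fun s hs => ?_⟩
  · have : 0 ≤ v - u := by linarith
    positivity
  · rw [PX_eq]
    exact GX_strip huv (dd_norm_le hT) hs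

lemma mm_strip {T : ℝ} (hT : 1 ≤ T) (R : ℝ) :
    ∃ B : ℝ, 0 ≤ B ∧ ∀ s : ℂ, |s.re| ≤ R → ‖mm T s‖ ≤ B := by
  have hell := ell_pos (show 0 < T by linarith)
  refine ⟨1 * Real.exp (R * (|(-ell T)| + |(0 : ℝ)|)) * (0 - -ell T), ?_, fun s hs => ?_⟩
  · have : 0 ≤ 0 - -ell T := by linarith
    positivity
  · rw [mm_eq]
    exact GX_strip (B := 1) (by linarith) (fun x _ => by simp) hs

lemma GG_strip {T u : ℝ} (hT : 1 ≤ T) (hu : 0 ≤ u) {n : ℕ} (hn : 1 ≤ n) :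
    ∃ C : ℝ, 0 ≤ C ∧ ∀ s : ℂ, |s.re| ≤ (n : ℝ) → ‖GG T u s‖ ≤ C * (1 + ‖s‖) ^ (n + 2) := by
  have hell := ell_pos (show 0 < T by linarith)
  obtain ⟨C, hC, h1⟩ := zE_strip hn
  obtain ⟨B1, hB1, h2⟩ := PX_strip hT (show -ell T ≤ u by linarith) (n : ℝ)
  obtain ⟨B2, hB2, h3⟩ := mm_strip hT (n : ℝ)
  refine ⟨C * B1 + B2, by positivity, fun s hs => ?_⟩
  have h4 : ‖s - 1‖ ≤ (1 + ‖s‖) ^ (n + 2) := by
    have h5 : ‖s - 1‖ ≤ 1 + ‖s‖ := by
      refine (norm_sub_le _ _).trans ?_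
      rw [norm_one]
      linarith
    exact h5.trans (le_self_pow₀ (by linarith [norm_nonneg s]) (by omega))
  unfold GG
  refine (norm_sub_le _ _).trans ?_
  rw [norm_mul, norm_mul, add_mul]
  refine add_le_add ?_ ?_
  · calc ‖zE s‖ * ‖PX T (-ell T) u s‖ ≤ C * (1 + ‖s‖) ^ (n + 2) * B1 :=
        mul_le_mul (h1 s hs) (h2 s hs) (norm_nonneg _) (by positivity)
      _ = _ := by ring
  · calc ‖s - 1‖ * ‖mm T s‖ ≤ (1 + ‖s‖) ^ (n + 2) * B2 :=
        mul_le_mul h4 (h3 s hs) (norm_nonneg _) (by positivity)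
      _ = _ := by ring

lemma zP_strip {T u v : ℝ} (hT : 1 ≤ T) (huv : u ≤ v) {n : ℕ} (hn : 1 ≤ n) :
    ∃ C : ℝ, 0 ≤ C ∧ ∀ s : ℂ, |s.re| ≤ (n : ℝ) → ‖zE s * PX T u v s‖ ≤ C * (1 + ‖s‖) ^ (n + 2) := by
  obtain ⟨C, hC, h1⟩ := zE_strip hn
  obtain ⟨B1, hB1, h2⟩ := PX_strip hT huv (n : ℝ)
  refine ⟨C * B1, by positivity, fun s hs => ?_⟩
  rw [norm_mul]
  calc ‖zE s‖ * ‖PX T u v s‖ ≤ C * (1 + ‖s‖) ^ (n + 2) * B1 :=
        mul_le_mul (h1 s hs) (h2 s hs) (norm_nonneg _) (by positivity)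
      _ = _ := by ring

lemma sub_line_ne {a : ℝ} {ρ : ℂ} (ha : a ≠ ρ.re) (t : ℝ) : (a : ℂ) + t * I - ρ ≠ 0 := by
  intro h0
  have h1 : ((a : ℂ) + t * I - ρ).re = 0 := by rw [h0]; simp
  rw [Complex.sub_re, line_re] at h1
  exact ha (by linarith)

lemma line_shift_cont {F : ℂ → ℂ} (hF : Continuous F) {a : ℝ} {ρ : ℂ} (ha : a ≠ ρ.re) :
    Continuous (fun t : ℝ => F (a + t * I) / ((a : ℂ) + t * I - ρ)) :=
  (line_cont hF a).div (by fun_prop) (sub_line_ne ha)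

/-- Integrability and continuity on a vertical line. -/
lemma line_shift_int {F : ℂ → ℂ} (hF : Continuous F) {a R K : ℝ} {ρ : ℂ} (ha : a ≠ ρ.re)
    (haR : |a| ≤ R) (hK0 : 0 ≤ K)
    (hK : ∀ s : ℂ, |s.re| ≤ R → ‖F s‖ ≤ K / (1 + |s.im|) ^ 2) :
    Integrable (fun t : ℝ => F (a + t * I) / ((a : ℂ) + t * I - ρ)) := by
  have hd : 0 < |a - ρ.re| := abs_pos.mpr (sub_ne_zero.mpr ha)
  refine line_int (K := K / |a - ρ.re|) (line_shift_cont hF ha) (fun t => ?_)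
  have h1 := hK ((a : ℂ) + t * I) (by rw [line_re]; exact haR)
  rw [line_im] at h1
  rw [norm_div]
  have h2 : |a - ρ.re| ≤ ‖(a : ℂ) + t * I - ρ‖ := by
    refine le_trans (le_of_eq ?_) (Complex.abs_re_le_norm _)
    rw [Complex.sub_re, line_re]
  calc ‖F (a + t * I)‖ / ‖(a : ℂ) + t * I - ρ‖ ≤ K / (1 + |t|) ^ 2 / |a - ρ.re| :=
        div_le_div₀ (by positivity) h1 hd h2
    _ = _ := by ring

lemma core2 {T : ℝ} (hT : 1 ≤ T) {u v b δ σ : ℝ} (hu : 0 ≤ u) (huv : u ≤ v) (hδ : 0 < δ) {n k : ℕ}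
    (hn : 2 ≤ n) (hk : n + 6 ≤ k) {ρ : ℂ} (h1 : 0 < ρ.re) (h2 : ρ.re < 1) (hσ : ρ.re < σ)
    (hσn : σ ≤ n) :
    2 * Real.pi * GG T u ρ =
      -(∫ t : ℝ, (zE (σ + t * I) * PX T u v (σ + t * I)) * ker b δ k (σ + t * I - ρ) /
        ((σ : ℂ) + t * I - ρ)) -
      (∫ t : ℝ, (zE ((n : ℝ) + t * I) * P3 T v ((n : ℝ) + t * I)) * ker b δ k ((n : ℝ) + t * I - ρ) /
        (((n : ℝ) : ℂ) + t * I - ρ)) -
      ∫ t : ℝ, GG T u ((-(n : ℝ) : ℝ) + t * I) * ker b δ k ((-(n : ℝ) : ℝ) + t * I - ρ) /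
        (((-(n : ℝ) : ℝ) : ℂ) + t * I - ρ) := by
  have hT0 : 0 < T := by linarith
  have hn2 : (2 : ℝ) ≤ n := by exact_mod_cast hn
  have hker : Differentiable ℂ (fun s : ℂ => ker b δ k (s - ρ)) :=
    (ker_diff b δ k).comp (differentiable_id.sub_const ρ)
  obtain ⟨C1, hC1, hb1⟩ := GG_strip hT hu (n := n) (by omega)
  obtain ⟨K1, hK1, hk1⟩ := strip_fun (R := (n : ℝ)) hC1 (by positivity) hb1 b hδ (k := k)
    (by omega) ρ
  obtain ⟨C2, hC2, hb2⟩ := zP_strip hT huv (n := n) (by omega)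
  obtain ⟨K2, hK2, hk2⟩ := strip_fun (R := (n : ℝ)) (g := fun s => zE s * PX T u v s) hC2
    (by positivity) hb2 b hδ (k := k) (by omega) ρ
  have hFd : Differentiable ℂ (fun s : ℂ => GG T u s * ker b δ k (s - ρ)) :=
    (GG_diff hT hu).mul hker
  have hF2d : Differentiable ℂ (fun s : ℂ => (zE s * PX T u v s) * ker b δ k (s - ρ)) :=
    (zE_diff.mul (PX_diff hT huv)).mul hker
  have hsq : ∀ w : ℝ, 0 ≤ w → (1 + w) ≤ (1 + w) ^ 2 := fun w hw => by nlinarith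
  have hpole := shift_pole_poly hFd (a := -(n : ℝ)) (b := (n : ℝ)) (K := K1) (fun s ha hb => by
    have h := hk1 s (abs_le.mpr ⟨ha, hb⟩)
    rw [← norm_mul] at h
    refine h.trans ?_
    exact div_le_div_of_nonneg_left hK1 (by positivity) (hsq _ (abs_nonneg _))) ρ (by linarith)
    (by linarith)
  have hρ0 : ker b δ k (ρ - ρ) = 1 := by rw [sub_self, ker_zero]
  rw [hρ0, mul_one] at hpole
  -- integrability on the line `n`
  have hna : |(n : ℝ)| ≤ (n : ℝ) := by rw [abs_of_nonneg (by positivity)]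
  have hnne : (n : ℝ) ≠ ρ.re := by
    intro h
    linarith
  have i1 := line_shift_int (F := fun s : ℂ => GG T u s * ker b δ k (s - ρ)) hFd.continuous hnne hna
    hK1 (fun s hs => by rw [norm_mul]; exact hk1 s hs)
  have i2 := line_shift_int (F := fun s : ℂ => (zE s * PX T u v s) * ker b δ k (s - ρ))
    hF2d.continuous hnne hna hK2 (fun s hs => by rw [norm_mul]; exact hk2 s hs)
  have hpt : ∀ t : ℝ, (zE ((n : ℝ) + t * I) * P3 T v ((n : ℝ) + t * I)) *
      ker b δ k ((n : ℝ) + t * I - ρ) / (((n : ℝ) : ℂ) + t * I - ρ) =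
      -(GG T u ((n : ℝ) + t * I) * ker b δ k ((n : ℝ) + t * I - ρ) / (((n : ℝ) : ℂ) + t * I - ρ)) -
      (zE ((n : ℝ) + t * I) * PX T u v ((n : ℝ) + t * I)) * ker b δ k ((n : ℝ) + t * I - ρ) /
        (((n : ℝ) : ℂ) + t * I - ρ) := by
    intro t
    rw [GG_right hT hu huv (s := ((n : ℝ) : ℂ) + t * I) (by rw [line_re]; linarith)]
    ring
  have hP3 : ∫ t : ℝ, (zE ((n : ℝ) + t * I) * P3 T v ((n : ℝ) + t * I)) *
      ker b δ k ((n : ℝ) + t * I - ρ) / (((n : ℝ) : ℂ) + t * I - ρ) =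
      -(∫ t : ℝ, GG T u ((n : ℝ) + t * I) * ker b δ k ((n : ℝ) + t * I - ρ) /
        (((n : ℝ) : ℂ) + t * I - ρ)) -
      ∫ t : ℝ, (zE ((n : ℝ) + t * I) * PX T u v ((n : ℝ) + t * I)) *
        ker b δ k ((n : ℝ) + t * I - ρ) / (((n : ℝ) : ℂ) + t * I - ρ) := by
    have i1n : Integrable (fun t : ℝ => -(GG T u ((n : ℝ) + t * I) *
      ker b δ k ((n : ℝ) + t * I - ρ) / (((n : ℝ) : ℂ) + t * I - ρ))) := i1.neg
    rw [← integral_neg, ← integral_sub i1n i2]
    exact integral_congr_ae (Filter.Eventually.of_forall hpt)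
  -- the shift of the second part
  have hU : IsOpen {s : ℂ | ρ.re < s.re} := isOpen_lt continuous_const Complex.continuous_re
  have hshift := shift_poly_on (F := fun s : ℂ => (zE s * PX T u v s) * ker b δ k (s - ρ) / (s - ρ))
    (a := σ) (b := (n : ℝ)) (K := K2 / (σ - ρ.re)) hσn hU
    (fun s hs1 _ => by
      show ρ.re < s.re
      linarith)
    (by
      refine DifferentiableOn.div hF2d.differentiableOn (by fun_prop) (fun s hs => ?_)
      intro h0
      have h3 : (s - ρ).re = 0 := by rw [h0]; simp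
      rw [Complex.sub_re] at h3
      have h4 : ρ.re < s.re := hs
      linarith)
    (fun s hs1 hs2 => by
      have h := hk2 s (abs_le.mpr ⟨by linarith, hs2⟩)
      have h3 : σ - ρ.re ≤ ‖s - ρ‖ := by
        refine le_trans ?_ (Complex.re_le_norm _)
        rw [Complex.sub_re]
        linarith
      show ‖(zE s * PX T u v s) * ker b δ k (s - ρ) / (s - ρ)‖ ≤ _
      rw [norm_div, norm_mul]
      calc ‖zE s * PX T u v s‖ * ‖ker b δ k (s - ρ)‖ / ‖s - ρ‖ ≤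
            K2 / (1 + |s.im|) ^ 2 / (σ - ρ.re) :=
            div_le_div₀ (by positivity) h (by linarith) h3
        _ = _ := by ring)
  rw [hP3, hshift]
  linear_combination -hpole

/-! ### The error terms -/

/-- The left line. -/
lemma err_left (n k : ℕ) (hn : 2 ≤ n) (hk : n + 6 ≤ k) {θ : ℝ} (hθ : 0 < θ) : ∃ G : ℝ, 0 < G ∧
    ∀ (ε T u b L : ℝ) (ρ : ℂ), 0 < ε → ε < 1 → 3 / ε * (2 / ε + 8) ≤ n →
    16 ≤ T → L = Real.log T → 1 ≤ L → 0 ≤ u → u ≤ L / ε → b = u + (1 + ε / 3) * L →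
    1 / 4 ≤ ρ.re → ρ.re ≤ 3 / 4 → 0 ≤ ρ.im → ρ.im ≤ T / 2 →
    ‖∫ t : ℝ, GG T u ((-(n : ℝ) : ℝ) + t * I) * ker b (θ * L) k ((-(n : ℝ) : ℝ) + t * I - ρ) /
        (((-(n : ℝ) : ℝ) : ℂ) + t * I - ρ)‖ ≤ G * Real.exp (-(3 * L)) := by
  obtain ⟨K, hK, hKb⟩ := zeta_left n (by omega)
  set M : ℝ := 1 + 2 / θ with hM
  have hM0 : 0 < M := by positivity
  refine ⟨(2 * K + (n + 1)) * M ^ k * Real.pi, by positivity, ?_⟩
  intro ε T u b L ρ hε hε1 hnε hT hL hL1 hu huL hb hβ0 hβ1 hg0 hg1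
  have hn2 : (2 : ℝ) ≤ n := by exact_mod_cast hn
  have hT0 : 0 < T := by linarith
  have hTe : T = Real.exp L := by rw [hL, Real.exp_log hT0]
  have hb0 : 0 ≤ b := by
    rw [hb]
    positivity
  have hδ : 0 < θ * L := by positivity
  have hexp : ((n : ℝ) + 2) * L + (((n : ℝ) + 2) * u - b * (n + 1 / 4)) ≤ -(3 * L) := by
    rw [hb]
    have h3 : ((n : ℝ) + 2) * L + (((n : ℝ) + 2) * u - (u + (1 + ε / 3) * L) * (n + 1 / 4)) =
        7 / 4 * u + 7 / 4 * L - ε / 3 * (n + 1 / 4) * L := by ring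
    rw [h3]
    have h4 : 2 / ε + 8 ≤ ε / 3 * (n + 1 / 4) := by
      have h5 : ε / 3 * (3 / ε * (2 / ε + 8)) ≤ ε / 3 * (n + 1 / 4) :=
        mul_le_mul_of_nonneg_left (by linarith) (by positivity)
      have h6 : ε / 3 * (3 / ε * (2 / ε + 8)) = 2 / ε + 8 := by
        field_simp
      linarith
    have h5 : (2 / ε + 8) * L ≤ ε / 3 * (n + 1 / 4) * L := mul_le_mul_of_nonneg_right h4 (by linarith)
    have h6 : (2 / ε + 8) * L = 2 * (L / ε) + 8 * L := by ring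
    have h7 : 0 ≤ L / ε := by positivity
    linarith
  have key := int_bound (γ := ρ.im) (A := (2 * K + (n + 1)) * M ^ k * Real.exp (-(3 * L)))
    (f := fun t : ℝ => GG T u ((-(n : ℝ) : ℝ) + t * I) *
      ker b (θ * L) k ((-(n : ℝ) : ℝ) + t * I - ρ) / (((-(n : ℝ) : ℝ) : ℂ) + t * I - ρ)) ?_
  · refine key.trans (le_of_eq ?_)
    ring
  · intro t
    set s : ℂ := ((-(n : ℝ) : ℝ) : ℂ) + t * I with hs
    have hsre : s.re = -(n : ℝ) := line_re _ _
    have hsim : s.im = t := line_im _ _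
    set w : ℝ := |t - ρ.im| with hw
    have hw0 : 0 ≤ w := abs_nonneg _
    have h2 : 1 ≤ ‖s - ρ‖ := by
      refine le_trans ?_ (Complex.abs_re_le_norm _)
      rw [Complex.sub_re, hsre, abs_of_nonpos (by linarith)]
      linarith
    have ht : 1 + |t| ≤ T * (1 + w) := by
      have h3 : |t| ≤ w + ρ.im := by
        calc |t| = |(t - ρ.im) + ρ.im| := by congr 1; ring
          _ ≤ |t - ρ.im| + |ρ.im| := abs_add_le _ _
          _ = _ := by rw [abs_of_nonneg hg0]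
      nlinarith
    have htn : (1 + |t|) ^ (n + 2) ≤ Real.exp (((n : ℝ) + 2) * L) * (1 + w) ^ (n + 2) := by
      refine (pow_le_pow_left₀ (by positivity) ht _).trans (le_of_eq ?_)
      rw [mul_pow, hTe, ← Real.exp_nat_mul]
      push_cast
      rfl
    have hz : ‖zE s‖ ≤ K * (1 + |t|) ^ (n + 2) := by
      have h4 := hKb t
      have h5 : -(n : ℂ) + t * I = s := by
        rw [hs]
        push_cast
        rfl
      rw [h5] at h4
      exact h4
    have h3 : ‖PX T (-ell T) u s‖ ≤ 2 * Real.exp (((n : ℝ) + 2) * u) :=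
      P1_norm (by linarith) hu (by linarith) hsre
    have h4 : ‖mm T s‖ ≤ 1 := mm_upper (by linarith) (by rw [hsre]; linarith)
    have h5 : ‖s - 1‖ ≤ (n + 1) * (1 + |t|) ^ (n + 2) := by
      have h6 : ‖s - 1‖ ≤ (n + 1) + |t| := by
        refine (Complex.norm_le_abs_re_add_abs_im _).trans ?_
        rw [Complex.sub_re, Complex.sub_im, Complex.one_re, Complex.one_im, sub_zero, hsre, hsim,
          abs_of_nonpos (by linarith)]
        linarith
      have h7 : 1 + |t| ≤ (1 + |t|) ^ (n + 2) :=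
        le_self_pow₀ (by linarith [abs_nonneg t]) (by omega)
      have h8 : (n + 1) * (1 + |t|) ≤ ((n : ℝ) + 1) * (1 + |t|) ^ (n + 2) :=
        mul_le_mul_of_nonneg_left h7 (by positivity)
      nlinarith [abs_nonneg t]
    have h6 : ‖GG T u s‖ ≤ (2 * K + (n + 1)) * Real.exp (((n : ℝ) + 2) * u) * (1 + |t|) ^ (n + 2) := by
      unfold GG
      refine (norm_sub_le _ _).trans ?_
      rw [norm_mul, norm_mul]
      have h7 : ‖zE s‖ * ‖PX T (-ell T) u s‖ ≤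
          K * (1 + |t|) ^ (n + 2) * (2 * Real.exp (((n : ℝ) + 2) * u)) :=
        mul_le_mul hz h3 (norm_nonneg _) (by positivity)
      have h8 : ‖s - 1‖ * ‖mm T s‖ ≤ (n + 1) * (1 + |t|) ^ (n + 2) * 1 :=
        mul_le_mul h5 h4 (norm_nonneg _) (by positivity)
      have h9 : (1 : ℝ) ≤ Real.exp (((n : ℝ) + 2) * u) := Real.one_le_exp (by positivity)
      have h10 : ((n : ℝ) + 1) * (1 + |t|) ^ (n + 2) * 1 ≤
          ((n : ℝ) + 1) * (1 + |t|) ^ (n + 2) * Real.exp (((n : ℝ) + 2) * u) :=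
        mul_le_mul_of_nonneg_left h9 (by positivity)
      calc ‖zE s‖ * ‖PX T (-ell T) u s‖ + ‖s - 1‖ * ‖mm T s‖ ≤
            K * (1 + |t|) ^ (n + 2) * (2 * Real.exp (((n : ℝ) + 2) * u)) +
            ((n : ℝ) + 1) * (1 + |t|) ^ (n + 2) * Real.exp (((n : ℝ) + 2) * u) := by linarith
        _ = _ := by ring
    have h7 : ‖ker b (θ * L) k (s - ρ)‖ ≤ Real.exp (-(b * (n + 1 / 4))) * (M / (1 + w)) ^ k := by
      refine (ker_dec b hδ k (s - ρ)).trans ?_
      rw [Complex.sub_re, Complex.sub_im, hsre, hsim, max_eq_right (by linarith)]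
      refine mul_le_mul ?_ ?_ (by positivity) (Real.exp_pos _).le
      · rw [Real.exp_le_exp]
        nlinarith
      · refine pow_le_pow_left₀ (by positivity) ?_ k
        refine div_le_div_of_nonneg_right ?_ (by positivity)
        rw [hM]
        have h8 : 2 / (θ * L) ≤ 2 / θ :=
          div_le_div_of_nonneg_left (by norm_num) hθ (le_mul_of_one_le_right hθ.le hL1)
        linarith
    show ‖GG T u s * ker b (θ * L) k (s - ρ) / (s - ρ)‖ ≤ _
    rw [norm_div, norm_mul]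
    refine (div_le_self (by positivity) h2).trans ?_
    calc ‖GG T u s‖ * ‖ker b (θ * L) k (s - ρ)‖ ≤
          ((2 * K + (n + 1)) * Real.exp (((n : ℝ) + 2) * u) *
            (Real.exp (((n : ℝ) + 2) * L) * (1 + w) ^ (n + 2))) *
          (Real.exp (-(b * (n + 1 / 4))) * (M / (1 + w)) ^ k) :=
          mul_le_mul (h6.trans (mul_le_mul_of_nonneg_left htn (by positivity))) h7 (norm_nonneg _)
            (by positivity)
      _ = (2 * K + (n + 1)) * (Real.exp (((n : ℝ) + 2) * L) * (Real.exp (((n : ℝ) + 2) * u) *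
            Real.exp (-(b * (n + 1 / 4))))) * ((1 + w) ^ (n + 2) * (M / (1 + w)) ^ k) := by ring
      _ ≤ (2 * K + (n + 1)) * Real.exp (-(3 * L)) * (M ^ k / (1 + w) ^ 2) := by
          refine mul_le_mul ?_ (pow_frac (by omega) hM0.le hw0) (by positivity) (by positivity)
          refine mul_le_mul_of_nonneg_left ?_ (by positivity)
          rw [← Real.exp_add, ← Real.exp_add, Real.exp_le_exp]
          refine le_trans (le_of_eq ?_) hexp
          ring
      _ = _ := by ring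

/-- The right line. -/
lemma err_right (n k : ℕ) (hn : 2 ≤ n) (hk : n + 6 ≤ k) {θ : ℝ} (hθ : 0 < θ) : ∃ G : ℝ, 0 < G ∧
    ∀ (ε T u b v L : ℝ) (ρ : ℂ), 0 < ε → ε < 1 → 3 / ε * (2 / ε + 8) ≤ n →
    16 ≤ T → L = Real.log T → 1 ≤ L → 0 ≤ u → u ≤ L / ε → b = u + (1 + ε / 3) * L →
    v = u + (1 + ε) * L → k * θ = ε / 3 →
    1 / 4 ≤ ρ.re → ρ.re ≤ 3 / 4 → 0 ≤ ρ.im → ρ.im ≤ T / 2 →
    ‖∫ t : ℝ, (zE ((n : ℝ) + t * I) * P3 T v ((n : ℝ) + t * I)) *
      ker b (θ * L) k ((n : ℝ) + t * I - ρ) / (((n : ℝ) : ℂ) + t * I - ρ)‖ ≤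
      G * Real.exp (-(3 * L)) := by
  obtain ⟨C, hC, hCb⟩ := zE_half
  set M : ℝ := 1 + 2 / θ with hM
  have hM0 : 0 < M := by positivity
  refine ⟨2 * (C * (1 + n) ^ 2) * M ^ k * Real.pi, by positivity, ?_⟩
  intro ε T u b v L ρ hε hε1 hnε hT hL hL1 hu huL hb hv hkθ hβ0 hβ1 hg0 hg1
  have hn2 : (2 : ℝ) ≤ n := by exact_mod_cast hn
  have hT0 : 0 < T := by linarith
  have hTe : T = Real.exp L := by rw [hL, Real.exp_log hT0]
  have hb0 : 0 ≤ b := by
    rw [hb]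
    positivity
  have hv0 : 0 ≤ v := by
    rw [hv]
    positivity
  have hδ : 0 < θ * L := by positivity
  have hexp : ∀ x : ℝ, 1 / 4 ≤ x → x ≤ 3 / 4 →
      2 * L + (-(((n : ℝ) - 1) * v) + (b * (n - x) + k * (θ * L) * (n - x))) ≤ -(3 * L) := by
    intro x hx0 hx1
    have h3 : 2 * L + (-(((n : ℝ) - 1) * v) + (b * (n - x) + k * (θ * L) * (n - x))) =
        2 * L + (1 - x) * v - ε / 3 * (n - x) * L := by
      rw [← mul_assoc, hkθ, hb, hv]
      ring
    rw [h3]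
    have h4 : 2 / ε + 8 ≤ ε / 3 * n := by
      have h5 : ε / 3 * (3 / ε * (2 / ε + 8)) ≤ ε / 3 * n :=
        mul_le_mul_of_nonneg_left (by linarith) (by positivity)
      have h6 : ε / 3 * (3 / ε * (2 / ε + 8)) = 2 / ε + 8 := by
        field_simp
      linarith
    have h4' : 2 / ε + 7 ≤ ε / 3 * (n - x) := by
      have : ε / 3 * x ≤ 1 := by nlinarith
      nlinarith
    have h5 : (2 / ε + 7) * L ≤ ε / 3 * (n - x) * L := mul_le_mul_of_nonneg_right h4' (by linarith)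
    have h6 : (2 / ε + 7) * L = 2 * (L / ε) + 7 * L := by ring
    have h7 : 0 ≤ L / ε := by positivity
    have h8 : v ≤ L / ε + 2 * L := by
      rw [hv]
      nlinarith
    have h9 : (1 - x) * v ≤ 1 * v := mul_le_mul_of_nonneg_right (by linarith) hv0
    linarith
  have key := int_bound (γ := ρ.im) (A := 2 * (C * (1 + n) ^ 2) * M ^ k * Real.exp (-(3 * L)))
    (f := fun t : ℝ => (zE ((n : ℝ) + t * I) * P3 T v ((n : ℝ) + t * I)) *
      ker b (θ * L) k ((n : ℝ) + t * I - ρ) / (((n : ℝ) : ℂ) + t * I - ρ)) ?_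
  · refine key.trans (le_of_eq ?_)
    ring
  · intro t
    set s : ℂ := ((n : ℝ) : ℂ) + t * I with hs
    have hsre : s.re = (n : ℝ) := line_re _ _
    have hsim : s.im = t := line_im _ _
    set w : ℝ := |t - ρ.im| with hw
    have hw0 : 0 ≤ w := abs_nonneg _
    have h2 : 1 ≤ ‖s - ρ‖ := by
      refine le_trans ?_ (Complex.abs_re_le_norm _)
      rw [Complex.sub_re, hsre, abs_of_nonneg (by linarith)]
      linarith
    have ht : 1 + |t| ≤ T * (1 + w) := by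
      have h3 : |t| ≤ w + ρ.im := by
        calc |t| = |(t - ρ.im) + ρ.im| := by congr 1; ring
          _ ≤ |t - ρ.im| + |ρ.im| := abs_add_le _ _
          _ = _ := by rw [abs_of_nonneg hg0]
      nlinarith
    have htn : (1 + |t|) ^ 2 ≤ Real.exp (2 * L) * (1 + w) ^ 2 := by
      refine (pow_le_pow_left₀ (by positivity) ht _).trans (le_of_eq ?_)
      rw [mul_pow, hTe, ← Real.exp_nat_mul]
      push_cast
      rfl
    have hz : ‖zE s‖ ≤ C * (1 + n) ^ 2 * (1 + |t|) ^ 2 := by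
      refine (hCb s (by rw [hsre]; linarith)).trans ?_
      rw [mul_assoc]
      refine mul_le_mul_of_nonneg_left ?_ hC.le
      have h4 : ‖s‖ ≤ n + |t| := by
        refine (Complex.norm_le_abs_re_add_abs_im _).trans ?_
        rw [hsre, hsim, abs_of_nonneg (by linarith)]
      refine (pow_le_pow_left₀ (by positivity) (by linarith) 2).trans
        (one_add_pow_le (a := (n : ℝ)) (b := |t|) (by linarith) (abs_nonneg _) 2)
    have h3 : ‖P3 T v s‖ ≤ 2 * Real.exp (-(((n : ℝ) - 1) * v)) := by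
      have := P3_norm (T := T) (v := v) (by linarith) hv0 (s := s) (by rw [hsre]; linarith)
      rw [hsre] at this
      exact this
    have h7 : ‖ker b (θ * L) k (s - ρ)‖ ≤
        Real.exp (b * (n - ρ.re) + k * (θ * L) * (n - ρ.re)) * (M / (1 + w)) ^ k := by
      refine (ker_dec b hδ k (s - ρ)).trans ?_
      rw [Complex.sub_re, Complex.sub_im, hsre, hsim, max_eq_left (by linarith)]
      refine mul_le_mul_of_nonneg_left ?_ (Real.exp_pos _).le
      refine pow_le_pow_left₀ (by positivity) ?_ k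
      refine div_le_div_of_nonneg_right ?_ (by positivity)
      rw [hM]
      have h8 : 2 / (θ * L) ≤ 2 / θ :=
        div_le_div_of_nonneg_left (by norm_num) hθ (le_mul_of_one_le_right hθ.le hL1)
      linarith
    show ‖(zE s * P3 T v s) * ker b (θ * L) k (s - ρ) / (s - ρ)‖ ≤ _
    rw [norm_div, norm_mul, norm_mul]
    refine (div_le_self (by positivity) h2).trans ?_
    calc ‖zE s‖ * ‖P3 T v s‖ * ‖ker b (θ * L) k (s - ρ)‖ ≤
          (C * (1 + n) ^ 2 * (Real.exp (2 * L) * (1 + w) ^ 2)) *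
            (2 * Real.exp (-(((n : ℝ) - 1) * v))) *
          (Real.exp (b * (n - ρ.re) + k * (θ * L) * (n - ρ.re)) * (M / (1 + w)) ^ k) := by
          refine mul_le_mul (mul_le_mul (hz.trans (mul_le_mul_of_nonneg_left htn (by positivity))) h3
            (norm_nonneg _) (by positivity)) h7 (norm_nonneg _) (by positivity)
      _ = 2 * (C * (1 + n) ^ 2) * (Real.exp (2 * L) * (Real.exp (-(((n : ℝ) - 1) * v)) *
            Real.exp (b * (n - ρ.re) + k * (θ * L) * (n - ρ.re)))) *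
            ((1 + w) ^ 2 * (M / (1 + w)) ^ k) := by ring
      _ ≤ 2 * (C * (1 + n) ^ 2) * Real.exp (-(3 * L)) * (M ^ k / (1 + w) ^ 2) := by
          refine mul_le_mul ?_ (pow_frac (by omega) hM0.le hw0) (by positivity) (by positivity)
          refine mul_le_mul_of_nonneg_left ?_ (by positivity)
          rw [← Real.exp_add, ← Real.exp_add, Real.exp_le_exp]
          exact hexp ρ.re hβ0 hβ1
      _ = _ := by ring

/-- The tail of the main line. -/
lemma tail_pt {k : ℕ} {ε θ : ℝ} (hε : 0 < ε) (hε1 : ε < 1) (hk : 2 / ε + 13 ≤ k) (hθ : 0 < θ)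
    (hkθ : k * θ = ε / 3) : ∃ G : ℝ, 0 < G ∧
    ∀ (T u b v L : ℝ) (ρ : ℂ),
    100 ≤ T → L = Real.log T → 1 ≤ L → 0 ≤ u → u ≤ L / ε → b = u + (1 + ε / 3) * L →
    v = u + (1 + ε) * L →
    1 / 4 ≤ ρ.re → ρ.re ≤ 3 / 4 → 0 ≤ ρ.im → ρ.im ≤ T / 2 → ∀ y : ℝ, T / 100 < |y| →
    ‖(zE (ρ + (((1 / L : ℝ) : ℂ) + y * I)) * PX T u v (ρ + (((1 / L : ℝ) : ℂ) + y * I))) *
      ker b (θ * L) k (((1 / L : ℝ) : ℂ) + y * I) / (((1 / L : ℝ) : ℂ) + y * I)‖ ≤
      G * Real.exp (-(3 * L)) / (1 + |y|) ^ 2 := by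
  obtain ⟨C, hC, hCb⟩ := zE_half
  set M : ℝ := 1 + 2 / θ with hM
  have hM0 : 0 < M := by positivity
  have hk13 : 13 < k := by
    have h0 : (13 : ℝ) < k := by
      have : 0 < 2 / ε := by positivity
      linarith
    exact_mod_cast h0
  obtain ⟨j, hj⟩ := Nat.exists_eq_add_of_le (show 4 ≤ k by omega)
  refine ⟨9 * C * 2 * Real.exp (1 / ε + 2) * M ^ k * 100 ^ j, by positivity, ?_⟩
  intro T u b v L ρ hT hL hL1 hu huL hb hv hβ0 hβ1 hg0 hg1 y hy
  have hT0 : 0 < T := by linarith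
  have hTe : T = Real.exp L := by rw [hL, Real.exp_log hT0]
  have hb0 : 0 ≤ b := by
    rw [hb]
    positivity
  have huv : u ≤ v := by
    rw [hv]
    have : 0 ≤ (1 + ε) * L := by positivity
    linarith
  have hv0 : 0 ≤ v := hu.trans huv
  have hδ : 0 < θ * L := by positivity
  set z : ℂ := ((1 / L : ℝ) : ℂ) + y * I with hz
  have hzre : z.re = 1 / L := line_re _ _
  have hzim : z.im = y := line_im _ _
  have hL1' : 1 / L ≤ 1 := by
    rw [div_le_one (by linarith)]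
    exact hL1
  have hL0' : 0 < 1 / L := by positivity
  have hy1 : 1 ≤ |y| := by linarith
  have hw0 : 0 ≤ |y| := abs_nonneg y
  have h2 : 1 ≤ ‖z‖ := by
    refine le_trans ?_ (Complex.abs_im_le_norm _)
    rw [hzim]
    exact hy1
  have hvL : v ≤ (1 / ε + 2) * L := by
    rw [hv]
    have h3 : (1 / ε + 2) * L = L / ε + 2 * L := by ring
    rw [h3]
    nlinarith
  -- zeta
  have h4 : ‖zE (ρ + z)‖ ≤ 9 * C * (Real.exp (2 * L) * (1 + |y|) ^ 2) := by
    refine (hCb (ρ + z) (by rw [Complex.add_re, hzre]; linarith)).trans ?_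
    have h5 : ‖ρ + z‖ ≤ 2 + T / 2 + |y| := by
      refine (Complex.norm_le_abs_re_add_abs_im _).trans ?_
      rw [Complex.add_re, Complex.add_im, hzre, hzim, abs_of_nonneg (by linarith)]
      have h6 : |ρ.im + y| ≤ ρ.im + |y| := by
        refine (abs_add_le _ _).trans ?_
        rw [abs_of_nonneg hg0]
      linarith
    have h6 : 1 + ‖ρ + z‖ ≤ 3 * (T * (1 + |y|)) := by nlinarith
    calc C * (1 + ‖ρ + z‖) ^ 2 ≤ C * (3 * (T * (1 + |y|))) ^ 2 :=
          mul_le_mul_of_nonneg_left (pow_le_pow_left₀ (by positivity) h6 2) hC.le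
      _ = 9 * C * (T ^ 2 * (1 + |y|) ^ 2) := by ring
      _ = _ := by
          rw [hTe, ← Real.exp_nat_mul]
          push_cast
          rfl
  -- the short sums
  have h5 : ‖PX T u v (ρ + z)‖ ≤ 2 * Real.exp (2 * v) := by
    rw [PX_eq]
    have h := GX_norm_le (g := fun x => (DD T (Real.exp x) : ℂ)) (u := u) (v := v)
      (B := 2 * Real.exp v * 1) huv (ρ + z) (by
        intro x hx
        have h1 := dd_norm (T := T) (by linarith) x
        have h2 : Real.exp x ≤ Real.exp v := Real.exp_le_exp.mpr hx.2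
        have h3 : 1 ≤ Real.exp v := Real.one_le_exp hv0
        refine mul_le_mul (by linarith) ?_ (Real.exp_pos _).le (by positivity)
        rw [Real.exp_le_one_iff, Complex.add_re, hzre]
        have : 0 < x := by linarith [hx.1]
        have : 0 ≤ (ρ.re + 1 / L) * x := by positivity
        linarith)
    refine h.trans ?_
    have h6 : v - u ≤ Real.exp v := by
      have := Real.add_one_le_exp v
      linarith
    calc 2 * Real.exp v * 1 * (v - u) ≤ 2 * Real.exp v * 1 * Real.exp v :=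
          mul_le_mul_of_nonneg_left h6 (by positivity)
      _ = 2 * Real.exp (2 * v) := by
          rw [mul_one, mul_assoc, ← Real.exp_add]
          congr 2
          ring
  -- the kernel
  have h7 : ‖ker b (θ * L) k z‖ ≤ Real.exp (1 / ε + 2) * (M / (1 + |y|)) ^ k := by
    refine (ker_dec b hδ k z).trans ?_
    rw [hzre, hzim, max_eq_left hL0'.le]
    refine mul_le_mul ?_ ?_ (by positivity) (Real.exp_pos _).le
    · rw [Real.exp_le_exp]
      have h8 : b * (1 / L) + k * (θ * L) * (1 / L) = (b + k * θ * L) / L := by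
        field_simp
      rw [h8, div_le_iff₀ (by linarith), hkθ, hb]
      have h9 : u + (1 + ε / 3) * L + ε / 3 * L ≤ L / ε + 2 * L := by nlinarith
      refine h9.trans (le_of_eq ?_)
      ring
    · refine pow_le_pow_left₀ (by positivity) ?_ k
      refine div_le_div_of_nonneg_right ?_ (by positivity)
      rw [hM]
      have h8 : 2 / (θ * L) ≤ 2 / θ :=
        div_le_div_of_nonneg_left (by norm_num) hθ (le_mul_of_one_le_right hθ.le hL1)
      linarith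
  -- the power
  have h8 : (1 + |y|) ^ 2 * (M / (1 + |y|)) ^ k ≤
      M ^ k * 100 ^ j * Real.exp (-(j * L)) / (1 + |y|) ^ 2 := by
    have h9 : Real.exp (j * L) / 100 ^ j ≤ (1 + |y|) ^ j := by
      rw [Real.exp_nat_mul, ← hTe, ← div_pow]
      exact pow_le_pow_left₀ (by positivity) (by linarith) j
    have h10 : 0 < Real.exp (j * L) / 100 ^ j := by positivity
    calc (1 + |y|) ^ 2 * (M / (1 + |y|)) ^ k = M ^ k / ((1 + |y|) ^ 2 * (1 + |y|) ^ j) := by
          rw [div_pow]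
          nth_rewrite 2 [hj]
          rw [pow_add]
          field_simp
      _ ≤ M ^ k / ((1 + |y|) ^ 2 * (Real.exp (j * L) / 100 ^ j)) := by
          refine div_le_div_of_nonneg_left (by positivity) (by positivity) ?_
          exact mul_le_mul_of_nonneg_left h9 (by positivity)
      _ = _ := by
          rw [Real.exp_neg]
          field_simp
  have hexp : 2 * L + 2 * v + -(j * L) ≤ -(3 * L) := by
    have h9 : (k : ℝ) = 4 + j := by
      rw [hj]
      push_cast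
      ring
    have h10 : 2 / ε + 9 ≤ j := by linarith
    have h11 : (2 / ε + 9) * L ≤ j * L := mul_le_mul_of_nonneg_right h10 (by linarith)
    have h12 : (2 / ε + 9) * L = 2 * ((1 / ε + 2) * L) + 5 * L := by ring
    linarith
  rw [norm_div, norm_mul, norm_mul]
  refine (div_le_self (by positivity) h2).trans ?_
  calc ‖zE (ρ + z)‖ * ‖PX T u v (ρ + z)‖ * ‖ker b (θ * L) k z‖ ≤
        (9 * C * (Real.exp (2 * L) * (1 + |y|) ^ 2)) * (2 * Real.exp (2 * v)) *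
          (Real.exp (1 / ε + 2) * (M / (1 + |y|)) ^ k) :=
        mul_le_mul (mul_le_mul h4 h5 (norm_nonneg _) (by positivity)) h7 (norm_nonneg _)
          (by positivity)
    _ = 9 * C * 2 * Real.exp (1 / ε + 2) * (Real.exp (2 * L) * Real.exp (2 * v)) *
          ((1 + |y|) ^ 2 * (M / (1 + |y|)) ^ k) := by ring
    _ ≤ 9 * C * 2 * Real.exp (1 / ε + 2) * (Real.exp (2 * L) * Real.exp (2 * v)) *
          (M ^ k * 100 ^ j * Real.exp (-(j * L)) / (1 + |y|) ^ 2) :=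
        mul_le_mul_of_nonneg_left h8 (by positivity)
    _ = 9 * C * 2 * Real.exp (1 / ε + 2) * M ^ k * 100 ^ j *
          (Real.exp (2 * L) * Real.exp (2 * v) * Real.exp (-(j * L))) / (1 + |y|) ^ 2 := by ring
    _ ≤ _ := by
        refine div_le_div_of_nonneg_right ?_ (by positivity)
        refine mul_le_mul_of_nonneg_left ?_ (by positivity)
        rw [← Real.exp_add, ← Real.exp_add, Real.exp_le_exp]
        exact hexp

lemma split_bound {f : ℝ → ℂ} {g : ℝ → ℝ} {a A : ℝ} (ha : 0 ≤ a)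
    (hg : ContinuousOn g (Set.Icc (-a) a)) (hg0 : ∀ y, 0 ≤ g y) (hA : 0 ≤ A)
    (h1 : ∀ y, |y| ≤ a → ‖f y‖ ≤ g y) (h2 : ∀ y, a < |y| → ‖f y‖ ≤ A / (1 + |y|) ^ 2) :
    ‖∫ y, f y‖ ≤ (∫ y in (-a)..a, g y) + A * Real.pi := by
  have hi1 : Integrable (Set.indicator (Set.Icc (-a) a) g) := by
    rw [integrable_indicator_iff measurableSet_Icc]
    exact hg.integrableOn_Icc
  have hi2 : Integrable (fun y : ℝ => A * (1 + y ^ 2)⁻¹) := integrable_inv_one_add_sq.const_mul A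
  have h := norm_integral_le_of_norm_le (f := f) (hi1.add hi2)
    (Filter.Eventually.of_forall (fun y => ?_))
  · refine h.trans (le_of_eq ?_)
    show ∫ y, (Set.indicator (Set.Icc (-a) a) g y + A * (1 + y ^ 2)⁻¹) = _
    rw [integral_add hi1 hi2, integral_const_mul, integral_univ_inv_one_add_sq,
      integral_indicator measurableSet_Icc, integral_Icc_eq_integral_Ioc,
      ← intervalIntegral.integral_of_le (by linarith)]
  · show ‖f y‖ ≤ Set.indicator (Set.Icc (-a) a) g y + A * (1 + y ^ 2)⁻¹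
    have h3 : 0 ≤ A * (1 + y ^ 2)⁻¹ := by positivity
    rcases le_or_gt |y| a with hy | hy
    · rw [Set.indicator_of_mem (show y ∈ Set.Icc (-a) a from abs_le.mp hy)]
      have := h1 y hy
      linarith
    · have h4 : 0 ≤ Set.indicator (Set.Icc (-a) a) g y := Set.indicator_nonneg (fun x _ => hg0 x) y
      have h5 : A / (1 + |y|) ^ 2 ≤ A * (1 + y ^ 2)⁻¹ := by
        rw [div_eq_mul_inv]
        refine mul_le_mul_of_nonneg_left (inv_anti₀ (by positivity) ?_) hA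
        rw [← sq_abs]
        nlinarith [abs_nonneg y]
      linarith [h2 y hy]

end DR

theorem drep (ε : ℝ) (hε : 0 < ε) (hε1 : ε < 1) : ∃ k : ℕ, 40 ≤ k ∧ ∃ T0 : ℝ, ∀ T : ℝ, T0 ≤ T →
    ∀ u : ℝ, 0 ≤ u → u ≤ Real.log T / ε → ∀ ρ : ℂ, 1 / 4 ≤ ρ.re → ρ.re ≤ 3 / 4 → T / 20 ≤ ρ.im →
    ρ.im ≤ T / 2 →
    ‖Dd T u ρ‖ ≤ (∫ y in (-(T / 100))..(T / 100),
      ‖riemannZeta (ρ + (((1 / Real.log T : ℝ) : ℂ) + y * I))‖ *
      ‖PX T u (u + (1 + ε) * Real.log T) (ρ + (((1 / Real.log T : ℝ) : ℂ) + y * I))‖ *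
      ‖ker (u + (1 + ε / 3) * Real.log T) (ε / 3 / k * Real.log T) k (((1 / Real.log T : ℝ) : ℂ) + y * I) /
        (((1 / Real.log T : ℝ) : ℂ) + y * I)‖) + 1 / T ^ 2 := by
  obtain ⟨n, hn⟩ := exists_nat_ge (3 / ε * (2 / ε + 8))
  have hε' : 1 ≤ 1 / ε := by
    rw [le_div_iff₀ hε]
    linarith
  have hn24 : 24 / ε ≤ n := by
    refine le_trans ?_ hn
    have h1 : 3 / ε * (2 / ε + 8) = 6 * (1 / ε * (1 / ε)) + 24 / ε := by ring
    rw [h1]
    have : 0 < 1 / ε * (1 / ε) := by positivity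
    linarith
  have hn24' : (24 : ℝ) ≤ n := by
    have h1 : 24 / ε = 24 * (1 / ε) := by ring
    linarith
  have hn2 : 2 ≤ n := by
    have : (2 : ℝ) ≤ n := by linarith
    exact_mod_cast this
  set k : ℕ := n + 40 with hk
  have hk0 : (0 : ℝ) < k := by
    rw [hk]
    positivity
  set θ : ℝ := ε / 3 / k with hθd
  have hθ : 0 < θ := by positivity
  have hkθ : k * θ = ε / 3 := by
    rw [hθd]
    field_simp
  have hkε : 2 / ε + 13 ≤ k := by
    have h1 : (k : ℝ) = n + 40 := by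
      rw [hk]
      push_cast
      ring
    have h2 : 2 / ε ≤ 24 / ε := div_le_div_of_nonneg_right (by norm_num) hε.le
    linarith
  obtain ⟨G1, hG1, hb1⟩ := DR.err_left n k hn2 (by omega) hθ
  obtain ⟨G2, hG2, hb2⟩ := DR.err_right n k hn2 (by omega) hθ
  obtain ⟨G3, hG3, hb3⟩ := DR.tail_pt hε hε1 hkε hθ hkθ
  refine ⟨k, by omega, max 100 (G1 + G2 + G3 * Real.pi), ?_⟩
  intro T hT u hu huL ρ hβ0 hβ1 hg0 hg1
  have hT100 : 100 ≤ T := (le_max_left _ _).trans hT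
  have hTG : G1 + G2 + G3 * Real.pi ≤ T := (le_max_right _ _).trans hT
  have hT0 : 0 < T := by linarith
  obtain ⟨L, hL⟩ : ∃ L : ℝ, L = Real.log T := ⟨_, rfl⟩
  rw [← hL] at huL ⊢
  have hL1 : 1 ≤ L := by
    rw [hL, Real.le_log_iff_exp_le hT0]
    have := Real.exp_one_lt_d9
    linarith
  have hL0 : 0 < L := by linarith
  have hTe : T = Real.exp L := by rw [hL, Real.exp_log hT0]
  have hL1' : 1 / L ≤ 1 := by
    rw [div_le_one hL0]
    exact hL1
  have hL0' : 0 < 1 / L := by positivity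
  obtain ⟨b, hb⟩ : ∃ b : ℝ, b = u + (1 + ε / 3) * L := ⟨_, rfl⟩
  obtain ⟨v, hv⟩ : ∃ v : ℝ, v = u + (1 + ε) * L := ⟨_, rfl⟩
  rw [← hb, ← hv]
  have huv : u ≤ v := by
    rw [hv]
    have : 0 ≤ (1 + ε) * L := by positivity
    linarith
  have hδ : 0 < θ * L := by positivity
  have hcore := DR.core2 (T := T) (by linarith) (b := b) (σ := ρ.re + 1 / L) hu huv hδ hn2
    (show n + 6 ≤ k by omega) (ρ := ρ) (by linarith) (by linarith) (by linarith)
    (by linarith)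
  have e1 := hb1 ε T u b L ρ hε hε1 hn (by linarith) hL hL1 hu huL hb hβ0 hβ1 (by linarith) hg1
  have e2 := hb2 ε T u b v L ρ hε hε1 hn (by linarith) hL hL1 hu huL hb hv hkθ hβ0 hβ1
    (by linarith) hg1
  -- translation of the main line
  have htr : ∫ t : ℝ, (zE (((ρ.re + 1 / L : ℝ) : ℂ) + t * I) *
      PX T u v (((ρ.re + 1 / L : ℝ) : ℂ) + t * I)) *
      ker b (θ * L) k (((ρ.re + 1 / L : ℝ) : ℂ) + t * I - ρ) /
        (((ρ.re + 1 / L : ℝ) : ℂ) + t * I - ρ) =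
      ∫ y : ℝ, (zE (ρ + (((1 / L : ℝ) : ℂ) + y * I)) * PX T u v (ρ + (((1 / L : ℝ) : ℂ) + y * I))) *
        ker b (θ * L) k (((1 / L : ℝ) : ℂ) + y * I) / (((1 / L : ℝ) : ℂ) + y * I) := by
    rw [← integral_add_right_eq_self (fun t : ℝ => (zE (((ρ.re + 1 / L : ℝ) : ℂ) + t * I) *
      PX T u v (((ρ.re + 1 / L : ℝ) : ℂ) + t * I)) *
      ker b (θ * L) k (((ρ.re + 1 / L : ℝ) : ℂ) + t * I - ρ) /
        (((ρ.re + 1 / L : ℝ) : ℂ) + t * I - ρ)) ρ.im]
    refine integral_congr_ae (Filter.Eventually.of_forall (fun y => ?_))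
    have h1 : ((ρ.re + 1 / L : ℝ) : ℂ) + ((y + ρ.im : ℝ) : ℂ) * I =
        ρ + (((1 / L : ℝ) : ℂ) + y * I) := by
      apply Complex.ext <;> simp
      ring
    have h2 : ρ + (((1 / L : ℝ) : ℂ) + y * I) - ρ = ((1 / L : ℝ) : ℂ) + y * I := by ring
    show (zE (((ρ.re + 1 / L : ℝ) : ℂ) + ((y + ρ.im : ℝ) : ℂ) * I) *
      PX T u v (((ρ.re + 1 / L : ℝ) : ℂ) + ((y + ρ.im : ℝ) : ℂ) * I)) *
      ker b (θ * L) k (((ρ.re + 1 / L : ℝ) : ℂ) + ((y + ρ.im : ℝ) : ℂ) * I - ρ) /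
        (((ρ.re + 1 / L : ℝ) : ℂ) + ((y + ρ.im : ℝ) : ℂ) * I - ρ) = _
    rw [h1, h2]
  rw [htr] at hcore
  have hρ1 : T / 20 ≤ ‖ρ - 1‖ := by
    refine le_trans ?_ (Complex.abs_im_le_norm _)
    rw [Complex.sub_im, Complex.one_im, sub_zero]
    exact hg0.trans (le_abs_self _)
  have hρne : ρ ≠ 1 := by
    intro h
    rw [h, sub_self, norm_zero] at hρ1
    linarith
  -- the main integral
  set g : ℝ → ℝ := fun y => ‖riemannZeta (ρ + (((1 / L : ℝ) : ℂ) + y * I))‖ *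
      ‖PX T u v (ρ + (((1 / L : ℝ) : ℂ) + y * I))‖ *
      ‖ker b (θ * L) k (((1 / L : ℝ) : ℂ) + y * I) / (((1 / L : ℝ) : ℂ) + y * I)‖ with hg
  have hzne : ∀ y : ℝ, ((1 / L : ℝ) : ℂ) + y * I ≠ 0 := by
    intro y h0
    have h1 : (((1 / L : ℝ) : ℂ) + y * I).re = 0 := by rw [h0]; simp
    rw [line_re] at h1
    linarith
  have hsne : ∀ y : ℝ, |y| ≤ T / 100 → ρ + (((1 / L : ℝ) : ℂ) + y * I) ≠ 1 := by
    intro y hy h0
    have h1 : (ρ + (((1 / L : ℝ) : ℂ) + y * I)).im = 0 := by rw [h0]; simp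
    rw [Complex.add_im, line_im] at h1
    have := (abs_le.mp hy).1
    linarith
  have hgc : ContinuousOn g (Set.Icc (-(T / 100)) (T / 100)) := by
    intro y hy
    have h1 := hsne y (abs_le.mpr hy)
    refine ContinuousAt.continuousWithinAt ?_
    have hz : Continuous (fun y : ℝ => ((1 / L : ℝ) : ℂ) + y * I) := by fun_prop
    have hs : Continuous (fun y : ℝ => ρ + (((1 / L : ℝ) : ℂ) + y * I)) := by fun_prop
    refine ContinuousAt.mul (ContinuousAt.mul ?_ ?_) ?_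
    · exact (ContinuousAt.comp (f := fun y : ℝ => ρ + (((1 / L : ℝ) : ℂ) + y * I))
        (differentiableAt_riemannZeta h1).continuousAt hs.continuousAt).norm
    · exact (((PX_diff (by linarith) huv).continuous.comp hs).norm).continuousAt
    · exact ((((ker_diff b (θ * L) k).continuous.comp hz).div hz hzne).norm).continuousAt
  have hmain := DR.split_bound
    (f := fun y : ℝ => (zE (ρ + (((1 / L : ℝ) : ℂ) + y * I)) *
      PX T u v (ρ + (((1 / L : ℝ) : ℂ) + y * I))) *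
        ker b (θ * L) k (((1 / L : ℝ) : ℂ) + y * I) / (((1 / L : ℝ) : ℂ) + y * I))
    (g := fun y => 2 * ‖ρ - 1‖ * g y) (a := T / 100) (A := G3 * Real.exp (-(3 * L))) (by linarith)
    (hgc.const_mul _) (fun y => by positivity) (by positivity)
    (fun y hy => by
      have h1 : ‖zE (ρ + (((1 / L : ℝ) : ℂ) + y * I))‖ ≤
          2 * ‖ρ - 1‖ * ‖riemannZeta (ρ + (((1 / L : ℝ) : ℂ) + y * I))‖ := by
        rw [zE_of_ne (hsne y hy), norm_mul]
        refine mul_le_mul_of_nonneg_right ?_ (norm_nonneg _)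
        have h2 : ‖((1 / L : ℝ) : ℂ) + y * I‖ ≤ T / 20 := by
          refine (Complex.norm_le_abs_re_add_abs_im _).trans ?_
          rw [line_re, line_im, abs_of_pos hL0']
          linarith
        calc ‖ρ + (((1 / L : ℝ) : ℂ) + y * I) - 1‖ = ‖(ρ - 1) + (((1 / L : ℝ) : ℂ) + y * I)‖ := by
              congr 1
              ring
          _ ≤ ‖ρ - 1‖ + ‖((1 / L : ℝ) : ℂ) + y * I‖ := norm_add_le _ _
          _ ≤ _ := by linarith
      show ‖(zE (ρ + (((1 / L : ℝ) : ℂ) + y * I)) *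
        PX T u v (ρ + (((1 / L : ℝ) : ℂ) + y * I))) *
        ker b (θ * L) k (((1 / L : ℝ) : ℂ) + y * I) / (((1 / L : ℝ) : ℂ) + y * I)‖ ≤
        2 * ‖ρ - 1‖ * g y
      rw [mul_div_assoc, norm_mul, norm_mul, hg]
      show _ ≤ 2 * ‖ρ - 1‖ * (‖riemannZeta (ρ + (((1 / L : ℝ) : ℂ) + y * I))‖ *
        ‖PX T u v (ρ + (((1 / L : ℝ) : ℂ) + y * I))‖ *
        ‖ker b (θ * L) k (((1 / L : ℝ) : ℂ) + y * I) / (((1 / L : ℝ) : ℂ) + y * I)‖)
      rw [← mul_assoc, ← mul_assoc]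
      exact mul_le_mul_of_nonneg_right (mul_le_mul_of_nonneg_right h1 (norm_nonneg _))
        (norm_nonneg _))
    (fun y hy => hb3 T u b v L ρ hT100 hL hL1 hu huL hb hv hβ0 hβ1 (by linarith) hg1 y hy)
  rw [intervalIntegral.integral_const_mul] at hmain
  have hI0 : 0 ≤ ∫ y in (-(T / 100))..(T / 100), g y :=
    intervalIntegral.integral_nonneg (by linarith) (fun y _ => by positivity)
  set J : ℝ := ∫ y in (-(T / 100))..(T / 100), g y with hJ
  have hGG : DR.GG T u ρ = (ρ - 1) * Dd T u ρ := by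
    unfold DR.GG Dd
    rw [zE_of_ne hρne]
    ring
  have hfin : 2 * Real.pi * (‖ρ - 1‖ * ‖Dd T u ρ‖) ≤
      (2 * ‖ρ - 1‖ * J + G3 * Real.exp (-(3 * L)) * Real.pi) + G2 * Real.exp (-(3 * L)) +
        G1 * Real.exp (-(3 * L)) := by
    have h1 : ‖(2 * Real.pi * DR.GG T u ρ : ℂ)‖ = 2 * Real.pi * (‖ρ - 1‖ * ‖Dd T u ρ‖) := by
      rw [hGG, norm_mul, norm_mul, norm_mul, Complex.norm_real, Real.norm_eq_abs,
        abs_of_pos Real.pi_pos]
      simp
    rw [← h1, hcore]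
    refine (norm_sub_le _ _).trans (add_le_add ((norm_sub_le _ _).trans (add_le_add ?_ e2)) e1)
    rw [norm_neg]
    exact hmain
  have hE : Real.exp (-(3 * L)) = 1 / T ^ 3 := by
    rw [Real.exp_neg, hTe, ← Real.exp_nat_mul, one_div]
    push_cast
    rfl
  have hpi : 1 ≤ Real.pi := by linarith [Real.pi_gt_three]
  have hr1 : 1 ≤ ‖ρ - 1‖ := by linarith
  have hEb : (G3 * Real.pi + G2 + G1) * Real.exp (-(3 * L)) ≤ 1 / T ^ 2 := by
    rw [hE]
    have h2 : 1 / T ^ 2 = T * (1 / T ^ 3) := by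
      field_simp
    rw [h2]
    exact mul_le_mul_of_nonneg_right (by linarith) (by positivity)
  have hEb0 : 0 ≤ (G3 * Real.pi + G2 + G1) * Real.exp (-(3 * L)) := by positivity
  set X : ℝ := (G3 * Real.pi + G2 + G1) * Real.exp (-(3 * L)) with hX
  have hfin2 : 2 * Real.pi * (‖ρ - 1‖ * ‖Dd T u ρ‖) ≤ 2 * ‖ρ - 1‖ * J + X := by
    refine hfin.trans (le_of_eq ?_)
    rw [hX]
    ring
  show ‖Dd T u ρ‖ ≤ J + 1 / T ^ 2
  have h3 : 2 * (‖ρ - 1‖ * ‖Dd T u ρ‖) ≤ 2 * Real.pi * (‖ρ - 1‖ * ‖Dd T u ρ‖) := by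
    have : 0 ≤ ‖ρ - 1‖ * ‖Dd T u ρ‖ := by positivity
    exact mul_le_mul_of_nonneg_right (by linarith) this
  have h4 : 2 * ‖ρ - 1‖ * J + X ≤ 2 * ‖ρ - 1‖ * (J + X) := by
    have h7 : X ≤ 2 * ‖ρ - 1‖ * X := le_mul_of_one_le_left hEb0 (by linarith)
    have h8 : 2 * ‖ρ - 1‖ * (J + X) = 2 * ‖ρ - 1‖ * J + 2 * ‖ρ - 1‖ * X := by ring
    rw [h8]
    linarith
  have h5 : 2 * ‖ρ - 1‖ * ‖Dd T u ρ‖ ≤ 2 * ‖ρ - 1‖ * (J + X) := by linarith
  have h6 := le_of_mul_le_mul_left h5 (by positivity)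
  linarith

end Pool.Agent.P4f18dfS
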