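import Pool.Agent.Lib.P4f18dfS.Mom
import Pool.Agent.Lib.P4f18dfS.DRep
import Pool.Agent.Lib.P4f18dfV.Asm3

/-!
# `D` is small in mean on circles, with respect to the tilted measure, for some centre `τ`

Notation: `L = log T`, `Δ = De T`, `v = u + (1+ε)L`, `E = ∫_u^v DD(T, e^x)² e^{-x} dx`, `α_θ = (2R/L) e^{iθ}`, `z_y = 1/L + iy`,
`κ(y) = ‖ker .. z_y/z_y‖` the kernel of `drep`, `P2 = PX T u v`, `s = 1/2 + it`.

PROOF. For `|t - τ| ≤ T/100` and `τ ∈ [T/8, T/5]` apply `drep` at `ρ = s + α_θ` (`Im ρ ∈ [T/20, T/2]`, `Re ρ ∈ [1/4, 3/4]`).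
Multiply by `T wt ‖M2‖²` and integrate over `t` and `θ`; the error term is `≤ 2π (1/T) mass ≤ De T`. Main term: exchange integrals;
for fixed `θ, y` (`|y| ≤ T/100`) Cauchy-Schwarz in `t`:
`∫ wt ‖M2‖² ‖ζ(s+α_θ+z_y)‖ T ‖P2(s+α_θ+z_y)‖ ≤ (∫ wt ‖M2‖⁴ ‖ζ(s+α_θ+z_y)‖²)^{1/2} (e(τ,θ,y))^{1/2}`,
`e(τ,θ,y) = ∫_{|t-τ|≤T/100} wt T² ‖P2(s+α_θ+z_y)‖² dt`. `twisted` (second part, with `R' = 3R`, `|Re(α_θ+z_y)| ≤ (2R+1)/L`,
`|Im| ≤ T/50`): the first factor is `≤ (C_R (1+L‖z_y‖)^{20} Δ L)^{1/2}`, `(1 + L‖α_θ+z_y‖) ≤ (1+2R)(1+L‖z_y‖)`.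
Total `≤ (C_R Δ L)^{1/2} ∫∫ κ(y) (1+L‖z_y‖)^{10} e^{1/2} dy dθ ≤ (C_R Δ L)^{1/2} (∫∫ κ (1+L‖z_y‖)^{20})^{1/2} (∫∫ κ e dy dθ)^{1/2}`.
KERNEL: `∫ κ (1+L‖z‖)^{20} dy` is bounded: `κ(y) ≤ C min(1,(2/(δ‖z‖))^k)/‖z‖`, `δ = (ε/(3k)) L`, `k ≥ 40` (this is `ker_norm` with the
exponent 20 instead of 8; same proof; `exp(b/L + kδ/L) ≤ exp(1/ε + 3)`).
CHOICE OF τ: `(1/(T/5 - T/8)) ∫_{T/8}^{T/5} (∫∫ κ e dy dθ) dτ ≤ C_R Δ T E`: exchange; `∫_{T/8}^{T/5} wt τ Δ t dτ ≤ C Δ exp(-((t+y')/T)²)`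
for `|y'| ≤ T/50`, all real `t` (`y' = y + Im α_θ`), and `planch_PX` (`Asm3`): `∫ ‖P2(σ+iw)‖² exp(-(w/T)²) dw ≤ 2π ∫_u^v DD² e^{-2σx}`,
`σ = 1/2 + 1/L + Re α_θ ≥ 1/2 - 2R/L`, `e^{-2σx} ≤ e^{-x} e^{4R v/L}`, `v ≤ (1/ε + 2) L`. So some `τ` has
`∫∫ κ e dy dθ ≤ C_R Δ T E`. Conclusion: `≤ (C_R ΔL)^{1/2} (C_R Δ T E)^{1/2} = C_R Δ (L T E)^{1/2}`.
-/

set_option autoImplicit false

open Complex MeasureTheory

namespace Pool.Agent.P4f18dfS

open Pool.Agent.P4f18dfV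

/-- The circle of radius `2R/L`. -/
noncomputable def circ (R L θ : ℝ) : ℂ := ((2 * R / L : ℝ) : ℂ) * Complex.exp (θ * I)

namespace DSA

lemma ii_mono {f g : ℝ → ℝ} {a b : ℝ} (hab : a ≤ b) (hf : ∀ x ∈ Set.Icc a b, 0 ≤ f x)
    (hg : Continuous g) (h : ∀ x ∈ Set.Icc a b, f x ≤ g x) :
    ∫ x in a..b, f x ≤ ∫ x in a..b, g x := by
  rw [intervalIntegral.integral_of_le hab, intervalIntegral.integral_of_le hab]
  refine integral_mono_of_nonneg ?_ ((hg.intervalIntegrable a b).1) ?_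
  · exact (ae_restrict_iff' measurableSet_Ioc).2
      (Filter.Eventually.of_forall fun x hx => hf x ⟨hx.1.le, hx.2⟩)
  · exact (ae_restrict_iff' measurableSet_Ioc).2
      (Filter.Eventually.of_forall fun x hx => h x ⟨hx.1.le, hx.2⟩)

lemma swap2 {f : ℝ → ℝ → ℝ} (hf : Continuous (Function.uncurry f)) (a b c d : ℝ) :
    ∫ x in a..b, ∫ y in c..d, f x y = ∫ y in c..d, ∫ x in a..b, f x y := by
  apply MeasureTheory.intervalIntegral_intervalIntegral_swap
  refine (hf.continuousOn.integrableOn_compact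
    (isCompact_uIcc.prod isCompact_uIcc : IsCompact (Set.uIcc a b ×ˢ Set.uIcc c d))).mono_set ?_
  exact Set.prod_mono Set.uIoc_subset_uIcc Set.uIoc_subset_uIcc

lemma cont3 {f : ℝ → ℝ → ℝ → ℝ} (hf : Continuous fun p : ℝ × ℝ × ℝ => f p.1 p.2.1 p.2.2)
    (e g : ℝ) : Continuous fun p : ℝ × ℝ => ∫ z in e..g, f p.1 p.2 z := by
  refine intervalIntegral.continuous_parametric_intervalIntegral_of_continuous'
    (f := fun p : ℝ × ℝ => fun z => f p.1 p.2 z) ?_ e g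
  have h2 : Continuous fun q : (ℝ × ℝ) × ℝ => ((q.1.1, q.1.2, q.2) : ℝ × ℝ × ℝ) := by fun_prop
  exact hf.comp h2

lemma cont2 {f : ℝ → ℝ → ℝ} (hf : Continuous fun p : ℝ × ℝ => f p.1 p.2)
    (e g : ℝ) : Continuous fun x : ℝ => ∫ z in e..g, f x z :=
  intervalIntegral.continuous_parametric_intervalIntegral_of_continuous' hf e g

lemma swap3 {f : ℝ → ℝ → ℝ → ℝ} (hf : Continuous fun p : ℝ × ℝ × ℝ => f p.1 p.2.1 p.2.2)
    (a b c d e g : ℝ) :
    ∫ x in a..b, ∫ y in c..d, ∫ z in e..g, f x y z =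
      ∫ y in c..d, ∫ z in e..g, ∫ x in a..b, f x y z := by
  rw [swap2 (f := fun x y => ∫ z in e..g, f x y z) (cont3 hf e g)]
  refine intervalIntegral.integral_congr fun y _ => ?_
  have h2 : Continuous fun q : ℝ × ℝ => ((q.1, y, q.2) : ℝ × ℝ × ℝ) := by fun_prop
  exact swap2 (f := fun x z => f x y z) (hf.comp h2) a b e g

lemma ii_add3 {f g : ℝ → ℝ} (hf : Continuous f) (hg : Continuous g) (c a b : ℝ) :
    ∫ x in a..b, (f x + g x + c) = (∫ x in a..b, f x) + (∫ x in a..b, g x) + (b - a) * c := by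
  have h1 := intervalIntegral.integral_add (μ := volume) (a := a) (b := b)
    (f := fun x => f x + g x) (g := fun _ => c) ((hf.add hg).intervalIntegrable _ _)
    (continuous_const.intervalIntegrable _ _)
  have h2 := intervalIntegral.integral_add (μ := volume) (a := a) (b := b)
    (hf.intervalIntegrable _ _) (hg.intervalIntegrable _ _)
  rw [h1, h2, intervalIntegral.integral_const, smul_eq_mul]

lemma combine {F1 F2 : ℝ → ℝ → ℝ → ℝ} (h1 : Continuous fun p : ℝ × ℝ × ℝ => F1 p.1 p.2.1 p.2.2)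
    (h2 : Continuous fun p : ℝ × ℝ × ℝ => F2 p.1 p.2.1 p.2.2) {w : ℝ → ℝ} {D : ℝ → ℝ → ℝ}
    {a b c d e g η : ℝ} (hab : a ≤ b) (hcd : c ≤ d) (hw : ∀ t, 0 ≤ w t) (hD : ∀ t θ, 0 ≤ D t θ)
    (h : ∀ t ∈ Set.Icc a b, ∀ θ ∈ Set.Icc c d,
      w t * D t θ ≤ (∫ y in e..g, F1 t θ y) + (∫ y in e..g, F2 t θ y) + η) :
    ∫ t in a..b, w t * ∫ θ in c..d, D t θ ≤ (∫ θ in c..d, ∫ y in e..g, ∫ t in a..b, F1 t θ y) +
      (∫ θ in c..d, ∫ y in e..g, ∫ t in a..b, F2 t θ y) + (b - a) * (d - c) * η := by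
  have c1 := cont3 h1 e g
  have c2 := cont3 h2 e g
  have c3 : Continuous fun p : ℝ × ℝ =>
      (∫ y in e..g, F1 p.1 p.2 y) + (∫ y in e..g, F2 p.1 p.2 y) + η := by fun_prop
  have k1 : ∀ t ∈ Set.Icc a b, w t * ∫ θ in c..d, D t θ ≤
      ∫ θ in c..d, ((∫ y in e..g, F1 t θ y) + (∫ y in e..g, F2 t θ y) + η) := by
    intro t ht
    rw [← intervalIntegral.integral_const_mul]
    have c4 : Continuous fun θ : ℝ => ((t, θ) : ℝ × ℝ) := by fun_prop
    exact ii_mono hcd (fun θ _ => mul_nonneg (hw t) (hD t θ)) (c3.comp c4) (h t ht)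
  have c9 := cont2 (f := fun t θ => (∫ y in e..g, F1 t θ y) + (∫ y in e..g, F2 t θ y) + η) c3 c d
  have k2 : ∫ t in a..b, w t * ∫ θ in c..d, D t θ ≤
      ∫ t in a..b, ∫ θ in c..d, ((∫ y in e..g, F1 t θ y) + (∫ y in e..g, F2 t θ y) + η) :=
    ii_mono hab (fun t _ => mul_nonneg (hw t)
      (intervalIntegral.integral_nonneg hcd fun θ _ => hD t θ)) c9 k1
  refine k2.trans (le_of_eq ?_)
  have k3 : ∀ t, ∫ θ in c..d, ((∫ y in e..g, F1 t θ y) + (∫ y in e..g, F2 t θ y) + η) =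
      (∫ θ in c..d, ∫ y in e..g, F1 t θ y) + (∫ θ in c..d, ∫ y in e..g, F2 t θ y) + (d - c) * η := by
    intro t
    have c4 : Continuous fun θ : ℝ => ((t, θ) : ℝ × ℝ) := by fun_prop
    have c5 : Continuous fun θ => ∫ y in e..g, F1 t θ y := c1.comp c4
    have c6 : Continuous fun θ => ∫ y in e..g, F2 t θ y := c2.comp c4
    exact ii_add3 c5 c6 η c d
  simp only [k3]
  have c7 := cont2 (f := fun t θ => ∫ y in e..g, F1 t θ y) c1 c d
  have c8 := cont2 (f := fun t θ => ∫ y in e..g, F2 t θ y) c2 c d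
  rw [ii_add3 c7 c8, swap3 h1, swap3 h2]
  ring

lemma arctan_int {L : ℝ} (a b : ℝ) : ∫ y in a..b, L / (1 + (L * y) ^ 2) ≤ Real.pi := by
  have h1 : ∀ y ∈ Set.uIcc a b, HasDerivAt (fun y => Real.arctan (L * y))
      (L / (1 + (L * y) ^ 2)) y := by
    intro y _
    have := (Real.hasDerivAt_arctan (L * y)).comp y ((hasDerivAt_id y).const_mul L)
    refine this.congr_deriv ?_
    simp only [mul_one]
    ring
  rw [intervalIntegral.integral_eq_sub_of_hasDerivAt h1 (Continuous.intervalIntegrable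
    (continuous_const.div (by fun_prop) fun y => by positivity) _ _)]
  linarith [Real.arctan_lt_pi_div_two (L * b), Real.neg_pi_div_two_lt_arctan (L * a)]

lemma aver {G : ℝ → ℝ} (hG : Continuous G) (hG0 : ∀ t, 0 ≤ G t) {W : ℝ → ℝ → ℝ}
    (hW : Continuous fun p : ℝ × ℝ => W p.1 p.2) (hW0 : ∀ τ t, 0 ≤ W τ t)
    {A a b r : ℝ} (hab : a < b) (hr : 0 ≤ r) (hA : ∀ t, ∫ τ in a..b, W τ t ≤ A) :
    ∃ τ ∈ Set.Icc a b, ∫ t in (τ - r)..(τ + r), W τ t * G t ≤
      1 / (b - a) * (A * ∫ t in (a - r)..(b + r), G t) := by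
  have hcF : Continuous fun p : ℝ × ℝ => W p.1 p.2 * G p.2 := by fun_prop
  have hcB := cont2 (f := fun τ t => W τ t * G t) hcF (a - r) (b + r)
  obtain ⟨τ, hτ, hle⟩ := exists_le_setAverage (μ := (volume : Measure ℝ)) (s := Set.Icc a b)
    (f := fun τ => ∫ t in (a - r)..(b + r), W τ t * G t)
    (by rw [Real.volume_Icc]; simpa using hab) (by rw [Real.volume_Icc]; exact ENNReal.ofReal_ne_top)
    (hcB.continuousOn.integrableOn_compact isCompact_Icc)
  refine ⟨τ, hτ, ?_⟩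
  have h1 : ∫ t in (τ - r)..(τ + r), W τ t * G t ≤ ∫ t in (a - r)..(b + r), W τ t * G t := by
    refine intervalIntegral.integral_mono_interval (by linarith [hτ.1]) (by linarith)
      (by linarith [hτ.2]) (Filter.Eventually.of_forall fun t => mul_nonneg (hW0 _ _) (hG0 _)) ?_
    have c4 : Continuous fun t : ℝ => ((τ, t) : ℝ × ℝ) := by fun_prop
    exact (hcF.comp c4).intervalIntegrable _ _
  refine h1.trans (hle.trans ?_)
  rw [setAverage_eq, Real.volume_real_Icc_of_le hab.le, smul_eq_mul, ← one_div]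
  have hba : 0 < b - a := by linarith
  refine mul_le_mul_of_nonneg_left ?_ (by positivity)
  rw [integral_Icc_eq_integral_Ioc, ← intervalIntegral.integral_of_le hab.le,
    swap2 (f := fun τ t => W τ t * G t) hcF, ← intervalIntegral.integral_const_mul]
  have c5 : Continuous fun p : ℝ × ℝ => W p.2 p.1 * G p.1 := by fun_prop
  refine intervalIntegral.integral_mono_on (by linarith) ((cont2 (f := fun t τ => W τ t * G t)
    c5 a b).intervalIntegrable _ _)
    ((continuous_const.mul hG).intervalIntegrable _ _) fun t _ => ?_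
  rw [intervalIntegral.integral_mul_const]
  exact mul_le_mul_of_nonneg_right (hA t) (hG0 t)

/-! ### the kernel -/

/-- the kernel on the line -/
noncomputable def kap (b δ : ℝ) (k : ℕ) (L y : ℝ) : ℝ :=
  ‖ker b δ k (((1 / L : ℝ) : ℂ) + y * I) / (((1 / L : ℝ) : ℂ) + y * I)‖

lemma zre (L y : ℝ) : (((1 / L : ℝ) : ℂ) + y * I).re = 1 / L := by
  simp [-one_div]

lemma zim (L y : ℝ) : (((1 / L : ℝ) : ℂ) + y * I).im = y := by
  simp [-one_div]

lemma zne {L : ℝ} (hL : 0 < L) (y : ℝ) : (((1 / L : ℝ) : ℂ) + y * I) ≠ 0 := by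
  intro h
  have h1 := congrArg Complex.re h
  rw [zre, Complex.zero_re] at h1
  have : 0 < 1 / L := by positivity
  linarith

lemma kap_cont (b δ : ℝ) (k : ℕ) {L : ℝ} (hL : 0 < L) : Continuous (kap b δ k L) := by
  have hz : Continuous fun y : ℝ => (((1 / L : ℝ) : ℂ) + y * I) := by fun_prop
  exact (((ker_diff b δ k).continuous.comp hz).div hz (zne hL)).norm

lemma kap_nonneg (b δ : ℝ) (k : ℕ) (L y : ℝ) : 0 ≤ kap b δ k L y := norm_nonneg _

lemma kap_bound {ε : ℝ} (hε : 0 < ε) (hε1 : ε < 1) {k : ℕ} (hk : 40 ≤ k) {L u : ℝ} (hL : 1 ≤ L)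
    (huL : u ≤ L / ε) (y : ℝ) :
    kap (u + (1 + ε / 3) * L) (ε / 3 / k * L) k L y *
      (1 + L * ‖((1 / L : ℝ) : ℂ) + y * I‖) ^ 20 ≤
      (Real.exp (1 / ε + 3) * 2 ^ 20 * (6 * k / ε) ^ k) * (L / (1 + (L * y) ^ 2)) := by
  have hL0 : 0 < L := by linarith
  have hk0 : (0 : ℝ) < k := by
    have : 0 < k := by omega
    exact_mod_cast this
  set z : ℂ := ((1 / L : ℝ) : ℂ) + y * I with hz
  have hz0 : z ≠ 0 := zne hL0 y
  have hzre : z.re = 1 / L := zre L y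
  have hzn : 0 < ‖z‖ := norm_pos_iff.2 hz0
  obtain ⟨s, hs⟩ : ∃ s : ℝ, s = L * ‖z‖ := ⟨_, rfl⟩
  have hs2 : s ^ 2 = 1 + (L * y) ^ 2 := by
    rw [hs, mul_pow, Complex.sq_norm, Complex.normSq_apply, hzre, hz, zim]
    field_simp
  have hs0 : 0 < s := by rw [hs]; positivity
  have hs1 : 1 ≤ s := by
    nlinarith [sq_nonneg (L * y)]
  have h1 := ker_le' (u + (1 + ε / 3) * L) (δ := ε / 3 / k * L) (by positivity) k z hz0
  have h2 : (u + (1 + ε / 3) * L) * z.re + k * (ε / 3 / k * L) * max z.re 0 ≤ 1 / ε + 3 := by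
    rw [hzre, max_eq_left (by positivity)]
    have e1 : (u + (1 + ε / 3) * L) * (1 / L) + k * (ε / 3 / k * L) * (1 / L) =
        u / L + (1 + ε / 3) + ε / 3 := by
      field_simp
    have e2 : u / L ≤ 1 / ε := by
      rw [div_le_iff₀ hL0]
      calc u ≤ L / ε := huL
        _ = 1 / ε * L := by ring
    rw [e1]
    linarith
  have h3 : 2 / (ε / 3 / k * L * ‖z‖) = (6 * k / ε) / s := by
    rw [hs]; field_simp; ring
  have h4 : ‖ker (u + (1 + ε / 3) * L) (ε / 3 / k * L) k z‖ ≤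
      Real.exp (1 / ε + 3) * ((6 * k / ε) / s) ^ k := by
    rw [h3] at h1
    refine h1.trans ?_
    exact mul_le_mul_of_nonneg_right (Real.exp_le_exp.2 h2) (by positivity)
  have h5 : kap (u + (1 + ε / 3) * L) (ε / 3 / k * L) k L y =
      ‖ker (u + (1 + ε / 3) * L) (ε / 3 / k * L) k z‖ * (L / s) := by
    rw [kap, ← hz, norm_div, hs]
    field_simp
  rw [h5, ← hs, ← hs2]
  have h6 : s ^ 20 / s ^ (k + 1) ≤ 1 / s ^ 2 := by
    rw [div_le_div_iff₀ (by positivity) (by positivity), ← pow_add, one_mul]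
    exact pow_le_pow_right₀ hs1 (by omega)
  calc ‖ker (u + (1 + ε / 3) * L) (ε / 3 / k * L) k z‖ * (L / s) * (1 + s) ^ 20
      ≤ (Real.exp (1 / ε + 3) * ((6 * k / ε) / s) ^ k) * (L / s) * (2 * s) ^ 20 := by
        gcongr
        linarith
    _ = (Real.exp (1 / ε + 3) * 2 ^ 20 * (6 * k / ε) ^ k) * (L * (s ^ 20 / s ^ (k + 1))) := by
        rw [div_pow, mul_pow, pow_succ s k]
        field_simp
    _ ≤ (Real.exp (1 / ε + 3) * 2 ^ 20 * (6 * k / ε) ^ k) * (L * (1 / s ^ 2)) := by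
        gcongr
    _ = _ := by ring

/-! ### a continuous substitute for the modulus of zeta -/

/-- `‖ζ(s)‖` away from the pole -/
noncomputable def Zc (s : ℂ) : ℝ := ‖zE s‖ / max ‖s - 1‖ 1

lemma Zc_cont : Continuous Zc := by
  unfold Zc
  refine zE_diff.continuous.norm.div (by fun_prop) fun s => ?_
  have : (1 : ℝ) ≤ max ‖s - 1‖ 1 := le_max_right _ _
  positivity

lemma Zc_nonneg (s : ℂ) : 0 ≤ Zc s := by
  unfold Zc
  positivity

lemma Zc_eq {s : ℂ} (hs : 1 ≤ s.im) : Zc s = ‖riemannZeta s‖ := by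
  have h1 : s ≠ 1 := by
    rintro rfl
    rw [Complex.one_im] at hs
    linarith
  have h2 : (1 : ℝ) ≤ ‖s - 1‖ := by
    calc (1 : ℝ) ≤ |(s - 1).im| := by
          rw [Complex.sub_im, Complex.one_im, sub_zero]
          exact hs.trans (le_abs_self _)
      _ ≤ ‖s - 1‖ := Complex.abs_im_le_norm _
  have h3 : (0 : ℝ) < ‖s - 1‖ := by linarith
  rw [Zc, zE_of_ne h1, norm_mul, max_eq_left h2]
  field_simp

/-! ### the circle -/

lemma circ_re (R L θ : ℝ) : (circ R L θ).re = 2 * R / L * Real.cos θ := by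
  rw [circ, Complex.re_ofReal_mul, Complex.exp_ofReal_mul_I_re]

lemma circ_im (R L θ : ℝ) : (circ R L θ).im = 2 * R / L * Real.sin θ := by
  rw [circ, Complex.im_ofReal_mul, Complex.exp_ofReal_mul_I_im]

lemma circ_cont (R L : ℝ) : Continuous (circ R L) := by
  unfold circ
  fun_prop

lemma circ_norm {R L : ℝ} (hR : 0 ≤ R) (hL : 0 < L) (θ : ℝ) : ‖circ R L θ‖ = 2 * R / L := by
  rw [circ, norm_mul, Complex.norm_exp_ofReal_mul_I, mul_one, Complex.norm_real,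
    Real.norm_of_nonneg (by positivity)]

lemma circ_re_abs {R L : ℝ} (hR : 0 ≤ R) (hL : 0 < L) (θ : ℝ) : |(circ R L θ).re| ≤ 2 * R / L := by
  rw [← circ_norm hR hL θ]
  exact Complex.abs_re_le_norm _

lemma circ_im_abs {R L : ℝ} (hR : 0 ≤ R) (hL : 0 < L) (θ : ℝ) : |(circ R L θ).im| ≤ 2 * R / L := by
  rw [← circ_norm hR hL θ]
  exact Complex.abs_im_le_norm _

/-! ### the mean square of the transform -/

lemma partQ {ε R T u v : ℝ} (hR : 1 ≤ R) (hT : 100 ≤ T)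
    (hL : 8 * R ≤ Real.log T) (hu : 0 ≤ u) (huv : u ≤ v) (hv : v ≤ (1 / ε + 2) * Real.log T)
    {α : ℂ} (hα : -(2 * R / Real.log T) ≤ α.re) (hαi : |α.im| ≤ T / 50) :
    ∫ t in (T / 8 - T / 100)..(T / 5 + T / 100), ‖PX T u v (1 / 2 + α + t * I)‖ ^ 2 ≤
      Real.exp 1 * (2 * Real.pi * (Real.exp (4 * R * (1 / ε + 2)) *
        ∫ x in u..v, (DD T (Real.exp x)) ^ 2 * Real.exp (-x))) := by
  have hT0 : 0 < T := by linarith
  have hT1 : 1 ≤ T := by linarith
  set L := Real.log T with hLd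
  have hL0 : 0 < L := by linarith
  have hσ0 : 0 ≤ 1 / 2 + α.re := by
    have : 2 * R / L ≤ 1 / 4 := by
      rw [div_le_iff₀ hL0]; linarith
    linarith
  set p : ℝ → ℝ := fun t => ‖PX T u v (((1 / 2 + α.re : ℝ) : ℂ) + t * I)‖ with hp
  have hpc : Continuous p := by
    have h1 : Continuous fun t : ℝ => (((1 / 2 + α.re : ℝ) : ℂ) + t * I) := by fun_prop
    exact ((PX_diff hT1 huv).continuous.comp h1).norm
  obtain ⟨B, hB⟩ : ∃ B : ℝ, ∀ t, p t ≤ B := by
    refine ⟨(Real.exp v + 1) * Real.exp ((1 / 2 + α.re) * (|u| + |v|)) * (v - u), fun t => ?_⟩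
    rw [hp]
    simp only
    rw [PX_eq]
    refine GX_strip huv (dd_norm_le hT1) ?_
    rw [Complex.add_re, Complex.ofReal_re, Complex.mul_re, Complex.I_re, Complex.I_im,
      Complex.ofReal_im]
    rw [mul_zero, zero_mul, sub_zero, add_zero, abs_of_nonneg hσ0]
  have hp0 : ∀ t, 0 ≤ p t := fun t => norm_nonneg _
  have h1 : ∀ t : ℝ, ‖PX T u v (1 / 2 + α + t * I)‖ ^ 2 = p (t + α.im) ^ 2 := by
    intro t
    rw [hp]
    simp only
    congr 3
    apply Complex.ext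
    · simp
    · simp; ring
  have hgi : Integrable fun t : ℝ => p t ^ 2 * Real.exp (-(t / T) ^ 2) := by
    have hg0 : Integrable fun t : ℝ => Real.exp (-(1 / T ^ 2) * t ^ 2) :=
      integrable_exp_neg_mul_sq (by positivity)
    refine (hg0.const_mul (B ^ 2)).mono' (Continuous.aestronglyMeasurable (by fun_prop))
      (Filter.Eventually.of_forall fun t => ?_)
    rw [Real.norm_of_nonneg (by have := hp0 t; positivity)]
    have e1 : -(t / T) ^ 2 = -(1 / T ^ 2) * t ^ 2 := by ring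
    rw [e1]
    exact mul_le_mul_of_nonneg_right (pow_le_pow_left₀ (hp0 t) (hB t) 2) (Real.exp_pos _).le
  simp only [h1]
  rw [intervalIntegral.integral_comp_add_right (fun w => p w ^ 2)]
  have hab : T / 8 - T / 100 + α.im ≤ T / 5 + T / 100 + α.im := by linarith
  have h2 : ∫ w in (T / 8 - T / 100 + α.im)..(T / 5 + T / 100 + α.im), p w ^ 2 ≤
      ∫ w in (T / 8 - T / 100 + α.im)..(T / 5 + T / 100 + α.im),
        Real.exp 1 * (p w ^ 2 * Real.exp (-(w / T) ^ 2)) := by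
    refine intervalIntegral.integral_mono_on hab ((hpc.pow 2).intervalIntegrable _ _)
      (Continuous.intervalIntegrable (by fun_prop) _ _) fun w hw => ?_
    have h3 : 1 ≤ Real.exp 1 * Real.exp (-(w / T) ^ 2) := by
      rw [← Real.exp_add, Real.one_le_exp_iff]
      have hw1 : |w| ≤ T := by
        obtain ⟨a1, a2⟩ := abs_le.1 hαi
        rw [abs_le]
        constructor
        · linarith [hw.1]
        · linarith [hw.2]
      have : (w / T) ^ 2 ≤ 1 := by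
        rw [div_pow, div_le_one (by positivity), ← sq_abs]
        exact pow_le_pow_left₀ (abs_nonneg _) hw1 2
      linarith
    have h4 := mul_le_mul_of_nonneg_left h3 (sq_nonneg (p w))
    linarith
  refine h2.trans ?_
  rw [intervalIntegral.integral_const_mul, intervalIntegral.integral_of_le hab]
  refine mul_le_mul_of_nonneg_left ?_ (Real.exp_pos _).le
  refine (setIntegral_le_integral hgi (Filter.Eventually.of_forall fun t => by
    have := hp0 t
    show 0 ≤ p t ^ 2 * Real.exp (-(t / T) ^ 2)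
    positivity)).trans ?_
  refine (planch_PX hT1 hu huv hσ0).trans ?_
  refine mul_le_mul_of_nonneg_left ?_ (by positivity)
  rw [← intervalIntegral.integral_const_mul]
  have hm : Measurable fun x : ℝ => DD T (Real.exp x) :=
    (DD_measurable T).comp Real.measurable_exp
  have hb : ∀ x ∈ Set.Icc u v, (DD T (Real.exp x)) ^ 2 ≤ (Real.exp v + 1) ^ 2 := by
    intro x hx
    have h1 := dd_norm_le hT1 x hx
    rw [Complex.norm_real, Real.norm_eq_abs] at h1
    rw [← sq_abs]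
    exact pow_le_pow_left₀ (abs_nonneg _) h1 2
  have hii : ∀ s : ℝ, 0 ≤ s → IntervalIntegrable
      (fun x => (DD T (Real.exp x)) ^ 2 * Real.exp (-(s * x))) volume u v := by
    intro s hs
    refine bdd_intervalIntegrable (B := (Real.exp v + 1) ^ 2 * 1)
      (f := fun x => (DD T (Real.exp x)) ^ 2 * Real.exp (-(s * x)))
      ((hm.pow_const 2).mul (by fun_prop)) huv fun x hx => ?_
    rw [abs_of_nonneg (mul_nonneg (sq_nonneg _) (Real.exp_pos _).le)]
    refine mul_le_mul (hb x hx) ?_ (Real.exp_pos _).le (sq_nonneg _)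
    rw [Real.exp_le_one_iff]
    have : 0 ≤ s * x := mul_nonneg hs (hu.trans hx.1)
    linarith
  have hi1 := hii (2 * (1 / 2 + α.re)) (by linarith)
  have hi2 := hii 1 zero_le_one
  simp only [one_mul] at hi2
  refine intervalIntegral.integral_mono_on huv hi1 (hi2.const_mul _) fun x hx => ?_
  have hx0 : 0 ≤ x := hu.trans hx.1
  have h5 : Real.exp (-(2 * (1 / 2 + α.re) * x)) ≤
      Real.exp (4 * R * (1 / ε + 2)) * Real.exp (-x) := by
    rw [← Real.exp_add, Real.exp_le_exp]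
    have h6 : -(α.re) * x ≤ 2 * R / L * x := mul_le_mul_of_nonneg_right (by linarith) hx0
    have h7 : 2 * R / L * x ≤ 2 * R * (1 / ε + 2) := by
      rw [div_mul_eq_mul_div, div_le_iff₀ hL0]
      have : x ≤ (1 / ε + 2) * L := hx.2.trans hv
      calc 2 * R * x ≤ 2 * R * ((1 / ε + 2) * L) := by gcongr
        _ = _ := by ring
    linarith
  calc (DD T (Real.exp x)) ^ 2 * Real.exp (-(2 * (1 / 2 + α.re) * x))
      ≤ (DD T (Real.exp x)) ^ 2 * (Real.exp (4 * R * (1 / ε + 2)) * Real.exp (-x)) := by gcongr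
    _ = _ := by ring

/-! ### the mollifier -/

lemma M2_bound {T : ℝ} (hT : 3 ≤ T) (t : ℝ) : ‖M2 T t‖ ≤ T ^ (1 / 20 : ℝ) := by
  have hT0 : 0 < T := by linarith
  have hL0 : 0 < Real.log T := Real.log_pos (by linarith)
  unfold M2 dp
  refine (norm_sum_le _ _).trans ?_
  have h1 : ∀ n ∈ Finset.Icc 1 ⌊T ^ (1 / 20 : ℝ)⌋₊,
      ‖mt (gm (Real.log T)) n * (n : ℂ) ^ (-((1 / 2 : ℂ) + t * I))‖ ≤ 1 := by
    intro n hn
    have hn1 : 1 ≤ n := (Finset.mem_Icc.1 hn).1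
    have hn0 : 0 < n := hn1
    rw [norm_mul]
    have h2 : ‖mt (gm (Real.log T)) n‖ ≤ 1 := by
      change ‖((ArithmeticFunction.moebius n : ℤ) : ℂ) * gm (Real.log T) n‖ ≤ 1
      rw [norm_mul]
      have h3 : ‖((ArithmeticFunction.moebius n : ℤ) : ℂ)‖ ≤ 1 := by
        rw [Complex.norm_intCast]
        exact_mod_cast ArithmeticFunction.abs_moebius_le_one
      have h4 : ‖gm (Real.log T) n‖ ≤ 1 := by
        rw [gm, Complex.norm_real, pwt, Real.norm_of_nonneg (by positivity)]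
        refine pow_le_one₀ (le_max_right _ _) (max_le ?_ zero_le_one)
        have : 0 ≤ Real.log n / (Real.log T / 40) :=
          div_nonneg (Real.log_nonneg (by exact_mod_cast hn1)) (by positivity)
        linarith
      calc _ ≤ (1 : ℝ) * 1 := mul_le_mul h3 h4 (norm_nonneg _) zero_le_one
        _ = 1 := one_mul 1
    have h5 : ‖(n : ℂ) ^ (-((1 / 2 : ℂ) + t * I))‖ ≤ 1 := by
      rw [Complex.norm_natCast_cpow_of_pos hn0]
      refine Real.rpow_le_one_of_one_le_of_nonpos (by exact_mod_cast hn1) ?_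
      simp
    calc _ ≤ (1 : ℝ) * 1 := mul_le_mul h2 h5 (norm_nonneg _) zero_le_one
      _ = 1 := one_mul 1
  refine (Finset.sum_le_sum h1).trans ?_
  rw [Finset.sum_const, Nat.card_Icc, nsmul_eq_mul, mul_one, Nat.add_sub_cancel]
  exact Nat.floor_le (by positivity)

lemma wt_cont (Δ : ℝ) : Continuous fun p : ℝ × ℝ => wt p.1 Δ p.2 := by
  unfold wt
  fun_prop

lemma wt_nonneg (τ Δ t : ℝ) : 0 ≤ wt τ Δ t := (Real.exp_pos _).le

lemma wt_int {Δ : ℝ} (hΔ : 0 < Δ) {a b : ℝ} (hab : a ≤ b) (t : ℝ) :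
    ∫ τ in a..b, wt τ Δ t ≤ Real.sqrt Real.pi * Δ := by
  have h1 : ∀ τ, wt τ Δ t = Real.exp (-(1 / Δ ^ 2) * (τ - t) ^ 2) := by
    intro τ
    rw [wt]
    congr 1
    ring
  simp only [h1]
  have hg : Integrable fun τ : ℝ => Real.exp (-(1 / Δ ^ 2) * (τ - t) ^ 2) :=
    (integrable_exp_neg_mul_sq (b := 1 / Δ ^ 2) (by positivity)).comp_sub_right t
  rw [intervalIntegral.integral_of_le hab]
  refine (setIntegral_le_integral hg (Filter.Eventually.of_forall fun τ =>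
    (Real.exp_pos _).le)).trans ?_
  rw [integral_sub_right_eq_self (fun τ : ℝ => Real.exp (-(1 / Δ ^ 2) * τ ^ 2)) t,
    integral_gaussian]
  refine le_of_eq ?_
  have e1 : Real.pi / (1 / Δ ^ 2) = Real.pi * Δ ^ 2 := by field_simp
  rw [e1, Real.sqrt_mul Real.pi_pos.le, Real.sqrt_sq hΔ.le]

lemma thy {F : ℝ → ℝ → ℝ → ℝ} (hF : Continuous fun p : ℝ × ℝ × ℝ => F p.1 p.2.1 p.2.2)
    {M L r a b : ℝ} (hr : 0 ≤ r) (hM : 0 ≤ M)
    (h : ∀ θ, ∀ y ∈ Set.Icc (-r) r, ∫ t in a..b, F t θ y ≤ M * (L / (1 + (L * y) ^ 2))) :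
    ∫ θ in (0 : ℝ)..(2 * Real.pi), ∫ y in (-r)..r, ∫ t in a..b, F t θ y ≤
      M * Real.pi * (2 * Real.pi) := by
  have hp : (0 : ℝ) ≤ 2 * Real.pi := by positivity
  have c1 : Continuous fun p : ℝ × ℝ => ∫ t in a..b, F t p.1 p.2 := by
    refine intervalIntegral.continuous_parametric_intervalIntegral_of_continuous'
      (f := fun p : ℝ × ℝ => fun t => F t p.1 p.2) ?_ a b
    have h2 : Continuous fun q : (ℝ × ℝ) × ℝ => ((q.2, q.1.1, q.1.2) : ℝ × ℝ × ℝ) := by fun_prop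
    exact hF.comp h2
  have c2 := cont2 (f := fun θ y => ∫ t in a..b, F t θ y) c1 (-r) r
  have hcL : Continuous fun y : ℝ => M * (L / (1 + (L * y) ^ 2)) :=
    continuous_const.mul (continuous_const.div (by fun_prop) fun y => by positivity)
  have h1 : ∀ θ, ∫ y in (-r)..r, ∫ t in a..b, F t θ y ≤ M * Real.pi := by
    intro θ
    have c3 : Continuous fun y : ℝ => ((θ, y) : ℝ × ℝ) := by fun_prop
    refine (intervalIntegral.integral_mono_on (by linarith) ((c1.comp c3).intervalIntegrable _ _)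
      (hcL.intervalIntegrable _ _) (h θ)).trans ?_
    rw [intervalIntegral.integral_const_mul]
    exact mul_le_mul_of_nonneg_left (arctan_int _ _) hM
  refine (intervalIntegral.integral_mono_on hp (c2.intervalIntegrable _ _)
    (continuous_const.intervalIntegrable _ _) fun θ _ => h1 θ).trans (le_of_eq ?_)
  rw [intervalIntegral.integral_const, smul_eq_mul]
  ring

end DSA

open DSA in
theorem dsmall (ε : ℝ) (hε : 0 < ε) (hε1 : ε < 1) (R : ℝ) (hR : 1 ≤ R) : ∃ C T0 : ℝ, 0 < C ∧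
    ∀ T : ℝ, T0 ≤ T → ∀ u : ℝ, 0 ≤ u → u ≤ Real.log T / ε →
    ∃ τ : ℝ, T / 8 ≤ τ ∧ τ ≤ T / 5 ∧
    ∫ t in (τ - T / 100)..(τ + T / 100), wt τ (De T) t * (‖M2 T t‖ ^ 2 *
      ∫ θ in (0 : ℝ)..(2 * Real.pi), T * ‖Dd T u (1 / 2 + circ R (Real.log T) θ + t * I)‖) ≤
      C * De T * (Real.sqrt (Real.log T * T *
        ∫ x in u..(u + (1 + ε) * Real.log T), (DD T (Real.exp x)) ^ 2 * Real.exp (-x)) + 1) := by
  obtain ⟨k, hk, T1, hdrep⟩ := drep ε hε hε1
  obtain ⟨C1, hC1, htw⟩ := twisted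
  obtain ⟨T2, hT2⟩ := htw (3 * R) (by linarith)
  obtain ⟨T3, hT3⟩ : ∃ T3 : ℝ, ∀ T : ℝ, T3 ≤ T → 8 * R ≤ Real.log T :=
    Filter.eventually_atTop.mp (Real.tendsto_log_atTop.eventually_ge_atTop _)
  have hk0 : (0 : ℝ) < k := by
    have : 0 < k := by omega
    exact_mod_cast this
  have hpi := Real.pi_pos
  obtain ⟨C0, hC0⟩ : ∃ C0 : ℝ, C0 = Real.exp (1 / ε + 3) * 2 ^ 20 * (6 * k / ε) ^ k := ⟨_, rfl⟩
  have hC0p : 0 < C0 := by rw [hC0]; positivity
  obtain ⟨P, hP⟩ : ∃ P : ℝ, P = Real.exp (4 * R * (1 / ε + 2)) := ⟨_, rfl⟩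
  have hPp : 0 < P := by rw [hP]; positivity
  obtain ⟨CA, hCA⟩ : ∃ CA : ℝ, CA = C1 * Real.exp (12 * R) * (1 + 2 * R) ^ 20 * C0 * Real.pi *
    (2 * Real.pi) := ⟨_, rfl⟩
  have hCAp : 0 < CA := by rw [hCA]; positivity
  obtain ⟨CB, hCB⟩ : ∃ CB : ℝ, CB = 40 / 3 * Real.sqrt Real.pi *
    (Real.exp 1 * (2 * Real.pi * P) * C0 * Real.pi * (2 * Real.pi)) := ⟨_, rfl⟩
  have hCBp : 0 < CB := by rw [hCB]; positivity
  refine ⟨CA / 2 + CB / 2 + 1, max (max T1 T2) (max T3 100), by positivity,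
    fun T hT u hu huL => ?_⟩
  have hT1' : T1 ≤ T := (le_max_left _ _).trans ((le_max_left _ _).trans hT)
  have hT2' : T2 ≤ T := (le_max_right _ _).trans ((le_max_left _ _).trans hT)
  have hT3' : T3 ≤ T := (le_max_left _ _).trans ((le_max_right _ _).trans hT)
  have hT100 : 100 ≤ T := (le_max_right _ _).trans ((le_max_right _ _).trans hT)
  have hT0 : 0 < T := by linarith
  have hT1 : 1 ≤ T := by linarith
  have hLR := hT3 T hT3'
  have htw2 := hT2 T hT2'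
  have hdr := hdrep T hT1' u hu huL
  clear hdrep htw hT2 hT3
  set L := Real.log T with hLd
  have hL8 : 8 ≤ L := by linarith
  have hL0 : 0 < L := by linarith
  have h2RL : 2 * R / L ≤ 1 / 4 := by
    rw [div_le_iff₀ hL0]; linarith
  have h2RL0 : 0 ≤ 2 * R / L := by positivity
  have hinvL : 0 < 1 / L := by positivity
  have hinvL8 : 1 / L ≤ 1 / 8 := one_div_le_one_div_of_le (by norm_num) hL8
  set v := u + (1 + ε) * L with hv
  have huv : u ≤ v := by
    rw [hv]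
    have : 0 ≤ (1 + ε) * L := by positivity
    linarith
  have hvL : v ≤ (1 / ε + 2) * L := by
    have h1 : L / ε = 1 / ε * L := by ring
    rw [h1] at huL
    have h2 : ε * L ≤ 1 * L := mul_le_mul_of_nonneg_right hε1.le hL0.le
    rw [hv]
    linarith
  obtain ⟨Δ, hΔ⟩ : ∃ Δ : ℝ, Δ = De T := ⟨_, rfl⟩
  have hΔ0 : 0 < Δ := by rw [hΔ, De]; positivity
  rw [← hΔ] at htw2 ⊢
  obtain ⟨κ, hκ⟩ : ∃ κ : ℝ → ℝ, κ = kap (u + (1 + ε / 3) * L) (ε / 3 / k * L) k L := ⟨_, rfl⟩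
  have hκc : Continuous κ := by rw [hκ]; exact kap_cont _ _ _ hL0
  have hκ0 : ∀ y, 0 ≤ κ y := fun y => by rw [hκ]; exact kap_nonneg _ _ _ _ _
  have hκb : ∀ y, κ y * (1 + L * ‖((1 / L : ℝ) : ℂ) + y * I‖) ^ 20 ≤
      C0 * (L / (1 + (L * y) ^ 2)) := by
    intro y
    rw [hC0, hκ]
    exact kap_bound hε hε1 hk (by linarith) huL y
  have hκb' : ∀ y, κ y ≤ C0 * (L / (1 + (L * y) ^ 2)) := by
    intro y
    refine le_trans ?_ (hκb y)
    have : 1 ≤ (1 + L * ‖((1 / L : ℝ) : ℂ) + y * I‖) ^ 20 :=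
      one_le_pow₀ (by have : 0 ≤ L * ‖((1 / L : ℝ) : ℂ) + y * I‖ := by positivity
                      linarith)
    exact le_mul_of_one_le_right (hκ0 y) this
  set E : ℝ := ∫ x in u..v, (DD T (Real.exp x)) ^ 2 * Real.exp (-x) with hE
  have hE0 : 0 ≤ E := intervalIntegral.integral_nonneg huv fun x _ => by positivity
  obtain ⟨s3, hs3⟩ : ∃ s3 : ℝ → ℝ → ℝ → ℂ, s3 = fun (t θ y : ℝ) =>
    1 / 2 + circ R L θ + t * I + (((1 / L : ℝ) : ℂ) + y * I) := ⟨_, rfl⟩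
  have hs3c : Continuous fun p : ℝ × ℝ × ℝ => s3 p.1 p.2.1 p.2.2 := by
    have := circ_cont R L
    simp only [hs3]
    fun_prop
  have hs3' : ∀ t θ y, s3 t θ y = 1 / 2 + (circ R L θ + (((1 / L : ℝ) : ℂ) + y * I)) + t * I := by
    intro t θ y
    simp only [hs3]
    ring
  obtain ⟨Q, hQ⟩ : ∃ Q : ℝ → ℝ → ℝ → ℝ, Q = fun t θ y => ‖PX T u v (s3 t θ y)‖ := ⟨_, rfl⟩
  have hQc : Continuous fun p : ℝ × ℝ × ℝ => Q p.1 p.2.1 p.2.2 := by
    rw [hQ]
    exact ((PX_diff hT1 huv).continuous.comp hs3c).norm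
  have hQ0 : ∀ t θ y, 0 ≤ Q t θ y := fun t θ y => by rw [hQ]; exact norm_nonneg _
  obtain ⟨Z, hZ⟩ : ∃ Z : ℝ → ℝ → ℝ → ℝ, Z = fun t θ y => Zc (s3 t θ y) := ⟨_, rfl⟩
  have hZc : Continuous fun p : ℝ × ℝ × ℝ => Z p.1 p.2.1 p.2.2 := by
    rw [hZ]
    exact Zc_cont.comp hs3c
  have hZ0 : ∀ t θ y, 0 ≤ Z t θ y := fun t θ y => by rw [hZ]; exact Zc_nonneg _
  have hMc : Continuous fun t => ‖M2 T t‖ := (dp_continuous _ _).norm
  have hcpos : (0 : ℝ) ≤ 2 * Real.pi := by positivity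
  -- the choice of the centre
  obtain ⟨F0, hF0⟩ : ∃ F0 : ℝ → ℝ → ℝ → ℝ, F0 = fun t θ y => T ^ 2 * Q t θ y ^ 2 * κ y :=
    ⟨_, rfl⟩
  have hF0c : Continuous fun p : ℝ × ℝ × ℝ => F0 p.1 p.2.1 p.2.2 := by
    simp only [hF0]
    fun_prop
  have hF00 : ∀ t θ y, 0 ≤ F0 t θ y := fun t θ y => by
    have := hκ0 y
    simp only [hF0]
    positivity
  obtain ⟨G, hG⟩ : ∃ G : ℝ → ℝ, G = fun t => ∫ θ in (0 : ℝ)..(2 * Real.pi),
    ∫ y in (-(T / 100))..(T / 100), F0 t θ y := ⟨_, rfl⟩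
  have hGc : Continuous G := by
    rw [hG]
    exact cont2 (f := fun t θ => ∫ y in (-(T / 100))..(T / 100), F0 t θ y)
      (cont3 hF0c _ _) _ _
  have hG0 : ∀ t, 0 ≤ G t := fun t => by
    rw [hG]
    exact intervalIntegral.integral_nonneg hcpos fun θ _ =>
      intervalIntegral.integral_nonneg (by linarith) fun y _ => hF00 t θ y
  obtain ⟨τ, hτ, hav⟩ := aver hGc hG0 (W := fun τ t => wt τ Δ t) (wt_cont Δ)
    (fun τ t => wt_nonneg τ Δ t) (A := Real.sqrt Real.pi * Δ) (a := T / 8) (b := T / 5)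
    (r := T / 100) (by linarith) (by positivity) (fun t => wt_int hΔ0 (by linarith) t)
  have hGint : ∫ t in (T / 8 - T / 100)..(T / 5 + T / 100), G t ≤
      T ^ 2 * (Real.exp 1 * (2 * Real.pi * (P * E))) * C0 * Real.pi * (2 * Real.pi) := by
    rw [hG, swap3 hF0c]
    refine thy hF0c (L := L) (by positivity) (by positivity) fun θ y hy => ?_
    have h1 : ∫ t in (T / 8 - T / 100)..(T / 5 + T / 100), F0 t θ y =
        T ^ 2 * κ y * ∫ t in (T / 8 - T / 100)..(T / 5 + T / 100),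
          ‖PX T u v (1 / 2 + (circ R L θ + (((1 / L : ℝ) : ℂ) + y * I)) + t * I)‖ ^ 2 := by
      rw [← intervalIntegral.integral_const_mul]
      refine intervalIntegral.integral_congr fun t _ => ?_
      simp only [hF0, hQ, hs3']
      ring
    rw [h1]
    have hre : -(2 * R / L) ≤ (circ R L θ + (((1 / L : ℝ) : ℂ) + y * I)).re := by
      rw [Complex.add_re, zre]
      have := (abs_le.1 (circ_re_abs (by linarith) hL0 θ : |(circ R L θ).re| ≤ 2 * R / L)).1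
      linarith
    have him : |(circ R L θ + (((1 / L : ℝ) : ℂ) + y * I)).im| ≤ T / 50 := by
      rw [Complex.add_im, zim]
      have h2 := circ_im_abs (R := R) (by linarith) hL0 θ
      have h3 : |y| ≤ T / 100 := abs_le.2 hy
      refine (abs_add_le _ _).trans ?_
      linarith
    have h4 := partQ hR hT100 hLR hu huv hvL hre him
    rw [← hP, ← hE] at h4
    calc T ^ 2 * κ y * _ ≤ T ^ 2 * κ y * (Real.exp 1 * (2 * Real.pi * (P * E))) :=
          mul_le_mul_of_nonneg_left h4 (by have := hκ0 y; positivity)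
      _ ≤ T ^ 2 * (C0 * (L / (1 + (L * y) ^ 2))) * (Real.exp 1 * (2 * Real.pi * (P * E))) := by
          have := hκb' y
          gcongr
      _ = _ := by ring
  have hB : ∫ t in (τ - T / 100)..(τ + T / 100), wt τ Δ t * G t ≤ CB * Δ * T * E := by
    refine hav.trans ?_
    calc 1 / (T / 5 - T / 8) * (Real.sqrt Real.pi * Δ * ∫ t in (T / 8 - T / 100)..(T / 5 + T / 100), G t)
        ≤ 1 / (T / 5 - T / 8) * (Real.sqrt Real.pi * Δ *
          (T ^ 2 * (Real.exp 1 * (2 * Real.pi * (P * E))) * C0 * Real.pi * (2 * Real.pi))) := by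
          have : 0 < T / 5 - T / 8 := by linarith
          gcongr
      _ = CB * Δ * T * E := by
          rw [hCB, show T / 5 - T / 8 = 3 / 40 * T by ring]
          field_simp
  refine ⟨τ, hτ.1, hτ.2, ?_⟩
  obtain ⟨hτ1, hτ2⟩ := hτ
  -- the parameter
  obtain ⟨S, hS⟩ : ∃ S : ℝ, S = Real.sqrt (L * T * E) + 1 := ⟨_, rfl⟩
  have hS1 : 1 ≤ S := by
    have := Real.sqrt_nonneg (L * T * E)
    linarith
  have hS0 : 0 < S := by linarith
  have hS2 : L * T * E ≤ S ^ 2 := by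
    have h1 : Real.sqrt (L * T * E) ^ 2 = L * T * E := Real.sq_sqrt (by positivity)
    rw [← h1]
    exact pow_le_pow_left₀ (Real.sqrt_nonneg _) (by linarith) 2
  obtain ⟨lam, hlam⟩ : ∃ lam : ℝ, lam = S / L := ⟨_, rfl⟩
  have hlam0 : 0 < lam := by rw [hlam]; positivity
  obtain ⟨F1, hF1⟩ : ∃ F1 : ℝ → ℝ → ℝ → ℝ, F1 = fun t θ y =>
    lam / 2 * (wt τ Δ t * (Z t θ y ^ 2 * ‖M2 T t‖ ^ 2 * ‖M2 T t‖ ^ 2)) * κ y := ⟨_, rfl⟩
  have hwc : Continuous fun t => wt τ Δ t :=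
    (wt_cont Δ).comp (by fun_prop : Continuous fun t : ℝ => ((τ, t) : ℝ × ℝ))
  have cm1 : Continuous fun p : ℝ × ℝ × ℝ => ‖M2 T p.1‖ := hMc.comp continuous_fst
  have cw1 : Continuous fun p : ℝ × ℝ × ℝ => wt τ Δ p.1 := hwc.comp continuous_fst
  have ck1 : Continuous fun p : ℝ × ℝ × ℝ => κ p.2.2 := by fun_prop
  have hF1c : Continuous fun p : ℝ × ℝ × ℝ => F1 p.1 p.2.1 p.2.2 := by
    rw [hF1]
    exact (continuous_const.mul (cw1.mul (((hZc.pow 2).mul (cm1.pow 2)).mul (cm1.pow 2)))).mul ck1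
  obtain ⟨F2, hF2⟩ : ∃ F2 : ℝ → ℝ → ℝ → ℝ, F2 = fun t θ y =>
    1 / (2 * lam) * (wt τ Δ t * F0 t θ y) := ⟨_, rfl⟩
  have hF2c : Continuous fun p : ℝ × ℝ × ℝ => F2 p.1 p.2.1 p.2.2 := by
    rw [hF2]
    exact continuous_const.mul (cw1.mul hF0c)
  have hIm : ∀ t ∈ Set.Icc (τ - T / 100) (τ + T / 100), ∀ θ : ℝ,
      ∀ y ∈ Set.Icc (-(T / 100)) (T / 100), 1 ≤ (s3 t θ y).im := by
    intro t ht θ y hy
    simp only [hs3']
    have h2 := (abs_le.1 (circ_im_abs (R := R) (by linarith) hL0 θ)).1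
    rw [Complex.add_im, Complex.add_im, Complex.add_im, zim]
    have e1 : ((1 : ℂ) / 2).im = 0 := by simp
    have e2 : ((t : ℂ) * I).im = t := by simp
    rw [e1, e2]
    linarith [ht.1, hy.1]
  -- first part
  have hA : ∫ θ in (0 : ℝ)..(2 * Real.pi), ∫ y in (-(T / 100))..(T / 100),
      ∫ t in (τ - T / 100)..(τ + T / 100), F1 t θ y ≤ lam / 2 * (CA * (Δ * L)) := by
    have h0 := thy hF1c (L := L) (r := T / 100) (a := τ - T / 100) (b := τ + T / 100)
      (M := lam / 2 * (C1 * Real.exp (12 * R) * (1 + 2 * R) ^ 20 * (Δ * L)) * C0)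
      (by positivity) (by positivity) fun θ y hy => ?_
    · refine h0.trans (le_of_eq ?_)
      rw [hCA]
      ring
    obtain ⟨α, hα⟩ : ∃ α : ℂ, α = circ R L θ + (((1 / L : ℝ) : ℂ) + y * I) := ⟨_, rfl⟩
    have h1 : ∫ t in (τ - T / 100)..(τ + T / 100), F1 t θ y =
        lam / 2 * κ y * ∫ t in (τ - T / 100)..(τ + T / 100), wt τ Δ t *
          (‖riemannZeta (1 / 2 + α + t * I)‖ ^ 2 * ‖M2 T t‖ ^ 2 * ‖M2 T t‖ ^ 2) := by
      rw [← intervalIntegral.integral_const_mul]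
      refine intervalIntegral.integral_congr fun t ht => ?_
      rw [Set.uIcc_of_le (by linarith)] at ht
      have h2 : Z t θ y = ‖riemannZeta (1 / 2 + α + t * I)‖ := by
        simp only [hZ]
        rw [Zc_eq (hIm t ht θ y hy), hs3', hα]
      simp only [hF1, h2]
      ring
    have hre : |α.re| ≤ 2 * R / L + 1 / L := by
      rw [hα, Complex.add_re, zre]
      refine (abs_add_le _ _).trans ?_
      have := circ_re_abs (R := R) (by linarith) hL0 θ
      rw [abs_of_pos hinvL]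
      linarith
    have hre2 : -(2 * R / L) ≤ α.re := by
      rw [hα, Complex.add_re, zre]
      have := (abs_le.1 (circ_re_abs (by linarith) hL0 θ : |(circ R L θ).re| ≤ 2 * R / L)).1
      linarith
    have him : |α.im| ≤ T / 50 := by
      rw [hα, Complex.add_im, zim]
      have h2 := circ_im_abs (R := R) (by linarith) hL0 θ
      have h3 : |y| ≤ T / 100 := abs_le.2 hy
      refine (abs_add_le _ _).trans ?_
      linarith
    have hre3 : |α.re| ≤ 3 * R / L := by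
      refine hre.trans ?_
      rw [← add_div]
      exact div_le_div_of_nonneg_right (by linarith) hL0.le
    have h3 := (htw2 τ hτ1 (by linarith) α hre3 him).2
    rw [h1]
    have h4 : Real.exp (6 * max (-(L * α.re)) 0) ≤ Real.exp (12 * R) := by
      rw [Real.exp_le_exp]
      have : -(L * α.re) ≤ 2 * R := by
        have h5 := mul_le_mul_of_nonneg_left hre2 hL0.le
        have h6 : L * -(2 * R / L) = -(2 * R) := by field_simp
        rw [h6] at h5
        linarith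
      have h7 : max (-(L * α.re)) 0 ≤ 2 * R := max_le this (by linarith)
      linarith
    have h5 : 1 + L * ‖α‖ ≤ (1 + 2 * R) * (1 + L * ‖((1 / L : ℝ) : ℂ) + y * I‖) := by
      have h6 : ‖α‖ ≤ 2 * R / L + ‖((1 / L : ℝ) : ℂ) + y * I‖ := by
        rw [hα]
        refine (norm_add_le _ _).trans ?_
        rw [circ_norm (by linarith) hL0]
      have h7 := mul_le_mul_of_nonneg_left h6 hL0.le
      have h8 : L * (2 * R / L + ‖((1 / L : ℝ) : ℂ) + y * I‖) =
          2 * R + L * ‖((1 / L : ℝ) : ℂ) + y * I‖ := by field_simp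
      rw [h8] at h7
      have h9 : 0 ≤ L * ‖((1 / L : ℝ) : ℂ) + y * I‖ := by positivity
      have h10 : 0 ≤ 2 * R * (L * ‖((1 / L : ℝ) : ℂ) + y * I‖) :=
        mul_nonneg (by linarith) h9
      linarith
    calc lam / 2 * κ y * _ ≤ lam / 2 * κ y * (C1 * Real.exp (6 * max (-(L * α.re)) 0) *
          (1 + L * ‖α‖) ^ 20 * (Δ * L)) :=
          mul_le_mul_of_nonneg_left h3 (by have := hκ0 y; positivity)
      _ ≤ lam / 2 * κ y * (C1 * Real.exp (12 * R) *
          ((1 + 2 * R) * (1 + L * ‖((1 / L : ℝ) : ℂ) + y * I‖)) ^ 20 * (Δ * L)) := by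
          have := hκ0 y
          gcongr
      _ = lam / 2 * (C1 * Real.exp (12 * R) * (1 + 2 * R) ^ 20 * (Δ * L)) *
          (κ y * (1 + L * ‖((1 / L : ℝ) : ℂ) + y * I‖) ^ 20) := by
          rw [mul_pow]
          ring
      _ ≤ lam / 2 * (C1 * Real.exp (12 * R) * (1 + 2 * R) ^ 20 * (Δ * L)) *
          (C0 * (L / (1 + (L * y) ^ 2))) :=
          mul_le_mul_of_nonneg_left (hκb y) (by positivity)
      _ = _ := by ring
  -- second part
  have hBB : ∫ θ in (0 : ℝ)..(2 * Real.pi), ∫ y in (-(T / 100))..(T / 100),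
      ∫ t in (τ - T / 100)..(τ + T / 100), F2 t θ y ≤ 1 / (2 * lam) * (CB * Δ * T * E) := by
    rw [← swap3 hF2c]
    have h1 : ∀ t, ∫ θ in (0 : ℝ)..(2 * Real.pi), ∫ y in (-(T / 100))..(T / 100), F2 t θ y =
        1 / (2 * lam) * (wt τ Δ t * G t) := by
      intro t
      simp only [hF2, intervalIntegral.integral_const_mul, hG]
    simp only [h1, intervalIntegral.integral_const_mul]
    exact mul_le_mul_of_nonneg_left hB (by positivity)
  -- the pointwise bound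
  have hT20 : 0 < T ^ (1 / 20 : ℝ) := by positivity
  have hpt : ∀ t ∈ Set.Icc (τ - T / 100) (τ + T / 100), ∀ θ ∈ Set.Icc (0 : ℝ) (2 * Real.pi),
      (wt τ Δ t * ‖M2 T t‖ ^ 2) * (T * ‖Dd T u (1 / 2 + circ R L θ + t * I)‖) ≤
      (∫ y in (-(T / 100))..(T / 100), F1 t θ y) + (∫ y in (-(T / 100))..(T / 100), F2 t θ y) +
        (T ^ (1 / 20 : ℝ)) ^ 2 / T := by
    intro t ht θ _
    have hcre := abs_le.1 (circ_re_abs (R := R) (by linarith) hL0 θ)
    have hcim := abs_le.1 (circ_im_abs (R := R) (by linarith) hL0 θ)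
    have e0 : ((1 : ℂ) / 2).re = 1 / 2 := by norm_num
    have e1 : ((1 : ℂ) / 2).im = 0 := by norm_num
    have e2 : ((t : ℂ) * I).im = t := by simp
    have e3 : ((t : ℂ) * I).re = 0 := by simp
    have hρre : (1 / 2 + circ R L θ + t * I).re = 1 / 2 + (circ R L θ).re := by
      rw [Complex.add_re, Complex.add_re, e0, e3, add_zero]
    have hρim : (1 / 2 + circ R L θ + t * I).im = (circ R L θ).im + t := by
      rw [Complex.add_im, Complex.add_im, e1, e2, zero_add]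
    have h1 := hdr (1 / 2 + circ R L θ + t * I) (by rw [hρre]; linarith [hcre.1])
      (by rw [hρre]; linarith [hcre.2]) (by rw [hρim]; linarith [hcim.1, ht.1])
      (by rw [hρim]; linarith [hcim.2, ht.2])
    have h2 : ∫ y in (-(T / 100))..(T / 100),
        ‖riemannZeta (1 / 2 + circ R L θ + t * I + (((1 / L : ℝ) : ℂ) + y * I))‖ *
        ‖PX T u v (1 / 2 + circ R L θ + t * I + (((1 / L : ℝ) : ℂ) + y * I))‖ *
        ‖ker (u + (1 + ε / 3) * L) (ε / 3 / k * L) k (((1 / L : ℝ) : ℂ) + y * I) /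
          (((1 / L : ℝ) : ℂ) + y * I)‖ =
        ∫ y in (-(T / 100))..(T / 100), Z t θ y * Q t θ y * κ y := by
      refine intervalIntegral.integral_congr fun y hy => ?_
      rw [Set.uIcc_of_le (by linarith)] at hy
      have h3 := Zc_eq (hIm t ht θ y hy)
      simp only [hZ, hQ, hκ, kap]
      rw [h3, hs3]
    rw [h2] at h1
    have hw0 := wt_nonneg τ Δ t
    have hM0 := norm_nonneg (M2 T t)
    have c4 : Continuous fun y : ℝ => ((t, θ, y) : ℝ × ℝ × ℝ) := by fun_prop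
    have cZ : Continuous fun y => Z t θ y := hZc.comp c4
    have cQ : Continuous fun y => Q t θ y := hQc.comp c4
    have c1 : Continuous fun y => F1 t θ y := hF1c.comp c4
    have c2 : Continuous fun y => F2 t θ y := hF2c.comp c4
    have h3 : (wt τ Δ t * ‖M2 T t‖ ^ 2 * T) * ∫ y in (-(T / 100))..(T / 100),
        Z t θ y * Q t θ y * κ y ≤
        (∫ y in (-(T / 100))..(T / 100), F1 t θ y) + (∫ y in (-(T / 100))..(T / 100), F2 t θ y) := by
      rw [← intervalIntegral.integral_const_mul, ← intervalIntegral.integral_add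
        (c1.intervalIntegrable _ _) (c2.intervalIntegrable _ _)]
      refine intervalIntegral.integral_mono_on (by linarith)
        (Continuous.intervalIntegrable (by fun_prop) _ _) ((c1.add c2).intervalIntegrable _ _)
        fun y _ => ?_
      have hk1 := hκ0 y
      simp only [hF1, hF2, hF0]
      have h4 : (‖M2 T t‖ ^ 2 * Z t θ y) * (T * Q t θ y) ≤
          lam / 2 * (‖M2 T t‖ ^ 2 * Z t θ y) ^ 2 + 1 / (2 * lam) * (T * Q t θ y) ^ 2 := by
        have h5 : 0 ≤ (lam * (‖M2 T t‖ ^ 2 * Z t θ y) - T * Q t θ y) ^ 2 / (2 * lam) := by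
          positivity
        have h6 : (lam * (‖M2 T t‖ ^ 2 * Z t θ y) - T * Q t θ y) ^ 2 / (2 * lam) =
            lam / 2 * (‖M2 T t‖ ^ 2 * Z t θ y) ^ 2 + 1 / (2 * lam) * (T * Q t θ y) ^ 2 -
            (‖M2 T t‖ ^ 2 * Z t θ y) * (T * Q t θ y) := by
          field_simp
          ring
        linarith
      calc wt τ Δ t * ‖M2 T t‖ ^ 2 * T * (Z t θ y * Q t θ y * κ y) =
            (wt τ Δ t * κ y) * ((‖M2 T t‖ ^ 2 * Z t θ y) * (T * Q t θ y)) := by ring
        _ ≤ (wt τ Δ t * κ y) * (lam / 2 * (‖M2 T t‖ ^ 2 * Z t θ y) ^ 2 +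
            1 / (2 * lam) * (T * Q t θ y) ^ 2) :=
            mul_le_mul_of_nonneg_left h4 (by positivity)
        _ = _ := by ring
    have h7 : wt τ Δ t * ‖M2 T t‖ ^ 2 * T * (1 / T ^ 2) ≤ (T ^ (1 / 20 : ℝ)) ^ 2 / T := by
      have h8 : wt τ Δ t ≤ 1 := by
        rw [wt, Real.exp_le_one_iff]
        have := sq_nonneg ((t - τ) / Δ)
        linarith
      have h9 : ‖M2 T t‖ ^ 2 ≤ (T ^ (1 / 20 : ℝ)) ^ 2 :=
        pow_le_pow_left₀ hM0 (M2_bound (by linarith) t) 2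
      calc wt τ Δ t * ‖M2 T t‖ ^ 2 * T * (1 / T ^ 2) = wt τ Δ t * ‖M2 T t‖ ^ 2 / T := by
            field_simp
        _ ≤ 1 * (T ^ (1 / 20 : ℝ)) ^ 2 / T := by gcongr
        _ = _ := by ring
    calc (wt τ Δ t * ‖M2 T t‖ ^ 2) * (T * ‖Dd T u (1 / 2 + circ R L θ + t * I)‖) =
          (wt τ Δ t * ‖M2 T t‖ ^ 2 * T) * ‖Dd T u (1 / 2 + circ R L θ + t * I)‖ := by ring
      _ ≤ (wt τ Δ t * ‖M2 T t‖ ^ 2 * T) * ((∫ y in (-(T / 100))..(T / 100),
          Z t θ y * Q t θ y * κ y) + 1 / T ^ 2) :=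
          mul_le_mul_of_nonneg_left h1 (by positivity)
      _ ≤ _ := by
          rw [mul_add]
          linarith
  have hcomb := combine (F1 := F1) (F2 := F2) hF1c hF2c (w := fun t => wt τ Δ t * ‖M2 T t‖ ^ 2)
    (D := fun t θ => T * ‖Dd T u (1 / 2 + circ R L θ + t * I)‖) (a := τ - T / 100)
    (b := τ + T / 100) (c := 0) (d := 2 * Real.pi) (e := -(T / 100)) (g := T / 100)
    (by linarith) hcpos (fun t => mul_nonneg (wt_nonneg _ _ _) (sq_nonneg _))
    (fun t θ => mul_nonneg hT0.le (norm_nonneg _)) hpt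
  have hgoal : ∫ t in (τ - T / 100)..(τ + T / 100), wt τ Δ t * (‖M2 T t‖ ^ 2 *
      ∫ θ in (0 : ℝ)..(2 * Real.pi), T * ‖Dd T u (1 / 2 + circ R L θ + t * I)‖) =
      ∫ t in (τ - T / 100)..(τ + T / 100), (wt τ Δ t * ‖M2 T t‖ ^ 2) *
      ∫ θ in (0 : ℝ)..(2 * Real.pi), T * ‖Dd T u (1 / 2 + circ R L θ + t * I)‖ :=
    intervalIntegral.integral_congr fun t _ => (mul_assoc _ _ _).symm
  rw [hgoal, ← hS]
  refine hcomb.trans ?_
  have f1 : lam / 2 * (CA * (Δ * L)) = CA / 2 * Δ * S := by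
    rw [hlam]
    field_simp
  have f2 : 1 / (2 * lam) * (CB * Δ * T * E) ≤ CB / 2 * Δ * S := by
    have g1 : 1 / (2 * lam) * (CB * Δ * T * E) = CB / 2 * Δ * ((L * T * E) / S) := by
      rw [hlam]
      field_simp
    have g2 : (L * T * E) / S ≤ S := by
      rw [div_le_iff₀ hS0]
      calc L * T * E ≤ S ^ 2 := hS2
        _ = S * S := sq S
    rw [g1]
    exact mul_le_mul_of_nonneg_left g2 (by positivity)
  have f3 : (τ + T / 100 - (τ - T / 100)) * (2 * Real.pi - 0) * ((T ^ (1 / 20 : ℝ)) ^ 2 / T) ≤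
      1 * Δ * S := by
    have g1 : (τ + T / 100 - (τ - T / 100)) * (2 * Real.pi - 0) * ((T ^ (1 / 20 : ℝ)) ^ 2 / T) =
        (2 * Real.pi / 50) * (T ^ (1 / 20 : ℝ)) ^ 2 := by
      field_simp
      ring
    have g2 : (T ^ (1 / 20 : ℝ)) ^ 2 ≤ Δ := by
      rw [hΔ, De, ← Real.rpow_natCast, ← Real.rpow_mul hT0.le]
      exact Real.rpow_le_rpow_of_exponent_le hT1 (by norm_num)
    have g3 : 2 * Real.pi / 50 ≤ 1 := by
      have := Real.pi_lt_four
      linarith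
    rw [g1]
    calc 2 * Real.pi / 50 * (T ^ (1 / 20 : ℝ)) ^ 2 ≤ 1 * Δ := by gcongr
      _ = 1 * Δ * 1 := by ring
      _ ≤ 1 * Δ * S := by gcongr
  calc _ ≤ lam / 2 * (CA * (Δ * L)) + 1 / (2 * lam) * (CB * Δ * T * E) + 1 * Δ * S :=
        add_le_add (add_le_add hA hBB) f3
    _ ≤ CA / 2 * Δ * S + CB / 2 * Δ * S + 1 * Δ * S := by
        rw [f1]
        linarith
    _ = (CA / 2 + CB / 2 + 1) * Δ * S := by ring

end Pool.Agent.P4f18dfS
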