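import Pool.Agent.Lib.P4f18dfS.AFE

/-!
# The diagonal of the first moment is positive

PROOF. `A = tw gl (-x) * mt gM * mt gm`, `B = mt gm`, `gm(m) = 0` for `log m ≥ L/40`. For `log m ≤ L/40` and `d | m`:
`gl(d) = 1` (`spl_eq_one`, `log d ≤ 11L/10`), `gM(d) = 1` (`spl_eq_one`, `log d ≤ L/40`). So for `m` squarefree
(otherwise `B(m) = 0`) `A(m) = ∑_{e | m} μ(e) gm(e) (n^{-x} * μ)(m/e)`, `(n^{-x} * μ)(j) = ∏_{p | j} (p^{-x} - 1) =
μ(j) ∏_{p | j} (1 - p^{-x})` for squarefree `j`. As `μ(e) μ(m/e) = μ(m)`: `A(m) B(m) = gm(m) ∑_{e | m} gm(e) ∏_{p | m/e} (1 - p^{-x})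
≥ gm(m)²` (all terms are nonnegative: `gm ≥ 0`, `x ≥ 0`; the term `e = m`). Hence the real part is
`≥ ∑_{m ≤ T^{1/80}} μ²(m) gm(m)²/m ≥ 4^{-100} ∑_{m ≤ T^{1/80}} μ²(m)/m` and `(∑_{m ≤ y} μ²(m)/m) (∑_{j} 1/j²) ≥ ∑_{n ≤ y} 1/n ≥ log y`
(`n = m j²`, `Nat.sq_mul_squarefree`), `∑ 1/j² ≤ 2`.
-/

set_option autoImplicit false

open Complex

namespace Pool.Agent.P4f18dfS

namespace DiagAux

theorem inv_sq_sum (N : ℕ) : ∑ j ∈ Finset.Icc 1 N, (1 : ℝ) / (j : ℝ) ^ 2 ≤ 2 := by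
  have h : ∀ N : ℕ, 1 ≤ N → ∑ j ∈ Finset.Icc 1 N, (1 : ℝ) / (j : ℝ) ^ 2 ≤ 2 - 1 / N := by
    intro N hN
    induction N, hN using Nat.le_induction with
    | base => norm_num
    | succ n hn ih =>
      rw [Finset.sum_Icc_succ_top (by omega)]
      have hn0 : (0 : ℝ) < n := by exact_mod_cast hn
      have h1 : (1 : ℝ) / ((n + 1 : ℕ) : ℝ) ^ 2 ≤ 1 / n - 1 / ((n + 1 : ℕ) : ℝ) := by
        push_cast
        rw [div_sub_div _ _ hn0.ne' (by positivity), div_le_div_iff₀ (by positivity) (by positivity)]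
        nlinarith
      linarith
  rcases Nat.eq_zero_or_pos N with rfl | hN
  · simp
  · refine (h N hN).trans ?_
    have : (0 : ℝ) ≤ 1 / N := by positivity
    linarith

theorem sqf_sum (N : ℕ) : ∑ n ∈ Finset.Icc 1 N, (1 : ℝ) / n ≤
    2 * ∑ m ∈ (Finset.Icc 1 N).filter Squarefree, (1 : ℝ) / m := by
  have hch : ∀ n : ℕ, ∃ ab : ℕ × ℕ, 0 < n → 0 < ab.1 ∧ 0 < ab.2 ∧ ab.2 ^ 2 * ab.1 = n ∧
      Squarefree ab.1 := by
    intro n
    rcases Nat.eq_zero_or_pos n with rfl | hn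
    · exact ⟨(0, 0), fun h => absurd h (lt_irrefl _)⟩
    · obtain ⟨a, b, ha, hb, hab, hsq⟩ := Nat.sq_mul_squarefree_of_pos hn
      exact ⟨(a, b), fun _ => ⟨ha, hb, hab, hsq⟩⟩
  choose φ hφ using hch
  have h1 : ∑ n ∈ Finset.Icc 1 N, (1 : ℝ) / n
      = ∑ n ∈ Finset.Icc 1 N, (1 : ℝ) / ((φ n).1 : ℝ) * (1 / ((φ n).2 : ℝ) ^ 2) := by
    refine Finset.sum_congr rfl fun n hn => ?_
    rw [Finset.mem_Icc] at hn
    obtain ⟨ha, hb, hab, -⟩ := hφ n (by omega)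
    have : (n : ℝ) = ((φ n).2 : ℝ) ^ 2 * ((φ n).1 : ℝ) := by exact_mod_cast hab.symm
    rw [this, one_div_mul_one_div, mul_comm]
  have hinj : Set.InjOn φ (Finset.Icc 1 N : Finset ℕ) := by
    intro n hn m hm hnm
    have hn' := Finset.mem_Icc.1 (Finset.mem_coe.1 hn)
    have hm' := Finset.mem_Icc.1 (Finset.mem_coe.1 hm)
    have h2 := (hφ n (by omega)).2.2.1
    have h3 := (hφ m (by omega)).2.2.1
    rw [← h2, ← h3, hnm]
  have h2 : ∑ n ∈ Finset.Icc 1 N, (1 : ℝ) / ((φ n).1 : ℝ) * (1 / ((φ n).2 : ℝ) ^ 2)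
      = ∑ t ∈ (Finset.Icc 1 N).image φ, (1 : ℝ) / (t.1 : ℝ) * (1 / (t.2 : ℝ) ^ 2) :=
    (Finset.sum_image (f := fun t : ℕ × ℕ => (1 : ℝ) / (t.1 : ℝ) * (1 / (t.2 : ℝ) ^ 2)) hinj).symm
  have h3 : (Finset.Icc 1 N).image φ ⊆
      ((Finset.Icc 1 N).filter Squarefree) ×ˢ (Finset.Icc 1 N) := by
    intro t ht
    obtain ⟨n, hn, rfl⟩ := Finset.mem_image.1 ht
    rw [Finset.mem_Icc] at hn
    obtain ⟨ha, hb, hab, hsq⟩ := hφ n (by omega)
    rw [Finset.mem_product, Finset.mem_filter, Finset.mem_Icc, Finset.mem_Icc]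
    have h4 : (φ n).1 ≤ n := by
      calc (φ n).1 = 1 * (φ n).1 := (one_mul _).symm
        _ ≤ (φ n).2 ^ 2 * (φ n).1 := Nat.mul_le_mul_right _ (Nat.one_le_pow _ _ hb)
        _ = n := hab
    have h5 : (φ n).2 ≤ n := by
      calc (φ n).2 ≤ (φ n).2 ^ 2 := Nat.le_self_pow (by norm_num) _
        _ = (φ n).2 ^ 2 * 1 := (mul_one _).symm
        _ ≤ (φ n).2 ^ 2 * (φ n).1 := Nat.mul_le_mul_left _ ha
        _ = n := hab
    exact ⟨⟨⟨ha, by omega⟩, hsq⟩, ⟨hb, by omega⟩⟩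
  rw [h1, h2]
  refine (Finset.sum_le_sum_of_subset_of_nonneg h3 fun t _ _ => by positivity).trans ?_
  have h4 : ∑ t ∈ ((Finset.Icc 1 N).filter Squarefree) ×ˢ (Finset.Icc 1 N),
      (1 : ℝ) / (t.1 : ℝ) * (1 / (t.2 : ℝ) ^ 2)
      = (∑ m ∈ (Finset.Icc 1 N).filter Squarefree, (1 : ℝ) / m) *
        ∑ j ∈ Finset.Icc 1 N, (1 : ℝ) / (j : ℝ) ^ 2 := by
    rw [Finset.sum_product, Finset.sum_mul_sum]
  rw [h4, mul_comm]
  refine mul_le_mul_of_nonneg_right (inv_sq_sum N) ?_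
  exact Finset.sum_nonneg fun m _ => by positivity

theorem sum_one_div (N : ℕ) : ∑ n ∈ Finset.Icc 1 N, (1 : ℝ) / n = ((harmonic N : ℚ) : ℝ) := by
  rw [harmonic_eq_sum_Icc]
  push_cast
  exact Finset.sum_congr rfl fun n _ => one_div _

/-- the multiplicative function `n^{-x}` -/
noncomputable def pw (x : ℝ) : ArithmeticFunction ℝ :=
  ⟨fun n => if n = 0 then 0 else (n : ℝ) ^ (-x), by simp⟩

theorem pw_apply (x : ℝ) {n : ℕ} (hn : n ≠ 0) : pw x n = (n : ℝ) ^ (-x) := by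
  change (if n = 0 then (0 : ℝ) else (n : ℝ) ^ (-x)) = _
  rw [if_neg hn]

theorem pw_mult (x : ℝ) : (pw x).IsMultiplicative := by
  refine ⟨?_, ?_⟩
  · rw [pw_apply x one_ne_zero]
    simp
  · intro m n _
    rcases Nat.eq_zero_or_pos m with rfl | hm
    · simp
    rcases Nat.eq_zero_or_pos n with rfl | hn
    · simp
    rw [pw_apply x hm.ne', pw_apply x hn.ne', pw_apply x (Nat.mul_pos hm hn).ne', Nat.cast_mul,
      Real.mul_rpow (by positivity) (by positivity)]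

/-- the product `∏_{p | j} (1 - p^{-x})` -/
noncomputable def PP (x : ℝ) (j : ℕ) : ℝ := ∏ p ∈ j.primeFactors, (1 - pw x p)

theorem PP_nonneg {x : ℝ} (hx : 0 ≤ x) (j : ℕ) : 0 ≤ PP x j := by
  refine Finset.prod_nonneg fun p hp => ?_
  have hp' := Nat.prime_of_mem_primeFactors hp
  rw [pw_apply x hp'.ne_zero, sub_nonneg]
  refine Real.rpow_le_one_of_one_le_of_nonpos ?_ (by linarith)
  exact_mod_cast hp'.one_lt.le

theorem PP_one (x : ℝ) : PP x 1 = 1 := by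
  simp [PP]

theorem moebius_sq {n : ℕ} (hn : Squarefree n) :
    ((ArithmeticFunction.moebius n : ℤ) : ℝ) * ((ArithmeticFunction.moebius n : ℤ) : ℝ) = 1 := by
  have := ArithmeticFunction.moebius_sq_eq_one_of_squarefree hn
  rw [sq] at this
  exact_mod_cast this

theorem moebius_split {m a b : ℕ} (hm : Squarefree m) (h : a * b = m) :
    ((ArithmeticFunction.moebius b : ℤ) : ℝ) = ((ArithmeticFunction.moebius m : ℤ) : ℝ) *
      ((ArithmeticFunction.moebius a : ℤ) : ℝ) := by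
  have hcop : Nat.Coprime a b := by
    rw [← h] at hm
    exact (Nat.squarefree_mul_iff.1 hm).1
  have ha : Squarefree a := hm.squarefree_of_dvd (Dvd.intro _ h)
  have h1 : ((ArithmeticFunction.moebius m : ℤ) : ℝ) = ((ArithmeticFunction.moebius a : ℤ) : ℝ) *
      ((ArithmeticFunction.moebius b : ℤ) : ℝ) := by
    rw [← h, ArithmeticFunction.isMultiplicative_moebius.map_mul_of_coprime hcop]
    push_cast
    rfl
  rw [h1]
  have h2 := moebius_sq ha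
  calc ((ArithmeticFunction.moebius b : ℤ) : ℝ)
      = (((ArithmeticFunction.moebius a : ℤ) : ℝ) * ((ArithmeticFunction.moebius a : ℤ) : ℝ)) *
        ((ArithmeticFunction.moebius b : ℤ) : ℝ) := by rw [h2, one_mul]
    _ = _ := by ring

theorem G_val {L x : ℝ} (hL : 0 < L) {j : ℕ} (hj : Squarefree j) (hlog : Real.log j ≤ L / 40) :
    (tw (gl L) (-(x : ℂ)) * mt (gM L)) j
      = ((((ArithmeticFunction.moebius j : ℤ) : ℝ) * PP x j : ℝ) : ℂ) := by
  have hj0 : j ≠ 0 := hj.ne_zero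
  have hK : (0 : ℝ) < (K0 : ℝ) := by norm_num [K0]
  rw [ArithmeticFunction.mul_apply, PP,
    ArithmeticFunction.IsMultiplicative.prodPrimeFactors_one_sub_of_squarefree (pw x) (pw_mult x) hj,
    Finset.mul_sum]
  push_cast
  rw [← Nat.sum_divisorsAntidiagonal (fun d _ => (((ArithmeticFunction.moebius j : ℤ) : ℂ) *
    (((ArithmeticFunction.moebius d : ℤ) : ℂ) * ((pw x d : ℝ) : ℂ))))]
  refine Finset.sum_congr rfl fun q hq => ?_
  obtain ⟨hq1, -⟩ := Nat.mem_divisorsAntidiagonal.1 hq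
  have hq10 : q.1 ≠ 0 := fun h => hj0 (by rw [← hq1, h, zero_mul])
  have hq20 : q.2 ≠ 0 := fun h => hj0 (by rw [← hq1, h, mul_zero])
  have hle1 : q.1 ≤ j := Nat.le_of_dvd (Nat.pos_of_ne_zero hj0) (Dvd.intro _ hq1)
  have hle2 : q.2 ≤ j := Nat.le_of_dvd (Nat.pos_of_ne_zero hj0) (Dvd.intro_left _ hq1)
  have hlog1 : Real.log (q.1 : ℝ) ≤ L / 40 :=
    (Real.log_le_log (by exact_mod_cast Nat.pos_of_ne_zero hq10) (by exact_mod_cast hle1)).trans hlog
  have hlog2 : Real.log (q.2 : ℝ) ≤ L / 40 :=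
    (Real.log_le_log (by exact_mod_cast Nat.pos_of_ne_zero hq20) (by exact_mod_cast hle2)).trans hlog
  have e1 : (tw (gl L) (-(x : ℂ))) q.1 = ((pw x q.1 : ℝ) : ℂ) := by
    change (if q.1 = 0 then (0 : ℂ) else gl L q.1 * (q.1 : ℂ) ^ (-(x : ℂ))) = _
    rw [if_neg hq10, pw_apply x hq10, gl, spl_eq_one (by positivity) K0 (by linarith),
      Complex.ofReal_cpow (by positivity)]
    push_cast
    rw [one_mul]
  have e2 : (mt (gM L)) q.2 = ((ArithmeticFunction.moebius q.2 : ℤ) : ℂ) := by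
    change ((ArithmeticFunction.moebius q.2 : ℤ) : ℂ) * gM L q.2 = _
    rw [gM, spl_eq_one (by positivity) K0 hlog2]
    push_cast
    rw [mul_one]
  have e3 : ((ArithmeticFunction.moebius q.2 : ℤ) : ℂ) = ((ArithmeticFunction.moebius j : ℤ) : ℂ) *
      ((ArithmeticFunction.moebius q.1 : ℤ) : ℂ) := by
    have := moebius_split hj hq1
    exact_mod_cast this
  rw [e1, e2, e3]
  ring

/-- real form of `gm` -/
noncomputable def gr (L : ℝ) (n : ℕ) : ℝ := pwt (L / 40) K0 (Real.log n)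

theorem gm_eq (L : ℝ) (n : ℕ) : gm L n = (gr L n : ℂ) := rfl

theorem gr_nonneg (L : ℝ) (n : ℕ) : 0 ≤ gr L n := by
  unfold gr pwt
  positivity

theorem gr_le_one {L : ℝ} (hL : 0 < L) (n : ℕ) : gr L n ≤ 1 := by
  unfold gr pwt
  refine pow_le_one₀ (le_max_right _ _) (max_le ?_ zero_le_one)
  have h1 : 0 ≤ Real.log n := Real.log_natCast_nonneg n
  have h2 : 0 ≤ Real.log n / (L / 40) := by positivity
  linarith

theorem gr_eq_zero {L : ℝ} (hL : 0 < L) {n : ℕ} (h : L / 40 ≤ Real.log n) : gr L n = 0 := by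
  unfold gr pwt
  have h2 : 1 ≤ Real.log n / (L / 40) := (one_le_div (by positivity)).2 h
  rw [max_eq_right (by linarith)]
  norm_num [K0]

theorem gr_lower {L : ℝ} (hL : 0 < L) {n : ℕ} (h : Real.log n ≤ L / 80) :
    (1 / 2 : ℝ) ^ 100 ≤ gr L n := by
  unfold gr pwt
  have h2 : Real.log n / (L / 40) ≤ 1 / 2 := by
    rw [div_le_iff₀ (by positivity)]
    linarith
  have h3 : (1 / 2 : ℝ) ≤ max (1 - Real.log n / (L / 40)) 0 := le_max_of_le_left (by linarith)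
  exact pow_le_pow_left₀ (by norm_num) h3 100

theorem A_val {L x : ℝ} (hL : 0 < L) {m : ℕ} (hm : Squarefree m) (hlog : Real.log m ≤ L / 40) :
    (tw (gl L) (-(x : ℂ)) * mt (gM L) * mt (gm L)) m
      = ((((ArithmeticFunction.moebius m : ℤ) : ℝ) *
        ∑ q ∈ m.divisorsAntidiagonal, PP x q.1 * gr L q.2 : ℝ) : ℂ) := by
  have hm0 : m ≠ 0 := hm.ne_zero
  rw [ArithmeticFunction.mul_apply, Finset.mul_sum, Complex.ofReal_sum]
  refine Finset.sum_congr rfl fun q hq => ?_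
  obtain ⟨hq1, -⟩ := Nat.mem_divisorsAntidiagonal.1 hq
  have hq10 : q.1 ≠ 0 := fun h => hm0 (by rw [← hq1, h, zero_mul])
  have hle1 : q.1 ≤ m := Nat.le_of_dvd (Nat.pos_of_ne_zero hm0) (Dvd.intro _ hq1)
  have hsq : Squarefree q.1 := hm.squarefree_of_dvd (Dvd.intro _ hq1)
  have hlog1 : Real.log (q.1 : ℝ) ≤ L / 40 :=
    (Real.log_le_log (by exact_mod_cast Nat.pos_of_ne_zero hq10) (by exact_mod_cast hle1)).trans hlog
  rw [G_val hL hsq hlog1]
  have e2 : (mt (gm L)) q.2 = ((((ArithmeticFunction.moebius q.2 : ℤ) : ℝ) * gr L q.2 : ℝ) : ℂ) := by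
    change ((ArithmeticFunction.moebius q.2 : ℤ) : ℂ) * gm L q.2 = _
    rw [gm_eq]
    push_cast
    rfl
  rw [e2, ← Complex.ofReal_mul]
  congr 1
  rw [moebius_split hm hq1]
  have h2 := moebius_sq hsq
  calc ((ArithmeticFunction.moebius q.1 : ℤ) : ℝ) * PP x q.1 *
        (((ArithmeticFunction.moebius m : ℤ) : ℝ) * ((ArithmeticFunction.moebius q.1 : ℤ) : ℝ) *
          gr L q.2)
      = (((ArithmeticFunction.moebius q.1 : ℤ) : ℝ) * ((ArithmeticFunction.moebius q.1 : ℤ) : ℝ)) *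
        (((ArithmeticFunction.moebius m : ℤ) : ℝ) * (PP x q.1 * gr L q.2)) := by ring
    _ = _ := by rw [h2, one_mul]

theorem B_val (L : ℝ) (m : ℕ) : (starRingEnd ℂ) (mt (gm L) m)
    = ((((ArithmeticFunction.moebius m : ℤ) : ℝ) * gr L m : ℝ) : ℂ) := by
  have e2 : (mt (gm L)) m = ((((ArithmeticFunction.moebius m : ℤ) : ℝ) * gr L m : ℝ) : ℂ) := by
    change ((ArithmeticFunction.moebius m : ℤ) : ℂ) * gm L m = _
    rw [gm_eq]
    push_cast
    rfl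
  rw [e2, Complex.conj_ofReal]

theorem term_lower {L x : ℝ} (hL : 0 < L) (hx : 0 ≤ x) {m : ℕ} :
    (if Squarefree m then gr L m ^ 2 / (m : ℝ) else 0) ≤
      ((tw (gl L) (-(x : ℂ)) * mt (gM L) * mt (gm L)) m *
        (starRingEnd ℂ) (mt (gm L) m) / (m : ℂ)).re := by
  rw [B_val]
  by_cases hm : Squarefree m
  · rw [if_pos hm]
    by_cases hlog : Real.log m ≤ L / 40
    · rw [A_val hL hm hlog, ← Complex.ofReal_mul]
      have e1 : ((m : ℕ) : ℂ) = (((m : ℕ) : ℝ) : ℂ) := by push_cast; rfl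
      rw [e1, ← Complex.ofReal_div, Complex.ofReal_re]
      have h2 := moebius_sq hm
      have h3 : ((ArithmeticFunction.moebius m : ℤ) : ℝ) *
          (∑ q ∈ m.divisorsAntidiagonal, PP x q.1 * gr L q.2) *
          (((ArithmeticFunction.moebius m : ℤ) : ℝ) * gr L m)
          = gr L m * ∑ q ∈ m.divisorsAntidiagonal, PP x q.1 * gr L q.2 := by
        calc _ = (((ArithmeticFunction.moebius m : ℤ) : ℝ) *
              ((ArithmeticFunction.moebius m : ℤ) : ℝ)) *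
              (gr L m * ∑ q ∈ m.divisorsAntidiagonal, PP x q.1 * gr L q.2) := by ring
          _ = _ := by rw [h2, one_mul]
      rw [h3]
      refine div_le_div_of_nonneg_right ?_ (Nat.cast_nonneg m)
      rw [sq]
      refine mul_le_mul_of_nonneg_left ?_ (gr_nonneg L m)
      have hmem : ((1 : ℕ), m) ∈ m.divisorsAntidiagonal := by
        rw [Nat.mem_divisorsAntidiagonal]
        exact ⟨one_mul m, hm.ne_zero⟩
      have h4 := Finset.single_le_sum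
        (f := fun q : ℕ × ℕ => PP x q.1 * gr L q.2)
        (fun q _ => mul_nonneg (PP_nonneg hx q.1) (gr_nonneg L q.2)) hmem
      have h5 : PP x ((1 : ℕ), m).1 * gr L ((1 : ℕ), m).2 = gr L m := by
        change PP x 1 * gr L m = gr L m
        rw [PP_one, one_mul]
      rw [← h5]
      exact h4
    · rw [gr_eq_zero hL (not_le.1 hlog).le]
      simp
  · rw [if_neg hm, ArithmeticFunction.moebius_eq_zero_of_not_squarefree hm]
    simp

theorem log_gt {T : ℝ} (hT : 3 ≤ T) {a : ℝ} {n : ℕ} (hn : ⌊T ^ a⌋₊ < n) :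
    a * Real.log T ≤ Real.log n := by
  have h1 : T ^ a < n := Nat.lt_of_floor_lt hn
  have h0 : 0 < T ^ a := Real.rpow_pos_of_pos (by linarith) a
  have h2 := Real.log_le_log h0 h1.le
  rwa [Real.log_rpow (by linarith)] at h2

theorem log_T {T : ℝ} (hT : 3 ≤ T) : 1 ≤ Real.log T := by
  rw [Real.le_log_iff_exp_le (by linarith)]
  exact (Real.exp_one_lt_d9.le.trans (by norm_num)).trans hT

end DiagAux

theorem diag_lower : ∃ c T0 : ℝ, 0 < c ∧ ∀ T : ℝ, T0 ≤ T → ∀ x : ℝ, 0 ≤ x →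
    c * Real.log T ≤ (∑ m ∈ Finset.Icc 1 ⌊T ^ (1 / 20 : ℝ)⌋₊,
      (tw (gl (Real.log T)) (-(x : ℂ)) * mt (gM (Real.log T)) * mt (gm (Real.log T))) m *
        (starRingEnd ℂ) (mt (gm (Real.log T)) m) / (m : ℂ)).re := by
  refine ⟨(1 / 2 : ℝ) ^ 201 / 80, 3, by positivity, fun T hT x hx => ?_⟩
  have hL := DiagAux.log_T hT
  have hT0 : (0 : ℝ) < T := by linarith
  set L := Real.log T with hLdef
  have hL0 : 0 < L := by linarith
  rw [Complex.re_sum]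
  refine le_trans ?_ (Finset.sum_le_sum fun m _ => DiagAux.term_lower hL0 hx)
  have hsub : (Finset.Icc 1 ⌊T ^ (1 / 80 : ℝ)⌋₊).filter Squarefree ⊆
      Finset.Icc 1 ⌊T ^ (1 / 20 : ℝ)⌋₊ := by
    intro m hm
    rw [Finset.mem_filter, Finset.mem_Icc] at hm
    rw [Finset.mem_Icc]
    refine ⟨hm.1.1, hm.1.2.trans (Nat.floor_le_floor ?_)⟩
    exact Real.rpow_le_rpow_of_exponent_le (by linarith) (by norm_num)
  refine le_trans ?_ (Finset.sum_le_sum_of_subset_of_nonneg hsub fun m _ _ => ?_)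
  · have h1 : ∀ m ∈ (Finset.Icc 1 ⌊T ^ (1 / 80 : ℝ)⌋₊).filter Squarefree,
        (1 / 2 : ℝ) ^ 200 * (1 / (m : ℝ)) ≤
          (if Squarefree m then DiagAux.gr L m ^ 2 / (m : ℝ) else 0) := by
      intro m hm
      rw [Finset.mem_filter, Finset.mem_Icc] at hm
      rw [if_pos hm.2, mul_one_div]
      refine div_le_div_of_nonneg_right ?_ (Nat.cast_nonneg m)
      have hlog : Real.log m ≤ L / 80 := by
        have h2 : (m : ℝ) ≤ T ^ (1 / 80 : ℝ) :=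
          (Nat.le_floor_iff (Real.rpow_nonneg hT0.le _)).1 hm.1.2
        have h3 : (0 : ℝ) < m := by exact_mod_cast hm.1.1
        have h4 := Real.log_le_log h3 h2
        rw [Real.log_rpow hT0] at h4
        linarith
      have h5 := DiagAux.gr_lower hL0 hlog
      calc (1 / 2 : ℝ) ^ 200 = ((1 / 2 : ℝ) ^ 100) ^ 2 := by rw [← pow_mul]
        _ ≤ DiagAux.gr L m ^ 2 := pow_le_pow_left₀ (by positivity) h5 2
    refine le_trans ?_ (Finset.sum_le_sum h1)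
    rw [← Finset.mul_sum]
    have h6 := DiagAux.sqf_sum ⌊T ^ (1 / 80 : ℝ)⌋₊
    have h7 : L / 80 ≤ ∑ n ∈ Finset.Icc 1 ⌊T ^ (1 / 80 : ℝ)⌋₊, (1 : ℝ) / n := by
      rw [DiagAux.sum_one_div]
      have h8 := log_le_harmonic_floor (T ^ (1 / 80 : ℝ)) (Real.rpow_nonneg hT0.le _)
      rw [Real.log_rpow hT0] at h8
      linarith
    have h9 : (1 / 2 : ℝ) ^ 201 = (1 / 2 : ℝ) ^ 200 * (1 / 2) := by rw [← pow_succ]
    have h10 : L / 80 / 2 ≤ ∑ m ∈ (Finset.Icc 1 ⌊T ^ (1 / 80 : ℝ)⌋₊).filter Squarefree,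
        (1 : ℝ) / m := by linarith
    calc (1 / 2 : ℝ) ^ 201 / 80 * L = (1 / 2 : ℝ) ^ 200 * (L / 80 / 2) := by rw [h9]; ring
      _ ≤ _ := mul_le_mul_of_nonneg_left h10 (by positivity)
  · split_ifs
    · positivity
    · exact le_rfl

/-- Trivial bound for the mass of the short mollifier. -/
theorem gm_sum : ∃ C T0 : ℝ, 0 < C ∧ ∀ T : ℝ, T0 ≤ T →
    ∑ m ∈ Finset.Icc 1 ⌊T ^ (1 / 20 : ℝ)⌋₊, ‖mt (gm (Real.log T)) m‖ ^ 2 / (m : ℝ) ≤ C * Real.log T := by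
  refine ⟨2, 3, by norm_num, fun T hT => ?_⟩
  have hL := DiagAux.log_T hT
  have hT0 : (0 : ℝ) < T := by linarith
  have h1 : ∀ m ∈ Finset.Icc 1 ⌊T ^ (1 / 20 : ℝ)⌋₊,
      ‖mt (gm (Real.log T)) m‖ ^ 2 / (m : ℝ) ≤ 1 / (m : ℝ) := by
    intro m _
    refine div_le_div_of_nonneg_right ?_ (Nat.cast_nonneg m)
    have h2 : ‖mt (gm (Real.log T)) m‖ ≤ 1 := by
      have h3 := DiagAux.B_val (Real.log T) m
      have h4 : ‖mt (gm (Real.log T)) m‖ = ‖(starRingEnd ℂ) (mt (gm (Real.log T)) m)‖ :=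
        (RCLike.norm_conj _).symm
      rw [h4, h3, Complex.norm_real, norm_mul, Real.norm_eq_abs, Real.norm_eq_abs]
      have h5 : |((ArithmeticFunction.moebius m : ℤ) : ℝ)| ≤ 1 := by
        have := ArithmeticFunction.abs_moebius_le_one (n := m)
        exact_mod_cast this
      have h6 : |DiagAux.gr (Real.log T) m| ≤ 1 := by
        rw [abs_of_nonneg (DiagAux.gr_nonneg _ _)]
        exact DiagAux.gr_le_one (by linarith) m
      exact mul_le_one₀ h5 (abs_nonneg _) h6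
    exact pow_le_one₀ (norm_nonneg _) h2
  refine (Finset.sum_le_sum h1).trans ?_
  rw [DiagAux.sum_one_div]
  refine (harmonic_le_one_add_log _).trans ?_
  have h7 : Real.log (⌊T ^ (1 / 20 : ℝ)⌋₊ : ℝ) ≤ 1 / 20 * Real.log T := by
    rcases Nat.eq_zero_or_pos ⌊T ^ (1 / 20 : ℝ)⌋₊ with h0 | h0
    · rw [h0]
      simp only [Nat.cast_zero, Real.log_zero]
      linarith
    · rw [← Real.log_rpow hT0]
      exact Real.log_le_log (by exact_mod_cast h0) (Nat.floor_le (Real.rpow_nonneg hT0.le _))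
  linarith

theorem gl_supp {T : ℝ} (hT : 3 ≤ T) : ∀ n : ℕ, ⌊T ^ (6 / 5 : ℝ)⌋₊ < n → gl (Real.log T) n = 0 := by
  intro n hn
  have h1 := DiagAux.log_gt hT hn
  have hL := DiagAux.log_T hT
  have hK : (0 : ℝ) < (K0 : ℝ) := by norm_num [K0]
  unfold gl
  rw [spl_eq_zero (by positivity) K0 (by norm_num [K0]), Complex.ofReal_zero]
  rw [mul_div_cancel₀ _ hK.ne']
  linarith

theorem gz_supp {T : ℝ} (hT : 3 ≤ T) : ∀ n : ℕ, ⌊T ^ (3 / 5 : ℝ)⌋₊ < n → gz (Real.log T) n = 0 := by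
  intro n hn
  have h1 := DiagAux.log_gt hT hn
  have hL := DiagAux.log_T hT
  have hK : (0 : ℝ) < (K0 : ℝ) := by norm_num [K0]
  unfold gz
  rw [spl_eq_zero (by positivity) K0 (by norm_num [K0]), Complex.ofReal_zero]
  rw [mul_div_cancel₀ _ hK.ne']
  linarith

theorem gM_supp {T : ℝ} (hT : 3 ≤ T) : ∀ n : ℕ, ⌊T ^ (1 / 20 : ℝ)⌋₊ < n → gM (Real.log T) n = 0 := by
  intro n hn
  have h1 := DiagAux.log_gt hT hn
  have hL := DiagAux.log_T hT
  have hK : (0 : ℝ) < (K0 : ℝ) := by norm_num [K0]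
  unfold gM
  rw [spl_eq_zero (by positivity) K0 (by norm_num [K0]), Complex.ofReal_zero]
  rw [mul_div_cancel₀ _ hK.ne']
  linarith

theorem gm_supp {T : ℝ} (hT : 3 ≤ T) : ∀ n : ℕ, ⌊T ^ (1 / 20 : ℝ)⌋₊ < n → gm (Real.log T) n = 0 := by
  intro n hn
  have h1 := DiagAux.log_gt hT hn
  have hL := DiagAux.log_T hT
  rw [DiagAux.gm_eq, DiagAux.gr_eq_zero (by linarith) (by linarith), Complex.ofReal_zero]

theorem g_bound : ∃ C : ℝ, 1 ≤ C ∧ ∀ T : ℝ, 3 ≤ T → ∀ n : ℕ, ‖gl (Real.log T) n‖ ≤ C ∧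
    ‖gz (Real.log T) n‖ ≤ C ∧ ‖gM (Real.log T) n‖ ≤ C ∧ ‖gm (Real.log T) n‖ ≤ 1 := by
  obtain ⟨C, hC, h⟩ := spl_bound K0 (by norm_num [K0])
  refine ⟨C, hC, fun T hT n => ?_⟩
  have hL := DiagAux.log_T hT
  have hK : (0 : ℝ) < (K0 : ℝ) := by norm_num [K0]
  refine ⟨?_, ?_, ?_, ?_⟩
  · rw [gl, Complex.norm_real, Real.norm_eq_abs]
    exact h _ _ _ (by positivity)
  · rw [gz, Complex.norm_real, Real.norm_eq_abs]
    exact h _ _ _ (by positivity)
  · rw [gM, Complex.norm_real, Real.norm_eq_abs]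
    exact h _ _ _ (by positivity)
  · rw [DiagAux.gm_eq, Complex.norm_real, Real.norm_eq_abs,
      abs_of_nonneg (DiagAux.gr_nonneg _ _)]
    exact DiagAux.gr_le_one (by linarith) n

end Pool.Agent.P4f18dfS
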