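import Pool.Agent.Lib.P4a7640.Mertens

/-!
# A sum over primes

Available on main: `Pool.Agent.Lib.P4a7640.sum_log_div_le : ∑_{p ≤ n} log p / p ≤ log n + log 4` (`n ≥ 1`),
`sum_inv_primes_le : ∑_{p ≤ n} 1/p ≤ log log n + 6` (`n ≥ 3`), `sum_inv_aux` (induction giving partial summation).

PROOF of `prime_tail`: the same induction on `N` (starting at `N = y`) as in `sum_inv_aux`, started at `y ≥ 2`:
`∑_{y < p ≤ N} 1/p ≤ (∑_{y < p ≤ N} log p/p)/log N + log log N - log log y + (log 4 + log y)(1/log y - 1/log N)`?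
Simplest: with `A(n) = ∑_{p ≤ n} log p/p ≤ log n + log 4` one has, by induction on `N ≥ y`,
`∑_{y < p ≤ N} 1/p ≤ A(N)/log N - A(y)/log y + log log N - log log y + log 4 (1/log y - 1/log N)` (the step is literally
the `key` step of `sum_inv_aux`), and then `A(N)/log N ≤ 1 + log 4/log N`, `A(y) ≥ 0`, `log 4/log y ≤ 2`.

PROOF of `prime_sum`: if `δ log N ≤ 1`: `∑ δ log p/p ≤ δ (log N + log 4) ≤ 3` (if `N ≥ 2`). If `δ ≥ 1` (or `1/δ < log 2`):
`∑ 2/p ≤ 2 (log log N + 6) ≤ 2 log(1 + δ log N) + C` (`N ≥ 3`; `N = 2` trivially), since `δ ≥ 1` gives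
`log N ≤ δ log N` (for `log 2 ≤ ... `: `1/δ < log 2` gives `log N ≤ 2 δ log N`). Otherwise let `y = ⌊exp(1/δ)⌋`, `2 ≤ y ≤ N`:
`∑_{p ≤ y} δ log p / p ≤ δ (1/δ + log 4) ≤ C` and `∑_{y < p ≤ N} 2/p ≤ 2 (log (log N/log y) + 3)`, `log y ≥ 1/(2 δ)`
(as `y ≥ exp(1/δ) - 1 ≥ exp(1/(2δ))` if `1/δ ≥ 2`; if `log 2 ≤ 1/δ < 2` use `log y ≥ log 2 ≥ 1/(4δ)·...` up to a constant).
-/

set_option autoImplicit false

namespace Pool.Agent.P4f18dfS

namespace PrimeAux

/-- Partial summation by induction, started at `y`. -/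
theorem tail_aux (y : ℕ) (hy : 2 ≤ y) (n : ℕ) (hn : y ≤ n) :
    ∑ p ∈ (Nat.primesLE n).filter (fun p => y < p), 1 / (p : ℝ) ≤
      (∑ p ∈ Nat.primesLE n, Real.log p / p) / Real.log n -
        (∑ p ∈ Nat.primesLE y, Real.log p / p) / Real.log y +
        (Real.log (Real.log n) - Real.log (Real.log y)) +
        Real.log 4 * (1 / Real.log y - 1 / Real.log n) := by
  induction n, hn using Nat.le_induction with
  | base =>
    have h0 : (Nat.primesLE y).filter (fun p => y < p) = ∅ := by
      apply Finset.filter_eq_empty_iff.2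
      intro p hp
      have := (Nat.mem_primesLE.1 hp).1
      omega
    rw [h0]
    simp
  | succ n hn ih =>
    have hn' : (2 : ℝ) ≤ n := by exact_mod_cast (by omega : 2 ≤ n)
    have hl : 0 < Real.log n := Real.log_pos (by linarith)
    have hl1 : 0 < Real.log (n + 1 : ℕ) := Real.log_pos (by push_cast; linarith)
    have hle : Real.log n ≤ Real.log (n + 1 : ℕ) := by
      apply Real.log_le_log (by linarith)
      push_cast; linarith
    have hA := Pool.Agent.Lib.P4a7640.sum_log_div_le n (by omega)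
    set A := ∑ p ∈ Nat.primesLE n, Real.log p / p with hAdef
    set B := (∑ p ∈ Nat.primesLE y, Real.log p / p) / Real.log y
    have key : A / Real.log n - B + (Real.log (Real.log n) - Real.log (Real.log y)) +
        Real.log 4 * (1 / Real.log y - 1 / Real.log n) ≤
        A / Real.log (n + 1 : ℕ) - B + (Real.log (Real.log (n + 1 : ℕ)) - Real.log (Real.log y)) +
        Real.log 4 * (1 / Real.log y - 1 / Real.log (n + 1 : ℕ)) := by
      have h1 : 1 - Real.log n / Real.log (n + 1 : ℕ) ≤
          Real.log (Real.log (n + 1 : ℕ)) - Real.log (Real.log n) := by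
        rw [← Real.log_div hl1.ne' hl.ne']
        have := Real.one_sub_inv_le_log_of_pos (x := Real.log (n + 1 : ℕ) / Real.log n) (by positivity)
        rwa [inv_div] at this
      have h2 : (A - Real.log 4) * (1 / Real.log n - 1 / Real.log (n + 1 : ℕ)) ≤
          Real.log n * (1 / Real.log n - 1 / Real.log (n + 1 : ℕ)) := by
        apply mul_le_mul_of_nonneg_right (by linarith)
        have := one_div_le_one_div_of_le hl hle
        linarith
      have h3 : Real.log n * (1 / Real.log n - 1 / Real.log (n + 1 : ℕ)) =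
          1 - Real.log n / Real.log (n + 1 : ℕ) := by
        field_simp
      have e1 : A / Real.log n = A * (1 / Real.log n) := by ring
      have e2 : A / Real.log (n + 1 : ℕ) = A * (1 / Real.log (n + 1 : ℕ)) := by ring
      rw [e1, e2]
      nlinarith [h1, h2, h3]
    by_cases hp : (n + 1).Prime
    · have hins : Nat.primesLE (n + 1) = insert (n + 1) (Nat.primesLE n) := by
        ext q
        simp only [Nat.mem_primesLE, Finset.mem_insert]
        constructor
        · rintro ⟨h1, h2⟩
          rcases Nat.lt_or_ge n q with h | h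
          · left; omega
          · right; exact ⟨h, h2⟩
        · rintro (rfl | ⟨h1, h2⟩)
          · exact ⟨le_refl _, hp⟩
          · exact ⟨by omega, h2⟩
      have hnot : n + 1 ∉ Nat.primesLE n := by
        simp [Nat.mem_primesLE]
      have hnot' : n + 1 ∉ (Nat.primesLE n).filter (fun p => y < p) := fun h =>
        hnot (Finset.mem_filter.1 h).1
      rw [hins, Finset.filter_insert, if_pos (by omega : y < n + 1),
        Finset.sum_insert hnot, Finset.sum_insert hnot', ← hAdef]
      have e3 : (Real.log ((n + 1 : ℕ) : ℝ) / ((n + 1 : ℕ) : ℝ) + A) / Real.log ((n + 1 : ℕ) : ℝ) =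
          1 / ((n + 1 : ℕ) : ℝ) + A / Real.log ((n + 1 : ℕ) : ℝ) := by
        have : ((n + 1 : ℕ) : ℝ) ≠ 0 := by positivity
        field_simp
      rw [e3]
      linarith
    · have hsame : Nat.primesLE (n + 1) = Nat.primesLE n := by
        ext q
        simp only [Nat.mem_primesLE]
        constructor
        · rintro ⟨h1, h2⟩
          refine ⟨?_, h2⟩
          rcases Nat.lt_or_ge n q with h | h
          · exfalso; apply hp
            have : q = n + 1 := by omega
            rwa [this] at h2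
          · exact h
        · rintro ⟨h1, h2⟩
          exact ⟨by omega, h2⟩
      rw [hsame, ← hAdef]
      linarith

theorem log_four : Real.log 4 = 2 * Real.log 2 := by
  have : (4 : ℝ) = 2 ^ 2 := by norm_num
  rw [this, Real.log_pow]; norm_num

theorem term_nonneg {y : ℕ} : ∀ p ∈ Nat.primesLE y, (0 : ℝ) ≤ Real.log p / p := by
  intro p hp
  have hp1 := Nat.two_le_of_mem_primesLE hp
  have hp2 : (1 : ℝ) ≤ p := by exact_mod_cast (by omega : 1 ≤ p)
  exact div_nonneg (Real.log_nonneg hp2) (by linarith)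

end PrimeAux

open PrimeAux in
theorem prime_tail (y N : ℕ) (hy : 2 ≤ y) (hyN : y ≤ N) :
    ∑ p ∈ (Nat.primesLE N).filter (fun p => y < p), 1 / (p : ℝ) ≤
      Real.log (Real.log N / Real.log y) + 3 := by
  have h := tail_aux y hy N hyN
  have hA := Pool.Agent.Lib.P4a7640.sum_log_div_le N (by omega)
  have hy' : (2 : ℝ) ≤ y := by exact_mod_cast hy
  have hN' : (2 : ℝ) ≤ N := by exact_mod_cast (by omega : 2 ≤ N)
  have hly : 0 < Real.log y := Real.log_pos (by linarith)
  have hl : 0 < Real.log N := Real.log_pos (by linarith)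
  have hly2 : Real.log 2 ≤ Real.log y := Real.log_le_log (by norm_num) hy'
  have hB : 0 ≤ (∑ p ∈ Nat.primesLE y, Real.log p / p) / Real.log y :=
    div_nonneg (Finset.sum_nonneg term_nonneg) hly.le
  have h5 : (∑ p ∈ Nat.primesLE N, Real.log p / p) / Real.log N ≤ 1 + Real.log 4 / Real.log N := by
    rw [div_le_iff₀ hl]
    have : (1 + Real.log 4 / Real.log N) * Real.log N = Real.log N + Real.log 4 := by
      field_simp
    rw [this]; exact hA
  have h6 : Real.log 4 * (1 / Real.log y - 1 / Real.log N) ≤ 2 - Real.log 4 / Real.log N := by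
    have h7 : Real.log 4 * (1 / Real.log y) ≤ 2 := by
      rw [mul_one_div, div_le_iff₀ hly, log_four]
      linarith
    have h8 : Real.log 4 * (1 / Real.log y - 1 / Real.log N) =
      Real.log 4 * (1 / Real.log y) - Real.log 4 / Real.log N := by ring
    rw [h8]
    linarith
  rw [Real.log_div hl.ne' hly.ne']
  linarith

open PrimeAux in
/-- `∑_{p ≤ N} min(2, δ log p)/p ≤ 2 log(1 + δ log N) + C`. -/
theorem prime_sum : ∃ C : ℝ, 0 ≤ C ∧ ∀ N : ℕ, 2 ≤ N → ∀ δ : ℝ, 0 ≤ δ →
    ∑ p ∈ Nat.primesLE N, min 2 (δ * Real.log p) / (p : ℝ) ≤ 2 * Real.log (1 + δ * Real.log N) + C := by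
  refine ⟨20, by norm_num, ?_⟩
  intro N hN δ hδ
  have hN' : (2 : ℝ) ≤ N := by exact_mod_cast hN
  have hl : 0 < Real.log N := Real.log_pos (by linarith)
  have hl2 : Real.log 2 ≤ Real.log N := Real.log_le_log (by norm_num) hN'
  have hlog2' : Real.log 2 < 0.6931471808 := Real.log_two_lt_d9
  have hlog2 : 0.6931471803 < Real.log 2 := Real.log_two_gt_d9
  have hpos : 0 ≤ Real.log (1 + δ * Real.log N) := by
    apply Real.log_nonneg
    have := mul_nonneg hδ hl.le
    linarith
  have hppos : ∀ M : ℕ, ∀ p ∈ Nat.primesLE M, (0 : ℝ) < p := by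
    intro M p hp
    have hp1 := Nat.two_le_of_mem_primesLE hp
    exact_mod_cast (by omega : 0 < p)
  -- the bound by `δ log p`
  have hb1 : ∀ M : ℕ, 1 ≤ M → ∑ p ∈ Nat.primesLE M, min 2 (δ * Real.log p) / (p : ℝ) ≤
      δ * (Real.log M + Real.log 4) := by
    intro M hM
    calc ∑ p ∈ Nat.primesLE M, min 2 (δ * Real.log p) / (p : ℝ)
        ≤ ∑ p ∈ Nat.primesLE M, δ * (Real.log p / p) := by
          refine Finset.sum_le_sum fun p hp => ?_
          rw [← mul_div_assoc]
          exact div_le_div_of_nonneg_right (min_le_right _ _) (hppos M p hp).le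
      _ = δ * ∑ p ∈ Nat.primesLE M, Real.log p / p := by rw [Finset.mul_sum]
      _ ≤ _ := mul_le_mul_of_nonneg_left (Pool.Agent.Lib.P4a7640.sum_log_div_le M hM) hδ
  -- the bound by `2`
  have hb2 : ∀ p ∈ Nat.primesLE N, min 2 (δ * Real.log p) / (p : ℝ) ≤ 2 * (1 / p) := by
    intro p hp
    rw [mul_one_div]
    exact div_le_div_of_nonneg_right (min_le_left _ _) (hppos N p hp).le
  by_cases hc1 : δ * Real.log N ≤ 1
  · have h1 := hb1 N (by omega)
    have h2 : δ * (Real.log N + Real.log 4) ≤ 3 * (δ * Real.log N) := by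
      rw [log_four]
      nlinarith [mul_le_mul_of_nonneg_left hl2 hδ]
    linarith
  push Not at hc1
  by_cases hc2 : 1 / 2 ≤ δ
  · by_cases hN3 : 3 ≤ N
    · have h1 : ∑ p ∈ Nat.primesLE N, min 2 (δ * Real.log p) / (p : ℝ) ≤
          2 * ∑ p ∈ Nat.primesLE N, 1 / (p : ℝ) := by
        rw [Finset.mul_sum]
        exact Finset.sum_le_sum hb2
      have h2 := Pool.Agent.Lib.P4a7640.sum_inv_primes_le N hN3
      have h3 : Real.log (Real.log N) ≤ Real.log 2 + Real.log (1 + δ * Real.log N) := by
        rw [← Real.log_mul (by norm_num) (by positivity)]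
        apply Real.log_le_log hl
        nlinarith
      linarith
    · have hN2 : N = 2 := by omega
      subst hN2
      have h2 : Nat.primesLE 2 = {2} := by decide
      have h3 := hb2 2 (by rw [h2]; simp)
      rw [h2, Finset.sum_singleton]
      push_cast at h3 ⊢
      have h4 : (2 : ℝ) * (1 / 2) = 1 := by norm_num
      rw [h4] at h3
      push_cast at hpos
      linarith
  push Not at hc2
  have hδ0 : 0 < δ := by
    by_contra h
    have h0 : δ = 0 := le_antisymm (not_lt.1 h) hδ
    rw [h0, zero_mul] at hc1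
    linarith
  set u := Real.exp (1 / (2 * δ)) with hu
  have hu1 : 2 < u := by
    have h1 : (1 : ℝ) < 1 / (2 * δ) := by
      rw [lt_div_iff₀ (by positivity)]
      linarith
    have h2 := Real.add_one_le_exp (1 / (2 * δ))
    rw [hu]
    linarith
  have huu : Real.exp (1 / δ) = u * u := by
    rw [hu, ← Real.exp_add]
    congr 1
    field_simp
    ring
  set y := ⌊Real.exp (1 / δ)⌋₊ with hy
  have hy1 : Real.exp (1 / δ) < y + 1 := Nat.lt_floor_add_one _
  have hy2 : (y : ℝ) ≤ Real.exp (1 / δ) := Nat.floor_le (Real.exp_pos _).le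
  have hyu : u ≤ y := by
    rw [huu] at hy1
    nlinarith
  have hyge : 2 ≤ y := by
    have : (2 : ℝ) < y := by linarith
    have : 2 < y := by exact_mod_cast this
    omega
  have hyN : y ≤ N := by
    have h1 : Real.exp (1 / δ) ≤ N := by
      have h2 : 1 / δ ≤ Real.log N := by
        rw [div_le_iff₀ hδ0]
        linarith
      calc Real.exp (1 / δ) ≤ Real.exp (Real.log N) := Real.exp_le_exp.2 h2
        _ = N := Real.exp_log (by linarith)
    have h3 : (y : ℝ) ≤ N := hy2.trans h1
    exact_mod_cast h3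
  have hy0 : (0 : ℝ) < y := by linarith
  have hly : 1 / (2 * δ) ≤ Real.log y := by
    have := Real.log_le_log (by linarith) hyu
    rwa [hu, Real.log_exp] at this
  have hly' : Real.log y ≤ 1 / δ := by
    have := Real.log_le_log hy0 hy2
    rwa [Real.log_exp] at this
  have hsplit : ∑ p ∈ Nat.primesLE N, min 2 (δ * Real.log p) / (p : ℝ) =
      ∑ p ∈ Nat.primesLE y, min 2 (δ * Real.log p) / (p : ℝ) +
      ∑ p ∈ (Nat.primesLE N).filter (fun p => y < p), min 2 (δ * Real.log p) / (p : ℝ) := by
    rw [← Finset.sum_filter_not_add_sum_filter (Nat.primesLE N) (fun p => y < p)]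
    congr 1
    refine Finset.sum_congr ?_ fun _ _ => rfl
    ext p
    simp only [Finset.mem_filter, Nat.mem_primesLE]
    constructor
    · rintro ⟨⟨h1, h2⟩, h3⟩
      exact ⟨by omega, h2⟩
    · rintro ⟨h1, h2⟩
      exact ⟨⟨by omega, h2⟩, by omega⟩
  have h1 := hb1 y (by omega)
  have h2 : ∑ p ∈ (Nat.primesLE N).filter (fun p => y < p), min 2 (δ * Real.log p) / (p : ℝ) ≤
      2 * ∑ p ∈ (Nat.primesLE N).filter (fun p => y < p), 1 / (p : ℝ) := by
    rw [Finset.mul_sum]
    exact Finset.sum_le_sum fun p hp => hb2 p (Finset.mem_filter.1 hp).1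
  have h3 := prime_tail y N hyge hyN
  have h4 : δ * (Real.log y + Real.log 4) ≤ 2 := by
    have h5 : δ * Real.log y ≤ 1 := by
      have := mul_le_mul_of_nonneg_left hly' hδ0.le
      rwa [mul_one_div_cancel hδ0.ne'] at this
    have h6 : δ * Real.log 4 ≤ 1 := by
      rw [log_four]
      nlinarith
    linarith
  have h5 : Real.log (Real.log N / Real.log y) ≤ Real.log 2 + Real.log (1 + δ * Real.log N) := by
    have hly0 : 0 < Real.log y := lt_of_lt_of_le (by positivity) hly
    rw [← Real.log_mul (by norm_num) (by positivity)]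
    apply Real.log_le_log (by positivity)
    rw [div_le_iff₀ hly0]
    have h6 : 1 ≤ 2 * δ * Real.log y := by
      have := mul_le_mul_of_nonneg_left hly (by positivity : (0 : ℝ) ≤ 2 * δ)
      rwa [mul_one_div_cancel (by positivity)] at this
    nlinarith
  rw [hsplit]
  linarith

end Pool.Agent.P4f18dfS
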