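import Pool.Agent.Lib.P4f18dfS.Defs
import Pool.Agent.Lib.P4f18dfS.Prime

/-!
# The mean square of the coefficients of `ζ(s - w0)/(ζ(s - w1) ζ(s - w2))`

`tw 1 w0` is `n ↦ n^{w0}`, `mt (n ↦ n^{w})` is `n ↦ μ(n) n^w`, `f = tw 1 w0 * mt w1 * mt w2` (Dirichlet convolution).

`f` is multiplicative; with `κ = min 2 (‖w0 - w1‖ log p)` one has `‖f(p)‖ ≤ 1 + κ`, `‖f(p^j)‖ ≤ 2 κ ≤ 4` for `j ≥ 2`, and the
Euler product over the primes `≤ N` bounds the sum.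
-/

set_option autoImplicit false

open Complex

namespace Pool.Agent.P4f18dfS

namespace EulerAux

lemma mult_tw (w : ℂ) : (tw (fun _ => 1) w).IsMultiplicative := by
  rw [ArithmeticFunction.IsMultiplicative.iff_ne_zero]
  constructor
  · simp [tw]
  · intro m n hm hn _
    simp only [tw, ArithmeticFunction.coe_mk, if_neg hm, if_neg hn, if_neg (Nat.mul_ne_zero hm hn),
      one_mul]
    rw [Nat.cast_mul, natCast_mul_natCast_cpow]

lemma mult_mt (w : ℂ) : (mt (fun n => (n : ℂ) ^ w)).IsMultiplicative := by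
  rw [ArithmeticFunction.IsMultiplicative.iff_ne_zero]
  constructor
  · simp [mt]
  · intro m n hm hn h
    simp only [mt, ArithmeticFunction.coe_mk]
    rw [Nat.cast_mul, natCast_mul_natCast_cpow,
      ArithmeticFunction.isMultiplicative_moebius.map_mul_of_coprime h]
    push_cast
    ring

/-- convolution with `μ g` at a prime power -/
lemma conv_mt (a : ArithmeticFunction ℂ) (g : ℕ → ℂ) (hg : g 1 = 1) {p : ℕ} (hp : p.Prime)
    (j : ℕ) : (a * mt g) (p ^ (j + 1)) = a (p ^ (j + 1)) - a (p ^ j) * g p := by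
  rw [ArithmeticFunction.mul_apply,
    Nat.sum_divisorsAntidiagonal' (fun x y => a x * (mt g) y), Nat.sum_divisors_prime_pow hp]
  rw [Finset.sum_range_succ', Finset.sum_range_succ']
  have h1 : ∑ i ∈ Finset.range j, a (p ^ (j + 1) / p ^ (i + 1 + 1)) * (mt g) (p ^ (i + 1 + 1)) =
      0 := by
    refine Finset.sum_eq_zero fun i _ => ?_
    have h2 : (mt g) (p ^ (i + 1 + 1)) = 0 := by
      simp only [mt, ArithmeticFunction.coe_mk]
      rw [ArithmeticFunction.moebius_apply_prime_pow hp (by omega), if_neg (by omega)]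
      simp
    rw [h2, mul_zero]
  rw [h1]
  have h3 : (mt g) (p ^ (0 + 1)) = - g p := by
    simp only [mt, ArithmeticFunction.coe_mk]
    rw [ArithmeticFunction.moebius_apply_prime_pow hp (by omega), if_pos (by omega)]
    simp
  have h4 : (mt g) (p ^ 0) = 1 := by
    simp [mt, hg]
  have h5 : p ^ (j + 1) / p ^ (0 + 1) = p ^ j := by
    rw [zero_add, pow_one, pow_succ, Nat.mul_div_cancel _ hp.pos]
  rw [h3, h4, h5, pow_zero, Nat.div_one]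
  ring

lemma norm_exp_sub_le {z w : ℂ} (hz : z.re ≤ 0) (hw : w.re ≤ 0) :
    ‖cexp z - cexp w‖ ≤ ‖z - w‖ := by
  have h := Convex.norm_image_sub_le_of_norm_deriv_le (𝕜 := ℂ) (f := cexp)
    (s := {c : ℂ | c.re ≤ 0}) (x := w) (y := z) (C := 1)
    (fun x _ => Complex.differentiableAt_exp) (fun x hx => by
      rw [Complex.deriv_exp, Complex.norm_exp]
      exact Real.exp_le_one_iff.mpr hx) (convex_halfSpace_re_le 0) hw hz
  simpa using h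

/-- the quantity `min 2 (δ log p)` -/
noncomputable def ka (δ : ℝ) (p : ℕ) : ℝ := min 2 (δ * Real.log p)

lemma ka_nonneg {δ : ℝ} (hδ : 0 ≤ δ) (p : ℕ) : 0 ≤ ka δ p :=
  le_min (by norm_num) (mul_nonneg hδ (Real.log_natCast_nonneg p))

lemma ka_le_two (δ : ℝ) (p : ℕ) : ka δ p ≤ 2 := min_le_left _ _

lemma norm_cpow_le_one {n : ℕ} (hn : 1 ≤ n) {w : ℂ} (hw : w.re ≤ 0) : ‖(n : ℂ) ^ w‖ ≤ 1 := by
  rw [norm_natCast_cpow_of_pos (by omega)]
  exact Real.rpow_le_one_of_one_le_of_nonpos (by exact_mod_cast hn) hw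

lemma norm_cpow_sub_le {p : ℕ} (hp : p.Prime) {w0 w1 : ℂ} (h0 : w0.re ≤ 0) (h1 : w1.re ≤ 0) :
    ‖(p : ℂ) ^ w0 - (p : ℂ) ^ w1‖ ≤ ka ‖w0 - w1‖ p := by
  apply le_min
  · refine (norm_sub_le _ _).trans ?_
    linarith [norm_cpow_le_one hp.one_le h0, norm_cpow_le_one hp.one_le h1]
  · have hp0 : (p : ℂ) ≠ 0 := by exact_mod_cast hp.ne_zero
    have hlog : (0:ℝ) ≤ Real.log p := Real.log_natCast_nonneg p
    rw [Complex.cpow_def_of_ne_zero hp0, Complex.cpow_def_of_ne_zero hp0, ← Complex.natCast_log]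
    refine (norm_exp_sub_le ?_ ?_).trans ?_
    · rw [Complex.re_ofReal_mul]
      exact mul_nonpos_of_nonneg_of_nonpos hlog h0
    · rw [Complex.re_ofReal_mul]
      exact mul_nonpos_of_nonneg_of_nonpos hlog h1
    · rw [← mul_sub, norm_mul, Complex.norm_real, Real.norm_eq_abs, abs_of_nonneg hlog, mul_comm]

lemma tw_pow {p : ℕ} (hp : p.Prime) (w : ℂ) (j : ℕ) :
    (tw (fun _ => 1) w) (p ^ j) = ((p ^ j : ℕ) : ℂ) ^ w := by
  simp only [tw, ArithmeticFunction.coe_mk, if_neg (pow_ne_zero j hp.ne_zero), one_mul]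

/-- the first convolution at prime powers -/
lemma norm_h_le {p : ℕ} (hp : p.Prime) {w0 w1 : ℂ} (h0 : w0.re ≤ 0) (h1 : w1.re ≤ 0) (j : ℕ) :
    ‖(tw (fun _ => 1) w0 * mt (fun n => (n : ℂ) ^ w1)) (p ^ (j + 1))‖ ≤ ka ‖w0 - w1‖ p := by
  rw [conv_mt _ _ (by simp) hp, tw_pow hp, tw_pow hp]
  have h2 : ((p ^ (j + 1) : ℕ) : ℂ) ^ w0 - ((p ^ j : ℕ) : ℂ) ^ w0 * (p : ℂ) ^ w1 =
      ((p ^ j : ℕ) : ℂ) ^ w0 * ((p : ℂ) ^ w0 - (p : ℂ) ^ w1) := by
    rw [pow_succ, Nat.cast_mul, natCast_mul_natCast_cpow]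
    ring
  rw [h2, norm_mul]
  have h3 := norm_cpow_le_one (Nat.one_le_pow j p hp.pos) h0
  calc _ ≤ 1 * ‖(p : ℂ) ^ w0 - (p : ℂ) ^ w1‖ :=
        mul_le_mul_of_nonneg_right h3 (norm_nonneg _)
    _ = ‖(p : ℂ) ^ w0 - (p : ℂ) ^ w1‖ := one_mul _
    _ ≤ _ := norm_cpow_sub_le hp h0 h1

/-- the function whose mean square is estimated -/
noncomputable def ff (w0 w1 w2 : ℂ) : ArithmeticFunction ℂ :=
  tw (fun _ => 1) w0 * mt (fun n => (n : ℂ) ^ w1) * mt (fun n => (n : ℂ) ^ w2)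

lemma mult_ff (w0 w1 w2 : ℂ) : (ff w0 w1 w2).IsMultiplicative :=
  ((mult_tw w0).mul (mult_mt w1)).mul (mult_mt w2)

lemma norm_ff_prime {p : ℕ} (hp : p.Prime) {w0 w1 w2 : ℂ} (h0 : w0.re ≤ 0) (h1 : w1.re ≤ 0)
    (h2 : w2.re ≤ 0) : ‖ff w0 w1 w2 p‖ ≤ 1 + ka ‖w0 - w1‖ p := by
  have h3 := conv_mt (tw (fun _ => 1) w0 * mt (fun n => (n : ℂ) ^ w1))
    (fun n => (n : ℂ) ^ w2) (by simp) hp 0
  rw [zero_add, pow_one, pow_zero, ((mult_tw w0).mul (mult_mt w1)).map_one, one_mul] at h3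
  unfold ff
  rw [h3]
  have h4 := norm_h_le hp h0 h1 0
  rw [zero_add, pow_one] at h4
  refine (norm_sub_le _ _).trans ?_
  linarith [norm_cpow_le_one hp.one_le h2]

lemma norm_ff_pow {p : ℕ} (hp : p.Prime) {w0 w1 w2 : ℂ} (h0 : w0.re ≤ 0) (h1 : w1.re ≤ 0)
    (h2 : w2.re ≤ 0) (j : ℕ) : ‖ff w0 w1 w2 (p ^ (j + 2))‖ ≤ 4 := by
  unfold ff
  rw [conv_mt _ _ (by simp) hp (j + 1)]
  have h3 := norm_h_le hp h0 h1 (j + 1)
  have h4 := norm_h_le hp h0 h1 j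
  have h5 := norm_cpow_le_one hp.one_le h2
  have h6 := ka_le_two ‖w0 - w1‖ p
  refine (norm_sub_le _ _).trans ?_
  rw [norm_mul]
  have h7 : ‖(tw (fun _ => 1) w0 * mt (fun n => (n : ℂ) ^ w1)) (p ^ (j + 1))‖ *
      ‖(p : ℂ) ^ w2‖ ≤ 2 * 1 :=
    mul_le_mul (h4.trans h6) h5 (norm_nonneg _) (by norm_num)
  linarith

/-- the summand -/
noncomputable def gg (w0 w1 w2 : ℂ) (n : ℕ) : ℝ := ‖ff w0 w1 w2 n‖ ^ 2 / (n : ℝ)

lemma gg_nonneg (w0 w1 w2 : ℂ) (n : ℕ) : 0 ≤ gg w0 w1 w2 n := by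
  unfold gg
  positivity

lemma gg_one (w0 w1 w2 : ℂ) : gg w0 w1 w2 1 = 1 := by
  unfold gg
  rw [(mult_ff w0 w1 w2).map_one]
  simp

lemma gg_mul (w0 w1 w2 : ℂ) {m n : ℕ} (h : m.Coprime n) :
    gg w0 w1 w2 (m * n) = gg w0 w1 w2 m * gg w0 w1 w2 n := by
  unfold gg
  rw [(mult_ff w0 w1 w2).map_mul_of_coprime h, norm_mul, Nat.cast_mul, mul_pow]
  ring

lemma gg_pow_le {p : ℕ} (hp : p.Prime) {w0 w1 w2 : ℂ} (h0 : w0.re ≤ 0) (h1 : w1.re ≤ 0)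
    (h2 : w2.re ≤ 0) (j : ℕ) :
    gg w0 w1 w2 (p ^ (j + 2)) ≤ 16 / (p:ℝ) ^ 2 * (1 / (p:ℝ)) ^ j := by
  unfold gg
  have h3 := norm_ff_pow hp h0 h1 h2 j
  have hp0 : (0:ℝ) < p := by exact_mod_cast hp.pos
  have h4 : ‖ff w0 w1 w2 (p ^ (j + 2))‖ ^ 2 ≤ 16 := by
    have := pow_le_pow_left₀ (norm_nonneg _) h3 2
    linarith
  calc ‖ff w0 w1 w2 (p ^ (j + 2))‖ ^ 2 / ((p ^ (j + 2) : ℕ) : ℝ) ≤ 16 / ((p ^ (j + 2) : ℕ) : ℝ) := by
        gcongr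
    _ = _ := by
        push_cast
        rw [one_div, inv_pow, pow_add]
        field_simp

lemma summable_gg {p : ℕ} (hp : p.Prime) {w0 w1 w2 : ℂ} (h0 : w0.re ≤ 0) (h1 : w1.re ≤ 0)
    (h2 : w2.re ≤ 0) : Summable fun n => gg w0 w1 w2 (p ^ n) := by
  rw [← summable_nat_add_iff 2]
  have hp2 : (2:ℝ) ≤ p := by exact_mod_cast hp.two_le
  have hgeo : Summable fun j : ℕ => 16 / (p:ℝ) ^ 2 * (1 / (p:ℝ)) ^ j := by
    apply Summable.mul_left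
    apply summable_geometric_of_lt_one (by positivity)
    rw [div_lt_one (by linarith)]
    linarith
  exact Summable.of_nonneg_of_le (fun j => gg_nonneg _ _ _ _)
    (fun j => gg_pow_le hp h0 h1 h2 j) hgeo

lemma tsum_gg_le {p : ℕ} (hp : p.Prime) {w0 w1 w2 : ℂ} (h0 : w0.re ≤ 0) (h1 : w1.re ≤ 0)
    (h2 : w2.re ≤ 0) :
    ∑' n, gg w0 w1 w2 (p ^ n) ≤
      Real.exp (1 / (p:ℝ) + 4 * (ka ‖w0 - w1‖ p / p) + 32 * (1 / (p:ℝ) ^ 2)) := by
  have hp2 : (2:ℝ) ≤ p := by exact_mod_cast hp.two_le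
  have hp0 : (0:ℝ) < p := by linarith
  rw [← (summable_gg hp h0 h1 h2).sum_add_tsum_nat_add 2]
  rw [Finset.sum_range_succ, Finset.sum_range_one, pow_zero, pow_one, gg_one]
  have hgeo : Summable fun j : ℕ => 16 / (p:ℝ) ^ 2 * (1 / (p:ℝ)) ^ j := by
    apply Summable.mul_left
    apply summable_geometric_of_lt_one (by positivity)
    rw [div_lt_one (by linarith)]
    linarith
  have h3 : ∑' j, gg w0 w1 w2 (p ^ (j + 2)) ≤ 32 * (1 / (p:ℝ) ^ 2) := by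
    have h4 : ∑' j, gg w0 w1 w2 (p ^ (j + 2)) ≤ ∑' j : ℕ, 16 / (p:ℝ) ^ 2 * (1 / (p:ℝ)) ^ j := by
      apply Summable.tsum_le_tsum (fun j => gg_pow_le hp h0 h1 h2 j)
      · exact (summable_nat_add_iff 2).mpr (summable_gg hp h0 h1 h2)
      · exact hgeo
    refine h4.trans ?_
    rw [tsum_mul_left, tsum_geometric_of_lt_one (by positivity)
      (by rw [div_lt_one (by linarith)]; linarith)]
    have h5 : (1 - 1 / (p:ℝ))⁻¹ ≤ 2 := by
      rw [inv_le_comm₀ _ (by norm_num)]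
      · have : 1 / (p:ℝ) ≤ 1 / 2 := one_div_le_one_div_of_le (by norm_num) hp2
        linarith
      · have : 1 / (p:ℝ) ≤ 1 / 2 := one_div_le_one_div_of_le (by norm_num) hp2
        linarith
    calc 16 / (p:ℝ) ^ 2 * (1 - 1 / (p:ℝ))⁻¹ ≤ 16 / (p:ℝ) ^ 2 * 2 :=
          mul_le_mul_of_nonneg_left h5 (by positivity)
      _ = _ := by ring
  have h6 : gg w0 w1 w2 p ≤ 1 / (p:ℝ) + 4 * (ka ‖w0 - w1‖ p / p) := by
    unfold gg
    have h7 := norm_ff_prime hp h0 h1 h2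
    have h8 := ka_nonneg (norm_nonneg (w0 - w1)) p
    have h9 := ka_le_two ‖w0 - w1‖ p
    have h10 : ‖ff w0 w1 w2 p‖ ^ 2 ≤ 1 + 4 * ka ‖w0 - w1‖ p := by
      have := pow_le_pow_left₀ (norm_nonneg _) h7 2
      nlinarith
    calc ‖ff w0 w1 w2 p‖ ^ 2 / (p:ℝ) ≤ (1 + 4 * ka ‖w0 - w1‖ p) / (p:ℝ) := by gcongr
      _ = _ := by ring
  have h11 := Real.add_one_le_exp (1 / (p:ℝ) + 4 * (ka ‖w0 - w1‖ p / p) + 32 * (1 / (p:ℝ) ^ 2))
  linarith

lemma sum_inv_sq_primes_le (N : ℕ) : ∑ p ∈ Nat.primesLE N, 1 / (p:ℝ) ^ 2 ≤ 2 := by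
  have h1 : ∑ p ∈ Nat.primesLE N, 1 / (p:ℝ) ^ 2 ≤ ∑ p ∈ Finset.Ioc 1 (N + 1), 1 / (p:ℝ) ^ 2 := by
    refine Finset.sum_le_sum_of_subset_of_nonneg ?_ fun p _ _ => by positivity
    intro p hp
    rw [Finset.mem_Ioc]
    exact ⟨Nat.one_lt_of_mem_primesLE hp, (Nat.le_of_mem_primesLE hp).trans (Nat.le_succ _)⟩
  refine h1.trans ?_
  have h2 := sum_Ioc_inv_sq_le_sub (α := ℝ) one_ne_zero (show 1 ≤ N + 1 by omega)
  have h3 : ∑ p ∈ Finset.Ioc 1 (N + 1), 1 / (p:ℝ) ^ 2 = ∑ p ∈ Finset.Ioc 1 (N + 1), ((p:ℝ) ^ 2)⁻¹ :=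
    Finset.sum_congr rfl fun p _ => one_div _
  rw [h3]
  refine h2.trans ?_
  have : (0:ℝ) ≤ ((N + 1 : ℕ):ℝ)⁻¹ := by positivity
  push_cast at this ⊢
  rw [inv_one]
  linarith

lemma sum_inv_primes_le' (N : ℕ) (hN : 1 ≤ N) :
    ∑ p ∈ Nat.primesLE N, 1 / (p:ℝ) ≤ Real.log (1 + Real.log N) + 6 := by
  have hlog : 0 ≤ Real.log N := Real.log_natCast_nonneg N
  have hlog2 : 0 ≤ Real.log (1 + Real.log N) := Real.log_nonneg (by linarith)
  by_cases h3 : 3 ≤ N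
  · refine (Pool.Agent.Lib.P4a7640.sum_inv_primes_le N h3).trans ?_
    have h4 : 0 < Real.log N := Real.log_pos (by
      have : (3:ℝ) ≤ N := by exact_mod_cast h3
      linarith)
    have := Real.log_le_log h4 (show Real.log N ≤ 1 + Real.log N by linarith)
    linarith
  · have h5 : ∑ p ∈ Nat.primesLE N, 1 / (p:ℝ) ≤ ∑ p ∈ Finset.Icc (1:ℕ) 2, 1 / (p:ℝ) := by
      refine Finset.sum_le_sum_of_subset_of_nonneg ?_ fun p _ _ => by positivity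
      intro p hp
      rw [Finset.mem_Icc]
      exact ⟨(Nat.one_lt_of_mem_primesLE hp).le, (Nat.le_of_mem_primesLE hp).trans (by omega)⟩
    have h6 : ∑ p ∈ Finset.Icc (1:ℕ) 2, 1 / (p:ℝ) ≤ 6 := by
      rw [show Finset.Icc (1:ℕ) 2 = ({1, 2} : Finset ℕ) from rfl]
      rw [Finset.sum_pair (by norm_num)]
      norm_num
    linarith

lemma sum_le_prod (N : ℕ) {w0 w1 w2 : ℂ} (h0 : w0.re ≤ 0) (h1 : w1.re ≤ 0) (h2 : w2.re ≤ 0) :
    ∑ n ∈ Finset.Icc 1 N, gg w0 w1 w2 n ≤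
      ∏ p ∈ Nat.primesLE N, ∑' n, gg w0 w1 w2 (p ^ n) := by
  classical
  have h := (EulerProduct.summable_and_hasSum_smoothNumbers_prod_primesBelow_tsum
    (f := gg w0 w1 w2) (gg_one w0 w1 w2) (fun h => gg_mul w0 w1 w2 h) (fun hp => by
      have := summable_gg hp h0 h1 h2
      exact this.abs) (N + 1)).2
  have hmem : ∀ n ∈ Finset.Icc 1 N, n ∈ Nat.smoothNumbers (N + 1) := by
    intro n hn
    rw [Finset.mem_Icc] at hn
    exact Nat.mem_smoothNumbers_of_lt (by omega) (by omega)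
  have h3 := sum_le_hasSum (Finset.subtype (fun n => n ∈ Nat.smoothNumbers (N + 1))
    (Finset.Icc 1 N)) (fun i _ => gg_nonneg w0 w1 w2 i) h
  rw [Finset.sum_subtype_of_mem (gg w0 w1 w2) hmem] at h3
  exact h3

end EulerAux

open EulerAux

theorem euler_bound : ∃ C : ℝ, 0 < C ∧ ∀ N : ℕ, 1 ≤ N → ∀ w0 w1 w2 : ℂ, w0.re ≤ 0 → w1.re ≤ 0 → w2.re ≤ 0 →
    ∑ n ∈ Finset.Icc 1 N,
      ‖(tw (fun _ => 1) w0 * mt (fun n => (n : ℂ) ^ w1) * mt (fun n => (n : ℂ) ^ w2)) n‖ ^ 2 / (n : ℝ) ≤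
      C * (1 + Real.log N) * (1 + Real.log N * ‖w0 - w1‖) ^ 8 := by
  obtain ⟨C0, hC0, hsum⟩ := prime_sum
  refine ⟨Real.exp (70 + 4 * C0), Real.exp_pos _, ?_⟩
  intro N hN w0 w1 w2 h0 h1 h2
  set δ := ‖w0 - w1‖ with hδ
  have hδ0 : 0 ≤ δ := norm_nonneg _
  have hlog : 0 ≤ Real.log N := Real.log_natCast_nonneg N
  have hS2 : ∑ p ∈ Nat.primesLE N, ka δ p / (p : ℝ) ≤ 2 * Real.log (1 + δ * Real.log N) + C0 := by
    by_cases hN2 : 2 ≤ N
    · exact hsum N hN2 δ hδ0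
    · have : N = 1 := by omega
      rw [this, Nat.primesLE_one, Finset.sum_empty]
      simp
      exact hC0
  have hS1 := sum_inv_primes_le' N hN
  have hS3 := sum_inv_sq_primes_le N
  have hprod : ∏ p ∈ Nat.primesLE N, ∑' n, gg w0 w1 w2 (p ^ n) ≤
      Real.exp (∑ p ∈ Nat.primesLE N,
        (1 / (p:ℝ) + 4 * (ka δ p / p) + 32 * (1 / (p:ℝ) ^ 2))) := by
    rw [Real.exp_sum]
    refine Finset.prod_le_prod (fun p _ => tsum_nonneg fun n => gg_nonneg _ _ _ _) fun p hp => ?_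
    exact tsum_gg_le (Nat.prime_of_mem_primesLE hp) h0 h1 h2
  have hmain := (sum_le_prod N h0 h1 h2).trans hprod
  have hexp : ∑ p ∈ Nat.primesLE N, (1 / (p:ℝ) + 4 * (ka δ p / p) + 32 * (1 / (p:ℝ) ^ 2)) ≤
      (70 + 4 * C0) + Real.log (1 + Real.log N) + 8 * Real.log (1 + Real.log N * δ) := by
    rw [Finset.sum_add_distrib, Finset.sum_add_distrib, ← Finset.mul_sum, ← Finset.mul_sum]
    rw [mul_comm δ] at hS2
    linarith
  have hfinal := hmain.trans (Real.exp_le_exp.mpr hexp)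
  rw [Real.exp_add, Real.exp_add, Real.exp_log (by linarith)] at hfinal
  have h8 : Real.exp (8 * Real.log (1 + Real.log N * δ)) = (1 + Real.log N * δ) ^ 8 := by
    have hpos : 0 < 1 + Real.log N * δ := by
      have := mul_nonneg hlog hδ0
      linarith
    rw [show (8:ℝ) = ((8:ℕ):ℝ) by norm_num, Real.exp_nat_mul, Real.exp_log hpos]
  rw [h8] at hfinal
  exact hfinal

end Pool.Agent.P4f18dfS
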