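import Pool.Agent.Lib.P4f18dfS.DSmall

/-!
# Assembly, part 1: circles, and an abstract averaging argument (helper16)
-/

set_option autoImplicit false

open Complex MeasureTheory

namespace Pool.Agent.P4f18dfS

open Pool.Agent.P4f18dfV

lemma circ_eq (R L θ : ℝ) : circ R L θ = circleMap 0 (2 * R / L) θ := by
  simp [circ, circleMap]

lemma circ_continuous (R L : ℝ) : Continuous (circ R L) := by
  have : circ R L = circleMap 0 (2 * R / L) := by
    funext θ
    exact circ_eq R L θ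
  rw [this]
  exact continuous_circleMap 0 (2 * R / L)

lemma circ_norm {R L : ℝ} (hR : 0 ≤ R) (hL : 0 < L) (θ : ℝ) : ‖circ R L θ‖ = 2 * R / L := by
  have h : 0 ≤ 2 * R / L := by positivity
  rw [circ_eq, norm_circleMap_zero, abs_of_nonneg h]

/-- Bound inside a disc of half the radius by the mean over the circle. -/
lemma sup_circle {F : ℂ → ℂ} {R L : ℝ} (hR : 0 < R) (hL : 0 < L)
    (hF : DifferentiableOn ℂ F (Metric.closedBall 0 (2 * R / L))) {α : ℂ} (hα : ‖α‖ ≤ R / L) :
    Real.pi * ‖F α‖ ≤ ∫ θ in (0 : ℝ)..(2 * Real.pi), ‖F (circ R L θ)‖ := by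
  set r := 2 * R / L with hr
  have hr0 : 0 < r := by positivity
  have hαr : ‖α‖ ≤ r / 2 := by
    rw [hr]
    refine hα.trans (le_of_eq ?_)
    ring
  have hmem : α ∈ Metric.ball (0 : ℂ) r := by
    rw [mem_ball_zero_iff]
    linarith
  have hd : DiffContOnCl ℂ F (Metric.ball 0 r) := by
    refine ⟨hF.mono Metric.ball_subset_closedBall, ?_⟩
    rw [closure_ball _ hr0.ne']
    exact hF.continuousOn
  have hcauchy := hd.two_pi_i_inv_smul_circleIntegral_sub_inv_smul hmem
  have hcont : Continuous (fun θ : ℝ => F (circleMap 0 r θ)) := by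
    refine hF.continuousOn.comp_continuous (continuous_circleMap 0 r) (fun θ => ?_)
    exact circleMap_mem_closedBall 0 hr0.le θ
  have hb : ‖∮ z in C(0, r), (z - α)⁻¹ • F z‖ ≤
      ∫ θ in (0 : ℝ)..(2 * Real.pi), 2 * ‖F (circleMap 0 r θ)‖ := by
    unfold circleIntegral
    refine intervalIntegral.norm_integral_le_of_norm_le (by positivity) ?_
      ((hcont.norm.const_mul 2 |>.intervalIntegrable _ _) : IntervalIntegrable (fun θ => 2 * ‖F (circleMap 0 r θ)‖) volume 0 (2 * Real.pi))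
    refine Filter.Eventually.of_forall (fun θ _ => ?_)
    rw [norm_smul, norm_smul, deriv_circleMap, norm_mul, norm_circleMap_zero, Complex.norm_I, mul_one, norm_inv, abs_of_pos hr0]
    have h1 : r / 2 ≤ ‖circleMap 0 r θ - α‖ := by
      have h2 := norm_sub_norm_le (circleMap 0 r θ) α
      rw [norm_circleMap_zero, abs_of_pos hr0] at h2
      linarith
    have h3 : ‖circleMap 0 r θ - α‖⁻¹ ≤ 2 / r := by
      rw [inv_le_comm₀ (by linarith) (by positivity)]
      have : (2 / r)⁻¹ = r / 2 := by rw [inv_div]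
      rw [this]
      exact h1
    calc r * (‖circleMap 0 r θ - α‖⁻¹ * ‖F (circleMap 0 r θ)‖)
        ≤ r * (2 / r * ‖F (circleMap 0 r θ)‖) :=
          mul_le_mul_of_nonneg_left (mul_le_mul_of_nonneg_right h3 (norm_nonneg _)) hr0.le
      _ = 2 * ‖F (circleMap 0 r θ)‖ := by field_simp
  rw [← hcauchy, norm_smul, norm_inv]
  have h2pi : ‖(2 * Real.pi * I : ℂ)‖ = 2 * Real.pi := by
    rw [norm_mul, norm_mul, Complex.norm_I, mul_one, Complex.norm_real, Real.norm_of_nonneg Real.pi_pos.le]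
    simp
  rw [h2pi]
  rw [intervalIntegral.integral_const_mul] at hb
  have heq : ∀ θ, circ R L θ = circleMap 0 r θ := fun θ => circ_eq R L θ
  simp only [heq]
  have hpi := Real.pi_pos
  calc Real.pi * ((2 * Real.pi)⁻¹ * ‖∮ z in C(0, r), (z - α)⁻¹ • F z‖)
      = (1 / 2) * ‖∮ z in C(0, r), (z - α)⁻¹ • F z‖ := by field_simp
    _ ≤ (1 / 2) * (2 * ∫ θ in (0 : ℝ)..(2 * Real.pi), ‖F (circleMap 0 r θ)‖) :=
        mul_le_mul_of_nonneg_left hb (by norm_num)
    _ = _ := by ring

/-- Some point is good. -/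
lemma exists_good {x0 x1 : ℝ} (hx : x0 ≤ x1) {w fa f0 G H : ℝ → ℝ} (hw : Continuous w) (hfa : ContinuousOn fa (Set.Icc x0 x1))
    (hf0 : ContinuousOn f0 (Set.Icc x0 x1)) (hG : ContinuousOn G (Set.Icc x0 x1)) (hH : ContinuousOn H (Set.Icc x0 x1))
    (w0 : ∀ t, 0 ≤ w t) (g0 : ∀ t, 0 ≤ G t) (h0 : ∀ t, 0 ≤ H t)
    {κ lam K3 K4 m Ma M0 MG MH c : ℝ} (hlam : 0 < lam) (hK3 : 0 < K3) (hK4 : 0 < K4) (hκ : 0 ≤ κ)
    (f0nn : ∀ t, 0 ≤ f0 t)
    (i1 : c ≤ ∫ t in x0..x1, w t * fa t) (i2 : ∫ t in x0..x1, w t ≤ m)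
    (i3 : ∫ t in x0..x1, w t * fa t ^ 2 ≤ Ma) (i4 : ∫ t in x0..x1, w t * f0 t ^ 2 ≤ M0)
    (i5 : ∫ t in x0..x1, w t * G t ≤ MG) (i6 : ∫ t in x0..x1, w t * H t ≤ MH)
    (hlt : κ * m + (lam * Ma + (M0 / K3 ^ 2 + MG / K4 + MH) / lam) / 2 < c) :
    ∃ t ∈ Set.Icc x0 x1, κ ≤ fa t ∧ f0 t ≤ K3 ∧ G t ≤ K4 ∧ H t ≤ 1 := by
  by_contra hno
  push Not at hno
  have cw : ContinuousOn w (Set.Icc x0 x1) := hw.continuousOn
  have hint : ∀ F : ℝ → ℝ, ContinuousOn F (Set.Icc x0 x1) → IntervalIntegrable F volume x0 x1 := by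
    intro F hF
    exact ContinuousOn.intervalIntegrable (by rwa [Set.uIcc_of_le hx])
  have key : ∀ t ∈ Set.Icc x0 x1, w t * fa t ≤ κ * w t + (lam / 2) * (w t * fa t ^ 2) +
      (1 / (2 * lam * K3 ^ 2)) * (w t * f0 t ^ 2) + (1 / (2 * lam * K4)) * (w t * G t) +
      (1 / (2 * lam)) * (w t * H t) := by
    intro t ht
    have hbad := hno t ht
    have hS : fa t ≤ κ + (lam / 2) * fa t ^ 2 + (1 / (2 * lam)) * (f0 t ^ 2 / K3 ^ 2 + G t / K4 + H t) := by
      have n1 : 0 ≤ f0 t ^ 2 / K3 ^ 2 := by positivity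
      have n2 : 0 ≤ G t / K4 := div_nonneg (g0 t) hK4.le
      have n3 := h0 t
      have n4 : 0 ≤ (lam / 2) * fa t ^ 2 := by positivity
      have n5 : 0 ≤ (1 / (2 * lam)) * (f0 t ^ 2 / K3 ^ 2 + G t / K4 + H t) := by positivity
      rcases lt_or_ge (fa t) κ with h | h
      · linarith
      · have hone : 1 ≤ f0 t ^ 2 / K3 ^ 2 + G t / K4 + H t := by
          rcases lt_or_ge K3 (f0 t) with h2 | h2
          · have : 1 ≤ f0 t ^ 2 / K3 ^ 2 := by
              rw [one_le_div (by positivity)]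
              exact pow_le_pow_left₀ hK3.le h2.le 2
            linarith
          · rcases lt_or_ge K4 (G t) with h3 | h3
            · have : 1 ≤ G t / K4 := by
                rw [one_le_div hK4]
                exact h3.le
              linarith
            · have h4 := hbad h h2 h3
              linarith
        have amgm : fa t ≤ (lam / 2) * fa t ^ 2 + 1 / (2 * lam) := by
          have h5 : 0 ≤ (lam * fa t - 1) ^ 2 := sq_nonneg _
          have h6 : (lam / 2) * fa t ^ 2 + 1 / (2 * lam) - fa t = (lam * fa t - 1) ^ 2 / (2 * lam) := by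
            field_simp
            ring
          have h7 : 0 ≤ (lam * fa t - 1) ^ 2 / (2 * lam) := by positivity
          linarith
        have h8 : 1 / (2 * lam) ≤ (1 / (2 * lam)) * (f0 t ^ 2 / K3 ^ 2 + G t / K4 + H t) :=
          le_mul_of_one_le_right (by positivity) hone
        linarith
    have h9 := mul_le_mul_of_nonneg_left hS (w0 t)
    refine h9.trans (le_of_eq ?_)
    field_simp
    ring
  have c1 : IntervalIntegrable (fun t => w t * fa t) volume x0 x1 := hint _ (cw.mul hfa)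
  have c2 : IntervalIntegrable (fun t => w t) volume x0 x1 := hint _ cw
  have c3 : IntervalIntegrable (fun t => w t * fa t ^ 2) volume x0 x1 := hint _ (cw.mul (hfa.pow 2))
  have c4 : IntervalIntegrable (fun t => w t * f0 t ^ 2) volume x0 x1 := hint _ (cw.mul (hf0.pow 2))
  have c5 : IntervalIntegrable (fun t => w t * G t) volume x0 x1 := hint _ (cw.mul hG)
  have c6 : IntervalIntegrable (fun t => w t * H t) volume x0 x1 := hint _ (cw.mul hH)
  have hI := intervalIntegral.integral_mono_on hx c1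
    (((((c2.const_mul κ).add (c3.const_mul (lam / 2))).add (c4.const_mul (1 / (2 * lam * K3 ^ 2)))).add
      (c5.const_mul (1 / (2 * lam * K4)))).add (c6.const_mul (1 / (2 * lam)))) key
  have e : ∫ t in x0..x1, (κ * w t + (lam / 2) * (w t * fa t ^ 2) +
      (1 / (2 * lam * K3 ^ 2)) * (w t * f0 t ^ 2) + (1 / (2 * lam * K4)) * (w t * G t) +
      (1 / (2 * lam)) * (w t * H t)) = κ * (∫ t in x0..x1, w t) + (lam / 2) * (∫ t in x0..x1, w t * fa t ^ 2) +
      (1 / (2 * lam * K3 ^ 2)) * (∫ t in x0..x1, w t * f0 t ^ 2) +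
      (1 / (2 * lam * K4)) * (∫ t in x0..x1, w t * G t) + (1 / (2 * lam)) * (∫ t in x0..x1, w t * H t) := by
    rw [intervalIntegral.integral_add ((((c2.const_mul κ).add (c3.const_mul (lam / 2))).add
        (c4.const_mul (1 / (2 * lam * K3 ^ 2)))).add (c5.const_mul (1 / (2 * lam * K4)))) (c6.const_mul (1 / (2 * lam))),
      intervalIntegral.integral_add (((c2.const_mul κ).add (c3.const_mul (lam / 2))).add
        (c4.const_mul (1 / (2 * lam * K3 ^ 2)))) (c5.const_mul (1 / (2 * lam * K4))),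
      intervalIntegral.integral_add ((c2.const_mul κ).add (c3.const_mul (lam / 2))) (c4.const_mul (1 / (2 * lam * K3 ^ 2))),
      intervalIntegral.integral_add (c2.const_mul κ) (c3.const_mul (lam / 2)),
      intervalIntegral.integral_const_mul, intervalIntegral.integral_const_mul, intervalIntegral.integral_const_mul,
      intervalIntegral.integral_const_mul, intervalIntegral.integral_const_mul]
  have hI2 := i1.trans hI
  have b2 := mul_le_mul_of_nonneg_left i2 hκ
  have b3 := mul_le_mul_of_nonneg_left i3 (by positivity : 0 ≤ lam / 2)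
  have b4 := mul_le_mul_of_nonneg_left i4 (by positivity : 0 ≤ 1 / (2 * lam * K3 ^ 2))
  have b5 := mul_le_mul_of_nonneg_left i5 (by positivity : 0 ≤ 1 / (2 * lam * K4))
  have b6 := mul_le_mul_of_nonneg_left i6 (by positivity : 0 ≤ 1 / (2 * lam))
  have e2 : κ * m + (lam * Ma + (M0 / K3 ^ 2 + MG / K4 + MH) / lam) / 2 =
      κ * m + (lam / 2) * Ma + (1 / (2 * lam * K3 ^ 2)) * M0 + (1 / (2 * lam * K4)) * MG + (1 / (2 * lam)) * MH := by
    field_simp
    ring
  rw [e2] at hlt
  have hI3 : c ≤ κ * (∫ t in x0..x1, w t) + (lam / 2) * (∫ t in x0..x1, w t * fa t ^ 2) +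
      (1 / (2 * lam * K3 ^ 2)) * (∫ t in x0..x1, w t * f0 t ^ 2) +
      (1 / (2 * lam * K4)) * (∫ t in x0..x1, w t * G t) + (1 / (2 * lam)) * (∫ t in x0..x1, w t * H t) := by
    rw [← e]
    exact hI2
  linarith

end Pool.Agent.P4f18dfS
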