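import Pool.Agent.Lib.P4f18dfS.XFac
import Pool.Agent.Lib.P4f18dfV.Zeros

/-!
# Growth of zeta in a zero-free disc around a point of the critical line

PROOF. `L = log T`, `r = R/L`, `x = a/L`, `s = 1/2 + it`. `h` = holomorphic logarithm of `α ↦ ζ(s + α)` on the ball `‖α‖ < r`
(`Pool.Agent.P4f18dfV.ez_exists_log`), `Re h(α) = log ‖ζ(s+α)‖ ≤ log A + K`, `Re h(x) ≥ log A - K1`. Borel-Caratheodory
(`Complex.borelCaratheodory_zero`) for `h(x + ·) - h(x)` on the ball of radius `r - x ≥ 15r/16` with `M = K + K1 + 1`: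
`‖h(α) - h(x)‖ ≤ 4 M` for `‖α - x‖ ≤ r/2`. Cauchy estimates (`Complex.norm_iteratedDeriv_le_of_forall_mem_sphere_norm_le` or twice
`norm_deriv_le_...`): `‖h''(α)‖ ≤ 2·4M/(r/4)² = 128 M/r²` for `‖α‖ ≤ x ≤ r/16`. So
`‖h(x) + h(-x) - 2h(0)‖ ≤ 128 M x²/r² = 128 M a²/R² ≤ a/16`. Real parts:
`2 log‖ζ(s)‖ ≥ log‖ζ(s+x)‖ + log‖ζ(s-x)‖ - a/16`. Functional equation at `w = s - x = 1/2 - x + it`:
`‖ζ(s-x)‖ = ‖XF(s-x)‖ ‖ζ(1/2 + x - it)‖ = ‖XF(s-x)‖ ‖ζ(s+x)‖` (`ζ(conj w) = conj ζ(w)`, `riemannZeta_conj`), and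
`‖XF(s-x)‖ ≥ exp(-C x) t^{x} ≥ exp(a - C a/L - a log 10/L) ≥ exp(3a/4)` for `T ≥ T0(a)` (`xf_local`). Hence
`log‖ζ(s)‖ ≥ log‖ζ(s+x)‖ + 3a/8 - a/32 ≥ log‖ζ(s+x)‖ + a/4`.
-/

set_option autoImplicit false

open Complex

namespace Pool.Agent.P4f18dfS

namespace LocalAux

open Metric Set

/-- second order Schwarz lemma for the symmetric second difference of a function whose real part is bounded above -/
theorem second_diff {r x M : ℝ} (hx : 0 < x) (hxr : 16 * x ≤ r) (hM : 0 < M) {h : ℂ → ℂ}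
    (hd : DifferentiableOn ℂ h (ball 0 r)) (hb : ∀ z ∈ ball (0 : ℂ) r, (h z).re - (h x).re ≤ M) :
    ‖h x + h (-x) - 2 * h 0‖ ≤ 128 * M * x ^ 2 / r ^ 2 := by
  have hr : 0 < r := by linarith
  have hxm : ‖(x : ℂ)‖ = x := by rw [Complex.norm_real, Real.norm_eq_abs, abs_of_pos hx]
  -- Borel-Caratheodory
  have hBC : ∀ z : ℂ, ‖z‖ ≤ 7 * r / 16 → ‖h z - h x‖ ≤ 4 * M := by
    intro z hz
    have hmaps : ∀ w ∈ ball (0 : ℂ) (r - x), (x : ℂ) + w ∈ ball (0 : ℂ) r := by
      intro w hw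
      rw [mem_ball_zero_iff] at hw ⊢
      calc ‖(x : ℂ) + w‖ ≤ ‖(x : ℂ)‖ + ‖w‖ := norm_add_le _ _
        _ < x + (r - x) := by rw [hxm]; linarith
        _ = r := by ring
    have hz' : ‖z - x‖ ≤ r / 2 := by
      calc ‖z - x‖ ≤ ‖z‖ + ‖(x : ℂ)‖ := norm_sub_le _ _
        _ ≤ 7 * r / 16 + r / 16 := by rw [hxm]; linarith
        _ = r / 2 := by ring
    have key := Complex.borelCaratheodory_zero (f := fun w => h (x + w) - h x) (R := r - x) (M := M) (z := z - x) hM
      ((hd.comp ((differentiable_const (x : ℂ)).add differentiable_id).differentiableOn hmaps).sub_const _)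
      (by
        intro w hw
        have := hb _ (hmaps w hw)
        simpa using this)
      (by linarith)
      (by rw [mem_ball_zero_iff]; linarith)
      (by simp)
    have e : (x : ℂ) + (z - x) = z := by ring
    simp only [e] at key
    refine key.trans ?_
    rw [div_le_iff₀ (by linarith)]
    have h1 : 0 ≤ ‖z - x‖ := norm_nonneg _
    nlinarith [mul_nonneg hM.le (sub_nonneg.2 hz'), mul_nonneg hM.le h1, mul_nonneg hM.le (sub_nonneg.2 hxr)]
  set ρ : ℝ := 3 * r / 8 with hρ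
  have hρ0 : 0 < ρ := by rw [hρ]; linarith
  set H : ℂ → ℂ := fun u => h u + h (-u) - 2 * h 0 with hH
  have hH0 : H 0 = 0 := by simp [hH]; ring
  have hsub : ∀ w ∈ ball (0 : ℂ) ρ, w ∈ ball (0 : ℂ) r ∧ -w ∈ ball (0 : ℂ) r := by
    intro w hw
    rw [mem_ball_zero_iff] at hw
    rw [mem_ball_zero_iff, mem_ball_zero_iff, norm_neg]
    constructor <;> linarith
  have hHd : DifferentiableOn ℂ H (ball 0 ρ) := by
    refine DifferentiableOn.sub (DifferentiableOn.add (hd.mono fun w hw => (hsub w hw).1) ?_)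
      (differentiableOn_const _)
    exact hd.comp differentiable_neg.differentiableOn fun w hw => (hsub w hw).2
  have hHmaps : MapsTo H (ball 0 ρ) (closedBall (H 0) (18 * M)) := by
    intro w hw
    rw [hH0, mem_closedBall_zero_iff]
    rw [mem_ball_zero_iff] at hw
    have h1 := hBC w (by linarith)
    have h2 := hBC (-w) (by rw [norm_neg]; linarith)
    have h3 := hBC 0 (by rw [norm_zero]; linarith)
    have e : H w = (h w - h x) + (h (-w) - h x) - 2 * (h 0 - h x) := by simp only [hH]; ring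
    rw [e]
    calc ‖(h w - h x) + (h (-w) - h x) - 2 * (h 0 - h x)‖
        ≤ ‖(h w - h x) + (h (-w) - h x)‖ + ‖2 * (h 0 - h x)‖ := norm_sub_le _ _
      _ ≤ (‖h w - h x‖ + ‖h (-w) - h x‖) + 2 * ‖h 0 - h x‖ := by
          gcongr
          · exact norm_add_le _ _
          · rw [norm_mul]; simp
      _ ≤ 18 * M := by linarith
  have hder : HasDerivAt H 0 0 := by
    have h0 : HasDerivAt h (deriv h 0) 0 :=
      (hd.differentiableAt (isOpen_ball.mem_nhds (mem_ball_self hr))).hasDerivAt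
    have h0' : HasDerivAt h (deriv h 0) (-(0 : ℂ)) := by rwa [neg_zero]
    have h1 : HasDerivAt (fun u : ℂ => h (-u)) (deriv h 0 * (-1)) 0 :=
      h0'.comp (0 : ℂ) (hasDerivAt_neg (0 : ℂ))
    have h2 := (h0.add h1).sub_const (2 * h 0)
    have e : deriv h 0 + deriv h 0 * (-1) = 0 := by ring
    rw [e] at h2
    exact h2
  have hlo : (fun w => H w - H 0) =o[nhds 0] (fun w : ℂ => ‖w - 0‖ ^ 1) := by
    have := hasDerivAt_iff_isLittleO.1 hder
    simp only [smul_zero, sub_zero] at this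
    simp only [pow_one, sub_zero]
    exact this.norm_right
  have hxρ : (x : ℂ) ∈ ball (0 : ℂ) ρ := by
    rw [mem_ball_zero_iff, hxm]; linarith
  have fin := Complex.dist_le_mul_div_pow_of_mapsTo_ball_of_isLittleO hHd hHmaps hlo hxρ
  rw [hH0, dist_zero_right, dist_zero_right, hxm] at fin
  have e : H x = h x + h (-x) - 2 * h 0 := rfl
  rw [e] at fin
  refine fin.trans (le_of_eq ?_)
  have hr' : r ≠ 0 := hr.ne'
  rw [hρ]
  have e2 : x / (3 * r / 8) = 8 / 3 * (x / r) := by field_simp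
  rw [e2, mul_pow, div_pow, div_pow]
  ring

end LocalAux

theorem local_growth (a R K K1 : ℝ) (ha : 1 ≤ a) (hR : 16 * a ≤ R) (hK : 0 ≤ K) (hK1 : 0 ≤ K1)
    (hR2 : 2048 * a * (K + K1 + 1) ≤ R ^ 2) : ∃ T0 : ℝ, ∀ T : ℝ, T0 ≤ T → ∀ t : ℝ, T / 10 ≤ t → t ≤ T →
    ∀ A : ℝ, 0 < A →
    (∀ α : ℂ, ‖α‖ ≤ R / Real.log T → riemannZeta (1 / 2 + α + t * I) ≠ 0 ∧
      ‖riemannZeta (1 / 2 + α + t * I)‖ ≤ A * Real.exp K) →
    A * Real.exp (-K1) ≤ ‖riemannZeta (1 / 2 + ((a / Real.log T : ℝ) : ℂ) + t * I)‖ →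
    ‖riemannZeta (1 / 2 + ((a / Real.log T : ℝ) : ℂ) + t * I)‖ * Real.exp (a / 4) ≤
      ‖riemannZeta (1 / 2 + t * I)‖ := by
  obtain ⟨C, hC, hxf⟩ := xf_local
  refine ⟨Real.exp (4 * R + 4 * (C + Real.log 10) + 20), ?_⟩
  intro T hT t htl htu A hA hα hAx
  have hl10 : 0 < Real.log 10 := Real.log_pos (by norm_num)
  have hRpos : 0 < R := by linarith
  have hTpos : 0 < T := lt_of_lt_of_le (Real.exp_pos _) hT
  set L := Real.log T with hL
  have hLge : 4 * R + 4 * (C + Real.log 10) + 20 ≤ L := by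
    rw [hL, Real.le_log_iff_exp_le hTpos]; exact hT
  have hLpos : 0 < L := by linarith
  have hT20 : 20 ≤ T := by
    have h1 : L ≤ T - 1 := Real.log_le_sub_one_of_pos hTpos
    linarith
  have ht2 : 2 ≤ t := by linarith
  have htpos : 0 < t := by linarith
  set r := R / L with hr
  set x := a / L with hx
  have hr0 : 0 < r := div_pos hRpos hLpos
  have hx0 : 0 < x := div_pos (by linarith) hLpos
  have hr4 : r ≤ 1 / 4 := by
    rw [hr, div_le_iff₀ hLpos]; linarith
  have hxr : 16 * x ≤ r := by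
    rw [hx, hr, ← mul_div_assoc]
    exact div_le_div_of_nonneg_right hR hLpos.le
  have hxm : ‖(x : ℂ)‖ = x := by rw [Complex.norm_real, Real.norm_eq_abs, abs_of_pos hx0]
  -- the logarithm
  set f : ℂ → ℂ := fun α => riemannZeta (1 / 2 + α + t * I) with hf
  have hfd : DifferentiableOn ℂ f (Metric.ball 0 r) := by
    intro α hα'
    have hne : (1 / 2 + α + t * I : ℂ) ≠ 1 := by
      intro hh
      have h1 := congrArg Complex.im hh
      simp at h1
      rw [mem_ball_zero_iff] at hα'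
      have h2 : |α.im| ≤ ‖α‖ := Complex.abs_im_le_norm α
      have h3 := (abs_le.1 h2).1
      linarith
    have h2 : DifferentiableAt ℂ riemannZeta (1 / 2 + α + t * I) := differentiableAt_riemannZeta hne
    have h3 : DifferentiableAt ℂ (fun α : ℂ => (1 / 2 + α + t * I : ℂ)) α := by fun_prop
    exact (h2.comp α h3).differentiableWithinAt
  have hf0 : ∀ z ∈ Metric.ball (0 : ℂ) r, f z ≠ 0 := by
    intro z hz
    rw [mem_ball_zero_iff] at hz
    exact (hα z hz.le).1
  obtain ⟨h, hd, -, hexp⟩ := Pool.Agent.P4f18dfV.ez_exists_log hr0 hfd hf0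
  have hre : ∀ z ∈ Metric.ball (0 : ℂ) r, (h z).re = Real.log ‖f z‖ := by
    intro z hz
    rw [← hexp z hz, Complex.norm_exp, Real.log_exp]
  have hxball : (x : ℂ) ∈ Metric.ball (0 : ℂ) r := by rw [mem_ball_zero_iff, hxm]; linarith
  have hnxball : (-(x : ℂ)) ∈ Metric.ball (0 : ℂ) r := by rw [mem_ball_zero_iff, norm_neg, hxm]; linarith
  have h0ball : (0 : ℂ) ∈ Metric.ball (0 : ℂ) r := Metric.mem_ball_self hr0
  have hAx' : Real.log A - K1 ≤ (h x).re := by
    rw [hre _ hxball, Real.le_log_iff_exp_le (norm_pos_iff.2 (hf0 _ hxball)), Real.exp_sub, Real.exp_log hA,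
      div_eq_mul_inv, ← Real.exp_neg]
    exact hAx
  have hup : ∀ z ∈ Metric.ball (0 : ℂ) r, (h z).re ≤ Real.log A + K := by
    intro z hz
    rw [hre _ hz, Real.log_le_iff_le_exp (norm_pos_iff.2 (hf0 _ hz)), Real.exp_add, Real.exp_log hA]
    rw [mem_ball_zero_iff] at hz
    exact (hα z hz.le).2
  have hM : 0 < K + K1 + 1 := by linarith
  have hsd := LocalAux.second_diff hx0 hxr hM hd (fun z hz => by linarith [hup z hz])
  have hq : 128 * (K + K1 + 1) * x ^ 2 / r ^ 2 ≤ a / 16 := by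
    have e : 128 * (K + K1 + 1) * x ^ 2 / r ^ 2 = 128 * (K + K1 + 1) * a ^ 2 / R ^ 2 := by
      rw [hx, hr]; field_simp
    rw [e, div_le_iff₀ (by positivity)]
    nlinarith [mul_le_mul_of_nonneg_left hR2 (by linarith : 0 ≤ a / 16)]
  have hre2 : (h x).re + (h (-x)).re - 2 * (h 0).re ≤ a / 16 := by
    have h1 : (h x + h (-x) - 2 * h 0).re ≤ a / 16 := (Complex.re_le_norm _).trans (hsd.trans hq)
    simpa using h1
  -- functional equation
  have hfe : Real.log ‖f x‖ + 3 * a / 4 ≤ Real.log ‖f (-x)‖ := by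
    have hw0 : (1 / 2 + (-(x : ℂ)) + t * I) ≠ 0 := by
      intro hh
      have h1 := congrArg Complex.im hh
      simp at h1
      linarith
    have hw1 : (1 / 2 + (-(x : ℂ)) + t * I).re < 1 := by
      simp
      linarith
    have h1 := xf_eq hw0 hw1
    have h2 : (1 - (1 / 2 + (-(x : ℂ)) + t * I)) = (starRingEnd ℂ) (1 / 2 + (x : ℂ) + t * I) := by
      apply Complex.ext
      · simp
        ring
      · simp
    have h3 : ‖f (-x)‖ = ‖XF (1 / 2 + (-(x : ℂ)) + t * I)‖ * ‖f x‖ := by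
      simp only [hf]
      rw [h1, norm_mul, h2, riemannZeta_conj, Complex.norm_conj]
    have h4 : (1 / 2 + (-(x : ℂ)) + t * I) = (((1 / 2 - x : ℝ) : ℂ) + (t : ℝ) * I) := by
      push_cast; ring
    have h5 := (hxf (1 / 2 - x) t (by linarith) (by linarith) (by rw [abs_of_pos htpos]; linarith)).1
    rw [h3, Real.log_mul]
    · have h6 : 3 * a / 4 ≤ Real.log ‖XF (1 / 2 + (-(x : ℂ)) + t * I)‖ := by
        rw [h4]
        refine le_trans ?_ (Real.log_le_log (by positivity) h5)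
        rw [Real.log_mul (by positivity) (by positivity), Real.log_exp, Real.log_rpow (by positivity),
          abs_of_pos htpos]
        have h7 : |1 / 2 - x - 1 / 2| = x := by
          rw [show (1 / 2 - x - 1 / 2 : ℝ) = -x by ring, abs_neg, abs_of_pos hx0]
        rw [h7, show (1 / 2 - (1 / 2 - x) : ℝ) = x by ring]
        have h8 : L - Real.log 10 ≤ Real.log t := by
          have : Real.log (T / 10) ≤ Real.log t := Real.log_le_log (by positivity) htl
          rwa [Real.log_div hTpos.ne' (by norm_num), ← hL] at this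
        have h9 : x * L = a := by rw [hx]; field_simp
        have h10 : x * (C + Real.log 10) ≤ a / 4 := by
          rw [hx, div_mul_eq_mul_div, div_le_iff₀ hLpos]
          nlinarith
        nlinarith [mul_le_mul_of_nonneg_left h8 hx0.le]
      linarith
    · intro h0
      apply hf0 _ hnxball
      rw [← norm_eq_zero, h3, h0, zero_mul]
    · exact (norm_pos_iff.2 (hf0 _ hxball)).ne'
  have hfin : Real.log ‖f x‖ + a / 4 ≤ Real.log ‖f 0‖ := by
    rw [hre _ hxball, hre _ hnxball, hre _ h0ball] at hre2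
    linarith
  have e0 : f 0 = riemannZeta (1 / 2 + t * I) := by simp only [hf, add_zero]
  rw [← e0]
  have hpx : 0 < ‖f x‖ := norm_pos_iff.2 (hf0 _ hxball)
  have hp0 : 0 < ‖f 0‖ := norm_pos_iff.2 (hf0 _ h0ball)
  have : ‖f x‖ * Real.exp (a / 4) ≤ ‖f 0‖ := by
    rw [← Real.exp_log hpx, ← Real.exp_add, ← Real.exp_log hp0]
    exact Real.exp_le_exp.2 hfin
  exact this

end Pool.Agent.P4f18dfS
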