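import Pool.Agent.Lib.P4f18dfS.Fin1
import Pool.Agent.Lib.P4f18dfS.Local

/-!
# Assembly, part 2: at a good point zeta has no zeros in a disc; choice of the parameters (helper16)
-/

set_option autoImplicit false

open Complex MeasureTheory

namespace Pool.Agent.P4f18dfS

open Pool.Agent.P4f18dfV

lemma zeta_diffOn {z0 : ℂ} {r : ℝ} (h : r < z0.im) :
    DifferentiableOn ℂ (fun α : ℂ => riemannZeta (z0 + α)) (Metric.closedBall 0 r) := by
  intro α hα
  rw [mem_closedBall_zero_iff] at hα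
  have h1 : z0 + α ≠ 1 := by
    intro h2
    have h3 := congrArg Complex.im h2
    rw [Complex.add_im, Complex.one_im] at h3
    have h4 := Complex.abs_im_le_norm α
    have h5 := neg_abs_le α.im
    linarith
  have h2 : DifferentiableAt ℂ riemannZeta (z0 + α) := differentiableAt_riemannZeta h1
  exact (h2.comp α ((differentiableAt_id).const_add z0)).differentiableWithinAt

/-- Choice of `a`. -/
lemma exists_a {c1 C0 κ : ℝ} (hc1 : 0 < c1) (hC0 : 0 < C0) (hκ : 0 < κ) :
    ∃ a : ℝ, 1 ≤ a ∧ 12 * C0 * (C0 * (1 + a) ^ 20) / c1 ^ 2 < (κ * Real.exp (a / 4)) ^ 2 := by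
  have hlim : Filter.Tendsto (fun a : ℝ => (1 + a) ^ 20 * Real.exp (-(1 / 2) * a)) Filter.atTop (nhds 0) := by
    have h1 : Filter.Tendsto (fun x : ℝ => x ^ 20 * Real.exp (-(1 / 2) * x)) Filter.atTop (nhds 0) := by
      have h2 := Real.tendsto_pow_mul_exp_neg_atTop_nhds_zero 20
      have h3 : Filter.Tendsto (fun x : ℝ => x / 2) Filter.atTop Filter.atTop :=
        Filter.tendsto_id.atTop_div_const (by norm_num)
      have h4 := (h2.comp h3).const_mul ((2 : ℝ) ^ 20)
      rw [mul_zero] at h4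
      refine h4.congr (fun x => ?_)
      simp only [Function.comp]
      have e : -(1 / 2) * x = -(x / 2) := by ring
      rw [e]
      ring
    have h5 : Filter.Tendsto (fun a : ℝ => 1 + a) Filter.atTop Filter.atTop :=
      Filter.tendsto_atTop_add_const_left _ _ Filter.tendsto_id
    have h6 := (h1.comp h5).mul_const (Real.exp (1 / 2))
    rw [zero_mul] at h6
    refine h6.congr (fun x => ?_)
    simp only [Function.comp]
    rw [mul_assoc, ← Real.exp_add]
    congr 2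
    ring
  have hpos : 0 < κ ^ 2 * c1 ^ 2 / (12 * C0 ^ 2) := by positivity
  have hev := (hlim.eventually (gt_mem_nhds hpos)).and (Filter.eventually_ge_atTop (1 : ℝ))
  obtain ⟨a, ha1, ha2⟩ := hev.exists
  refine ⟨a, ha2, ?_⟩
  have hE : 0 < Real.exp (-(1 / 2) * a) := Real.exp_pos _
  have e1 : Real.exp (a / 4) ^ 2 * Real.exp (-(1 / 2) * a) = 1 := by
    rw [← Real.exp_nat_mul, ← Real.exp_add]
    have : ((2 : ℕ) : ℝ) * (a / 4) + -(1 / 2) * a = 0 := by push_cast; ring
    rw [this, Real.exp_zero]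
  rw [lt_div_iff₀ (by positivity)] at ha1
  rw [div_lt_iff₀ (by positivity)]
  have h7 : 12 * C0 * (C0 * (1 + a) ^ 20) * Real.exp (-(1 / 2) * a) < κ ^ 2 * c1 ^ 2 := by
    calc 12 * C0 * (C0 * (1 + a) ^ 20) * Real.exp (-(1 / 2) * a) =
        (1 + a) ^ 20 * Real.exp (-(1 / 2) * a) * (12 * C0 ^ 2) := by ring
      _ < κ ^ 2 * c1 ^ 2 := ha1
  have h8 : κ ^ 2 * c1 ^ 2 = (κ * Real.exp (a / 4)) ^ 2 * c1 ^ 2 * Real.exp (-(1 / 2) * a) := by
    calc κ ^ 2 * c1 ^ 2 = κ ^ 2 * c1 ^ 2 * (Real.exp (a / 4) ^ 2 * Real.exp (-(1 / 2) * a)) := by rw [e1]; ring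
      _ = _ := by ring
  rw [h8] at h7
  exact lt_of_mul_lt_mul_right h7 hE.le

/-- The bound for the mean over the circle. -/
noncomputable def KK (c1 C0 a R : ℝ) : ℝ :=
  1 + 12 * (C0 * (1 + a) ^ 20) * (2 * Real.pi * (C0 * Real.exp (12 * R) * (1 + 2 * R) ^ 20)) / c1 ^ 2

/-- Choice of `R`. -/
lemma exists_R {c1 C0 κ a : ℝ} (hc1 : 0 < c1) (hC0 : 0 < C0) (hκ : 0 < κ) (hκ1 : κ ≤ 1) (ha : 1 ≤ a) :
    ∃ R : ℝ, 16 * a ≤ R ∧
      2048 * a * (Real.log (KK c1 C0 a R) / 2 + Real.log (1 / κ) + 1) ≤ R ^ 2 := by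
  -- `log KK ≤ C + 32 R`
  set D : ℝ := 12 * (C0 * (1 + a) ^ 20) * (2 * Real.pi * C0) / c1 ^ 2 with hD
  have hD0 : 0 < D := by positivity
  have hKK : ∀ R : ℝ, 1 ≤ R → Real.log (KK c1 C0 a R) ≤ (D + 1) + 60 * R := by
    intro R hR
    have h1 : (1 + 2 * R) ^ 20 ≤ Real.exp (40 * R) := by
      have h2 : 1 + 2 * R ≤ Real.exp (2 * R) := by
        have := Real.add_one_le_exp (2 * R)
        linarith
      calc (1 + 2 * R) ^ 20 ≤ Real.exp (2 * R) ^ 20 := pow_le_pow_left₀ (by positivity) h2 20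
        _ = Real.exp (40 * R) := by
          rw [← Real.exp_nat_mul]
          congr 1
          push_cast
          ring
    have h3 : KK c1 C0 a R ≤ (1 + D) * Real.exp (52 * R) := by
      have h4 : KK c1 C0 a R = 1 + D * (Real.exp (12 * R) * (1 + 2 * R) ^ 20) := by
        rw [KK, hD]
        field_simp
      rw [h4]
      have h5 : Real.exp (12 * R) * (1 + 2 * R) ^ 20 ≤ Real.exp (52 * R) := by
        calc Real.exp (12 * R) * (1 + 2 * R) ^ 20 ≤ Real.exp (12 * R) * Real.exp (40 * R) :=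
              mul_le_mul_of_nonneg_left h1 (Real.exp_pos _).le
          _ = Real.exp (52 * R) := by
            rw [← Real.exp_add]
            congr 1
            ring
      have h6 : 1 ≤ Real.exp (52 * R) := Real.one_le_exp (by positivity)
      have h7 := mul_le_mul_of_nonneg_left h5 hD0.le
      linarith
    have hKK0 : 0 < KK c1 C0 a R := by
      rw [KK]
      positivity
    calc Real.log (KK c1 C0 a R) ≤ Real.log ((1 + D) * Real.exp (52 * R)) := Real.log_le_log hKK0 h3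
      _ = Real.log (1 + D) + 52 * R := by
        rw [Real.log_mul (by positivity) (Real.exp_pos _).ne', Real.log_exp]
      _ ≤ (D + 1) + 60 * R := by
        have h8 := Real.log_le_sub_one_of_pos (show 0 < 1 + D by positivity)
        linarith
  set E : ℝ := D + Real.log (1 / κ) + 3 with hE
  have hlogκ : 0 ≤ Real.log (1 / κ) := Real.log_nonneg (by rw [le_div_iff₀ hκ]; linarith)
  have hE0 : 0 < E := by positivity
  set R : ℝ := 16 * a + 2048 * a * (E + 31) with hR
  refine ⟨R, ?_, ?_⟩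
  · have : 0 < 2048 * a * (E + 31) := by positivity
    linarith
  · have hR1 : 1 ≤ R := by
      have : 0 < 2048 * a * (E + 31) := by positivity
      linarith
    have h1 := hKK R hR1
    have h2 : Real.log (KK c1 C0 a R) / 2 + Real.log (1 / κ) + 1 ≤ E + 30 * R := by
      rw [hE]
      linarith
    have h3 : E + 30 * R ≤ (E + 31) * R := by nlinarith
    have h4 : 2048 * a * (E + 31) ≤ R := by
      rw [hR]
      linarith
    calc 2048 * a * (Real.log (KK c1 C0 a R) / 2 + Real.log (1 / κ) + 1)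
        ≤ 2048 * a * ((E + 31) * R) := mul_le_mul_of_nonneg_left (h2.trans h3) (by positivity)
      _ = (2048 * a * (E + 31)) * R := by ring
      _ ≤ R * R := mul_le_mul_of_nonneg_right h4 (by linarith)
      _ = R ^ 2 := by ring

/-- Everything at one good point. -/
lemma good_point {a R K K1 K3 K4 κ : ℝ} (ha : 1 ≤ a) (hR : 16 * a ≤ R) (hκ : 0 < κ)
    (hK1 : K1 = Real.log (1 / κ)) (hK : K = Real.log K4 / 2) (hK4 : 1 ≤ K4) (hκ1 : κ ≤ 1)
    (hR2 : 2048 * a * (K + K1 + 1) ≤ R ^ 2) (hK3 : K3 < κ * Real.exp (a / 4)) :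
    ∃ T0 : ℝ, ∀ T : ℝ, T0 ≤ T → ∀ u : ℝ, 0 ≤ u → ∀ t : ℝ, T / 10 ≤ t → t ≤ T / 4 - 1 → ∀ m : ℝ, 0 ≤ m →
    κ ≤ ‖riemannZeta (1 / 2 + ((a / Real.log T : ℝ) : ℂ) + t * I)‖ * m →
    ‖riemannZeta (1 / 2 + t * I)‖ * m ≤ K3 →
    (∫ θ in (0 : ℝ)..(2 * Real.pi), ‖riemannZeta (1 / 2 + circ R (Real.log T) θ + t * I)‖ ^ 2 * m ^ 2) ≤ K4 →
    (∫ θ in (0 : ℝ)..(2 * Real.pi), T * ‖Dd T u (1 / 2 + circ R (Real.log T) θ + t * I)‖) ≤ 1 → False := by
  have hlog : 0 ≤ Real.log (1 / κ) := Real.log_nonneg (by rw [le_div_iff₀ hκ]; linarith)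
  obtain ⟨T1, hT1⟩ := local_growth a R K K1 ha hR (by rw [hK]; have := Real.log_nonneg hK4; linarith)
    (by rw [hK1]; exact hlog) hR2
  have hR0 : 0 < R := by linarith
  refine ⟨max T1 (max 100 (Real.exp (8 * R))), ?_⟩
  intro T hT u hu t ht1 ht2 m hm hfa hf0 hG hH
  have hTT1 : T1 ≤ T := (le_max_left _ _).trans hT
  have hT100 : 100 ≤ T := (le_max_left _ _).trans ((le_max_right _ _).trans hT)
  have hTR : Real.exp (8 * R) ≤ T := (le_max_right _ _).trans ((le_max_right _ _).trans hT)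
  have hT0 : 0 < T := by linarith
  set L := Real.log T with hL
  have hLR : 8 * R ≤ L := by
    rw [hL, Real.le_log_iff_exp_le hT0]
    exact hTR
  have hL0 : 0 < L := by linarith
  have hrad : 2 * R / L ≤ 1 / 4 := by
    rw [div_le_iff₀ hL0]
    linarith
  have hm0 : 0 < m := by
    rcases hm.lt_or_eq with h | h
    · exact h
    · rw [← h, mul_zero] at hfa
      linarith
  have hRL0 : 0 < R / L := by positivity
  have hR2L : R / L ≤ 2 * R / L := by
    rw [div_le_div_iff_of_pos_right hL0]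
    linarith
  have hball : ∀ α : ℂ, ‖α‖ ≤ 2 * R / L → |α.re| ≤ 1 / 4 ∧ |α.im| ≤ 1 / 4 := fun α hα =>
    ⟨(Complex.abs_re_le_norm α).trans (hα.trans hrad), (Complex.abs_im_le_norm α).trans (hα.trans hrad)⟩
  have hz : ∀ α : ℂ, ((1 / 2 : ℂ) + t * I) + α = 1 / 2 + α + t * I := fun α => by ring
  have him : ((1 / 2 : ℂ) + t * I).im = t := by simp
  have hre : ((1 / 2 : ℂ) + t * I).re = 1 / 2 := by simp
  have hzd : DifferentiableOn ℂ (fun α : ℂ => riemannZeta (((1 / 2 : ℂ) + t * I) + α))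
      (Metric.closedBall 0 (2 * R / L)) := zeta_diffOn (by rw [him]; linarith)
  -- zeta is bounded in the disc
  have hsup : ∀ α : ℂ, ‖α‖ ≤ R / L → ‖riemannZeta (1 / 2 + α + t * I)‖ ≤ 1 / m * Real.exp K := by
    intro α hα
    have h1 := sup_circle (F := fun α => riemannZeta (((1 / 2 : ℂ) + t * I) + α) ^ 2) hR0 hL0 (hzd.pow 2) hα
    simp only [hz, norm_pow] at h1
    have h2 : (∫ θ in (0 : ℝ)..(2 * Real.pi), ‖riemannZeta (1 / 2 + circ R L θ + t * I)‖ ^ 2) * m ^ 2 ≤ K4 := by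
      rw [← intervalIntegral.integral_mul_const]
      exact hG
    have h3 : (‖riemannZeta (1 / 2 + α + t * I)‖ * m) ^ 2 ≤ K4 := by
      have h4 : ‖riemannZeta (1 / 2 + α + t * I)‖ ^ 2 ≤
          ∫ θ in (0 : ℝ)..(2 * Real.pi), ‖riemannZeta (1 / 2 + circ R L θ + t * I)‖ ^ 2 := by
        have hpi : 1 ≤ Real.pi := by linarith [Real.pi_gt_three]
        have h5 : ‖riemannZeta (1 / 2 + α + t * I)‖ ^ 2 ≤ Real.pi * ‖riemannZeta (1 / 2 + α + t * I)‖ ^ 2 :=
          le_mul_of_one_le_left (by positivity) hpi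
        exact h5.trans h1
      rw [mul_pow]
      exact (mul_le_mul_of_nonneg_right h4 (by positivity)).trans h2
    have h6 : ‖riemannZeta (1 / 2 + α + t * I)‖ * m ≤ Real.exp K := by
      have h7 : Real.exp K ^ 2 = K4 := by
        rw [← Real.exp_nat_mul, hK]
        have : ((2 : ℕ) : ℝ) * (Real.log K4 / 2) = Real.log K4 := by push_cast; ring
        rw [this, Real.exp_log (by linarith)]
      rw [← h7] at h3
      exact (pow_le_pow_iff_left₀ (by positivity) (Real.exp_pos K).le two_ne_zero).mp h3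
    rw [div_mul_eq_mul_div, one_mul, le_div_iff₀ hm0]
    exact h6
  -- zeta has no zeros in the disc
  have hne : ∀ α : ℂ, ‖α‖ ≤ R / L → riemannZeta (1 / 2 + α + t * I) ≠ 0 := by
    intro α hα h0
    have hDd : DifferentiableOn ℂ (fun α : ℂ => (T : ℂ) * Dd T u (((1 / 2 : ℂ) + t * I) + α))
        (Metric.closedBall 0 (2 * R / L)) := by
      have hT1' : (1 : ℝ) ≤ T := by linarith
      have hell := ell_pos hT0
      have hc : Differentiable ℂ (fun α : ℂ => ((1 / 2 : ℂ) + t * I) + α) := by fun_prop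
      have hP : Differentiable ℂ (fun α : ℂ => PX T (-ell T) u (((1 / 2 : ℂ) + t * I) + α)) :=
        (PX_diff hT1' (by linarith)).comp hc
      have hM : Differentiable ℂ (fun α : ℂ => mm T (((1 / 2 : ℂ) + t * I) + α)) := (mm_diff hT0).comp hc
      unfold Dd
      exact ((hzd.mul hP.differentiableOn).sub hM.differentiableOn).const_mul _
    have h1 := sup_circle hR0 hL0 hDd hα
    simp only [hz, norm_mul, Complex.norm_real, Real.norm_of_nonneg hT0.le] at h1
    have h2 := h1.trans hH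
    have hD0 : Dd T u (1 / 2 + α + t * I) = -mm T (1 / 2 + α + t * I) := by
      rw [Dd, h0, zero_mul, zero_sub]
    rw [hD0, norm_neg] at h2
    obtain ⟨hα1, hα2⟩ := hball α (hα.trans hR2L)
    have hα1' := abs_le.mp hα1
    have hα2' := abs_le.mp hα2
    have h3 := mm_lower (T := T) (by linarith) (ρ := 1 / 2 + α + t * I)
      (by simp; linarith [hα1'.1]) (by simp; linarith [hα2'.1]) (by simp; linarith [hα2'.2])
    have h4 : 9 / 10 ≤ T * ‖mm T (1 / 2 + α + t * I)‖ := by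
      have h5 := mul_le_mul_of_nonneg_left h3 hT0.le
      have h6 : T * (9 / 10 / T) = 9 / 10 := by field_simp
      rw [h6] at h5
      exact h5
    have hpi := Real.pi_gt_three
    nlinarith
  have hκm : 1 / m * Real.exp (-K1) ≤ ‖riemannZeta (1 / 2 + ((a / Real.log T : ℝ) : ℂ) + t * I)‖ := by
    have h1 : Real.exp (-K1) = κ := by
      rw [hK1, Real.log_div one_ne_zero hκ.ne', Real.log_one, zero_sub, neg_neg, Real.exp_log hκ]
    rw [h1, div_mul_eq_mul_div, one_mul, div_le_iff₀ hm0]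
    exact hfa
  have hfin := hT1 T hTT1 t ht1 (by linarith) (1 / m) (by positivity) (fun α hα => ⟨hne α hα, hsup α hα⟩) hκm
  have h1 := mul_le_mul_of_nonneg_right hfin hm
  have h2 : κ * Real.exp (a / 4) ≤ ‖riemannZeta (1 / 2 + ((a / Real.log T : ℝ) : ℂ) + t * I)‖ * Real.exp (a / 4) * m := by
    have h3 := mul_le_mul_of_nonneg_right hfa (Real.exp_pos (a / 4)).le
    calc κ * Real.exp (a / 4) ≤ ‖riemannZeta (1 / 2 + ((a / Real.log T : ℝ) : ℂ) + t * I)‖ * m * Real.exp (a / 4) := h3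
      _ = _ := by ring
  linarith

end Pool.Agent.P4f18dfS
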