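import Pool.Agent.Lib.P4f18dfS.Fin2

/-!
# Assembly, part 3: the logarithmic mean square of `μ` over short proportional intervals (helper16)
-/

set_option autoImplicit false

open Complex MeasureTheory

namespace Pool.Agent.P4f18dfS

open Pool.Agent.P4f18dfV

/-- The argument, clipped below. -/
noncomputable def clp (R L x0 : ℝ) (p : ℝ × ℝ) : ℂ := 1 / 2 + circ R L p.2 + ((max x0 p.1 : ℝ) : ℂ) * I

lemma clp_continuous (R L x0 : ℝ) : Continuous (clp R L x0) := by
  unfold clp
  have h1 : Continuous (fun p : ℝ × ℝ => circ R L p.2) := (circ_continuous R L).comp continuous_snd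
  have h2 : Continuous (fun p : ℝ × ℝ => ((max x0 p.1 : ℝ) : ℂ)) :=
    Complex.continuous_ofReal.comp (continuous_const.max continuous_fst)
  exact (continuous_const.add h1).add (h2.mul continuous_const)

lemma clp_ne_one {R L x0 : ℝ} (hR : 0 ≤ R) (hL : 0 < L) (h0 : 2 * R / L < x0) (p : ℝ × ℝ) : clp R L x0 p ≠ 1 := by
  intro h
  have h1 := congrArg Complex.im h
  have h2 : (clp R L x0 p).im = (circ R L p.2).im + max x0 p.1 := by
    simp [clp]
  rw [h2, Complex.one_im] at h1
  have h3 := Complex.abs_im_le_norm (circ R L p.2)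
  rw [circ_norm hR hL] at h3
  have h4 := neg_abs_le (circ R L p.2).im
  have h5 := le_max_left x0 p.1
  linarith

lemma zeta_clp {R L x0 : ℝ} (hR : 0 ≤ R) (hL : 0 < L) (h0 : 2 * R / L < x0) :
    Continuous (fun p : ℝ × ℝ => riemannZeta (clp R L x0 p)) := by
  rw [continuous_iff_continuousAt]
  intro p
  have h1 : ContinuousAt riemannZeta (clp R L x0 p) :=
    (differentiableAt_riemannZeta (clp_ne_one hR hL h0 p)).continuousAt
  exact ContinuousAt.comp (f := clp R L x0) h1 (clp_continuous R L x0).continuousAt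

lemma clp_eq {R L x0 t θ : ℝ} (h : x0 ≤ t) : clp R L x0 (t, θ) = 1 / 2 + circ R L θ + t * I := by
  unfold clp
  rw [max_eq_right h]

/-- Order of integration. -/
lemma swap_le {x0 x1 : ℝ} (hx : x0 ≤ x1) {w : ℝ → ℝ} (hw : Continuous w) {F : ℝ × ℝ → ℝ} (hF : Continuous F) {B : ℝ}
    (hB : ∀ θ : ℝ, ∫ t in x0..x1, w t * F (t, θ) ≤ B) :
    ∫ t in x0..x1, w t * ∫ θ in (0 : ℝ)..(2 * Real.pi), F (t, θ) ≤ 2 * Real.pi * B := by
  have hc : Continuous (fun p : ℝ × ℝ => w p.1 * F p) := (hw.comp continuous_fst).mul hF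
  have h1 : ∫ t in x0..x1, w t * ∫ θ in (0 : ℝ)..(2 * Real.pi), F (t, θ) =
      ∫ t in x0..x1, ∫ θ in (0 : ℝ)..(2 * Real.pi), w t * F (t, θ) := by
    refine intervalIntegral.integral_congr (fun t _ => ?_)
    rw [intervalIntegral.integral_const_mul]
  rw [h1, intervalIntegral_intervalIntegral_swap (F := fun t θ => w t * F (t, θ))]
  · have hpi : (0 : ℝ) ≤ 2 * Real.pi := by positivity
    have h2 : ∫ θ in (0 : ℝ)..(2 * Real.pi), ∫ t in x0..x1, w t * F (t, θ) ≤
        ∫ θ in (0 : ℝ)..(2 * Real.pi), B := by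
      refine intervalIntegral.integral_mono_on hpi ?_ (by simp) (fun θ _ => hB θ)
      refine Continuous.intervalIntegrable ?_ _ _
      exact intervalIntegral.continuous_parametric_intervalIntegral_of_continuous'
        (f := fun θ t => w t * F (t, θ)) (hc.comp continuous_swap) x0 x1
    refine h2.trans (le_of_eq ?_)
    rw [intervalIntegral.integral_const, smul_eq_mul]
    ring
  · have hK : IsCompact (Set.Icc x0 x1 ×ˢ Set.Icc (0 : ℝ) (2 * Real.pi)) := isCompact_Icc.prod isCompact_Icc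
    have h3 : IntegrableOn (fun p : ℝ × ℝ => w p.1 * F p) (Set.Icc x0 x1 ×ˢ Set.Icc (0 : ℝ) (2 * Real.pi)) :=
      hc.continuousOn.integrableOn_compact hK
    refine h3.mono_set ?_
    rw [Set.uIoc_of_le hx, Set.uIoc_of_le (by positivity)]
    exact Set.prod_mono Set.Ioc_subset_Icc_self Set.Ioc_subset_Icc_self

lemma M1_continuous (T : ℝ) : Continuous (M1 T) := dp_continuous _ _

lemma M2_continuous (T : ℝ) : Continuous (M2 T) := dp_continuous _ _

lemma wt_continuous (τ Δ : ℝ) : Continuous (wt τ Δ) := by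
  unfold wt
  fun_prop

lemma wt_nonneg (τ Δ t : ℝ) : 0 ≤ wt τ Δ t := (Real.exp_pos _).le

/-- The logarithmic mean square of `μ` over proportional short intervals has the conjectured order as a lower bound. -/
theorem sharp_mean (ε : ℝ) (hε : 0 < ε) (hε1 : ε < 1) : ∃ c T0 : ℝ, 0 < c ∧ ∀ T : ℝ, T0 ≤ T →
    ∀ u : ℝ, 0 ≤ u → u ≤ Real.log T / ε →
    c * (Real.log T / T) ≤
      ∫ x in u..(u + (1 + ε) * Real.log T), (DD T (Real.exp x)) ^ 2 * Real.exp (-x) := by
  obtain ⟨c1, hc1, hfirst⟩ := first_moment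
  obtain ⟨C2, T2, hC2, hmass⟩ := mass
  obtain ⟨C0, hC0, htw⟩ := twisted
  -- the parameters
  set κ : ℝ := min 1 (c1 / (4 * C2)) with hκd
  have hκ : 0 < κ := lt_min one_pos (by positivity)
  have hκ1 : κ ≤ 1 := min_le_left _ _
  have hκC : κ * C2 ≤ c1 / 4 := by
    have h1 : κ ≤ c1 / (4 * C2) := min_le_right _ _
    calc κ * C2 ≤ c1 / (4 * C2) * C2 := mul_le_mul_of_nonneg_right h1 hC2.le
      _ = c1 / 4 := by field_simp
  obtain ⟨a, ha1, ha2⟩ := exists_a hc1 hC0 hκ
  obtain ⟨R, hRa, hR2⟩ := exists_R hc1 hC0 hκ hκ1 ha1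
  have hR1 : 1 ≤ R := by linarith
  have hR0 : 0 < R := by linarith
  set Ca : ℝ := C0 * (1 + a) ^ 20 with hCa
  have hCa0 : 0 < Ca := by positivity
  set K3 : ℝ := Real.sqrt (12 * C0 * Ca / c1 ^ 2) with hK3
  have hK3sq : K3 ^ 2 = 12 * C0 * Ca / c1 ^ 2 := Real.sq_sqrt (by positivity)
  have hK30 : 0 < K3 := Real.sqrt_pos.mpr (by positivity)
  have hK3lt : K3 < κ * Real.exp (a / 4) := by
    rw [← hK3sq] at ha2
    exact lt_of_pow_lt_pow_left₀ 2 (by positivity) ha2
  set G0 : ℝ := 2 * Real.pi * (C0 * Real.exp (12 * R) * (1 + 2 * R) ^ 20) with hG0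
  have hG00 : 0 < G0 := by
    have := Real.pi_pos
    positivity
  set K4 : ℝ := KK c1 C0 a R with hK4
  have hK4e : K4 = 1 + 12 * Ca * G0 / c1 ^ 2 := by rw [hK4, KK]
  have hK41 : 1 ≤ K4 := by
    rw [hK4e]
    have : 0 ≤ 12 * Ca * G0 / c1 ^ 2 := by positivity
    linarith
  have hK40 : 0 < K4 := by linarith
  obtain ⟨T3, hT3⟩ := good_point (a := a) (R := R) (K := Real.log K4 / 2) (K1 := Real.log (1 / κ)) (K3 := K3)
    (K4 := K4) (κ := κ) ha1 hRa hκ rfl rfl hK41 hκ1 hR2 hK3lt
  obtain ⟨T4, hT4⟩ := hfirst R hR1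
  obtain ⟨T5, hT5⟩ := htw (2 * R) (by linarith)
  obtain ⟨CD, T6, hCD, hT6⟩ := dsmall ε hε hε1 R hR1
  have hlim : ∀ᶠ T : ℝ in Filter.atTop, 8 * R + 4 + 24 * Ca * CD / c1 ^ 2 ≤ Real.log T :=
    Real.tendsto_log_atTop.eventually_ge_atTop _
  obtain ⟨T7, hT7⟩ := Filter.eventually_atTop.mp hlim
  set sd : ℝ := c1 ^ 2 / (24 * Ca * CD) with hsd
  have hsd0 : 0 < sd := by positivity
  refine ⟨sd ^ 2, max (max (max T2 T3) (max T4 T5)) (max (max T6 T7) 1000), by positivity, ?_⟩
  intro T hT u hu0 huL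
  have hTT2 : T2 ≤ T := (le_max_left _ _).trans ((le_max_left _ _).trans ((le_max_left _ _).trans hT))
  have hTT3 : T3 ≤ T := (le_max_right _ _).trans ((le_max_left _ _).trans ((le_max_left _ _).trans hT))
  have hTT4 : T4 ≤ T := (le_max_left _ _).trans ((le_max_right _ _).trans ((le_max_left _ _).trans hT))
  have hTT5 : T5 ≤ T := (le_max_right _ _).trans ((le_max_right _ _).trans ((le_max_left _ _).trans hT))
  have hTT6 : T6 ≤ T := (le_max_left _ _).trans ((le_max_left _ _).trans ((le_max_right _ _).trans hT))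
  have hTT7 : T7 ≤ T := (le_max_right _ _).trans ((le_max_left _ _).trans ((le_max_right _ _).trans hT))
  have hT1000 : 1000 ≤ T := (le_max_right _ _).trans ((le_max_right _ _).trans hT)
  have hT0 : 0 < T := by linarith
  have hLb := hT7 T hTT7
  set L := Real.log T with hL
  have hq : 0 < 24 * Ca * CD / c1 ^ 2 := by positivity
  have hL4 : 4 ≤ L := by linarith
  have hL0 : 0 < L := by linarith
  have hL8 : 8 * R ≤ L := by linarith
  by_contra hlt
  push Not at hlt
  set E := ∫ x in u..(u + (1 + ε) * L), (DD T (Real.exp x)) ^ 2 * Real.exp (-x) with hE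
  obtain ⟨τ, hτ1, hτ2, hD⟩ := hT6 T hTT6 u hu0 huL
  rw [← hL, ← hE] at hD
  set x0 := τ - T / 100 with hx0
  set x1 := τ + T / 100 with hx1
  have hx : x0 ≤ x1 := by rw [hx0, hx1]; linarith
  have hτ4 : τ ≤ T / 4 := by linarith
  have hx0b : T / 10 ≤ x0 := by rw [hx0]; linarith
  have hx1b : x1 ≤ T / 4 - 1 := by rw [hx1]; linarith
  have hDe : 0 < De T := Real.rpow_pos_of_pos hT0 _
  set X := De T * L with hX
  have hX0 : 0 < X := by positivity
  have hRL : 2 * R / L < x0 := by
    have h1 : 2 * R / L ≤ 1 / 4 := by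
      rw [div_le_iff₀ hL0]
      linarith
    linarith
  set w : ℝ → ℝ := fun t => wt τ (De T) t * ‖M2 T t‖ ^ 2 with hw
  have hwc : Continuous w := (wt_continuous _ _).mul ((M2_continuous T).norm.pow 2)
  have hw0 : ∀ t, 0 ≤ w t := fun t => mul_nonneg (wt_nonneg _ _ _) (by positivity)
  -- zeta on horizontal translates
  have hzc : ∀ x : ℝ, ContinuousOn (fun t : ℝ => riemannZeta (1 / 2 + (x : ℂ) + t * I)) (Set.Icc x0 x1) := by
    intro x t ht
    have h1 : (1 / 2 + (x : ℂ) + t * I) ≠ 1 := by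
      intro h
      have h2 := congrArg Complex.im h
      simp at h2
      have : 0 < x0 := by linarith
      linarith [ht.1]
    have h2 : ContinuousAt riemannZeta (1 / 2 + (x : ℂ) + t * I) := (differentiableAt_riemannZeta h1).continuousAt
    have h3 : Continuous (fun t : ℝ => (1 / 2 + (x : ℂ) + t * I : ℂ)) := by fun_prop
    exact (ContinuousAt.comp (f := fun t : ℝ => (1 / 2 + (x : ℂ) + t * I : ℂ)) h2 h3.continuousAt).continuousWithinAt
  set fa : ℝ → ℝ := fun t => ‖riemannZeta (1 / 2 + ((a / L : ℝ) : ℂ) + t * I)‖ * ‖M1 T t‖ with hfa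
  set f0 : ℝ → ℝ := fun t => ‖riemannZeta (1 / 2 + t * I)‖ * ‖M1 T t‖ with hf0
  have hM1c : ContinuousOn (fun t => ‖M1 T t‖) (Set.Icc x0 x1) := (M1_continuous T).norm.continuousOn
  have hfac : ContinuousOn fa (Set.Icc x0 x1) := (hzc (a / L)).norm.mul hM1c
  have hf0c : ContinuousOn f0 (Set.Icc x0 x1) := by
    have h1 := (hzc 0).norm.mul hM1c
    refine h1.congr (fun t _ => ?_)
    simp [hf0]
  set Z : ℝ × ℝ → ℝ := fun p => ‖riemannZeta (clp R L x0 p)‖ ^ 2 * ‖M1 T p.1‖ ^ 2 with hZ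
  have hZc : Continuous Z :=
    ((zeta_clp hR0.le hL0 hRL).norm.pow 2).mul (((M1_continuous T).comp continuous_fst).norm.pow 2)
  set W : ℝ × ℝ → ℝ := fun p => T * ‖Dd T u (clp R L x0 p)‖ with hW
  have hWc : Continuous W := by
    have hT1' : (1 : ℝ) ≤ T := by linarith
    have hell := ell_pos hT0
    have hP : Continuous (fun p => PX T (-ell T) u (clp R L x0 p)) :=
      (PX_diff hT1' (by linarith)).continuous.comp (clp_continuous R L x0)
    have hM : Continuous (fun p => mm T (clp R L x0 p)) := (mm_diff hT0).continuous.comp (clp_continuous R L x0)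
    have h1 : Continuous (fun p => Dd T u (clp R L x0 p)) := by
      unfold Dd
      exact ((zeta_clp hR0.le hL0 hRL).mul hP).sub hM
    exact h1.norm.const_mul T
  set G : ℝ → ℝ := fun t => ∫ θ in (0 : ℝ)..(2 * Real.pi), Z (t, θ) with hG
  set H : ℝ → ℝ := fun t => ∫ θ in (0 : ℝ)..(2 * Real.pi), W (t, θ) with hH
  have h2pi : (0 : ℝ) ≤ 2 * Real.pi := by positivity
  have hGc : Continuous G := intervalIntegral.continuous_parametric_intervalIntegral_of_continuous'
    (f := fun t θ => Z (t, θ)) hZc 0 (2 * Real.pi)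
  have hHc : Continuous H := intervalIntegral.continuous_parametric_intervalIntegral_of_continuous'
    (f := fun t θ => W (t, θ)) hWc 0 (2 * Real.pi)
  have hG0' : ∀ t, 0 ≤ G t := fun t => intervalIntegral.integral_nonneg h2pi (fun θ _ => by positivity)
  have hH0' : ∀ t, 0 ≤ H t := fun t => intervalIntegral.integral_nonneg h2pi (fun θ _ => by positivity)
  -- moments
  have hLRe : ∀ α : ℂ, ‖α‖ ≤ 2 * R / L → |α.re| ≤ 2 * R / L ∧ |α.im| ≤ T / 50 := by
    intro α hα
    refine ⟨(Complex.abs_re_le_norm α).trans hα, (Complex.abs_im_le_norm α).trans (hα.trans ?_)⟩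
    have h1 : 2 * R / L ≤ 1 / 4 := by
      rw [div_le_iff₀ hL0]
      linarith
    linarith
  have i1 : c1 * X ≤ ∫ t in x0..x1, w t * fa t := by
    have h1 := hT4 T hTT4 τ hτ1 hτ4 a (by linarith) (by linarith)
    refine h1.trans (le_of_eq ?_)
    refine intervalIntegral.integral_congr (fun t _ => ?_)
    simp only [hw, hfa]
    ring
  have i2 : ∫ t in x0..x1, w t ≤ C2 * X := hmass T hTT2 τ
  have i3 : ∫ t in x0..x1, w t * fa t ^ 2 ≤ Ca * X := by
    have hα : ‖((a / L : ℝ) : ℂ)‖ = a / L := by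
      rw [Complex.norm_real, Real.norm_of_nonneg (by positivity)]
    have h1 := (hT5 T hTT5 τ hτ1 hτ4 ((a / L : ℝ) : ℂ)
      ((hLRe _ (by rw [hα, div_le_div_iff_of_pos_right hL0]; linarith)).1)
      ((hLRe _ (by rw [hα, div_le_div_iff_of_pos_right hL0]; linarith)).2)).1
    rw [hα, ← hL, Complex.ofReal_re] at h1
    have h2 : L * (a / L) = a := by field_simp
    rw [h2, max_eq_right (by linarith), mul_zero, Real.exp_zero, mul_one] at h1
    refine (le_of_eq ?_).trans h1
    refine intervalIntegral.integral_congr (fun t _ => ?_)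
    simp only [hw, hfa]
    ring
  have i4 : ∫ t in x0..x1, w t * f0 t ^ 2 ≤ C0 * X := by
    have h1 := (hT5 T hTT5 τ hτ1 hτ4 0 (by simp; positivity) (by simp; positivity)).1
    simp only [Complex.zero_re, mul_zero, neg_zero, max_self, Real.exp_zero, mul_one, norm_zero, add_zero, one_pow] at h1
    refine (le_of_eq ?_).trans h1
    refine intervalIntegral.integral_congr (fun t _ => ?_)
    simp only [hw, hf0]
    ring
  have i5 : ∫ t in x0..x1, w t * G t ≤ G0 * X := by
    have h0 : G0 * X = 2 * Real.pi * (C0 * Real.exp (12 * R) * (1 + 2 * R) ^ 20 * X) := by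
      rw [hG0]
      ring
    rw [h0]
    refine swap_le hx hwc hZc (fun θ => ?_)
    have hn := circ_norm hR0.le hL0 θ
    have h1 := (hT5 T hTT5 τ hτ1 hτ4 (circ R L θ) (hLRe _ hn.le).1 (hLRe _ hn.le).2).1
    rw [hn, ← hL] at h1
    have h2 : L * (2 * R / L) = 2 * R := by field_simp
    rw [h2] at h1
    have h3 : max (-(L * (circ R L θ).re)) 0 ≤ 2 * R := by
      refine max_le ?_ (by linarith)
      have h4 := (hLRe _ hn.le).1
      have h5 := neg_abs_le (circ R L θ).re
      have h6 : -(circ R L θ).re ≤ 2 * R / L := by linarith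
      have h7 := mul_le_mul_of_nonneg_left h6 hL0.le
      rw [h2] at h7
      linarith
    have h4 : Real.exp (6 * max (-(L * (circ R L θ).re)) 0) ≤ Real.exp (12 * R) := by
      rw [Real.exp_le_exp]
      linarith
    have h5 : C0 * Real.exp (6 * max (-(L * (circ R L θ).re)) 0) * (1 + 2 * R) ^ 20 * X ≤
        C0 * Real.exp (12 * R) * (1 + 2 * R) ^ 20 * X := by
      refine mul_le_mul_of_nonneg_right ?_ hX0.le
      refine mul_le_mul_of_nonneg_right ?_ (by positivity)
      exact mul_le_mul_of_nonneg_left h4 hC0.le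
    refine le_trans (le_of_eq ?_) (h1.trans h5)
    refine intervalIntegral.integral_congr (fun t ht => ?_)
    rw [Set.uIcc_of_le hx] at ht
    simp only [hw, hZ]
    rw [clp_eq ht.1]
    ring
  have i6 : ∫ t in x0..x1, w t * H t ≤ c1 ^ 2 / (12 * Ca) * X := by
    have h1 : ∫ t in x0..x1, w t * H t ≤ CD * De T * (Real.sqrt (L * T * E) + 1) := by
      refine le_trans (le_of_eq ?_) hD
      refine intervalIntegral.integral_congr (fun t ht => ?_)
      rw [Set.uIcc_of_le hx] at ht
      simp only [hw, hH, hW]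
      rw [mul_assoc]
      congr 2
      refine intervalIntegral.integral_congr (fun θ _ => ?_)
      rw [clp_eq ht.1]
    refine h1.trans ?_
    have h2 : L * T * E ≤ (sd * L) ^ 2 := by
      have h3 := mul_le_mul_of_nonneg_left hlt.le (by positivity : 0 ≤ L * T)
      refine h3.trans (le_of_eq ?_)
      field_simp
    have h3 : Real.sqrt (L * T * E) ≤ sd * L := by
      refine (Real.sqrt_le_sqrt h2).trans (le_of_eq ?_)
      exact Real.sqrt_sq (by positivity)
    have h4 : 1 ≤ sd * L := by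
      have h5 : 1 / sd ≤ L := by
        have h6 : 1 / sd = 24 * Ca * CD / c1 ^ 2 := by
          rw [hsd]
          field_simp
        rw [h6]
        linarith
      rw [div_le_iff₀ hsd0] at h5
      linarith
    have h5 : CD * De T * (Real.sqrt (L * T * E) + 1) ≤ CD * De T * (2 * (sd * L)) := by
      refine mul_le_mul_of_nonneg_left ?_ (by positivity)
      linarith
    refine h5.trans (le_of_eq ?_)
    rw [hsd, hX]
    field_simp
    ring
  -- the contradiction
  set lam : ℝ := c1 / (2 * Ca) with hlam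
  have hlam0 : 0 < lam := by positivity
  have hfin : κ * (C2 * X) + (lam * (Ca * X) + (C0 * X / K3 ^ 2 + G0 * X / K4 + c1 ^ 2 / (12 * Ca) * X) / lam) / 2 <
      c1 * X := by
    have e1 : κ * (C2 * X) ≤ c1 / 4 * X := by
      have := mul_le_mul_of_nonneg_right hκC hX0.le
      linarith
    have e2 : lam * (Ca * X) = c1 / 2 * X := by
      rw [hlam]
      field_simp
    have e3 : C0 * X / K3 ^ 2 = c1 ^ 2 / (12 * Ca) * X := by
      rw [hK3sq]
      field_simp
    have e4 : G0 * X / K4 ≤ c1 ^ 2 / (12 * Ca) * X := by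
      rw [div_le_iff₀ hK40, hK4e]
      have h1 : c1 ^ 2 / (12 * Ca) * X * (1 + 12 * Ca * G0 / c1 ^ 2) = c1 ^ 2 / (12 * Ca) * X + G0 * X := by
        field_simp
      rw [h1]
      have : 0 ≤ c1 ^ 2 / (12 * Ca) * X := by positivity
      linarith
    have e5 : (C0 * X / K3 ^ 2 + G0 * X / K4 + c1 ^ 2 / (12 * Ca) * X) / lam ≤ c1 / 2 * X := by
      rw [div_le_iff₀ hlam0]
      have h1 : c1 / 2 * X * lam = 3 * (c1 ^ 2 / (12 * Ca) * X) := by
        rw [hlam]
        field_simp
        norm_num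
      rw [h1, e3]
      linarith
    have hcX : 0 < c1 * X := by positivity
    linarith
  obtain ⟨t, ht, g1, g2, g3, g4⟩ := exists_good hx hwc hfac hf0c hGc.continuousOn hHc.continuousOn hw0 hG0' hH0'
    hlam0 hK30 hK40 hκ.le (fun t => by positivity) i1 i2 i3 i4 i5 i6 hfin
  refine hT3 T hTT3 u hu0 t (by linarith [ht.1]) (by linarith [ht.2]) ‖M1 T t‖ (norm_nonneg _) g1 g2 ?_ ?_
  · refine le_trans (le_of_eq ?_) g3
    refine intervalIntegral.integral_congr (fun θ _ => ?_)
    simp only [hZ]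
    rw [clp_eq ht.1]
  · refine le_trans (le_of_eq ?_) g4
    refine intervalIntegral.integral_congr (fun θ _ => ?_)
    simp only [hW]
    rw [clp_eq ht.1]

end Pool.Agent.P4f18dfS
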