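import Pool.Agent.Lib.P4f18dfV.Asm5

/-!
# The last step: from the logarithmic mean square of `DD` to short intervals

`last_step`: if `∫_{log Y}^{log Y + (1+ε) log T} DD(T, e^x)² e^{-x} dx ≥ c log T / T` (for every `ε`), then
(a) `∫_Y^{Y T^(1+ε)} ∫_{x/T}^{4x/T} (M(x;H)² / H) dH/H dx/x ≥ c log T` (logarithmic mean over both variables), and
(b) there are `X` and `H ∈ [X/T, 8X/T]` with `(1/X) ∫_X^{2X} M(x;H)² dx ≥ c H`.
-/

set_option autoImplicit false

open MeasureTheory
open Pool.Agent.P4f18dfV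

namespace Pool.Agent.P4f18dfS

namespace LastStep

/-- Sum of `μ(n)` over `n ≤ L`, `|n - x| < H / 2`. -/
noncomputable def MT (L : ℕ) (x H : ℝ) : ℝ :=
  ∑ n ∈ Finset.range (L + 1), if |(n : ℝ) - x| < H / 2 then ((ArithmeticFunction.moebius n : ℤ) : ℝ) else 0

lemma MH_eq_MT {L : ℕ} {x H : ℝ} (hH : 0 ≤ H) (hL : x + H ≤ L) : MH x H = MT L x H := by
  unfold MH MT
  rw [← Finset.sum_filter]
  refine Finset.sum_congr ?_ fun _ _ => rfl
  ext n
  rw [Finset.mem_filter, Finset.mem_filter, Finset.mem_range, Finset.mem_range]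
  constructor
  · rintro ⟨h1, h2⟩
    refine ⟨?_, h2⟩
    have : ⌊x + H⌋₊ ≤ L := Nat.floor_le_of_le hL
    omega
  · rintro ⟨_, h2⟩
    refine ⟨?_, h2⟩
    have h3 : (n : ℝ) ≤ x + H := by
      have := (abs_lt.1 h2).2
      linarith
    have := Nat.le_floor h3
    omega

lemma measurable_MT (L : ℕ) : Measurable (fun z : ℝ × ℝ => MT L z.1 z.2) := by
  unfold MT
  refine Finset.measurable_sum _ fun n _ => ?_
  refine Measurable.ite ?_ measurable_const measurable_const
  exact measurableSet_lt ((measurable_const.sub measurable_fst).abs) (measurable_snd.div_const _)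

lemma abs_MT (L : ℕ) (x H : ℝ) : |MT L x H| ≤ L + 1 := by
  unfold MT
  refine (Finset.abs_sum_le_sum_abs _ _).trans ?_
  have h : ∀ n ∈ Finset.range (L + 1),
      |(if |(n : ℝ) - x| < H / 2 then ((ArithmeticFunction.moebius n : ℤ) : ℝ) else 0)| ≤ 1 := by
    intro n _
    split_ifs
    · have := ArithmeticFunction.abs_moebius_le_one (n := n)
      exact_mod_cast this
    · simp
  refine (Finset.sum_le_sum h).trans ?_
  simp

lemma MT_sq_le (L : ℕ) (x H : ℝ) : (MT L x H) ^ 2 ≤ ((L : ℝ) + 1) ^ 2 :=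
  sq_le_sq' (by linarith [(abs_le.1 (abs_MT L x H)).1]) (abs_le.1 (abs_MT L x H)).2

/-- Exact decomposition. -/
lemma DD_eq {T y v : ℝ} {L : ℕ} (hT : 0 < T) (hy : 0 < y) (hv : 1 / T * y < v) (hL : y + v ≤ L) :
    DD T y = MT L (y + v / 2) v - MT L (y * (1 + 1 / T) + (v - 1 / T * y) / 2) (v - 1 / T * y) := by
  have hη : 0 < 1 / T := by positivity
  set η := 1 / T with hηdef
  have h1 : DD T y = ∑ n ∈ Finset.range (L + 1),
      if (y < n ∧ (n : ℝ) ≤ y * (1 + η)) then ((ArithmeticFunction.moebius n : ℤ) : ℝ) else 0 := by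
    unfold DD
    rw [← Finset.sum_filter]
    refine Finset.sum_congr ?_ fun _ _ => rfl
    ext n
    rw [Finset.mem_Ioc, Finset.mem_filter, Finset.mem_range, Nat.floor_lt hy.le,
      Nat.le_floor_iff (by positivity)]
    constructor
    · rintro ⟨h1, h2⟩
      refine ⟨?_, h1, h2⟩
      have h3 : (n : ℝ) ≤ L := by nlinarith
      have : n ≤ L := by exact_mod_cast h3
      omega
    · rintro ⟨_, h1, h2⟩
      exact ⟨h1, h2⟩
  rw [h1]
  unfold MT
  rw [← Finset.sum_sub_distrib]
  refine Finset.sum_congr rfl fun n _ => ?_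
  have e1 : |(n : ℝ) - (y + v / 2)| < v / 2 ↔ (y < n ∧ (n : ℝ) < y + v) := by
    rw [abs_lt]
    constructor
    · rintro ⟨h1, h2⟩
      constructor <;> linarith
    · rintro ⟨h1, h2⟩
      constructor <;> linarith
  have e2 : |(n : ℝ) - (y * (1 + η) + (v - η * y) / 2)| < (v - η * y) / 2 ↔
      (y * (1 + η) < n ∧ (n : ℝ) < y + v) := by
    rw [abs_lt]
    constructor
    · rintro ⟨h1, h2⟩
      constructor <;> linarith
    · rintro ⟨h1, h2⟩
      constructor <;> linarith
  simp only [e1, e2]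
  have hyη : y ≤ y * (1 + η) := by nlinarith
  by_cases ha : y < (n : ℝ)
  · by_cases hb : (n : ℝ) ≤ y * (1 + η)
    · have hc : (n : ℝ) < y + v := by nlinarith
      simp [ha, hb, hc, not_lt.2 hb]
    · have hb' : y * (1 + η) < n := not_le.1 hb
      by_cases hc : (n : ℝ) < y + v
      · simp [ha, hb, hb', hc]
      · simp [hb, hc]
  · have hb' : ¬ (y * (1 + η) < n) := fun h => ha (lt_of_le_of_lt hyη h)
    simp [ha, hb']

lemma shear1 {k : ℝ × ℝ → ENNReal} (hk : Measurable k) :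
    ∫⁻ y : ℝ, ∫⁻ v : ℝ, k (y + v / 2, v) = ∫⁻ v : ℝ, ∫⁻ x : ℝ, k (x, v) := by
  have h1 : Measurable (fun z : ℝ × ℝ => k (z.1 + z.2 / 2, z.2)) :=
    hk.comp ((measurable_fst.add (measurable_snd.div_const _)).prodMk measurable_snd)
  rw [lintegral_lintegral_swap (f := fun y v => k (y + v / 2, v)) h1.aemeasurable]
  refine lintegral_congr fun v => ?_
  exact lintegral_add_right_eq_self (fun x => k (x, v)) (v / 2)

lemma scale_le {g : ℝ → ENNReal} (hg : Measurable g) {a : ℝ} (ha : 1 ≤ a) :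
    ∫⁻ y : ℝ, g (y * a) ≤ ∫⁻ y : ℝ, g y := by
  have h1 : ∫⁻ y : ℝ, g (y * a) = ∫⁻ y : ℝ, g y ∂(Measure.map (fun y : ℝ => y * a) volume) :=
    (lintegral_map hg (measurable_id.mul_const a)).symm
  rw [h1, Real.map_volume_mul_right (by linarith : a ≠ 0), lintegral_smul_measure]
  have h2 : ENNReal.ofReal |a⁻¹| ≤ 1 := by
    rw [ENNReal.ofReal_le_one, abs_of_pos (by positivity)]
    exact inv_le_one_of_one_le₀ ha
  calc ENNReal.ofReal |a⁻¹| * ∫⁻ y : ℝ, g y ≤ 1 * ∫⁻ y : ℝ, g y := by gcongr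
    _ = _ := one_mul _

lemma shear2 {k : ℝ × ℝ → ENNReal} (hk : Measurable k) {η : ℝ} (hη : 0 ≤ η) :
    ∫⁻ y : ℝ, ∫⁻ v : ℝ, k (y * (1 + η) + (v - η * y) / 2, v - η * y) ≤ ∫⁻ v : ℝ, ∫⁻ x : ℝ, k (x, v) := by
  have h0 : ∀ y : ℝ, ∫⁻ v : ℝ, k (y * (1 + η) + (v - η * y) / 2, v - η * y) =
      ∫⁻ v : ℝ, k (y * (1 + η) + v / 2, v) := fun y =>
    lintegral_sub_right_eq_self (fun v => k (y * (1 + η) + v / 2, v)) (η * y)
  simp only [h0]
  have h1 : Measurable (fun z : ℝ × ℝ => k (z.1 * (1 + η) + z.2 / 2, z.2)) :=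
    hk.comp (((measurable_fst.mul_const _).add (measurable_snd.div_const _)).prodMk measurable_snd)
  rw [lintegral_lintegral_swap (f := fun y v => k (y * (1 + η) + v / 2, v)) h1.aemeasurable]
  refine lintegral_mono fun v => ?_
  have h2 : Measurable (fun x : ℝ => k (x + v / 2, v)) :=
    hk.comp ((measurable_id.add_const _).prodMk measurable_const)
  refine (scale_le h2 (a := 1 + η) (by linarith)).trans ?_
  exact le_of_eq (lintegral_add_right_eq_self (fun x => k (x, v)) (v / 2))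

/-- The region. -/
def RR (T Y Y1 : ℝ) : Set (ℝ × ℝ) :=
  {z | (Y ≤ z.1 ∧ z.1 ≤ 2 * Y1) ∧ z.1 / T ≤ z.2 ∧ z.2 ≤ 4 * z.1 / T}

lemma RR_meas (T Y Y1 : ℝ) : MeasurableSet (RR T Y Y1) := by
  unfold RR
  refine MeasurableSet.inter (MeasurableSet.inter ?_ ?_) (MeasurableSet.inter ?_ ?_)
  · exact measurableSet_le measurable_const measurable_fst
  · exact measurableSet_le measurable_fst measurable_const
  · exact measurableSet_le (measurable_fst.div_const _) measurable_snd
  · exact measurableSet_le measurable_snd ((measurable_fst.const_mul _).div_const _)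

/-- The density. -/
noncomputable def kap (L : ℕ) (T Y Y1 : ℝ) (z : ℝ × ℝ) : ℝ :=
  (RR T Y Y1).indicator (fun z => (MT L z.1 z.2) ^ 2 / (z.2 ^ 2 * z.1)) z

lemma kap_meas (L : ℕ) (T Y Y1 : ℝ) : Measurable (kap L T Y Y1) := by
  unfold kap
  refine Measurable.indicator ?_ (RR_meas T Y Y1)
  exact ((measurable_MT L).pow_const 2).div ((measurable_snd.pow_const 2).mul measurable_fst)

lemma kap_nonneg {L : ℕ} {T Y Y1 : ℝ} (hY : 0 ≤ Y) (z : ℝ × ℝ) : 0 ≤ kap L T Y Y1 z := by
  unfold kap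
  refine Set.indicator_nonneg (fun z hz => ?_) z
  have : 0 ≤ z.1 := hY.trans hz.1.1
  positivity

lemma kap_integrable {L : ℕ} {T Y Y1 : ℝ} (hT : 0 < T) (hY : 0 < Y) :
    Integrable (kap L T Y Y1) (volume.prod volume) := by
  have hsub : RR T Y Y1 ⊆ Set.Icc Y (2 * Y1) ×ˢ Set.Icc (Y / T) (4 * (2 * Y1) / T) := by
    rintro z ⟨⟨h1, h2⟩, h3, h4⟩
    refine ⟨⟨h1, h2⟩, ?_, ?_⟩
    · exact le_trans (div_le_div_of_nonneg_right h1 hT.le) h3
    · refine h4.trans (div_le_div_of_nonneg_right (by linarith) hT.le)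
  have hfin : (volume.prod volume) (RR T Y Y1) ≠ ⊤ := by
    refine ne_top_of_le_ne_top ?_ (measure_mono hsub)
    rw [Measure.prod_prod, Real.volume_Icc, Real.volume_Icc]
    exact ENNReal.mul_ne_top ENNReal.ofReal_ne_top ENNReal.ofReal_ne_top
  have h1 : IntegrableOn (fun _ : ℝ × ℝ => ((L : ℝ) + 1) ^ 2 / ((Y / T) ^ 2 * Y)) (RR T Y Y1)
      (volume.prod volume) := integrableOn_const hfin
  rw [← integrable_indicator_iff (RR_meas T Y Y1)] at h1
  refine h1.mono' (kap_meas L T Y Y1).aestronglyMeasurable (Filter.Eventually.of_forall fun z => ?_)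
  rw [Real.norm_eq_abs, abs_of_nonneg (kap_nonneg hY.le z)]
  unfold kap
  by_cases hz : z ∈ RR T Y Y1
  · rw [Set.indicator_of_mem hz, Set.indicator_of_mem hz]
    have hz1 : Y ≤ z.1 := hz.1.1
    have hz2 : Y / T ≤ z.2 := le_trans (div_le_div_of_nonneg_right hz1 hT.le) hz.2.1
    have hYT : 0 < Y / T := by positivity
    refine div_le_div₀ (by positivity) (MT_sq_le L _ _) (by positivity) ?_
    exact mul_le_mul (pow_le_pow_left₀ hYT.le hz2 2) hz1 hY.le (by positivity)
  · rw [Set.indicator_of_notMem hz, Set.indicator_of_notMem hz]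

/-- The double integral. -/
lemma kap_integral {L : ℕ} {T Y Y1 : ℝ} (hT : 4 ≤ T) (hY : 0 < Y) (hYY : Y ≤ 2 * Y1) (hL : 4 * Y1 ≤ L) :
    ∫ z, kap L T Y Y1 z ∂(volume.prod volume) =
      ∫ x in Y..(2 * Y1), (∫ H in (x / T)..(4 * x / T), (MH x H) ^ 2 / H ^ 2) / x := by
  have hT0 : 0 < T := by linarith
  rw [integral_prod _ (kap_integrable hT0 hY), intervalIntegral.integral_of_le hYY,
    ← integral_Icc_eq_integral_Ioc, ← integral_indicator measurableSet_Icc]
  refine integral_congr_ae (Filter.Eventually.of_forall fun x => ?_)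
  simp only
  by_cases hx : x ∈ Set.Icc Y (2 * Y1)
  · rw [Set.indicator_of_mem hx]
    have hx0 : 0 < x := lt_of_lt_of_le hY hx.1
    have hxT : x / T ≤ 4 * x / T := div_le_div_of_nonneg_right (by linarith) hT0.le
    have hx4 : 4 * x / T ≤ x := by
      rw [div_le_iff₀ hT0]
      nlinarith
    rw [intervalIntegral.integral_of_le hxT, ← integral_Icc_eq_integral_Ioc, ← integral_div,
      ← integral_indicator measurableSet_Icc]
    refine integral_congr_ae (Filter.Eventually.of_forall fun H => ?_)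
    simp only
    unfold kap
    by_cases hH : H ∈ Set.Icc (x / T) (4 * x / T)
    · have hz : (x, H) ∈ RR T Y Y1 := ⟨hx, hH⟩
      have hH0 : 0 < H := lt_of_lt_of_le (by positivity) hH.1
      rw [Set.indicator_of_mem hz, Set.indicator_of_mem hH,
        MH_eq_MT hH0.le (by linarith [hH.2, hx.2] : x + H ≤ L)]
      simp only
      rw [div_div]
    · have hz : (x, H) ∉ RR T Y Y1 := fun h => hH h.2
      rw [Set.indicator_of_notMem hz, Set.indicator_of_notMem hH]
  · rw [Set.indicator_of_notMem hx]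
    have : ∀ H : ℝ, kap L T Y Y1 (x, H) = 0 := by
      intro H
      unfold kap
      exact Set.indicator_of_notMem (fun h => hx h.1) _
    simp [this]

lemma pointwise {L : ℕ} {T Y Y1 y v : ℝ} (hT : 4 ≤ T) (hY : 1 ≤ Y) (hy : Y ≤ y) (hy1 : y ≤ Y1)
    (hL : 4 * Y1 ≤ L) (hv1 : 3 * (1 / T * y) ≤ v) (hv2 : v ≤ 4 * (1 / T * y)) :
    (DD T y) ^ 2 / y ^ 2 / (1 / T * y) ≤ 50 / T * kap L T Y Y1 (y + v / 2, v) +
      50 / T * kap L T Y Y1 (y * (1 + 1 / T) + (v - 1 / T * y) / 2, v - 1 / T * y) := by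
  have hT0 : 0 < T := by linarith
  have hη0 : 0 < 1 / T := by positivity
  have hη4 : 1 / T ≤ 1 / 4 := one_div_le_one_div_of_le (by norm_num) hT
  have e50 : 50 / T = 50 * (1 / T) := by ring
  rw [e50]
  have hR : ∀ z : ℝ × ℝ, z ∈ RR T Y Y1 ↔ (Y ≤ z.1 ∧ z.1 ≤ 2 * Y1) ∧ 1 / T * z.1 ≤ z.2 ∧
      z.2 ≤ 4 * (1 / T * z.1) := by
    intro z
    unfold RR
    rw [Set.mem_setOf_eq]
    have e1 : z.1 / T = 1 / T * z.1 := by ring
    have e2 : 4 * z.1 / T = 4 * (1 / T * z.1) := by ring
    rw [e1, e2]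
  have hy0 : 0 < y := by linarith
  set η := 1 / T with hη
  have hηy : 0 < η * y := by positivity
  have hηy4 : η * y ≤ y / 4 := by nlinarith
  rw [DD_eq (L := L) (v := v) hT0 hy0 (by rw [← hη]; linarith) (by linarith)]
  rw [← hη]
  set x1 := y + v / 2 with hx1
  set x2 := y * (1 + η) + (v - η * y) / 2 with hx2
  set w := v - η * y with hw
  have hx1a : y ≤ x1 := by rw [hx1]; linarith
  have hx1b : x1 ≤ 3 / 2 * y := by rw [hx1]; linarith
  have hx2a : y ≤ x2 := by rw [hx2, hw]; linarith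
  have hx2b : x2 ≤ 13 / 8 * y := by rw [hx2, hw]; linarith
  have hwa : 2 * (η * y) ≤ w := by rw [hw]; linarith
  have hwb : w ≤ 3 * (η * y) := by rw [hw]; linarith
  have hz1 : (x1, v) ∈ RR T Y Y1 := by
    rw [hR]
    refine ⟨⟨by simp only; linarith, by simp only; linarith⟩, ?_, ?_⟩
    · simp only
      have : η * x1 ≤ η * (3 / 2 * y) := mul_le_mul_of_nonneg_left hx1b hη0.le
      linarith
    · simp only
      have : η * y ≤ η * x1 := mul_le_mul_of_nonneg_left hx1a hη0.le
      linarith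
  have hz2 : (x2, w) ∈ RR T Y Y1 := by
    rw [hR]
    refine ⟨⟨by simp only; linarith, by simp only; linarith⟩, ?_, ?_⟩
    · simp only
      have : η * x2 ≤ η * (13 / 8 * y) := mul_le_mul_of_nonneg_left hx2b hη0.le
      linarith
    · simp only
      have : η * y ≤ η * x2 := mul_le_mul_of_nonneg_left hx2a hη0.le
      linarith
  unfold kap
  rw [Set.indicator_of_mem hz1, Set.indicator_of_mem hz2]
  simp only
  set A := MT L x1 v with hA
  set B := MT L x2 w with hB
  have hAB : (A - B) ^ 2 ≤ 2 * A ^ 2 + 2 * B ^ 2 := by nlinarith [sq_nonneg (A + B)]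
  have hy3 : 0 < y ^ 2 * (η * y) := by positivity
  have hx10 : 0 < x1 := by linarith
  have hx20 : 0 < x2 := by linarith
  have hv0 : 0 < v := by linarith
  have hw0 : 0 < w := by linarith
  have h1 : 2 * A ^ 2 / (y ^ 2 * (η * y)) ≤ 50 * η * (A ^ 2 / (v ^ 2 * x1)) := by
    rw [mul_div_assoc', div_le_div_iff₀ hy3 (by positivity)]
    have h2 : v ^ 2 * x1 ≤ 16 * (η * y) ^ 2 * (3 / 2 * y) := by
      refine mul_le_mul ?_ hx1b hx10.le (by positivity)
      nlinarith
    have h3 : 0 ≤ A ^ 2 := sq_nonneg _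
    calc 2 * A ^ 2 * (v ^ 2 * x1) ≤ 2 * A ^ 2 * (16 * (η * y) ^ 2 * (3 / 2 * y)) :=
          mul_le_mul_of_nonneg_left h2 (by positivity)
      _ = 48 * (A ^ 2 * (η ^ 2 * y ^ 3)) := by ring
      _ ≤ 50 * (A ^ 2 * (η ^ 2 * y ^ 3)) := by
          have : 0 ≤ A ^ 2 * (η ^ 2 * y ^ 3) := by positivity
          linarith
      _ = _ := by ring
  have h2 : 2 * B ^ 2 / (y ^ 2 * (η * y)) ≤ 50 * η * (B ^ 2 / (w ^ 2 * x2)) := by
    rw [mul_div_assoc', div_le_div_iff₀ hy3 (by positivity)]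
    have h2 : w ^ 2 * x2 ≤ 9 * (η * y) ^ 2 * (13 / 8 * y) := by
      refine mul_le_mul ?_ hx2b hx20.le (by positivity)
      nlinarith
    have h3 : 0 ≤ B ^ 2 := sq_nonneg _
    calc 2 * B ^ 2 * (w ^ 2 * x2) ≤ 2 * B ^ 2 * (9 * (η * y) ^ 2 * (13 / 8 * y)) :=
          mul_le_mul_of_nonneg_left h2 (by positivity)
      _ = 117 / 4 * (B ^ 2 * (η ^ 2 * y ^ 3)) := by ring
      _ ≤ 50 * (B ^ 2 * (η ^ 2 * y ^ 3)) := by
          have : 0 ≤ B ^ 2 * (η ^ 2 * y ^ 3) := by positivity
          linarith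
      _ = _ := by ring
  rw [div_div]
  calc (A - B) ^ 2 / (y ^ 2 * (η * y)) ≤ (2 * A ^ 2 + 2 * B ^ 2) / (y ^ 2 * (η * y)) :=
        div_le_div_of_nonneg_right hAB hy3.le
    _ = 2 * A ^ 2 / (y ^ 2 * (η * y)) + 2 * B ^ 2 / (y ^ 2 * (η * y)) := add_div _ _ _
    _ ≤ _ := add_le_add h1 h2

/-- From proportional intervals to all intervals, logarithmic form. -/
theorem log_sv {T Y Y1 : ℝ} (hT : 4 ≤ T) (hY : 1 ≤ Y) (hYY : Y ≤ Y1) :
    ∫ y in Y..Y1, (DD T y) ^ 2 / y ^ 2 ≤
      100 / T * ∫ x in Y..(2 * Y1), (∫ H in (x / T)..(4 * x / T), (MH x H) ^ 2 / H ^ 2) / x := by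
  have hT0 : 0 < T := by linarith
  have hY0 : 0 < Y := by linarith
  set L : ℕ := ⌈4 * Y1⌉₊ with hLdef
  have hL : 4 * Y1 ≤ L := Nat.le_ceil _
  rw [← kap_integral (L := L) hT hY0 (by linarith) hL]
  set k : ℝ × ℝ → ENNReal := fun z => ENNReal.ofReal (kap L T Y Y1 z) with hk
  have hkm : Measurable k := (kap_meas L T Y Y1).ennreal_ofReal
  have hI : ∫⁻ v : ℝ, ∫⁻ x : ℝ, k (x, v) = ENNReal.ofReal (∫ z, kap L T Y Y1 z ∂(volume.prod volume)) := by
    rw [ofReal_integral_eq_lintegral_ofReal (kap_integrable hT0 hY0)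
      (Filter.Eventually.of_forall fun z => kap_nonneg hY0.le z)]
    rw [lintegral_prod_symm _ hkm.aemeasurable]
  have hint := DD_sq_div_intervalIntegrable (T := T) (by linarith) hY0 hYY
  have hLHS : ENNReal.ofReal (∫ y in Y..Y1, (DD T y) ^ 2 / y ^ 2) =
      ∫⁻ y in Set.Ioc Y Y1, ENNReal.ofReal ((DD T y) ^ 2 / y ^ 2) := by
    rw [intervalIntegral.integral_of_le hYY]
    refine ofReal_integral_eq_lintegral_ofReal ?_ (Filter.Eventually.of_forall fun y => ?_)
    · exact (intervalIntegrable_iff_integrableOn_Ioc_of_le hYY).1 hint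
    · simp only [Pi.zero_apply]
      positivity
  set c : ENNReal := ENNReal.ofReal (50 / T) with hc
  have hmain : ∫⁻ y in Set.Ioc Y Y1, ENNReal.ofReal ((DD T y) ^ 2 / y ^ 2) ≤
      ∫⁻ y : ℝ, ∫⁻ v : ℝ, (c * k (y + v / 2, v) +
        c * k (y * (1 + 1 / T) + (v - 1 / T * y) / 2, v - 1 / T * y)) := by
    refine le_trans ?_ (setLIntegral_le_lintegral (Set.Ioc Y Y1) _)
    refine setLIntegral_mono' measurableSet_Ioc fun y hy => ?_
    have hy0 : 0 < y := hY0.trans hy.1
    have hηy : 0 < 1 / T * y := by positivity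
    calc ENNReal.ofReal ((DD T y) ^ 2 / y ^ 2) =
          ∫⁻ v in Set.Icc (3 * (1 / T * y)) (4 * (1 / T * y)),
            ENNReal.ofReal ((DD T y) ^ 2 / y ^ 2 / (1 / T * y)) := by
          rw [setLIntegral_const, Real.volume_Icc, ← ENNReal.ofReal_mul (by positivity)]
          congr 1
          field_simp
          ring
      _ ≤ ∫⁻ v in Set.Icc (3 * (1 / T * y)) (4 * (1 / T * y)), (c * k (y + v / 2, v) +
            c * k (y * (1 + 1 / T) + (v - 1 / T * y) / 2, v - 1 / T * y)) := by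
          refine setLIntegral_mono' measurableSet_Icc fun v hv => ?_
          rw [hc, hk]
          simp only
          rw [← ENNReal.ofReal_mul (by positivity), ← ENNReal.ofReal_mul (by positivity),
            ← ENNReal.ofReal_add (mul_nonneg (by positivity) (kap_nonneg hY0.le _))
              (mul_nonneg (by positivity) (kap_nonneg hY0.le _))]
          exact ENNReal.ofReal_le_ofReal (pointwise hT hY hy.1.le hy.2 hL hv.1 hv.2)
      _ ≤ _ := setLIntegral_le_lintegral _ _
  have hsplit : ∫⁻ y : ℝ, ∫⁻ v : ℝ, (c * k (y + v / 2, v) +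
        c * k (y * (1 + 1 / T) + (v - 1 / T * y) / 2, v - 1 / T * y)) =
      c * (∫⁻ y : ℝ, ∫⁻ v : ℝ, k (y + v / 2, v)) +
        c * ∫⁻ y : ℝ, ∫⁻ v : ℝ, k (y * (1 + 1 / T) + (v - 1 / T * y) / 2, v - 1 / T * y) := by
    have m1 : Measurable (fun z : ℝ × ℝ => k (z.1 + z.2 / 2, z.2)) :=
      hkm.comp ((measurable_fst.add (measurable_snd.div_const _)).prodMk measurable_snd)
    have m2 : Measurable (fun z : ℝ × ℝ => k (z.1 * (1 + 1 / T) + (z.2 - 1 / T * z.1) / 2,
        z.2 - 1 / T * z.1)) := by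
      refine hkm.comp (Measurable.prodMk ?_ ?_)
      · exact (measurable_fst.mul_const _).add
          ((measurable_snd.sub (measurable_fst.const_mul _)).div_const _)
      · exact measurable_snd.sub (measurable_fst.const_mul _)
    have i1 : ∀ y : ℝ, Measurable (fun v : ℝ => k (y + v / 2, v)) := fun y =>
      m1.comp (measurable_const.prodMk measurable_id)
    have i2 : ∀ y : ℝ, Measurable (fun v : ℝ => k (y * (1 + 1 / T) + (v - 1 / T * y) / 2,
        v - 1 / T * y)) := fun y => m2.comp (measurable_const.prodMk measurable_id)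
    have j1 : Measurable (fun y : ℝ => ∫⁻ v : ℝ, k (y + v / 2, v)) := m1.lintegral_prod_right'
    have j2 : Measurable (fun y : ℝ => ∫⁻ v : ℝ, k (y * (1 + 1 / T) + (v - 1 / T * y) / 2,
        v - 1 / T * y)) := m2.lintegral_prod_right'
    have h1 : ∀ y : ℝ, ∫⁻ v : ℝ, (c * k (y + v / 2, v) +
        c * k (y * (1 + 1 / T) + (v - 1 / T * y) / 2, v - 1 / T * y)) =
        c * (∫⁻ v : ℝ, k (y + v / 2, v)) +
        c * ∫⁻ v : ℝ, k (y * (1 + 1 / T) + (v - 1 / T * y) / 2, v - 1 / T * y) := by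
      intro y
      rw [lintegral_add_left ((i1 y).const_mul c), lintegral_const_mul _ (i1 y),
        lintegral_const_mul _ (i2 y)]
    simp only [h1]
    rw [lintegral_add_left (j1.const_mul c), lintegral_const_mul _ j1, lintegral_const_mul _ j2]
  rw [hsplit] at hmain
  have h1 := shear1 hkm
  have h2 := shear2 hkm (η := 1 / T) (by positivity)
  rw [hI] at h1 h2
  rw [h1] at hmain
  have hJ0 : 0 ≤ ∫ z, kap L T Y Y1 z ∂(volume.prod volume) :=
    integral_nonneg fun z => kap_nonneg hY0.le z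
  have hfin : ENNReal.ofReal (∫ y in Y..Y1, (DD T y) ^ 2 / y ^ 2) ≤
      ENNReal.ofReal (100 / T * ∫ z, kap L T Y Y1 z ∂(volume.prod volume)) := by
    rw [hLHS]
    refine hmain.trans ?_
    calc _ ≤ c * ENNReal.ofReal (∫ z, kap L T Y Y1 z ∂(volume.prod volume)) +
          c * ENNReal.ofReal (∫ z, kap L T Y Y1 z ∂(volume.prod volume)) := by gcongr
      _ = _ := by
          rw [hc, ← ENNReal.ofReal_mul (by positivity), ← ENNReal.ofReal_add (by positivity) (by positivity)]
          congr 1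
          ring
  exact (ENNReal.ofReal_le_ofReal_iff (by positivity)).1 hfin

/-- Local mean over the lengths. -/
noncomputable def gg (T x : ℝ) : ℝ := (∫ H in (x / T)..(4 * x / T), (MH x H) ^ 2 / H ^ 2) / x

lemma gg_nonneg {T x : ℝ} (hT : 0 < T) (hx : 0 < x) : 0 ≤ gg T x := by
  unfold gg
  refine div_nonneg (intervalIntegral.integral_nonneg ?_ fun H _ => by positivity) hx.le
  exact div_le_div_of_nonneg_right (by linarith) hT.le

lemma gg_int {T a b : ℝ} (hT : 4 ≤ T) (ha : 0 < a) (hab : a ≤ b) : IntervalIntegrable (gg T) volume a b := by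
  have hT0 : 0 < T := by linarith
  rw [intervalIntegrable_iff_integrableOn_Icc_of_le hab]
  set L : ℕ := ⌈2 * b⌉₊ with hL
  have hL2 : 2 * b ≤ L := Nat.le_ceil _
  have h1 := (kap_integrable (L := L) (T := T) (Y := a) (Y1 := b / 2) hT0 ha).integral_prod_left
  refine (h1.integrableOn (s := Set.Icc a b)).congr_fun ?_ measurableSet_Icc
  intro x hx
  have hx0 : 0 < x := lt_of_lt_of_le ha hx.1
  have hxT : x / T ≤ 4 * x / T := div_le_div_of_nonneg_right (by linarith) hT0.le
  have hx4 : 4 * x / T ≤ x := by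
    rw [div_le_iff₀ hT0]
    nlinarith
  show ∫ H, kap L T a (b / 2) (x, H) = gg T x
  unfold gg
  rw [intervalIntegral.integral_of_le hxT, ← integral_Icc_eq_integral_Ioc, ← integral_div,
    ← integral_indicator measurableSet_Icc]
  refine integral_congr_ae (Filter.Eventually.of_forall fun H => ?_)
  simp only
  unfold kap
  by_cases hH : H ∈ Set.Icc (x / T) (4 * x / T)
  · have hz : (x, H) ∈ RR T a (b / 2) := ⟨⟨hx.1, by simp only; linarith [hx.2]⟩, hH⟩
    have hH0 : 0 < H := lt_of_lt_of_le (by positivity) hH.1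
    rw [Set.indicator_of_mem hz, Set.indicator_of_mem hH,
      MH_eq_MT hH0.le (by linarith [hH.2, hx.2] : x + H ≤ L)]
    simp only
    rw [div_div]
  · have hz : (x, H) ∉ RR T a (b / 2) := fun h => hH h.2
    rw [Set.indicator_of_notMem hz, Set.indicator_of_notMem hH]

/-- One dyadic block. -/
lemma block_le {T X B : ℝ} (hT : 4 ≤ T) (hX : 1 ≤ X)
    (hB : ∀ H : ℝ, X / T ≤ H → H ≤ 8 * X / T → ∫ x in X..(2 * X), (MH x H) ^ 2 ≤ B * H * X) :
    ∫ x in X..(2 * X), gg T x ≤ 3 * B := by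
  have hT0 : 0 < T := by linarith
  have hX0 : 0 < X := by linarith
  have hXT : 0 < X / T := by positivity
  have hXT8 : X / T ≤ 8 * X / T := div_le_div_of_nonneg_right (by linarith) hT0.le
  have hXX : X ≤ 2 * X := by linarith
  have hB0 : 0 ≤ B := by
    have h1 := hB (X / T) le_rfl hXT8
    have h2 : 0 ≤ ∫ x in X..(2 * X), (MH x (X / T)) ^ 2 :=
      intervalIntegral.integral_nonneg hXX fun _ _ => sq_nonneg _
    have h3 : 0 ≤ B * (X / T * X) := by linarith
    exact nonneg_of_mul_nonneg_left h3 (by positivity)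
  set L : ℕ := ⌈4 * X⌉₊ with hLdef
  have hL : 4 * X ≤ L := Nat.le_ceil _
  have h1 := kap_integral (L := L) (T := T) (Y := X) (Y1 := X) hT hX0 hXX hL
  have h2 : ∫ x in X..(2 * X), gg T x = ∫ z, kap L T X X z ∂(volume.prod volume) := h1.symm
  rw [h2]
  set R : Set (ℝ × ℝ) := Set.Icc X (2 * X) ×ˢ Set.Icc (X / T) (8 * X / T) with hR
  have hRm : MeasurableSet R := measurableSet_Icc.prod measurableSet_Icc
  set q : ℝ × ℝ → ℝ := R.indicator (fun z => (MT L z.1 z.2) ^ 2 / (z.2 ^ 2 * X)) with hq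
  have hqm : Measurable q := by
    refine Measurable.indicator ?_ hRm
    exact ((measurable_MT L).pow_const 2).div ((measurable_snd.pow_const 2).mul_const _)
  have hq0 : ∀ z, 0 ≤ q z := fun z => Set.indicator_nonneg (fun z _ => by positivity) z
  have hRfin : (volume.prod volume) R ≠ ⊤ := by
    rw [hR, Measure.prod_prod, Real.volume_Icc, Real.volume_Icc]
    exact ENNReal.mul_ne_top ENNReal.ofReal_ne_top ENNReal.ofReal_ne_top
  have hqi : Integrable q (volume.prod volume) := by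
    have h3 : IntegrableOn (fun _ : ℝ × ℝ => ((L : ℝ) + 1) ^ 2 / ((X / T) ^ 2 * X)) R
        (volume.prod volume) := integrableOn_const hRfin
    rw [← integrable_indicator_iff hRm] at h3
    refine h3.mono' hqm.aestronglyMeasurable (Filter.Eventually.of_forall fun z => ?_)
    rw [Real.norm_eq_abs, abs_of_nonneg (hq0 z)]
    by_cases hz : z ∈ R
    · rw [hq, Set.indicator_of_mem hz, Set.indicator_of_mem hz]
      refine div_le_div₀ (by positivity) (MT_sq_le L _ _) (by positivity) ?_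
      exact mul_le_mul_of_nonneg_right (pow_le_pow_left₀ hXT.le hz.2.1 2) hX0.le
    · rw [hq, Set.indicator_of_notMem hz, Set.indicator_of_notMem hz]
  have hkq : ∀ z, kap L T X X z ≤ q z := by
    intro z
    by_cases hz : z ∈ RR T X X
    · have hz1 : X ≤ z.1 := hz.1.1
      have hz2 : z.1 ≤ 2 * X := hz.1.2
      have hzR : z ∈ R := by
        refine ⟨hz.1, ?_, ?_⟩
        · exact le_trans (div_le_div_of_nonneg_right hz1 hT0.le) hz.2.1
        · refine hz.2.2.trans (div_le_div_of_nonneg_right (by linarith) hT0.le)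
      have hz20 : 0 < z.2 := lt_of_lt_of_le hXT hzR.2.1
      unfold kap
      rw [hq, Set.indicator_of_mem hz, Set.indicator_of_mem hzR]
      refine div_le_div_of_nonneg_left (sq_nonneg _) (by positivity) ?_
      exact mul_le_mul_of_nonneg_left hz1 (by positivity)
    · unfold kap
      rw [Set.indicator_of_notMem hz]
      exact hq0 z
  refine (integral_mono (kap_integrable hT0 hX0) hqi hkq).trans ?_
  rw [integral_prod_symm _ hqi]
  have hinv : IntegrableOn (fun H : ℝ => B * (1 / H)) (Set.Icc (X / T) (8 * X / T)) := by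
    refine ContinuousOn.integrableOn_Icc ?_
    refine ContinuousOn.mul continuousOn_const ?_
    refine ContinuousOn.div continuousOn_const continuousOn_id ?_
    intro H hH
    exact (lt_of_lt_of_le hXT hH.1).ne'
  have h4 : ∫ H, (∫ x, q (x, H)) ≤
      ∫ H, (Set.Icc (X / T) (8 * X / T)).indicator (fun H : ℝ => B * (1 / H)) H := by
    refine integral_mono hqi.integral_prod_right ((integrable_indicator_iff measurableSet_Icc).2 hinv) ?_
    intro H
    simp only
    by_cases hH : H ∈ Set.Icc (X / T) (8 * X / T)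
    · rw [Set.indicator_of_mem hH]
      have hH0 : 0 < H := lt_of_lt_of_le hXT hH.1
      have h8 : 8 * X / T ≤ 2 * X := by
        rw [div_le_iff₀ hT0]
        nlinarith
      have h5 : ∫ x, q (x, H) = (∫ x in X..(2 * X), (MH x H) ^ 2) / (H ^ 2 * X) := by
        rw [intervalIntegral.integral_of_le hXX, ← integral_Icc_eq_integral_Ioc, ← integral_div,
          ← integral_indicator measurableSet_Icc]
        refine integral_congr_ae (Filter.Eventually.of_forall fun x => ?_)
        simp only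
        by_cases hx : x ∈ Set.Icc X (2 * X)
        · have hz : (x, H) ∈ R := ⟨hx, hH⟩
          rw [hq, Set.indicator_of_mem hz, Set.indicator_of_mem hx,
            MH_eq_MT hH0.le (by linarith [hH.2, hx.2] : x + H ≤ L)]
        · have hz : (x, H) ∉ R := fun h => hx h.1
          rw [hq, Set.indicator_of_notMem hz, Set.indicator_of_notMem hx]
      rw [h5, div_le_iff₀ (by positivity)]
      refine (hB H hH.1 hH.2).trans (le_of_eq ?_)
      field_simp
    · rw [Set.indicator_of_notMem hH]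
      refine le_of_eq ?_
      have : ∀ x : ℝ, q (x, H) = 0 := by
        intro x
        rw [hq]
        exact Set.indicator_of_notMem (fun h => hH h.2) _
      simp [this]
  refine h4.trans ?_
  rw [integral_indicator measurableSet_Icc, integral_Icc_eq_integral_Ioc,
    ← intervalIntegral.integral_of_le hXT8, intervalIntegral.integral_const_mul,
    integral_one_div_of_pos hXT (by positivity)]
  have h5 : 8 * X / T / (X / T) = 8 := by
    field_simp
  rw [h5]
  have h6 : Real.log 8 ≤ 3 := by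
    have h7 : Real.log 8 = 3 * Real.log 2 := by
      rw [show (8 : ℝ) = 2 ^ (3 : ℕ) by norm_num, Real.log_pow]
      norm_num
    rw [h7]
    have := Real.log_two_lt_d9
    linarith
  calc B * Real.log 8 ≤ B * 3 := mul_le_mul_of_nonneg_left h6 hB0
    _ = 3 * B := by ring

end LastStep

open LastStep

/-- The last step: from the mean square of `DD` to short intervals of arbitrary length. -/
theorem last_step
    (hmean : ∀ ε : ℝ, 0 < ε → ε < 1 → ∃ c T0 : ℝ, 0 < c ∧ ∀ T : ℝ, T0 ≤ T → ∀ Y : ℝ, 1 ≤ Y →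
      Y ≤ T ^ (1 / ε) → c * Real.log T / T ≤
        ∫ x in (Real.log Y)..(Real.log Y + (1 + ε) * Real.log T), (DD T (Real.exp x)) ^ 2 * Real.exp (-x))
    (ε : ℝ) (hε : 0 < ε) (hε1 : ε < 1) : ∃ c T0 : ℝ, 0 < c ∧ ∀ T : ℝ, T0 ≤ T → ∀ Y : ℝ, 1 ≤ Y →
      Y ≤ T ^ (1 / ε) →
      c * Real.log T ≤ ∫ x in Y..(Y * T ^ (1 + ε)),
        (∫ H in (x / T)..(4 * x / T), (MH x H) ^ 2 / H ^ 2) / x ∧
      ∃ X H : ℝ, Y ≤ X ∧ 2 * X ≤ Y * T ^ (1 + ε) ∧ X / T ≤ H ∧ H ≤ 8 * X / T ∧
        c * H ≤ (1 / X) * ∫ x in X..(2 * X), (MH x H) ^ 2 := by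
  obtain ⟨c, T1, hc, hmean⟩ := hmean (ε / 2) (by positivity) (by linarith)
  have hlim : ∀ᶠ T : ℝ in Filter.atTop, 4 + 8 / ε ≤ Real.log T :=
    Real.tendsto_log_atTop.eventually_ge_atTop _
  obtain ⟨T2, hT2⟩ := Filter.eventually_atTop.mp hlim
  refine ⟨c / 1600, max T1 (max T2 16), by positivity, ?_⟩
  intro T hT Y hY1 hY
  have hTT1 : T1 ≤ T := (le_max_left _ _).trans hT
  have hTT2 : T2 ≤ T := (le_max_left _ _).trans ((le_max_right _ _).trans hT)
  have hT16 : 16 ≤ T := (le_max_right _ _).trans ((le_max_right _ _).trans hT)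
  have hT0 : 0 < T := by linarith
  have hY0 : 0 < Y := by linarith
  set L := Real.log T with hL
  have hLb := hT2 T hTT2
  rw [← hL] at hLb
  have hi1 : 0 < 8 / ε := by positivity
  have hL4 : 4 ≤ L := by linarith
  have hL0 : 0 < L := by linarith
  have hYY : Y ≤ T ^ (1 / (ε / 2)) := by
    refine hY.trans (Real.rpow_le_rpow_of_exponent_le (by linarith) ?_)
    exact one_div_le_one_div_of_le (by positivity) (by linarith)
  have h1 := hmean T hTT1 Y hY1 hYY
  rw [← hL] at h1
  set Y1 := Y * T ^ (1 + ε / 2) with hY1def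
  have hTpow1 : 1 ≤ T ^ (1 + ε / 2) := Real.one_le_rpow (by linarith) (by linarith)
  have hYY1 : Y ≤ Y1 := by
    rw [hY1def]
    exact le_mul_of_one_le_right hY0.le hTpow1
  have hlogY1 : Real.log Y + (1 + ε / 2) * L = Real.log Y1 := by
    rw [hY1def, Real.log_mul hY0.ne' (by positivity), Real.log_rpow hT0]
  rw [exp_cov T (by nlinarith), hlogY1, Real.exp_log hY0, Real.exp_log (by positivity)] at h1
  have h4Y1 : 4 * Y1 ≤ Y * T ^ (1 + ε) := by
    have h3 : T ^ (1 + ε) = T ^ (1 + ε / 2) * T ^ (ε / 2) := by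
      rw [← Real.rpow_add hT0]
      congr 1
      ring
    have h4 : 4 ≤ T ^ (ε / 2) := by
      rw [Real.rpow_def_of_pos hT0, ← hL]
      have h5 : 4 ≤ L * (ε / 2) := by
        have h6 : 8 / ε ≤ L := by linarith
        rw [div_le_iff₀ hε] at h6
        linarith
      have h7 := Real.add_one_le_exp (L * (ε / 2))
      linarith
    rw [h3, hY1def]
    have h5 : 0 < Y * T ^ (1 + ε / 2) := by positivity
    calc 4 * (Y * T ^ (1 + ε / 2)) = (Y * T ^ (1 + ε / 2)) * 4 := by ring
      _ ≤ (Y * T ^ (1 + ε / 2)) * T ^ (ε / 2) := mul_le_mul_of_nonneg_left h4 h5.le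
      _ = _ := by ring
  have hsv := log_sv (T := T) (by linarith) hY1 hYY1
  have h2 : c * L / 100 ≤ ∫ x in Y..(2 * Y1), gg T x := by
    have h3 : c * L / T ≤ 100 / T * ∫ x in Y..(2 * Y1), gg T x := h1.trans hsv
    rw [div_mul_eq_mul_div, div_le_div_iff_of_pos_right hT0] at h3
    linarith
  have hg : ∀ a b : ℝ, 0 < a → a ≤ b → IntervalIntegrable (gg T) volume a b := fun a b ha hab =>
    gg_int (by linarith) ha hab
  constructor
  · have h3 : ∫ x in Y..(2 * Y1), gg T x ≤ ∫ x in Y..(Y * T ^ (1 + ε)), gg T x := by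
      refine intervalIntegral.integral_mono_interval le_rfl (by linarith) (by linarith) ?_ ?_
      · rw [Filter.EventuallyLE, ae_restrict_iff' measurableSet_Ioc]
        exact Filter.Eventually.of_forall fun x hx => gg_nonneg hT0 (hY0.trans hx.1)
      · exact hg _ _ hY0 (by linarith)
    calc c / 1600 * L ≤ c * L / 100 := by
          have : 0 < c * L := by positivity
          linarith
      _ ≤ _ := h2.trans h3
  · set N : ℕ := ⌈Real.log (2 * Y1 / Y) / Real.log 2⌉₊ with hN
    have hl2 : 0 < Real.log 2 := Real.log_pos (by norm_num)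
    have hl2' : (1 : ℝ) / 2 ≤ Real.log 2 := by
      have := Real.log_two_gt_d9
      linarith
    have hratio : 2 ≤ 2 * Y1 / Y := by
      rw [le_div_iff₀ hY0]
      linarith
    have hd0 : 0 < Real.log (2 * Y1 / Y) / Real.log 2 := div_pos (Real.log_pos (by linarith)) hl2
    have hN0 : 0 < N := Nat.ceil_pos.mpr hd0
    have hN0' : (0 : ℝ) < N := by exact_mod_cast hN0
    have hlogr : Real.log (2 * Y1 / Y) = Real.log 2 + (1 + ε / 2) * L := by
      rw [Real.log_div (by positivity) hY0.ne', Real.log_mul (by norm_num) (by positivity), ← hlogY1]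
      ring
    have hNle : (N : ℝ) ≤ 4 * L := by
      have h3 : (N : ℝ) ≤ Real.log (2 * Y1 / Y) / Real.log 2 + 1 := (Nat.ceil_lt_add_one hd0.le).le
      rw [hlogr, add_div, div_self hl2.ne'] at h3
      have h4 : (1 + ε / 2) * L / Real.log 2 ≤ 7 / 3 * L := by
        rw [div_le_iff₀ hl2]
        have h5 : (1 + ε / 2) * L ≤ 3 / 2 * L := mul_le_mul_of_nonneg_right (by linarith) hL0.le
        have h6 : 9 / 14 ≤ Real.log 2 := by
          have := Real.log_two_gt_d9
          linarith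
        have h7 : 7 / 3 * L * (9 / 14) ≤ 7 / 3 * L * Real.log 2 :=
          mul_le_mul_of_nonneg_left h6 (by positivity)
        linarith
      linarith
    have hcov : 2 * Y1 ≤ 2 ^ N * Y := by
      have h3 : Real.log (2 * Y1 / Y) / Real.log 2 ≤ N := Nat.le_ceil _
      rw [div_le_iff₀ hl2, ← Real.log_pow, Real.log_le_log_iff (by positivity) (by positivity),
        div_le_iff₀ hY0] at h3
      exact h3
    have hsum := intervalIntegral.sum_integral_adjacent_intervals (μ := volume) (f := gg T)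
      (a := fun j : ℕ => 2 ^ j * Y) (n := N) (fun j _ => hg _ _ (by positivity) (by
        rw [pow_succ]
        have : 0 < 2 ^ j * Y := by positivity
        linarith))
    simp only [pow_zero, one_mul] at hsum
    have hle : ∫ x in Y..(2 * Y1), gg T x ≤ ∫ x in Y..(2 ^ N * Y), gg T x := by
      refine intervalIntegral.integral_mono_interval le_rfl (by linarith) hcov ?_ ?_
      · rw [Filter.EventuallyLE, ae_restrict_iff' measurableSet_Ioc]
        exact Filter.Eventually.of_forall fun x hx => gg_nonneg hT0 (hY0.trans hx.1)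
      · exact hg _ _ hY0 (by linarith)
    have hex : ∃ j ∈ Finset.range N, c * L / 100 / N ≤
        ∫ x in (2 ^ j * Y)..(2 ^ (j + 1) * Y), gg T x := by
      by_contra hno
      push Not at hno
      have h3 : ∑ j ∈ Finset.range N, ∫ x in (2 ^ j * Y)..(2 ^ (j + 1) * Y), gg T x <
          ∑ j ∈ Finset.range N, c * L / 100 / N :=
        Finset.sum_lt_sum_of_nonempty ⟨0, Finset.mem_range.mpr hN0⟩ hno
      rw [Finset.sum_const, Finset.card_range, nsmul_eq_mul, mul_div_cancel₀ _ hN0'.ne', hsum] at h3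
      linarith
    obtain ⟨j, hj, hjb⟩ := hex
    have hjN : j < N := Finset.mem_range.mp hj
    set X := 2 ^ j * Y with hX
    have hX0 : 0 < X := by positivity
    have hYX : Y ≤ X := le_mul_of_one_le_left hY0.le (one_le_pow₀ (by norm_num))
    have hX1 : 1 ≤ X := hY1.trans hYX
    have hXY1 : X < 2 * Y1 := by
      have h3 : (j : ℝ) < Real.log (2 * Y1 / Y) / Real.log 2 := Nat.lt_ceil.mp hjN
      rw [lt_div_iff₀ hl2, ← Real.log_pow, Real.log_lt_log_iff (by positivity) (by positivity),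
        lt_div_iff₀ hY0] at h3
      exact h3
    have h2X : 2 ^ (j + 1) * Y = 2 * X := by
      rw [hX, pow_succ]
      ring
    rw [h2X] at hjb
    have hlow : c / 400 ≤ ∫ x in X..(2 * X), gg T x := by
      refine le_trans ?_ hjb
      rw [le_div_iff₀ hN0']
      calc c / 400 * N ≤ c / 400 * (4 * L) := mul_le_mul_of_nonneg_left hNle (by positivity)
        _ = c * L / 100 := by ring
    have hex2 : ∃ H : ℝ, X / T ≤ H ∧ H ≤ 8 * X / T ∧
        c / 1600 * H * X < ∫ x in X..(2 * X), (MH x H) ^ 2 := by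
      by_contra hno
      push Not at hno
      have h3 := block_le (T := T) (X := X) (B := c / 1600) (by linarith) hX1
        (fun H h4 h5 => hno H h4 h5)
      linarith
    obtain ⟨H, hH1, hH2, hH3⟩ := hex2
    refine ⟨X, H, hYX, by linarith, hH1, hH2, ?_⟩
    rw [one_div, inv_mul_eq_div, le_div_iff₀ hX0]
    exact hH3.le

end Pool.Agent.P4f18dfS
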