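import Pool.Agent.Lib.P4f18dfS.Fin3
import Pool.Agent.Lib.P4f18dfS.LastStep

/-!
# Assembly, part 4: short intervals (helper16)
-/

set_option autoImplicit false

open Complex MeasureTheory

namespace Pool.Agent.P4f18dfS

open Pool.Agent.P4f18dfV

/-- Off a countable set the two ways of writing a short interval agree. -/
lemma MH_eq_DD {T y : ℝ} (hT : 0 < T) (hy : 0 < y) (hne : ∀ n : ℕ, y * (1 + 1 / T) ≠ n) :
    MH (y * (1 + 1 / (2 * T))) (y / T) = DD T y := by
  unfold MH DD
  have e1 : y * (1 + 1 / (2 * T)) - y / T / 2 = y := by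
    field_simp
    ring
  have e2 : y * (1 + 1 / (2 * T)) + y / T / 2 = y * (1 + 1 / T) := by
    field_simp
    ring
  have hyT : 0 < y / T := by positivity
  refine Finset.sum_congr ?_ (fun _ _ => rfl)
  ext n
  rw [Finset.mem_filter, Finset.mem_range, Finset.mem_Ioc, Nat.floor_lt hy.le,
    Nat.le_floor_iff (by positivity), abs_lt]
  constructor
  · rintro ⟨-, h1, h2⟩
    exact ⟨by linarith, by linarith⟩
  · rintro ⟨h1, h2⟩
    have h3 : (n : ℝ) < y * (1 + 1 / T) := lt_of_le_of_ne h2 (fun h => hne n h.symm)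
    refine ⟨?_, by linarith, by linarith⟩
    have h4 : (n : ℝ) ≤ y * (1 + 1 / (2 * T)) + y / T := by linarith
    have := Nat.le_floor h4
    omega

lemma ae_ne (T : ℝ) : ∀ᵐ y : ℝ, ∀ n : ℕ, y * (1 + 1 / T) ≠ n ∨ 1 + 1 / T = 0 := by
  rw [ae_all_iff]
  intro n
  rcases eq_or_ne (1 + 1 / T) 0 with h | h
  · exact Filter.Eventually.of_forall (fun _ => Or.inr h)
  · have h1 : ∀ᵐ y : ℝ, y ≠ n / (1 + 1 / T) := by
      rw [ae_iff]
      simp
    filter_upwards [h1] with y hy
    left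
    intro h2
    exact hy (by rw [eq_div_iff h]; exact h2)

/-- Logarithmic average over a window, `H = x / T`. -/
theorem sharp_log (ε : ℝ) (hε : 0 < ε) (hε1 : ε < 1) : ∃ c T0 : ℝ, 0 < c ∧ ∀ T : ℝ, T0 ≤ T →
    ∀ Y : ℝ, 1 ≤ Y → Y ≤ T ^ (1 / ε) →
    c * Real.log T ≤ ∫ x in Y..(Y * T ^ (1 + ε)), (MH x (x / T)) ^ 2 / (x / T) / x := by
  obtain ⟨c, T0, hc, h⟩ := sharp_mean (ε / 2) (by positivity) (by linarith)
  refine ⟨c / 2, max (T0 + 1) 4, by positivity, fun T hT Y hY1 hY => ?_⟩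
  have hTT0 : T0 + 1 ≤ T := (le_max_left _ _).trans hT
  have hT4 : 4 ≤ T := (le_max_right _ _).trans hT
  have hT0 : 0 < T := by linarith
  have hY0 : 0 < Y := by linarith
  set S : ℝ := T - 1 / 2 with hS
  have hS0 : 0 < S := by rw [hS]; linarith
  have hS1 : 1 < S := by rw [hS]; linarith
  have hST : S ≤ T := by rw [hS]; linarith
  have hLS : 0 < Real.log S := Real.log_pos hS1
  have hLT : Real.log T ≤ 2 * Real.log S := by
    have h1 : T ≤ S ^ 2 := by rw [hS]; nlinarith
    have h2 := Real.log_le_log hT0 h1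
    rw [Real.log_pow] at h2
    exact_mod_cast h2
  have hu : Real.log Y ≤ Real.log S / (ε / 2) := by
    have h1 := Real.log_le_log hY0 hY
    rw [Real.log_rpow hT0] at h1
    refine h1.trans ?_
    rw [le_div_iff₀ (by positivity)]
    have h2 : 1 / ε * Real.log T * (ε / 2) = Real.log T / 2 := by field_simp
    rw [h2]
    linarith
  have h1 := h S (by rw [hS]; linarith) (Real.log Y) (Real.log_nonneg hY1) hu
  rw [exp_cov S (by have : 0 < (1 + ε / 2) * Real.log S := by positivity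
                    linarith), Real.exp_add, Real.exp_log hY0] at h1
  have h2 : Real.exp ((1 + ε / 2) * Real.log S) = S ^ (1 + ε / 2) := by
    rw [Real.rpow_def_of_pos hS0, mul_comm]
  rw [h2] at h1
  set q : ℝ := 1 + 1 / (2 * S) with hq
  have hq0 : 0 < q := by rw [hq]; positivity
  have hq1 : 1 ≤ q := by
    rw [hq]
    have : 0 < 1 / (2 * S) := by positivity
    linarith
  have hqT : S * q = T := by
    rw [hq]
    field_simp
    rw [hS]
    ring
  have hqne : q ≠ 0 := hq0.ne'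
  -- change of variables
  set V : ℝ := Y * T ^ (1 + ε) with hV
  have hcov : ∫ x in Y..V, (MH x (x / T)) ^ 2 / (x / T) / x =
      S * ∫ y in (Y / q)..(V / q), (DD S y) ^ 2 / y ^ 2 := by
    have h3 := intervalIntegral.integral_comp_mul_right (a := Y / q) (b := V / q)
      (fun x => (MH x (x / T)) ^ 2 / (x / T) / x) hqne
    rw [div_mul_cancel₀ _ hqne, div_mul_cancel₀ _ hqne, smul_eq_mul] at h3
    have h4 : ∫ x in Y..V, (MH x (x / T)) ^ 2 / (x / T) / x =
        q * ∫ y in (Y / q)..(V / q), (MH (y * q) (y * q / T)) ^ 2 / (y * q / T) / (y * q) := by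
      rw [h3]
      field_simp
    rw [h4, ← intervalIntegral.integral_const_mul, ← intervalIntegral.integral_const_mul]
    refine intervalIntegral.integral_congr_ae ?_
    have hYV : Y / q ≤ V / q := by
      refine div_le_div_of_nonneg_right ?_ hq0.le
      have : 1 ≤ T ^ (1 + ε) := Real.one_le_rpow (by linarith) (by linarith)
      rw [hV]
      nlinarith
    have hS' : 1 + 1 / S ≠ 0 := by positivity
    filter_upwards [ae_ne S] with y hy hmem
    rw [Set.uIoc_of_le hYV] at hmem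
    have hy0 : 0 < y := lt_trans (by positivity) hmem.1
    have h5 : y * q / T = y / S := by
      rw [← hqT]
      field_simp
    have h6 : MH (y * q) (y / S) = DD S y :=
      MH_eq_DD hS0 hy0 (fun n => (hy n).resolve_right hS')
    rw [h5, h6]
    field_simp
  have hSV : S ^ (1 + ε / 2) ≤ T ^ (1 + ε) / q := by
    have h3 : T ^ (1 + ε) / q = T ^ ε * S := by
      rw [Real.rpow_add hT0, Real.rpow_one, ← hqT]
      field_simp
    have h4 : S ^ (1 + ε / 2) = S ^ (ε / 2) * S := by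
      rw [Real.rpow_add hS0, Real.rpow_one]
      ring
    rw [h3, h4]
    refine mul_le_mul_of_nonneg_right ?_ hS0.le
    exact (Real.rpow_le_rpow hS0.le hST (by positivity)).trans
      (Real.rpow_le_rpow_of_exponent_le (by linarith) (by linarith))
  have hmono : ∫ y in Y..(Y * S ^ (1 + ε / 2)), (DD S y) ^ 2 / y ^ 2 ≤
      ∫ y in (Y / q)..(V / q), (DD S y) ^ 2 / y ^ 2 := by
    have hYq : Y / q ≤ Y := div_le_self hY0.le hq1
    have hYS : Y ≤ Y * S ^ (1 + ε / 2) := by
      have : 1 ≤ S ^ (1 + ε / 2) := Real.one_le_rpow (by linarith) (by linarith)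
      nlinarith
    have hSVY : Y * S ^ (1 + ε / 2) ≤ V / q := by
      have : V / q = Y * (T ^ (1 + ε) / q) := by rw [hV]; ring
      rw [this]
      exact mul_le_mul_of_nonneg_left hSV hY0.le
    refine intervalIntegral.integral_mono_interval hYq hYS hSVY
      (Filter.Eventually.of_forall (fun x => by positivity))
      (DD_sq_div_intervalIntegrable hS1.le (by positivity) (hYq.trans (hYS.trans hSVY)))
  rw [hcov]
  have h5 := mul_le_mul_of_nonneg_left (h1.trans hmono) hS0.le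
  refine le_trans ?_ h5
  have h6 : S * (c * (Real.log S / S)) = c * Real.log S := by field_simp
  rw [h6]
  nlinarith

/-- One pair `X`, `H` (through helper10's `last_step`). -/
theorem sharp_variance (ε : ℝ) (hε : 0 < ε) (hε1 : ε < 1) : ∃ c T0 : ℝ, 0 < c ∧ ∀ T : ℝ, T0 ≤ T →
    ∀ Y : ℝ, 1 ≤ Y → Y ≤ T ^ (1 / ε) →
    ∃ X H : ℝ, Y ≤ X ∧ 2 * X ≤ Y * T ^ (1 + ε) ∧ X / T ≤ H ∧ H ≤ 8 * X / T ∧
      c * H ≤ (1 / X) * ∫ x in X..(2 * X), (MH x H) ^ 2 := by
  have hmean : ∀ ε : ℝ, 0 < ε → ε < 1 → ∃ c T0 : ℝ, 0 < c ∧ ∀ T : ℝ, T0 ≤ T → ∀ Y : ℝ, 1 ≤ Y →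
      Y ≤ T ^ (1 / ε) → c * Real.log T / T ≤
        ∫ x in (Real.log Y)..(Real.log Y + (1 + ε) * Real.log T), (DD T (Real.exp x)) ^ 2 * Real.exp (-x) := by
    intro ε hε hε1
    obtain ⟨c, T0, hc, h⟩ := sharp_mean ε hε hε1
    refine ⟨c, max T0 4, hc, fun T hT Y hY1 hY => ?_⟩
    have hTT0 : T0 ≤ T := (le_max_left _ _).trans hT
    have hT0 : 0 < T := by linarith [(le_max_right T0 4).trans hT]
    have hu : Real.log Y ≤ Real.log T / ε := by
      have h1 := Real.log_le_log (by linarith) hY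
      rw [Real.log_rpow hT0] at h1
      refine h1.trans (le_of_eq ?_)
      ring
    have h1 := h T hTT0 (Real.log Y) (Real.log_nonneg hY1) hu
    refine le_trans (le_of_eq ?_) h1
    ring
  obtain ⟨c, T0, hc, h⟩ := last_step hmean ε hε hε1
  exact ⟨c, T0, hc, fun T hT Y hY1 hY => (h T hT Y hY1 hY).2⟩

end Pool.Agent.P4f18dfS
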