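import Pool.Agent.Lib.P4f18dfS.Diag
import Pool.Agent.Lib.P4f18dfS.MV

/-!
# First moment

PROOF. `L = log T`, `x = a/L`, `s = 1/2 + it`, `A = tw gl (-x) * mt gM * mt gm`, `B = mt gm`, `P = ⌊T^{1/20}⌋`, `N = ⌊T^{6/5}⌋`.
For `|t - τ| ≤ T/100`: `ζ(s + x) = dp (tw gl (-x)) N t + O(1/T)` (`afe_long`, `α = x`), so
`ζ(s+x) M1 M2 conj(M2) = dp A (N P P) t · conj(dp B P t) + O(T^{-1} (C T^{1/20})^3)` (`dp_mul`). Hence
`∫_{near} wt ‖ζ‖ ‖M1‖ ‖M2‖² ≥ ‖∫_ℝ wt dp A (NPP) conj (dp B P)‖ - (far part) - T^{-1} (C T^{1/20})^3 √π Δ`, where the far part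
`|t - τ| > T/100` is `≤ T^{3} exp(-T^{1/5}/20000) ...` (`‖dp‖ ≤ C T^2` trivially, `wt ≤ exp(-(T/(100Δ))²/2) exp(-((t-τ)/Δ)²/2)`).
`mv_bil`: the main integral is `√π Δ (∑_{m ≤ P} A(m) conj B(m)/m + O(exp(-Δ²/(16P²)) T^4))`, and `diag_lower`.
-/

set_option autoImplicit false

open Complex MeasureTheory

namespace Pool.Agent.P4f18dfS

namespace FirstAux

theorem dp_norm_le (a : ArithmeticFunction ℂ) (N : ℕ) (t : ℝ) :
    ‖dp a N t‖ ≤ ∑ n ∈ Finset.Icc 1 N, ‖a n‖ := by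
  unfold dp
  refine (norm_sum_le _ _).trans (Finset.sum_le_sum fun n hn => ?_)
  rw [norm_mul]
  have hn1 : 1 ≤ n := (Finset.mem_Icc.1 hn).1
  have h1 : ‖(n : ℂ) ^ (-((1 / 2 : ℂ) + t * I))‖ ≤ 1 := by
    rw [Complex.norm_natCast_cpow_of_pos (by omega)]
    apply Real.rpow_le_one_of_one_le_of_nonpos
    · exact_mod_cast hn1
    · simp
  calc ‖a n‖ * ‖(n : ℂ) ^ (-((1 / 2 : ℂ) + t * I))‖ ≤ ‖a n‖ * 1 := by gcongr
    _ = ‖a n‖ := mul_one _

theorem mul_norm_le (f g : ArithmeticFunction ℂ) (F G : ℝ) (hF : 0 ≤ F) (hG : 0 ≤ G) (k : ℕ)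
    (hf : ∀ n, ‖f n‖ ≤ F * (n : ℝ) ^ k) (hg : ∀ n, ‖g n‖ ≤ G) (n : ℕ) :
    ‖(f * g) n‖ ≤ F * G * (n : ℝ) ^ (k + 1) := by
  rw [ArithmeticFunction.mul_apply]
  refine (norm_sum_le _ _).trans ?_
  have h1 : ∀ p ∈ n.divisorsAntidiagonal, ‖f p.1 * g p.2‖ ≤ F * (n : ℝ) ^ k * G := by
    intro p hp
    rw [norm_mul]
    have hn0 : n ≠ 0 := (Nat.mem_divisorsAntidiagonal.1 hp).2
    have hpn : p.1 ≤ n := Nat.le_of_dvd (Nat.pos_of_ne_zero hn0)
      ⟨p.2, (Nat.mem_divisorsAntidiagonal.1 hp).1.symm⟩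
    have h2 : F * (p.1 : ℝ) ^ k ≤ F * (n : ℝ) ^ k := by gcongr
    exact mul_le_mul ((hf p.1).trans h2) (hg p.2) (norm_nonneg _) (by positivity)
  refine (Finset.sum_le_card_nsmul _ _ _ h1).trans ?_
  rw [nsmul_eq_mul]
  have h3 : (n.divisorsAntidiagonal.card : ℝ) ≤ n := by
    have : n.divisorsAntidiagonal.card = n.divisors.card := by
      rw [← Nat.map_div_right_divisors, Finset.card_map]
    rw [this]
    exact_mod_cast Nat.card_divisors_le_self n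
  calc (n.divisorsAntidiagonal.card : ℝ) * (F * (n : ℝ) ^ k * G)
      ≤ n * (F * (n : ℝ) ^ k * G) := by gcongr
    _ = F * G * (n : ℝ) ^ (k + 1) := by ring

theorem mul_supp (f g : ArithmeticFunction ℂ) (N M : ℕ) (hf : ∀ n, N < n → f n = 0)
    (hg : ∀ n, M < n → g n = 0) : ∀ n, N * M < n → (f * g) n = 0 := by
  intro n hn
  rw [ArithmeticFunction.mul_apply]
  refine Finset.sum_eq_zero fun p hp => ?_
  by_cases h1 : N < p.1
  · rw [hf _ h1, zero_mul]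
  · by_cases h2 : M < p.2
    · rw [hg _ h2, mul_zero]
    · exfalso
      push Not at h1 h2
      have := (Nat.mem_divisorsAntidiagonal.1 hp).1
      have h3 := Nat.mul_le_mul h1 h2
      omega

theorem ev_exp (K : ℝ) (k : ℕ) : ∃ T0 : ℝ, 1 ≤ T0 ∧ ∀ T : ℝ, T0 ≤ T →
    K * T ^ k * Real.exp (-(T ^ (1 / 5 : ℝ) / 20000)) ≤ 1 := by
  have h1 : Filter.Tendsto (fun u : ℝ => u ^ (5 * k) * Real.exp (-u)) Filter.atTop (nhds 0) :=
    Real.tendsto_pow_mul_exp_neg_atTop_nhds_zero _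
  have h2 : Filter.Tendsto (fun T : ℝ => T ^ (1 / 5 : ℝ) / 20000) Filter.atTop Filter.atTop :=
    (tendsto_rpow_atTop (by norm_num)).atTop_div_const (by norm_num)
  have h3 := (h1.comp h2).const_mul (K * 20000 ^ (5 * k))
  rw [mul_zero] at h3
  have h4 := (h3.eventually (ge_mem_nhds one_pos)).and (Filter.eventually_ge_atTop (1 : ℝ))
  obtain ⟨T0, hT0⟩ := Filter.eventually_atTop.1 h4
  refine ⟨max T0 1, le_max_right _ _, fun T hT => ?_⟩
  obtain ⟨h5, h6⟩ := hT0 T ((le_max_left _ _).trans hT)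
  refine le_trans (le_of_eq ?_) h5
  simp only [Function.comp]
  have h7 : T ^ k = (T ^ (1 / 5 : ℝ)) ^ (5 * k) := by
    rw [pow_mul, ← Real.rpow_natCast (T ^ (1 / 5 : ℝ)) 5, ← Real.rpow_mul (by linarith)]
    norm_num
  rw [h7, div_pow]
  field_simp

theorem gauss_int {Δ : ℝ} (hΔ : 0 < Δ) (τ b : ℝ) (hb : 0 < b) :
    Integrable (fun t : ℝ => Real.exp (-(b * ((t - τ) / Δ) ^ 2))) ∧
    ∫ t : ℝ, Real.exp (-(b * ((t - τ) / Δ) ^ 2)) = Real.sqrt (Real.pi / b) * Δ := by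
  have hb2 : 0 < b / Δ ^ 2 := by positivity
  have h1 : (fun t : ℝ => Real.exp (-(b * ((t - τ) / Δ) ^ 2))) =
      fun t : ℝ => (fun u : ℝ => Real.exp (-(b / Δ ^ 2) * u ^ 2)) (t - τ) := by
    funext t
    simp only
    congr 1
    field_simp
  rw [h1]
  refine ⟨(integrable_exp_neg_mul_sq hb2).comp_sub_right τ, ?_⟩
  rw [integral_sub_right_eq_self (fun u : ℝ => Real.exp (-(b / Δ ^ 2) * u ^ 2)) τ,
    integral_gaussian]
  have h2 : Real.pi / (b / Δ ^ 2) = (Real.pi / b) * Δ ^ 2 := by field_simp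
  rw [h2, Real.sqrt_mul (by positivity), Real.sqrt_sq hΔ.le]

theorem coeff_bounds : ∃ C : ℝ, 1 ≤ C ∧ ∀ T : ℝ, 3 ≤ T → ∀ x : ℝ, 0 ≤ x →
    (∀ n, ‖mt (gM (Real.log T)) n‖ ≤ C) ∧ (∀ n, ‖mt (gm (Real.log T)) n‖ ≤ 1) ∧
    (∀ n, ‖(tw (gl (Real.log T)) (-(x : ℂ)) * mt (gM (Real.log T)) * mt (gm (Real.log T))) n‖ ≤
      C ^ 2 * (n : ℝ) ^ 2) := by
  obtain ⟨C, hC1, hC⟩ := g_bound
  refine ⟨C, hC1, fun T hT x hx => ?_⟩
  have hmu : ∀ n : ℕ, ‖((ArithmeticFunction.moebius n : ℤ) : ℂ)‖ ≤ 1 := by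
    intro n
    have h1 : |ArithmeticFunction.moebius n| ≤ 1 := ArithmeticFunction.abs_moebius_le_one
    rw [Complex.norm_intCast]
    exact_mod_cast h1
  have hM : ∀ n, ‖mt (gM (Real.log T)) n‖ ≤ C := by
    intro n
    change ‖((ArithmeticFunction.moebius n : ℤ) : ℂ) * gM (Real.log T) n‖ ≤ C
    rw [norm_mul]
    calc _ ≤ 1 * C := mul_le_mul (hmu n) (hC T hT n).2.2.1 (norm_nonneg _) zero_le_one
      _ = C := one_mul _
  have hm : ∀ n, ‖mt (gm (Real.log T)) n‖ ≤ 1 := by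
    intro n
    change ‖((ArithmeticFunction.moebius n : ℤ) : ℂ) * gm (Real.log T) n‖ ≤ 1
    rw [norm_mul]
    calc _ ≤ 1 * (1 : ℝ) := mul_le_mul (hmu n) (hC T hT n).2.2.2 (norm_nonneg _) zero_le_one
      _ = 1 := one_mul _
  have hl : ∀ n, ‖tw (gl (Real.log T)) (-(x : ℂ)) n‖ ≤ C * (n : ℝ) ^ 0 := by
    intro n
    rw [pow_zero, mul_one]
    change ‖(if n = 0 then (0 : ℂ) else gl (Real.log T) n * (n : ℂ) ^ (-(x : ℂ)))‖ ≤ C
    split_ifs with h
    · simp only [norm_zero]; linarith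
    · rw [norm_mul, Complex.norm_natCast_cpow_of_pos (Nat.pos_of_ne_zero h)]
      have h1 : (n : ℝ) ^ (-(x : ℂ)).re ≤ 1 := by
        apply Real.rpow_le_one_of_one_le_of_nonpos
        · exact_mod_cast Nat.one_le_iff_ne_zero.2 h
        · simpa using hx
      calc _ ≤ C * (1 : ℝ) := mul_le_mul (hC T hT n).1 h1 (by positivity) (by linarith)
        _ = C := mul_one _
  refine ⟨hM, hm, fun n => ?_⟩
  have h1 := mul_norm_le _ _ C C (by linarith) (by linarith) 0 hl hM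
  have h2 := mul_norm_le _ _ (C * C) 1 (by positivity) zero_le_one 1 h1 hm n
  refine h2.trans (le_of_eq ?_)
  ring

theorem sum_le (a : ArithmeticFunction ℂ) (D : ℝ) (hD : 0 ≤ D) (k N : ℕ)
    (ha : ∀ n, ‖a n‖ ≤ D * (n : ℝ) ^ k) : ∑ n ∈ Finset.Icc 1 N, ‖a n‖ ≤ D * (N : ℝ) ^ (k + 1) := by
  calc ∑ n ∈ Finset.Icc 1 N, ‖a n‖ ≤ ∑ n ∈ Finset.Icc 1 N, D * (N : ℝ) ^ k := by
        refine Finset.sum_le_sum fun n hn => (ha n).trans ?_
        have : n ≤ N := (Finset.mem_Icc.1 hn).2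
        gcongr
    _ = D * (N : ℝ) ^ (k + 1) := by
        rw [Finset.sum_const, Nat.card_Icc, nsmul_eq_mul]
        simp only [Nat.add_sub_cancel]
        ring

theorem De_pos {T : ℝ} (hT : 0 < T) : 0 < De T := Real.rpow_pos_of_pos hT _

theorem exp_cmp {T : ℝ} (hT : 1 ≤ T) (P : ℕ) (hP1 : 1 ≤ P) (hP : (P : ℝ) ≤ T ^ (1 / 20 : ℝ)) :
    Real.exp (-(De T ^ 2 / (16 * (P : ℝ) ^ 2))) ≤ Real.exp (-(T ^ (1 / 5 : ℝ) / 20000)) := by
  apply Real.exp_le_exp.2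
  apply neg_le_neg
  have hT0 : 0 < T := by linarith
  have hPp : (0 : ℝ) < P := by exact_mod_cast hP1
  rw [le_div_iff₀ (by positivity)]
  have h1 : (P : ℝ) ^ 2 ≤ T ^ (1 / 10 : ℝ) := by
    calc (P : ℝ) ^ 2 ≤ (T ^ (1 / 20 : ℝ)) ^ 2 := by gcongr
      _ = T ^ (1 / 10 : ℝ) := by
        rw [← Real.rpow_natCast, ← Real.rpow_mul hT0.le]; norm_num
  have h2 : De T ^ 2 = T ^ (9 / 5 : ℝ) := by
    unfold De
    rw [← Real.rpow_natCast, ← Real.rpow_mul hT0.le]; norm_num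
  rw [h2]
  calc T ^ (1 / 5 : ℝ) / 20000 * (16 * (P : ℝ) ^ 2)
      ≤ T ^ (1 / 5 : ℝ) / 20000 * (16 * T ^ (1 / 10 : ℝ)) := by gcongr
    _ = 16 / 20000 * (T ^ (1 / 5 : ℝ) * T ^ (1 / 10 : ℝ)) := by ring
    _ = 16 / 20000 * T ^ (3 / 10 : ℝ) := by
        rw [← Real.rpow_add hT0]; norm_num
    _ ≤ 1 * T ^ (9 / 5 : ℝ) := by
        apply mul_le_mul (by norm_num) _ (by positivity) zero_le_one
        exact Real.rpow_le_rpow_of_exponent_le hT (by norm_num)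
    _ = T ^ (9 / 5 : ℝ) := one_mul _

theorem wt_pos (τ Δ t : ℝ) : 0 < wt τ Δ t := Real.exp_pos _

theorem wt_continuous (τ Δ : ℝ) : Continuous (wt τ Δ) := by
  unfold wt
  fun_prop

theorem M2_sq_int {T : ℝ} (hT : 3 ≤ T) (τ : ℝ) :
    Integrable (fun t : ℝ => wt τ (De T) t * ‖M2 T t‖ ^ 2) := by
  have h1 := (mv_integrable (De_pos (by linarith : 0 < T)) τ (mt (gm (Real.log T)))
    (mt (gm (Real.log T))) ⌊T ^ (1 / 20 : ℝ)⌋₊ ⌊T ^ (1 / 20 : ℝ)⌋₊).norm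
  refine h1.congr (Filter.Eventually.of_forall fun t => ?_)
  simp only [norm_mul, RCLike.norm_conj, Complex.norm_real, Real.norm_eq_abs]
  rw [abs_of_pos (wt_pos _ _ _), M2, pow_two]

/-- The far part. -/
theorem far_part {T : ℝ} (hT : 3 ≤ T) (τ : ℝ) (F : ℝ → ℂ) (Q : ℝ) (hQ : 0 ≤ Q)
    (hFb : ∀ t, ‖F t‖ ≤ wt τ (De T) t * Q) :
    ‖∫ t in (Set.Ioc (τ - T / 100) (τ + T / 100))ᶜ, F t‖ ≤
      Q * Real.exp (-(T ^ (1 / 5 : ℝ) / 20000)) * (Real.sqrt (Real.pi / (1 / 2)) * De T) := by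
  have hT0 : 0 < T := by linarith
  have hDe := De_pos hT0
  obtain ⟨hg1, hg2⟩ := gauss_int hDe τ (1 / 2) (by norm_num)
  have h1 : ‖∫ t in (Set.Ioc (τ - T / 100) (τ + T / 100))ᶜ, F t‖ ≤
      ∫ t in (Set.Ioc (τ - T / 100) (τ + T / 100))ᶜ,
        (Q * Real.exp (-(T ^ (1 / 5 : ℝ) / 20000))) *
          Real.exp (-(1 / 2 * ((t - τ) / De T) ^ 2)) := by
    refine norm_integral_le_of_norm_le (hg1.const_mul _).integrableOn ?_
    refine (ae_restrict_mem measurableSet_Ioc.compl).mono fun t ht => ?_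
    refine (hFb t).trans ?_
    have h2 : (T / 100) ^ 2 ≤ (t - τ) ^ 2 := by
      rw [Set.mem_compl_iff, Set.mem_Ioc, not_and_or, not_lt, not_le] at ht
      rcases ht with h | h
      · nlinarith
      · nlinarith
    have h3 : T ^ (1 / 5 : ℝ) / 10000 ≤ ((t - τ) / De T) ^ 2 := by
      rw [div_pow, le_div_iff₀ (by positivity)]
      refine le_trans (le_of_eq ?_) h2
      have h4 : De T ^ 2 = T ^ (9 / 5 : ℝ) := by
        unfold De
        rw [← Real.rpow_natCast, ← Real.rpow_mul hT0.le]; norm_num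
      rw [h4]
      have h5 : T ^ (1 / 5 : ℝ) * T ^ (9 / 5 : ℝ) = T ^ 2 := by
        rw [← Real.rpow_add hT0, ← Real.rpow_natCast]; norm_num
      calc T ^ (1 / 5 : ℝ) / 10000 * T ^ (9 / 5 : ℝ) = (T ^ (1 / 5 : ℝ) * T ^ (9 / 5 : ℝ)) / 10000 := by
            ring
        _ = (T / 100) ^ 2 := by rw [h5]; ring
    have h6 : wt τ (De T) t ≤ Real.exp (-(T ^ (1 / 5 : ℝ) / 20000)) *
        Real.exp (-(1 / 2 * ((t - τ) / De T) ^ 2)) := by
      unfold wt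
      rw [← Real.exp_add]
      apply Real.exp_le_exp.2
      linarith
    calc wt τ (De T) t * Q ≤ (Real.exp (-(T ^ (1 / 5 : ℝ) / 20000)) *
        Real.exp (-(1 / 2 * ((t - τ) / De T) ^ 2))) * Q := by gcongr
      _ = _ := by ring
  refine h1.trans ?_
  have h7 : ∫ t in (Set.Ioc (τ - T / 100) (τ + T / 100))ᶜ,
        (Q * Real.exp (-(T ^ (1 / 5 : ℝ) / 20000))) *
          Real.exp (-(1 / 2 * ((t - τ) / De T) ^ 2)) ≤
      ∫ t : ℝ, (Q * Real.exp (-(T ^ (1 / 5 : ℝ) / 20000))) *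
          Real.exp (-(1 / 2 * ((t - τ) / De T) ^ 2)) := by
    apply setIntegral_le_integral (hg1.const_mul _)
    exact Filter.Eventually.of_forall fun t => by positivity
  refine h7.trans (le_of_eq ?_)
  rw [integral_const_mul, hg2]

end FirstAux

/-- The mass of the tilted measure. -/
theorem mass : ∃ C T0 : ℝ, 0 < C ∧ ∀ T : ℝ, T0 ≤ T → ∀ τ : ℝ,
    ∫ t in (τ - T / 100)..(τ + T / 100), wt τ (De T) t * ‖M2 T t‖ ^ 2 ≤ C * (De T * Real.log T) := by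
  obtain ⟨C, T1, hC, h1⟩ := gm_sum
  obtain ⟨T2, hT2, h2⟩ := FirstAux.ev_exp 1 1
  refine ⟨Real.sqrt Real.pi * 2 * C, max T1 (max T2 3), by positivity, fun T hT τ => ?_⟩
  have hTT1 : T1 ≤ T := (le_max_left _ _).trans hT
  have hTT2 : T2 ≤ T := ((le_max_left _ _).trans (le_max_right _ _)).trans hT
  have hT3 : 3 ≤ T := ((le_max_right _ _).trans (le_max_right _ _)).trans hT
  have hT0 : 0 < T := by linarith
  have hDe := FirstAux.De_pos hT0
  have hlog : 0 ≤ Real.log T := Real.log_nonneg (by linarith)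
  have hP0 : (⌊T ^ (1 / 20 : ℝ)⌋₊ : ℝ) ≤ T ^ (1 / 20 : ℝ) := Nat.floor_le (by positivity)
  have hP1 : 1 ≤ ⌊T ^ (1 / 20 : ℝ)⌋₊ := by
    rw [Nat.one_le_floor_iff]
    exact Real.one_le_rpow (by linarith) (by norm_num)
  have h3 : ∫ t in (τ - T / 100)..(τ + T / 100), wt τ (De T) t * ‖M2 T t‖ ^ 2 ≤
      ∫ t : ℝ, wt τ (De T) t * ‖M2 T t‖ ^ 2 := by
    rw [intervalIntegral.integral_of_le (by linarith)]
    apply setIntegral_le_integral (FirstAux.M2_sq_int hT3 τ)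
    refine Filter.Eventually.of_forall fun t => ?_
    have := Real.exp_pos (-((t - τ) / De T) ^ 2)
    simp only [Pi.zero_apply, wt]
    positivity
  refine h3.trans ((mv hDe τ (mt (gm (Real.log T))) ⌊T ^ (1 / 20 : ℝ)⌋₊ hP1).trans ?_)
  have h4 := h1 T hTT1
  have h5 : 1 + (⌊T ^ (1 / 20 : ℝ)⌋₊ : ℝ) *
      Real.exp (-(De T ^ 2 / (16 * (⌊T ^ (1 / 20 : ℝ)⌋₊ : ℝ) ^ 2))) ≤ 2 := by
    have h6 := FirstAux.exp_cmp (by linarith : 1 ≤ T) _ hP1 hP0
    have h7 := h2 T hTT2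
    have h8 : (⌊T ^ (1 / 20 : ℝ)⌋₊ : ℝ) ≤ 1 * T ^ 1 := by
      rw [one_mul, pow_one]
      refine hP0.trans ?_
      calc T ^ (1 / 20 : ℝ) ≤ T ^ (1 : ℝ) :=
            Real.rpow_le_rpow_of_exponent_le (by linarith) (by norm_num)
        _ = T := Real.rpow_one T
    have h9 : (⌊T ^ (1 / 20 : ℝ)⌋₊ : ℝ) *
      Real.exp (-(De T ^ 2 / (16 * (⌊T ^ (1 / 20 : ℝ)⌋₊ : ℝ) ^ 2))) ≤
      1 * T ^ 1 * Real.exp (-(T ^ (1 / 5 : ℝ) / 20000)) :=
      mul_le_mul h8 h6 (Real.exp_pos _).le (by positivity)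
    linarith
  calc _ ≤ Real.sqrt Real.pi * De T * 2 * (C * Real.log T) := by
        apply mul_le_mul _ h4 (Finset.sum_nonneg fun n _ => by positivity) (by positivity)
        exact mul_le_mul_of_nonneg_left h5 (by positivity)
    _ = Real.sqrt Real.pi * 2 * C * (De T * Real.log T) := by ring

theorem first_moment : ∃ c : ℝ, 0 < c ∧ ∀ R : ℝ, 1 ≤ R → ∃ T0 : ℝ, ∀ T : ℝ, T0 ≤ T →
    ∀ τ : ℝ, T / 8 ≤ τ → τ ≤ T / 4 → ∀ a : ℝ, 0 ≤ a → a ≤ R →
    c * (De T * Real.log T) ≤ ∫ t in (τ - T / 100)..(τ + T / 100), wt τ (De T) t *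
      (‖riemannZeta (1 / 2 + ((a / Real.log T : ℝ) : ℂ) + t * I)‖ * ‖M1 T t‖ * ‖M2 T t‖ ^ 2) := by
  obtain ⟨c0, T1, hc0, hdiag⟩ := diag_lower
  obtain ⟨C, hC1, hcoef⟩ := FirstAux.coeff_bounds
  obtain ⟨T2, hT2, hexp⟩ := FirstAux.ev_exp (C ^ 2) 6
  refine ⟨c0 / 2, by positivity, fun R hR => ?_⟩
  obtain ⟨T3, hafe⟩ := afe_long R hR
  refine ⟨max T1 (max T2 (max T3 (max 3 (Real.exp (2 * (3 + C) / c0))))), ?_⟩
  intro T hT τ hτ1 hτ2 a ha0 haR
  have hTT1 : T1 ≤ T := (le_max_left _ _).trans hT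
  have hTT2 : T2 ≤ T := ((le_max_left _ _).trans (le_max_right _ _)).trans hT
  have hTT3 : T3 ≤ T :=
    (((le_max_left _ _).trans (le_max_right _ _)).trans (le_max_right _ _)).trans hT
  have hT3 : 3 ≤ T := ((((le_max_left _ _).trans (le_max_right _ _)).trans
    (le_max_right _ _)).trans (le_max_right _ _)).trans hT
  have hTe : Real.exp (2 * (3 + C) / c0) ≤ T := ((((le_max_right _ _).trans (le_max_right _ _)).trans
    (le_max_right _ _)).trans (le_max_right _ _)).trans hT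
  have hT0 : 0 < T := by linarith
  have hL1 : 2 * (3 + C) / c0 ≤ Real.log T := (Real.le_log_iff_exp_le hT0).2 hTe
  have hL0 : 0 < Real.log T := Real.log_pos (by linarith)
  have hDe := FirstAux.De_pos hT0
  obtain ⟨x, hx⟩ : ∃ x : ℝ, x = a / Real.log T := ⟨_, rfl⟩
  have hx0 : 0 ≤ x := by rw [hx]; positivity
  rw [← hx]
  obtain ⟨P, hP⟩ : ∃ P : ℕ, P = ⌊T ^ (1 / 20 : ℝ)⌋₊ := ⟨_, rfl⟩
  obtain ⟨N, hN⟩ : ∃ N : ℕ, N = ⌊T ^ (6 / 5 : ℝ)⌋₊ := ⟨_, rfl⟩
  have hPle : (P : ℝ) ≤ T ^ (1 / 20 : ℝ) := by rw [hP]; exact Nat.floor_le (by positivity)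
  have hNle : (N : ℝ) ≤ T ^ (6 / 5 : ℝ) := by rw [hN]; exact Nat.floor_le (by positivity)
  have hP1 : 1 ≤ P := by
    rw [hP, Nat.one_le_floor_iff]
    exact Real.one_le_rpow (by linarith) (by norm_num)
  obtain ⟨hcM, hcm, hcA⟩ := hcoef T hT3 x hx0
  obtain ⟨A, hA⟩ : ∃ A : ArithmeticFunction ℂ, A = tw (gl (Real.log T)) (-(x : ℂ)) *
    mt (gM (Real.log T)) * mt (gm (Real.log T)) := ⟨_, rfl⟩
  rw [← hA] at hcA
  have hPT : (P : ℝ) ≤ T := hPle.trans (by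
    calc T ^ (1 / 20 : ℝ) ≤ T ^ (1 : ℝ) :=
          Real.rpow_le_rpow_of_exponent_le (by linarith) (by norm_num)
      _ = T := Real.rpow_one T)
  have hNPP : ((N * P * P : ℕ) : ℝ) ≤ T ^ (13 / 10 : ℝ) := by
    push_cast
    calc (N : ℝ) * P * P ≤ T ^ (6 / 5 : ℝ) * T ^ (1 / 20 : ℝ) * T ^ (1 / 20 : ℝ) := by gcongr
      _ = T ^ (13 / 10 : ℝ) := by
        rw [← Real.rpow_add hT0, ← Real.rpow_add hT0]; norm_num
  have hsumA : ∑ n ∈ Finset.Icc 1 (N * P * P), ‖A n‖ ≤ C ^ 2 * T ^ 4 := by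
    refine (FirstAux.sum_le A (C ^ 2) (by positivity) 2 _ hcA).trans ?_
    have h1 : ((N * P * P : ℕ) : ℝ) ^ (2 + 1) ≤ T ^ 4 := by
      calc ((N * P * P : ℕ) : ℝ) ^ (2 + 1) ≤ (T ^ (13 / 10 : ℝ)) ^ (2 + 1) := by gcongr
        _ = T ^ (39 / 10 : ℝ) := by
          rw [← Real.rpow_natCast, ← Real.rpow_mul hT0.le]; norm_num
        _ ≤ T ^ (4 : ℝ) := Real.rpow_le_rpow_of_exponent_le (by linarith) (by norm_num)
        _ = T ^ 4 := by rw [← Real.rpow_natCast]; norm_num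
    gcongr
  have hsumB : ∑ n ∈ Finset.Icc 1 P, ‖mt (gm (Real.log T)) n‖ ≤ T ^ (1 / 20 : ℝ) := by
    refine (FirstAux.sum_le _ 1 zero_le_one 0 P (fun n => by simpa using hcm n)).trans ?_
    simpa using hPle
  have hsumM : ∑ n ∈ Finset.Icc 1 P, ‖mt (gM (Real.log T)) n‖ ≤ C * T ^ (1 / 20 : ℝ) := by
    refine (FirstAux.sum_le _ C (by linarith) 0 P (fun n => by simpa using hcM n)).trans ?_
    simpa using mul_le_mul_of_nonneg_left hPle (by linarith : (0 : ℝ) ≤ C)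
  have hT20 : T ^ (1 / 20 : ℝ) ≤ T := by
    calc T ^ (1 / 20 : ℝ) ≤ T ^ (1 : ℝ) :=
          Real.rpow_le_rpow_of_exponent_le (by linarith) (by norm_num)
      _ = T := Real.rpow_one T
  have hT20p : 0 < T ^ (1 / 20 : ℝ) := Real.rpow_pos_of_pos hT0 _
  -- the constants
  obtain ⟨e, he⟩ : ∃ e : ℝ, e = Real.exp (-(T ^ (1 / 5 : ℝ) / 20000)) := ⟨_, rfl⟩
  have he0 : 0 < e := by rw [he]; exact Real.exp_pos _
  obtain ⟨Q, hQ⟩ : ∃ Q : ℝ, Q = C ^ 2 * T ^ 5 := ⟨_, rfl⟩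
  have hQ0 : 0 ≤ Q := by rw [hQ]; positivity
  have hQe : Q * e ≤ 1 := by
    refine le_trans ?_ (hexp T hTT2)
    rw [hQ, he]
    have h1 : T ^ 5 ≤ T ^ 6 := pow_le_pow_right₀ (by linarith) (by norm_num)
    gcongr
  -- the product
  obtain ⟨F, hF⟩ : ∃ F : ℝ → ℂ, F = fun t => (wt τ (De T) t : ℂ) *
    (dp A (N * P * P) t * (starRingEnd ℂ) (dp (mt (gm (Real.log T))) P t)) := ⟨_, rfl⟩
  have hFint : Integrable F := by
    rw [hF]; exact mv_integrable hDe τ A _ (N * P * P) P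
  have hM1 : ∀ t, M1 T t = dp (mt (gM (Real.log T))) P t := fun t => by rw [hP]; rfl
  have hM2 : ∀ t, M2 T t = dp (mt (gm (Real.log T))) P t := fun t => by rw [hP]; rfl
  have hsuppl : ∀ n, N < n → tw (gl (Real.log T)) (-(x : ℂ)) n = 0 := by
    intro n hn
    change (if n = 0 then (0 : ℂ) else gl (Real.log T) n * (n : ℂ) ^ (-(x : ℂ))) = 0
    split_ifs
    · rfl
    · rw [gl_supp hT3 n (by rw [← hN]; exact hn), zero_mul]
  have hsuppM : ∀ n, P < n → mt (gM (Real.log T)) n = 0 := by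
    intro n hn
    change ((ArithmeticFunction.moebius n : ℤ) : ℂ) * gM (Real.log T) n = 0
    rw [gM_supp hT3 n (by rw [← hP]; exact hn), mul_zero]
  have hsuppm : ∀ n, P < n → mt (gm (Real.log T)) n = 0 := by
    intro n hn
    change ((ArithmeticFunction.moebius n : ℤ) : ℂ) * gm (Real.log T) n = 0
    rw [gm_supp hT3 n (by rw [← hP]; exact hn), mul_zero]
  have hprod : ∀ t, dp A (N * P * P) t =
      dp (tw (gl (Real.log T)) (-(x : ℂ))) N t * M1 T t * M2 T t := by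
    intro t
    rw [hM1, hM2, dp_mul _ _ N P hsuppl hsuppM, dp_mul _ _ (N * P) P
      (FirstAux.mul_supp _ _ N P hsuppl hsuppM) hsuppm, hA]
  have hFnorm : ∀ t, ‖F t‖ = wt τ (De T) t *
      (‖dp (tw (gl (Real.log T)) (-(x : ℂ))) N t‖ * ‖M1 T t‖ * ‖M2 T t‖ ^ 2) := by
    intro t
    simp only [hF, norm_mul, RCLike.norm_conj, Complex.norm_real, Real.norm_eq_abs]
    rw [abs_of_pos (FirstAux.wt_pos _ _ _), hprod, ← hM2, norm_mul, norm_mul]
    ring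
  have hFb : ∀ t, ‖F t‖ ≤ wt τ (De T) t * Q := by
    intro t
    simp only [hF, norm_mul, RCLike.norm_conj, Complex.norm_real, Real.norm_eq_abs]
    rw [abs_of_pos (FirstAux.wt_pos _ _ _)]
    refine mul_le_mul_of_nonneg_left ?_ (FirstAux.wt_pos _ _ _).le
    have h1 := (FirstAux.dp_norm_le A (N * P * P) t).trans hsumA
    have h2 := ((FirstAux.dp_norm_le (mt (gm (Real.log T))) P t).trans hsumB).trans hT20
    calc _ ≤ (C ^ 2 * T ^ 4) * T := mul_le_mul h1 h2 (norm_nonneg _) (by positivity)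
      _ = Q := by rw [hQ]; ring
  -- the main term
  have hmain : Real.sqrt Real.pi * De T * (c0 * Real.log T) - Real.sqrt Real.pi * De T ≤
      ‖∫ t : ℝ, F t‖ := by
    have h1 := mv_bil hDe τ A (mt (gm (Real.log T))) (N * P * P) P hP1 (by
      have hN1 : 1 ≤ N := by
        rw [hN, Nat.one_le_floor_iff]
        exact Real.one_le_rpow (by linarith) (by norm_num)
      calc P = 1 * 1 * P := by ring
        _ ≤ N * P * P := by gcongr)
    obtain ⟨S, hS⟩ : ∃ S : ℂ, S = ∑ n ∈ Finset.Icc 1 P,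
      A n * (starRingEnd ℂ) (mt (gm (Real.log T)) n) / (n : ℂ) := ⟨_, rfl⟩
    have h2 : c0 * Real.log T ≤ S.re := by
      rw [hS, hP, hA]
      exact hdiag T hTT1 x hx0
    have h3 : c0 * Real.log T ≤ ‖S‖ := h2.trans (Complex.re_le_norm S)
    rw [← hS] at h1
    have h4 : ‖((Real.sqrt Real.pi * De T : ℝ) : ℂ) * S‖ = Real.sqrt Real.pi * De T * ‖S‖ := by
      rw [norm_mul, Complex.norm_real, Real.norm_of_nonneg (by positivity)]
    have h5 : Real.sqrt Real.pi * De T * Real.exp (-(De T ^ 2 / (16 * (P : ℝ) ^ 2))) *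
        (∑ n ∈ Finset.Icc 1 (N * P * P), ‖A n‖) *
        (∑ n ∈ Finset.Icc 1 P, ‖mt (gm (Real.log T)) n‖) ≤ Real.sqrt Real.pi * De T := by
      have h6 := FirstAux.exp_cmp (by linarith : (1 : ℝ) ≤ T) P hP1 hPle
      rw [← he] at h6
      calc _ ≤ Real.sqrt Real.pi * De T * e * (C ^ 2 * T ^ 4) * T := by
            have h7 := hsumB.trans hT20
            have h8 : 0 ≤ ∑ n ∈ Finset.Icc 1 P, ‖mt (gm (Real.log T)) n‖ :=
              Finset.sum_nonneg fun n _ => norm_nonneg _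
            have h9 : 0 ≤ ∑ n ∈ Finset.Icc 1 (N * P * P), ‖A n‖ :=
              Finset.sum_nonneg fun n _ => norm_nonneg _
            gcongr
        _ = Real.sqrt Real.pi * De T * (Q * e) := by rw [hQ]; ring
        _ ≤ Real.sqrt Real.pi * De T * 1 := by gcongr
        _ = Real.sqrt Real.pi * De T := mul_one _
    have h6 := norm_sub_norm_le (((Real.sqrt Real.pi * De T : ℝ) : ℂ) * S) (∫ t : ℝ, F t)
    rw [norm_sub_rev, h4] at h6
    have h7 : ‖(∫ t : ℝ, F t) - ((Real.sqrt Real.pi * De T : ℝ) : ℂ) * S‖ ≤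
        Real.sqrt Real.pi * De T := by
      rw [hF]; exact h1.trans h5
    have h8 : Real.sqrt Real.pi * De T * (c0 * Real.log T) ≤
        Real.sqrt Real.pi * De T * ‖S‖ := by gcongr
    linarith
  -- the far part
  have hfar := FirstAux.far_part hT3 τ F Q hQ0 hFb
  have hsq2 : Real.sqrt (Real.pi / (1 / 2)) ≤ 2 * Real.sqrt Real.pi := by
    rw [Real.sqrt_le_left (by positivity)]
    rw [mul_pow, Real.sq_sqrt Real.pi_pos.le]
    linarith [Real.pi_pos]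
  have hfar2 : ‖∫ t in (Set.Ioc (τ - T / 100) (τ + T / 100))ᶜ, F t‖ ≤
      2 * Real.sqrt Real.pi * De T := by
    refine hfar.trans ?_
    rw [← he]
    calc Q * e * (Real.sqrt (Real.pi / (1 / 2)) * De T) ≤ 1 * (2 * Real.sqrt Real.pi * De T) := by
          gcongr
      _ = _ := one_mul _
  have hnear : Real.sqrt Real.pi * De T * (c0 * Real.log T) - 3 * (Real.sqrt Real.pi * De T) ≤
      ∫ t in Set.Ioc (τ - T / 100) (τ + T / 100), ‖F t‖ := by
    have h1 := integral_add_compl (μ := volume) (s := Set.Ioc (τ - T / 100) (τ + T / 100))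
      measurableSet_Ioc hFint
    have h2 : ‖∫ t : ℝ, F t‖ ≤ ‖∫ t in Set.Ioc (τ - T / 100) (τ + T / 100), F t‖ +
        ‖∫ t in (Set.Ioc (τ - T / 100) (τ + T / 100))ᶜ, F t‖ := by
      rw [← h1]; exact norm_add_le _ _
    have h3 := norm_integral_le_integral_norm (μ := volume.restrict
      (Set.Ioc (τ - T / 100) (τ + T / 100))) F
    linarith
  -- comparison
  obtain ⟨hg1, hg2⟩ := FirstAux.gauss_int hDe τ 1 one_pos
  have hwt : wt τ (De T) = fun t => Real.exp (-(1 * ((t - τ) / De T) ^ 2)) := by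
    funext t; unfold wt; ring_nf
  rw [← hwt] at hg1
  have hg3 : ∫ t : ℝ, wt τ (De T) t = Real.sqrt Real.pi * De T := by
    rw [hwt, hg2, div_one]
  have hcontZ : ContinuousOn (fun t : ℝ => riemannZeta (1 / 2 + (x : ℂ) + t * I))
      (Set.Icc (τ - T / 100) (τ + T / 100)) := by
    intro t ht
    have ht0 : 0 < t := by
      have := ht.1
      linarith
    have h1 : (1 / 2 + (x : ℂ) + t * I) ≠ 1 := by
      intro h
      have := congrArg Complex.im h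
      simp at this
      exact ht0.ne' this
    have h2 : ContinuousAt riemannZeta (1 / 2 + (x : ℂ) + t * I) :=
      (differentiableAt_riemannZeta h1).continuousAt
    have h3 : ContinuousAt (fun t : ℝ => (1 / 2 + (x : ℂ) + t * I)) t := by fun_prop
    exact (ContinuousAt.comp (f := fun t : ℝ => (1 / 2 + (x : ℂ) + t * I)) h2 h3).continuousWithinAt
  have hJint : IntegrableOn (fun t : ℝ => wt τ (De T) t *
      (‖riemannZeta (1 / 2 + (x : ℂ) + t * I)‖ * ‖M1 T t‖ * ‖M2 T t‖ ^ 2))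
      (Set.Ioc (τ - T / 100) (τ + T / 100)) := by
    apply IntegrableOn.mono_set _ Set.Ioc_subset_Icc_self
    apply ContinuousOn.integrableOn_compact isCompact_Icc
    have h1 : Continuous (M1 T) := dp_continuous _ _
    have h2 : Continuous (M2 T) := dp_continuous _ _
    exact (FirstAux.wt_continuous τ (De T)).continuousOn.mul
      (((hcontZ.norm).mul h1.norm.continuousOn).mul (h2.norm.pow 2).continuousOn)
  rw [intervalIntegral.integral_of_le (by linarith)]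
  have hcmp : ∫ t in Set.Ioc (τ - T / 100) (τ + T / 100), (‖F t‖ - C * wt τ (De T) t) ≤
      ∫ t in Set.Ioc (τ - T / 100) (τ + T / 100), wt τ (De T) t *
      (‖riemannZeta (1 / 2 + (x : ℂ) + t * I)‖ * ‖M1 T t‖ * ‖M2 T t‖ ^ 2) := by
    apply setIntegral_mono_on ((hFint.norm.sub (hg1.const_mul C)).integrableOn) hJint
      measurableSet_Ioc
    intro t ht
    change ‖F t‖ - C * wt τ (De T) t ≤ _
    rw [hFnorm]
    have h1 := hafe T hTT3 (x : ℂ) (by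
      rw [Complex.ofReal_re, abs_of_nonneg hx0, hx]
      gcongr) t (by
        rw [Complex.ofReal_im, add_zero]
        have := ht.1
        linarith) (by
        rw [Complex.ofReal_im, add_zero]
        have := ht.2
        linarith)
    rw [← hN] at h1
    have h2 : ‖dp (tw (gl (Real.log T)) (-(x : ℂ))) N t‖ ≤
        ‖riemannZeta (1 / 2 + (x : ℂ) + t * I)‖ + 1 / T := by
      have h3 := norm_sub_norm_le (dp (tw (gl (Real.log T)) (-(x : ℂ))) N t)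
        (riemannZeta (1 / 2 + (x : ℂ) + t * I))
      rw [norm_sub_rev] at h3
      linarith
    have hb1 : ‖M1 T t‖ ≤ C * T ^ (1 / 20 : ℝ) := by
      rw [hM1]; exact (FirstAux.dp_norm_le _ P t).trans hsumM
    have hb2 : ‖M2 T t‖ ≤ T ^ (1 / 20 : ℝ) := by
      rw [hM2]; exact (FirstAux.dp_norm_le _ P t).trans hsumB
    have h3 : ‖M1 T t‖ * ‖M2 T t‖ ^ 2 ≤ C * T := by
      calc ‖M1 T t‖ * ‖M2 T t‖ ^ 2 ≤ (C * T ^ (1 / 20 : ℝ)) * (T ^ (1 / 20 : ℝ)) ^ 2 := by gcongr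
        _ = C * T ^ (3 / 20 : ℝ) := by
          rw [mul_assoc]
          congr 1
          rw [← pow_succ', ← Real.rpow_natCast, ← Real.rpow_mul hT0.le]; norm_num
        _ ≤ C * T ^ (1 : ℝ) := by
          apply mul_le_mul_of_nonneg_left _ (by linarith)
          exact Real.rpow_le_rpow_of_exponent_le (by linarith) (by norm_num)
        _ = C * T := by rw [Real.rpow_one]
    have h4 : ‖dp (tw (gl (Real.log T)) (-(x : ℂ))) N t‖ * ‖M1 T t‖ * ‖M2 T t‖ ^ 2 - C ≤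
        ‖riemannZeta (1 / 2 + (x : ℂ) + t * I)‖ * ‖M1 T t‖ * ‖M2 T t‖ ^ 2 := by
      have h5 : ‖dp (tw (gl (Real.log T)) (-(x : ℂ))) N t‖ * (‖M1 T t‖ * ‖M2 T t‖ ^ 2) ≤
          (‖riemannZeta (1 / 2 + (x : ℂ) + t * I)‖ + 1 / T) * (‖M1 T t‖ * ‖M2 T t‖ ^ 2) :=
        mul_le_mul_of_nonneg_right h2 (by positivity)
      have h6 : 1 / T * (‖M1 T t‖ * ‖M2 T t‖ ^ 2) ≤ C := by
        calc 1 / T * (‖M1 T t‖ * ‖M2 T t‖ ^ 2) ≤ 1 / T * (C * T) := by gcongr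
          _ = C := by field_simp
      rw [add_mul] at h5
      rw [mul_assoc ‖dp (tw (gl (Real.log T)) (-(x : ℂ))) N t‖,
        mul_assoc ‖riemannZeta (1 / 2 + (x : ℂ) + t * I)‖]
      linarith only [h5, h6]
    have h5 := mul_le_mul_of_nonneg_left h4 (FirstAux.wt_pos τ (De T) t).le
    rw [mul_sub, mul_comm (wt τ (De T) t) C] at h5
    exact h5
  have hsplit : ∫ t in Set.Ioc (τ - T / 100) (τ + T / 100), (‖F t‖ - C * wt τ (De T) t) =
      (∫ t in Set.Ioc (τ - T / 100) (τ + T / 100), ‖F t‖) -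
        C * ∫ t in Set.Ioc (τ - T / 100) (τ + T / 100), wt τ (De T) t := by
    rw [integral_sub hFint.norm.integrableOn (hg1.const_mul C).integrableOn, integral_const_mul]
  have hwle : ∫ t in Set.Ioc (τ - T / 100) (τ + T / 100), wt τ (De T) t ≤
      Real.sqrt Real.pi * De T := by
    rw [← hg3]
    apply setIntegral_le_integral hg1
    exact Filter.Eventually.of_forall fun t => (FirstAux.wt_pos _ _ _).le
  refine le_trans ?_ hcmp
  rw [hsplit]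
  have hfin : c0 / 2 * (De T * Real.log T) ≤ Real.sqrt Real.pi * De T * (c0 * Real.log T) -
      3 * (Real.sqrt Real.pi * De T) - C * (Real.sqrt Real.pi * De T) := by
    have h1 : 2 * (3 + C) ≤ c0 * Real.log T := by
      rw [div_le_iff₀ hc0] at hL1
      linarith
    have h2 : 1 ≤ Real.sqrt Real.pi := by
      rw [Real.one_le_sqrt]
      linarith [Real.pi_gt_three]
    have h3 : c0 * Real.log T / 2 ≤ c0 * Real.log T - 3 - C := by linarith
    have h4 : Real.sqrt Real.pi * De T * (c0 * Real.log T / 2) ≤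
        Real.sqrt Real.pi * De T * (c0 * Real.log T - 3 - C) := by gcongr
    have h5 : 1 * De T * (c0 * Real.log T / 2) ≤
        Real.sqrt Real.pi * De T * (c0 * Real.log T / 2) := by gcongr
    linarith
  have hCw := mul_le_mul_of_nonneg_left hwle (by linarith : (0 : ℝ) ≤ C)
  linarith

end Pool.Agent.P4f18dfS
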