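import Pool.Agent.Lib.P4f18dfS.Spline

/-!
# Bounds for the kernel, and representations of the weights

PROOF. `Ex` is entire (`Complex.differentiableOn_dslope`), `‖Ex w‖ ≤ exp(max (Re w) 0)` (`Ex w = ∫_0^1 e^{tw} dt`, or
`‖e^w - 1‖ ≤ ‖w‖ sup`), and `‖Ex w‖ ≤ 2 exp(max (Re w) 0)/‖w‖` for `w ≠ 0`.
`ker_norm`: `‖ker(z)/z‖ ≤ e^{bc} e^{kδ max(c,0)} min(1, (2/(δ‖z‖))^k)/‖z‖`, `z = c + iy`, `δ = θ L`.
On `|y| ≤ 2/(θL)`: `‖z‖ ≥ |c|`, so the contribution is `≤ (4/(θL)) (1/|c|) (1 + 2/θ)^m (1 + L|c| + 2/θ)^8`.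
On `|y| > 2/(θL)`: `(2/(θL|y|))^k (1/|y|) (1+|y|)^m (1 + L|c| + L|y|)^8` with
`(1 + L|c| + L|y|) ≤ (1 + L|c|)(1 + L|y|)`, `L|y| ≥ 2/θ` and, substituting `s = L|y|`, `(1 + |y|)^m ≤ (1 + s)^m` (`L ≥ 1`):
`∫_{2/θ}^∞ (2/(θ s))^k (1+s)^{m+8} ds/s < ∞` as `k ≥ m + 10`.
`rep_gM`, `rep_gm`: `c = 1/L`, `h(y) = ker(z)/(2π z)`, resp. `h(y) = k! e^{Bz}/(2π B^k z^{k+1})`, `B = L/40`, `x = log n`
(`pwt B k x = (max (B - x) 0)^k/B^k`, `tp_rep`); `n^{-(c+iy)} = exp(-(c+iy) log n)`. `4`th power `≤ 8`th power.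
`rep_spl`: the general case, any `c > 0`.
-/

set_option autoImplicit false

open Complex MeasureTheory

namespace Pool.Agent.P4f18dfS

namespace KNAux

lemma Ex_zero : Ex 0 = 1 := by
  unfold Ex
  rw [dslope_same, Complex.deriv_exp, Complex.exp_zero]

lemma Ex_ne {w : ℂ} (hw : w ≠ 0) : Ex w = (Complex.exp w - 1) / w := by
  unfold Ex
  rw [dslope_of_ne _ hw, slope_def_field, Complex.exp_zero, sub_zero]

lemma z_re (c y : ℝ) : ((c : ℂ) + y * I).re = c := by simp
lemma z_im (c y : ℝ) : ((c : ℂ) + y * I).im = y := by simp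

lemma z_ne {c : ℝ} (hc : c ≠ 0) (y : ℝ) : (c : ℂ) + y * I ≠ 0 := by
  intro h
  apply hc
  rw [← z_re c y, h, Complex.zero_re]

lemma abs_c_le (c y : ℝ) : |c| ≤ ‖(c : ℂ) + y * I‖ := by
  have := Complex.abs_re_le_norm ((c : ℂ) + y * I)
  rwa [z_re] at this

lemma abs_y_le (c y : ℝ) : |y| ≤ ‖(c : ℂ) + y * I‖ := by
  have := Complex.abs_im_le_norm ((c : ℂ) + y * I)
  rwa [z_im] at this

lemma integrable_base {L : ℝ} (hL : 0 < L) : Integrable (fun y : ℝ => (1 + (L * y) ^ 2)⁻¹) := by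
  have := integrable_inv_one_add_sq.comp_mul_left' hL.ne'
  exact this

lemma integral_base {L : ℝ} (hL : 0 < L) : ∫ y : ℝ, (1 + (L * y) ^ 2)⁻¹ = Real.pi / L := by
  have := MeasureTheory.Measure.integral_comp_mul_left (fun y : ℝ => (1 + y ^ 2)⁻¹) L
  rw [this, integral_univ_inv_one_add_sq, abs_of_pos (by positivity), smul_eq_mul]
  ring

/-- The main elementary bound. -/
lemma min_bound {θ : ℝ} (hθ : 0 < θ) {k m : ℕ} (hk : m ≤ k) {q E u : ℝ} (hE : 0 ≤ E)
    (hq0 : 0 ≤ q) (hu : 0 < u) (h1 : q ≤ E) (h2 : q ≤ E * (2 / (θ * u)) ^ k) :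
    q * (1 + u) ^ m ≤ E * (1 + 2 / θ) ^ m := by
  rcases le_total u (2 / θ) with h | h
  · exact mul_le_mul h1 (pow_le_pow_left₀ (by positivity) (by linarith) m) (by positivity) hE
  · have h3 : 2 / (θ * u) ≤ 1 := by
      rw [div_le_one (by positivity)]
      rw [div_le_iff₀ hθ] at h
      linarith
    have h4 : (2 / (θ * u)) ^ k ≤ (2 / (θ * u)) ^ m :=
      pow_le_pow_of_le_one (by positivity) h3 hk
    have h5 : 2 / (θ * u) * (1 + u) ≤ 1 + 2 / θ := by
      have : 2 / (θ * u) * (1 + u) = 2 / (θ * u) + 2 / θ := by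
        field_simp
      rw [this]
      linarith
    calc q * (1 + u) ^ m ≤ E * (2 / (θ * u)) ^ m * (1 + u) ^ m := by
          refine mul_le_mul_of_nonneg_right (h2.trans (mul_le_mul_of_nonneg_left h4 hE)) (by positivity)
      _ = E * (2 / (θ * u) * (1 + u)) ^ m := by rw [mul_pow]; ring
      _ ≤ E * (1 + 2 / θ) ^ m :=
          mul_le_mul_of_nonneg_left (pow_le_pow_left₀ (by positivity) h5 m) hE

end KNAux

open KNAux

theorem Ex_diff : Differentiable ℂ Ex := by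
  rw [← differentiableOn_univ]
  exact (Complex.differentiableOn_dslope Filter.univ_mem).mpr Complex.differentiable_exp.differentiableOn

theorem Ex_norm (w : ℂ) : ‖Ex w‖ ≤ Real.exp (max w.re 0) := by
  by_cases hw : w = 0
  · subst hw
    rw [Ex_zero, norm_one, Complex.zero_re, max_self, Real.exp_zero]
  · have h1 : Ex w = ∫ t in (0:ℝ)..1, Complex.exp (w * t) := by
      rw [integral_exp_mul_complex hw, Ex_ne hw]
      simp
    rw [h1]
    have := intervalIntegral.norm_integral_le_of_norm_le_const (a := 0) (b := 1)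
      (f := fun t : ℝ => Complex.exp (w * t)) (C := Real.exp (max w.re 0)) ?_
    · simpa using this
    · intro t ht
      rw [Set.uIoc_of_le zero_le_one] at ht
      rw [Complex.norm_exp]
      refine Real.exp_le_exp.mpr ?_
      rw [Complex.re_mul_ofReal]
      rcases le_total w.re 0 with h | h
      · rw [max_eq_right h]
        exact mul_nonpos_of_nonpos_of_nonneg h ht.1.le
      · rw [max_eq_left h]
        exact mul_le_of_le_one_right h ht.2

theorem Ex_norm' (w : ℂ) (hw : w ≠ 0) : ‖Ex w‖ ≤ 2 * Real.exp (max w.re 0) / ‖w‖ := by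
  rw [Ex_ne hw, norm_div]
  refine div_le_div_of_nonneg_right ?_ (norm_nonneg _)
  have h1 : ‖Complex.exp w - 1‖ ≤ Real.exp w.re + 1 := by
    calc ‖Complex.exp w - 1‖ ≤ ‖Complex.exp w‖ + ‖(1:ℂ)‖ := norm_sub_le _ _
      _ = Real.exp w.re + 1 := by rw [Complex.norm_exp, norm_one]
  have h2 : Real.exp w.re ≤ Real.exp (max w.re 0) := Real.exp_le_exp.mpr (le_max_left _ _)
  have h3 : 1 ≤ Real.exp (max w.re 0) := Real.one_le_exp (le_max_right _ _)
  linarith

theorem ker_diff (b δ : ℝ) (k : ℕ) : Differentiable ℂ (ker b δ k) := by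
  unfold ker
  refine Differentiable.mul (by fun_prop) (Differentiable.pow ?_ k)
  exact Ex_diff.comp (by fun_prop)

theorem ker_zero (b δ : ℝ) (k : ℕ) : ker b δ k 0 = 1 := by
  unfold ker
  rw [mul_zero, mul_zero, Complex.exp_zero, Ex_zero, one_pow, mul_one]

theorem ker_le (b : ℝ) {δ : ℝ} (hδ : 0 < δ) (k : ℕ) (z : ℂ) :
    ‖ker b δ k z‖ ≤ Real.exp (b * z.re + k * δ * max z.re 0) := by
  unfold ker
  rw [norm_mul, norm_pow, Complex.norm_exp, Complex.re_ofReal_mul, Real.exp_add]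
  refine mul_le_mul_of_nonneg_left ?_ (Real.exp_pos _).le
  have h1 := Ex_norm ((δ : ℂ) * z)
  rw [Complex.re_ofReal_mul] at h1
  have h2 : max (δ * z.re) 0 = δ * max z.re 0 := by
    rw [mul_max_of_nonneg _ _ hδ.le, mul_zero]
  rw [h2] at h1
  calc ‖Ex ((δ : ℂ) * z)‖ ^ k ≤ Real.exp (δ * max z.re 0) ^ k :=
        pow_le_pow_left₀ (norm_nonneg _) h1 k
    _ = Real.exp (k * δ * max z.re 0) := by
        rw [← Real.exp_nat_mul]
        congr 1
        ring

theorem ker_le' (b : ℝ) {δ : ℝ} (hδ : 0 < δ) (k : ℕ) (z : ℂ) (hz : z ≠ 0) :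
    ‖ker b δ k z‖ ≤ Real.exp (b * z.re + k * δ * max z.re 0) * (2 / (δ * ‖z‖)) ^ k := by
  unfold ker
  have hδC : (δ : ℂ) ≠ 0 := by exact_mod_cast hδ.ne'
  rw [norm_mul, norm_pow, Complex.norm_exp, Complex.re_ofReal_mul, Real.exp_add, mul_assoc]
  refine mul_le_mul_of_nonneg_left ?_ (Real.exp_pos _).le
  have h1 := Ex_norm' ((δ : ℂ) * z) (mul_ne_zero hδC hz)
  rw [Complex.re_ofReal_mul, norm_mul, Complex.norm_of_nonneg hδ.le] at h1
  have h2 : max (δ * z.re) 0 = δ * max z.re 0 := by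
    rw [mul_max_of_nonneg _ _ hδ.le, mul_zero]
  rw [h2] at h1
  calc ‖Ex ((δ : ℂ) * z)‖ ^ k ≤ (2 * Real.exp (δ * max z.re 0) / (δ * ‖z‖)) ^ k :=
        pow_le_pow_left₀ (norm_nonneg _) h1 k
    _ = (Real.exp (δ * max z.re 0) * (2 / (δ * ‖z‖))) ^ k := by
        congr 1
        ring
    _ = Real.exp (k * δ * max z.re 0) * (2 / (δ * ‖z‖)) ^ k := by
        rw [mul_pow, ← Real.exp_nat_mul]
        congr 2
        ring

theorem ker_norm (k m : ℕ) (hk : m + 10 ≤ k) {θ : ℝ} (hθ : 0 < θ) : ∃ C : ℝ, 0 < C ∧ ∀ L : ℝ, 1 ≤ L →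
    ∀ b c : ℝ, c ≠ 0 →
    Integrable (fun y : ℝ => ‖ker b (θ * L) k ((c : ℂ) + y * I) / ((c : ℂ) + y * I)‖ * (1 + |y|) ^ m *
      (1 + L * ‖(c : ℂ) + y * I‖) ^ 8) ∧
    ∫ y : ℝ, ‖ker b (θ * L) k ((c : ℂ) + y * I) / ((c : ℂ) + y * I)‖ * (1 + |y|) ^ m *
      (1 + L * ‖(c : ℂ) + y * I‖) ^ 8 ≤
      C * (1 + L * |c|) ^ 8 * (1 + 1 / (L * |c|)) * Real.exp (b * c + k * (θ * L) * max c 0) := by
  set C₁ : ℝ := (1 + 2 / θ) ^ (m + 10) with hC₁
  have hC₁0 : 0 < C₁ := by positivity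
  refine ⟨Real.pi * C₁, by positivity, fun L hL b c hc => ?_⟩
  have hL0 : 0 < L := by linarith
  have hc0 : 0 < |c| := abs_pos.mpr hc
  set E : ℝ := Real.exp (b * c + k * (θ * L) * max c 0) with hE
  have hE0 : 0 < E := Real.exp_pos _
  set g : ℝ → ℝ := fun y => E * C₁ / |c| * (1 + (L * y) ^ 2)⁻¹ with hg
  have hgi : Integrable g := (integrable_base hL0).const_mul _
  have hgint : ∫ y, g y = E * C₁ / |c| * (Real.pi / L) := by
    rw [hg, MeasureTheory.integral_const_mul, integral_base hL0]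
  have hpt : ∀ y : ℝ, ‖ker b (θ * L) k ((c : ℂ) + y * I) / ((c : ℂ) + y * I)‖ * (1 + |y|) ^ m *
      (1 + L * ‖(c : ℂ) + y * I‖) ^ 8 ≤ g y := by
    intro y
    set z : ℂ := (c : ℂ) + y * I with hz
    have hz0 : z ≠ 0 := z_ne hc y
    have hzn : 0 < ‖z‖ := norm_pos_iff.mpr hz0
    have hzc : |c| ≤ ‖z‖ := abs_c_le c y
    have hzy : |y| ≤ ‖z‖ := abs_y_le c y
    set u : ℝ := L * ‖z‖ with hu
    have hu0 : 0 < u := by positivity
    have h1 : ‖ker b (θ * L) k z‖ ≤ E := by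
      have := ker_le b (δ := θ * L) (by positivity) k z
      rwa [hz, z_re] at this
    have h2 : ‖ker b (θ * L) k z‖ ≤ E * (2 / (θ * u)) ^ k := by
      have := ker_le' b (δ := θ * L) (by positivity) k z hz0
      rw [show z.re = c from z_re c y] at this
      rwa [hu, ← mul_assoc]
    have h3 := min_bound hθ hk hE0.le (norm_nonneg _) hu0 h1 h2
    have h4 : 1 + |y| ≤ 1 + u := by
      have : |y| ≤ u := by
        rw [hu]
        calc |y| ≤ ‖z‖ := hzy
          _ = 1 * ‖z‖ := (one_mul _).symm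
          _ ≤ L * ‖z‖ := mul_le_mul_of_nonneg_right hL hzn.le
      linarith
    have h5 : 1 + (L * y) ^ 2 ≤ (1 + u) ^ 2 := by
      have : (L * y) ^ 2 ≤ u ^ 2 := by
        rw [← sq_abs (L * y), abs_mul, abs_of_pos hL0]
        exact pow_le_pow_left₀ (by positivity) (mul_le_mul_of_nonneg_left hzy hL0.le) 2
      nlinarith
    rw [norm_div]
    calc ‖ker b (θ * L) k z‖ / ‖z‖ * (1 + |y|) ^ m * (1 + u) ^ 8
        ≤ ‖ker b (θ * L) k z‖ / ‖z‖ * (1 + u) ^ m * (1 + u) ^ 8 := by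
          refine mul_le_mul_of_nonneg_right (mul_le_mul_of_nonneg_left
            (pow_le_pow_left₀ (by positivity) h4 m) (by positivity)) (by positivity)
      _ = (‖ker b (θ * L) k z‖ * (1 + u) ^ (m + 10)) / (‖z‖ * (1 + u) ^ 2) := by
          rw [show m + 10 = m + 8 + 2 by ring, pow_add, pow_add]
          field_simp
      _ ≤ (E * C₁) / (|c| * (1 + (L * y) ^ 2)) := by
          refine div_le_div₀ (by positivity) h3 (by positivity) ?_
          exact mul_le_mul hzc h5 (by positivity) hzn.le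
      _ = g y := by
          rw [hg]
          field_simp
  have hmeas : Continuous (fun y : ℝ => ‖ker b (θ * L) k ((c : ℂ) + y * I) / ((c : ℂ) + y * I)‖ *
      (1 + |y|) ^ m * (1 + L * ‖(c : ℂ) + y * I‖) ^ 8) := by
    have h1 : Continuous (fun y : ℝ => ker b (θ * L) k ((c : ℂ) + y * I) / ((c : ℂ) + y * I)) := by
      refine Continuous.div ((ker_diff b (θ * L) k).continuous.comp (by fun_prop)) (by fun_prop) ?_
      exact z_ne hc
    fun_prop
  have hint : Integrable (fun y : ℝ => ‖ker b (θ * L) k ((c : ℂ) + y * I) / ((c : ℂ) + y * I)‖ *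
      (1 + |y|) ^ m * (1 + L * ‖(c : ℂ) + y * I‖) ^ 8) := by
    refine hgi.mono' hmeas.aestronglyMeasurable (Filter.Eventually.of_forall fun y => ?_)
    rw [Real.norm_of_nonneg (by positivity)]
    exact hpt y
  refine ⟨hint, (integral_mono hint hgi hpt).trans ?_⟩
  rw [hgint]
  have h6 : (1:ℝ) ≤ (1 + L * |c|) ^ 8 := one_le_pow₀ (by
    have : 0 < L * |c| := by positivity
    linarith)
  calc E * C₁ / |c| * (Real.pi / L) = Real.pi * C₁ * 1 * (1 / (L * |c|)) * E := by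
        field_simp
    _ ≤ Real.pi * C₁ * (1 + L * |c|) ^ 8 * (1 + 1 / (L * |c|)) * E := by
        refine mul_le_mul_of_nonneg_right ?_ hE0.le
        refine mul_le_mul (mul_le_mul_of_nonneg_left h6 (by positivity)) (by linarith) (by positivity)
          (by positivity)

theorem rep_spl (k : ℕ) (hk : 10 ≤ k) {θ : ℝ} (hθ : 0 < θ) : ∃ C : ℝ, 0 < C ∧ ∀ L : ℝ, 1 ≤ L →
    ∀ b c : ℝ, 0 < c →
    Rep L c (fun n => (spl b (θ * L) k (Real.log n) : ℂ))
      (C * (1 + L * c) ^ 8 * (1 + 1 / (L * c)) * Real.exp (b * c + k * (θ * L) * c)) := by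
  obtain ⟨C, hC, h⟩ := ker_norm k 0 (by omega) hθ
  refine ⟨C, hC, fun L hL b c hc => ?_⟩
  have hL0 : 0 < L := by linarith
  obtain ⟨hi, hb⟩ := h L hL b c hc.ne'
  rw [abs_of_pos hc, max_eq_left hc.le] at hb
  simp only [pow_zero, mul_one] at hi hb
  set K : ℝ → ℂ := fun y => ker b (θ * L) k ((c : ℂ) + y * I) / ((c : ℂ) + y * I) with hK
  have hKc : Continuous K := by
    refine Continuous.div ((ker_diff b (θ * L) k).continuous.comp (by fun_prop)) (by fun_prop) ?_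
    exact z_ne hc.ne'
  have hpiC : (2 * Real.pi : ℂ) ≠ 0 := by
    norm_num
  have hpt : ∀ y : ℝ, ‖K y / (2 * Real.pi)‖ * (1 + L * ‖(c : ℂ) + y * I‖) ^ 4 ≤
      ‖K y‖ * (1 + L * ‖(c : ℂ) + y * I‖) ^ 8 := by
    intro y
    refine mul_le_mul ?_ ?_ (by positivity) (norm_nonneg _)
    · rw [norm_div]
      refine div_le_self (norm_nonneg _) ?_
      have : ‖(2 * Real.pi : ℂ)‖ = 2 * Real.pi := by
        rw [norm_mul, Complex.norm_of_nonneg Real.pi_pos.le]
        norm_num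
      rw [this]
      linarith [Real.pi_gt_three]
    · exact pow_le_pow_right₀ (by
        have : 0 ≤ L * ‖(c : ℂ) + y * I‖ := by positivity
        linarith) (by norm_num)
  have hhc : Continuous (fun y => K y / (2 * Real.pi : ℂ)) := hKc.div_const _
  have hint : Integrable (fun y : ℝ => ‖K y / (2 * Real.pi)‖ * (1 + L * ‖(c : ℂ) + y * I‖) ^ 4) := by
    refine hi.mono' ?_ (Filter.Eventually.of_forall fun y => ?_)
    · have : Continuous (fun y : ℝ => ‖K y / (2 * Real.pi)‖ * (1 + L * ‖(c : ℂ) + y * I‖) ^ 4) := by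
        fun_prop
      exact this.aestronglyMeasurable
    · rw [Real.norm_of_nonneg (by positivity)]
      exact hpt y
  refine ⟨fun y => K y / (2 * Real.pi), hhc, hint, (integral_mono hint hi hpt).trans hb, ?_⟩
  intro n hn
  have hn0 : (n : ℂ) ≠ 0 := by
    have : n ≠ 0 := by omega
    exact_mod_cast this
  have hrep := spl_rep b (δ := θ * L) (by positivity) k (by omega) hc (Real.log n)
  have e1 : ∀ y : ℝ, K y / (2 * Real.pi) * (n : ℂ) ^ (-((c : ℂ) + y * I)) =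
      (1 / (2 * Real.pi) : ℂ) * (Complex.exp (-(((c : ℂ) + y * I) * (Real.log n : ℝ))) * K y) := by
    intro y
    rw [Complex.cpow_def_of_ne_zero hn0, ← Complex.natCast_log]
    rw [show (Real.log n : ℂ) * -((c : ℂ) + y * I) = -(((c : ℂ) + y * I) * (Real.log n : ℝ)) by ring]
    ring
  simp_rw [e1]
  rw [MeasureTheory.integral_const_mul, hrep]
  push_cast
  field_simp

theorem rep_gM : ∃ A : ℝ, 0 < A ∧ ∀ L : ℝ, 1 ≤ L → Rep L (1 / L) (gM L) A := by
  obtain ⟨C, hC, h⟩ := rep_spl 100 (by norm_num) (θ := 1 / 4000) (by norm_num)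
  refine ⟨C * 2 ^ 9 * Real.exp (1 / 20), by positivity, fun L hL => ?_⟩
  have hL0 : 0 < L := by linarith
  have h1 := h L hL (L / 40) (1 / L) (by positivity)
  have e1 : (fun n : ℕ => (spl (L / 40) (1 / 4000 * L) 100 (Real.log n) : ℂ)) = gM L := by
    funext n
    unfold gM K0
    congr 2
    push_cast
    ring
  rw [e1] at h1
  have e2 : C * (1 + L * (1 / L)) ^ 8 * (1 + 1 / (L * (1 / L))) *
      Real.exp (L / 40 * (1 / L) + (100 : ℕ) * (1 / 4000 * L) * (1 / L)) =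
      C * 2 ^ 9 * Real.exp (1 / 20) := by
    have e3 : L * (1 / L) = 1 := by field_simp
    have e4 : L / 40 * (1 / L) + (100 : ℕ) * (1 / 4000 * L) * (1 / L) = 1 / 20 := by
      push_cast
      field_simp
      norm_num
    rw [e3, e4]
    norm_num
    ring
  rwa [e2] at h1

theorem rep_gm : ∃ A : ℝ, 0 < A ∧ ∀ L : ℝ, 1 ≤ L → Rep L (1 / L) (gm L) A := by
  set D : ℝ := ((100 : ℕ).factorial : ℝ) * Real.exp (1 / 40) * 40 ^ 100 * 16 with hD
  have hD0 : 0 < D := by positivity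
  refine ⟨D * Real.pi, by positivity, fun L hL => ?_⟩
  have hL0 : 0 < L := by linarith
  have hc : 0 < 1 / L := by positivity
  set B : ℝ := L / 40 with hB
  have hB0 : 0 < B := by positivity
  set h : ℝ → ℂ := fun y => (((100 : ℕ).factorial : ℝ) / (2 * Real.pi * B ^ 100) : ℝ) *
    (Complex.exp ((((1 / L : ℝ) : ℂ) + y * I) * B) / (((1 / L : ℝ) : ℂ) + y * I) ^ 101) with hh
  have hhc : Continuous h := by
    rw [hh]
    refine continuous_const.mul (Continuous.div (by fun_prop) (by fun_prop) ?_)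
    intro y
    exact pow_ne_zero _ (z_ne hc.ne' y)
  have hnz : ∀ y : ℝ, (L * ‖((1 / L : ℝ) : ℂ) + y * I‖) ^ 2 = 1 + (L * y) ^ 2 := by
    intro y
    rw [mul_pow, ← Complex.normSq_eq_norm_sq, Complex.normSq_apply, z_re, z_im]
    field_simp
  have hpt : ∀ y : ℝ, ‖h y‖ * (1 + L * ‖((1 / L : ℝ) : ℂ) + y * I‖) ^ 4 ≤
      D * L * (1 + (L * y) ^ 2)⁻¹ := by
    intro y
    have hq := hnz y
    set z : ℂ := ((1 / L : ℝ) : ℂ) + y * I with hz
    set u : ℝ := L * ‖z‖ with hu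
    have hz0 : z ≠ 0 := z_ne hc.ne' y
    have hzn : 0 < ‖z‖ := norm_pos_iff.mpr hz0
    have hu1 : 1 ≤ u := by
      have : 1 / L ≤ ‖z‖ := by
        have := abs_c_le (1 / L) y
        rwa [abs_of_pos hc] at this
      rw [hu]
      calc (1:ℝ) = L * (1 / L) := by field_simp
        _ ≤ L * ‖z‖ := mul_le_mul_of_nonneg_left this hL0.le
    have hzu : ‖z‖ = u / L := by
      rw [hu]
      field_simp
    have e1 : ‖h y‖ = ((100 : ℕ).factorial : ℝ) / (2 * Real.pi * B ^ 100) *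
        (Real.exp (1 / 40) / ‖z‖ ^ 101) := by
      rw [hh]
      simp only
      rw [norm_mul, norm_div, norm_pow, Complex.norm_of_nonneg (by positivity), Complex.norm_exp,
        Complex.re_mul_ofReal, ← hz, show z.re = 1 / L from z_re _ _]
      congr 3
      rw [hB]
      field_simp
    rw [e1, hzu, ← hq]
    have h4 : (1 + u) ^ 4 ≤ 16 * u ^ 4 := by
      calc (1 + u) ^ 4 ≤ (2 * u) ^ 4 := pow_le_pow_left₀ (by positivity) (by linarith) 4
        _ = 16 * u ^ 4 := by ring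
    have h5 : (2 * Real.pi)⁻¹ ≤ 1 := by
      rw [inv_le_one₀ (by positivity)]
      linarith [Real.pi_gt_three]
    have h6 : u ^ 4 / u ^ 101 ≤ (u ^ 2)⁻¹ := by
      rw [div_le_iff₀ (by positivity)]
      calc u ^ 4 ≤ u ^ 99 := pow_le_pow_right₀ hu1 (by norm_num)
        _ = (u ^ 2)⁻¹ * u ^ 101 := by
          field_simp
    calc ((100 : ℕ).factorial : ℝ) / (2 * Real.pi * B ^ 100) * (Real.exp (1 / 40) / (u / L) ^ 101) *
        (1 + u) ^ 4 ≤ ((100 : ℕ).factorial : ℝ) / (2 * Real.pi * B ^ 100) *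
          (Real.exp (1 / 40) / (u / L) ^ 101) * (16 * u ^ 4) :=
          mul_le_mul_of_nonneg_left h4 (by positivity)
      _ = (2 * Real.pi)⁻¹ * (D * L * (u ^ 4 / u ^ 101)) := by
          rw [hD, hB]
          field_simp
      _ ≤ 1 * (D * L * (u ^ 2)⁻¹) := by
          refine mul_le_mul h5 (mul_le_mul_of_nonneg_left h6 (by positivity)) (by positivity) zero_le_one
      _ = D * L * (u ^ 2)⁻¹ := one_mul _
  have hgi : Integrable (fun y : ℝ => D * L * (1 + (L * y) ^ 2)⁻¹) :=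
    (integrable_base hL0).const_mul _
  have hint : Integrable (fun y : ℝ => ‖h y‖ * (1 + L * ‖((1 / L : ℝ) : ℂ) + y * I‖) ^ 4) := by
    refine hgi.mono' ?_ (Filter.Eventually.of_forall fun y => ?_)
    · have : Continuous (fun y : ℝ => ‖h y‖ * (1 + L * ‖((1 / L : ℝ) : ℂ) + y * I‖) ^ 4) := by
        fun_prop
      exact this.aestronglyMeasurable
    · rw [Real.norm_of_nonneg (by positivity)]
      exact hpt y
  refine ⟨h, hhc, hint, ?_, ?_⟩
  · refine (integral_mono hint hgi hpt).trans (le_of_eq ?_)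
    rw [MeasureTheory.integral_const_mul, integral_base hL0]
    field_simp
  · intro n hn
    have hn0 : (n : ℂ) ≠ 0 := by
      have : n ≠ 0 := by omega
      exact_mod_cast this
    have hrep := tp_rep 100 (by norm_num) hc (B - Real.log n)
    have e1 : ∀ y : ℝ, h y * (n : ℂ) ^ (-(((1 / L : ℝ) : ℂ) + y * I)) =
        (((100 : ℕ).factorial : ℝ) / (2 * Real.pi * B ^ 100) : ℝ) *
          (Complex.exp ((((1 / L : ℝ) : ℂ) + y * I) * ((B - Real.log n : ℝ) : ℂ)) /
            (((1 / L : ℝ) : ℂ) + y * I) ^ 101) := by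
      intro y
      rw [hh]
      simp only
      rw [Complex.cpow_def_of_ne_zero hn0, ← Complex.natCast_log, mul_assoc, div_mul_eq_mul_div,
        ← Complex.exp_add]
      congr 3
      push_cast
      ring
    simp_rw [e1]
    rw [MeasureTheory.integral_const_mul, hrep]
    unfold gm pwt K0
    rw [← Complex.ofReal_mul]
    congr 1
    have e2 : max (B - Real.log n) 0 = B * max (1 - Real.log n / B) 0 := by
      rw [mul_max_of_nonneg _ _ hB0.le, mul_zero, mul_sub, mul_one, mul_div_cancel₀ _ hB0.ne']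
    rw [e2, mul_pow]
    have hf : ((100 : ℕ).factorial : ℝ) ≠ 0 := by positivity
    have hp : Real.pi ≠ 0 := Real.pi_ne_zero
    have hB1 : B ≠ 0 := hB0.ne'
    generalize max (1 - Real.log n / B) 0 = M
    clear_value B
    field_simp

end Pool.Agent.P4f18dfS
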