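import Pool.Agent.Lib.P4f18dfS.Twisted
import Pool.Agent.Lib.P4f18dfS.First

/-!
# Twisted second moments for the two mollifiers (helper16)
-/

set_option autoImplicit false

open Complex MeasureTheory

namespace Pool.Agent.P4f18dfS

theorem twisted : ∃ C : ℝ, 0 < C ∧ ∀ R : ℝ, 1 ≤ R → ∃ T0 : ℝ, ∀ T : ℝ, T0 ≤ T →
    ∀ τ : ℝ, T / 8 ≤ τ → τ ≤ T / 4 → ∀ α : ℂ, |α.re| ≤ R / Real.log T → |α.im| ≤ T / 50 →
    ∫ t in (τ - T / 100)..(τ + T / 100), wt τ (De T) t * (‖riemannZeta (1 / 2 + α + t * I)‖ ^ 2 *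
      ‖M1 T t‖ ^ 2 * ‖M2 T t‖ ^ 2) ≤
      C * Real.exp (6 * max (-(Real.log T * α.re)) 0) * (1 + Real.log T * ‖α‖) ^ 20 * (De T * Real.log T) ∧
    ∫ t in (τ - T / 100)..(τ + T / 100), wt τ (De T) t * (‖riemannZeta (1 / 2 + α + t * I)‖ ^ 2 *
      ‖M2 T t‖ ^ 2 * ‖M2 T t‖ ^ 2) ≤
      C * Real.exp (6 * max (-(Real.log T * α.re)) 0) * (1 + Real.log T * ‖α‖) ^ 20 * (De T * Real.log T) := by
  obtain ⟨A1, hA1, h1⟩ := rep_gM
  obtain ⟨A2, hA2, h2⟩ := rep_gm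
  obtain ⟨C1, hC1, hC1b⟩ := twisted_gen A1 A2 hA1 hA2
  obtain ⟨C2, hC2, hC2b⟩ := twisted_gen A2 A2 hA2 hA2
  refine ⟨max C1 C2, lt_of_lt_of_le hC1 (le_max_left _ _), fun R hR => ?_⟩
  obtain ⟨T1, hT1⟩ := hC1b R hR
  obtain ⟨T2, hT2⟩ := hC2b R hR
  refine ⟨max (max T1 T2) (Real.exp 2), fun T hT τ hτ1 hτ2 α hα1 hα2 => ?_⟩
  have hTe : Real.exp 2 ≤ T := (le_max_right _ _).trans hT
  have hT0 : 0 < T := (Real.exp_pos 2).trans_le hTe
  have hL2 : 2 ≤ Real.log T := by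
    rw [Real.le_log_iff_exp_le hT0]
    exact hTe
  have hL1 : 1 ≤ Real.log T := by linarith
  have hT3 : 3 ≤ T := by
    have := Real.add_one_le_exp (2 : ℝ)
    linarith
  have hfac : 0 ≤ Real.exp (6 * max (-(Real.log T * α.re)) 0) * (1 + Real.log T * ‖α‖) ^ 20 *
      (De T * Real.log T) := by
    have : 0 ≤ De T := Real.rpow_nonneg hT0.le _
    positivity
  have r1 := h1 (Real.log T) hL1
  have r2 := h2 (Real.log T) hL1
  constructor
  · refine (hT1 T ((le_max_left _ _).trans ((le_max_left _ _).trans hT)) _ _ r1 r2 (gM_supp hT3) (gm_supp hT3)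
      τ hτ1 hτ2 α hα1 hα2).trans ?_
    have := mul_le_mul_of_nonneg_right (le_max_left C1 C2) hfac
    linarith [this]
  · refine (hT2 T ((le_max_right _ _).trans ((le_max_left _ _).trans hT)) _ _ r2 r2 (gm_supp hT3) (gm_supp hT3)
      τ hτ1 hτ2 α hα1 hα2).trans ?_
    have := mul_le_mul_of_nonneg_right (le_max_right C1 C2) hfac
    linarith [this]

end Pool.Agent.P4f18dfS
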