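import Pool.Agent.Lib.P4f18dfS.Defs

/-!
# Splines and their Laplace transforms

`tp_rep`: the Gamma integral gives the Fourier transform of `(max u 0)^k e^{-cu}`; Fourier inversion does the rest.
`spl_rep`: binomial expansion of the kernel. `spl_eq_one`: the `k`-th finite difference of `t^k`.
-/

set_option autoImplicit false

open Complex MeasureTheory
namespace Pool.Agent.P4f18dfS

theorem spl_int_aux (k : ℕ) {r : ℂ} (hr : 0 < r.re) :
    IntegrableOn (fun t : ℝ => (t : ℂ) ^ k * Complex.exp (-(r * t))) (Set.Ioi 0) := by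
  have h := integrableOn_rpow_mul_exp_neg_mul_rpow (s := (k : ℝ)) (p := 1) (b := r.re)
    (by have : (0 : ℝ) ≤ k := Nat.cast_nonneg k
        linarith) one_pos hr
  refine Integrable.mono' (g := fun t : ℝ => t ^ (k : ℝ) * Real.exp (-r.re * t ^ (1 : ℝ))) h ?_ ?_
  · apply Continuous.aestronglyMeasurable
    fun_prop
  · refine (ae_restrict_iff' measurableSet_Ioi).2 (Filter.Eventually.of_forall fun t ht => ?_)
    have ht' : (0 : ℝ) < t := ht
    rw [norm_mul, norm_pow, Complex.norm_exp, Complex.norm_real, Real.norm_of_nonneg ht'.le,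
      Real.rpow_natCast, Real.rpow_one]
    simp

theorem spl_tendsto_aux (k : ℕ) {r : ℂ} (hr : 0 < r.re) :
    Filter.Tendsto (fun t : ℝ => (t : ℂ) ^ k * Complex.exp (-(r * t))) Filter.atTop (nhds 0) := by
  rw [tendsto_zero_iff_norm_tendsto_zero]
  have h := Real.tendsto_pow_mul_exp_neg_atTop_nhds_zero k
  have h2 := (h.comp (Filter.tendsto_id.const_mul_atTop hr)).const_mul ((r.re ^ k)⁻¹)
  rw [mul_zero] at h2
  refine h2.congr' ?_
  filter_upwards [Filter.eventually_gt_atTop 0] with t ht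
  rw [norm_mul, norm_pow, Complex.norm_exp, Complex.norm_real, Real.norm_of_nonneg ht.le]
  have hk : r.re ^ k ≠ 0 := (pow_pos hr k).ne'
  simp only [Function.comp, id, mul_pow]
  rw [← mul_assoc, ← mul_assoc, inv_mul_cancel₀ hk, one_mul]
  simp

theorem spl_gamma_aux (k : ℕ) {r : ℂ} (hr : 0 < r.re) :
    ∫ t : ℝ in Set.Ioi 0, (t : ℂ) ^ k * Complex.exp (-(r * t)) = (k.factorial : ℂ) / r ^ (k + 1) := by
  have hr0 : r ≠ 0 := by
    rintro rfl
    simp at hr
  induction k with
  | zero =>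
    have h := integral_exp_mul_complex_Ioi (a := -r) (by simpa using hr) 0
    simp only [pow_zero, one_mul, Nat.factorial_zero, Nat.cast_one, zero_add, pow_one]
    simp only [neg_mul] at h
    rw [h]
    simp [neg_div_neg_eq]
  | succ k ih =>
    have hd : ∀ t : ℝ, HasDerivAt (fun t : ℝ => (t : ℂ) ^ (k + 1) * Complex.exp (-(r * t)))
        (((k : ℂ) + 1) * ((t : ℂ) ^ k * Complex.exp (-(r * t))) -
          r * ((t : ℂ) ^ (k + 1) * Complex.exp (-(r * t)))) t := by
      intro t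
      have h1 : HasDerivAt (fun t : ℝ => (t : ℂ)) 1 t := Complex.ofRealCLM.hasDerivAt
      have h2 := (h1.pow (k + 1)).mul ((h1.const_mul r).neg.cexp)
      refine h2.congr_deriv ?_
      simp
      ring
    have hint : IntegrableOn (fun t : ℝ => ((k : ℂ) + 1) * ((t : ℂ) ^ k * Complex.exp (-(r * t))) -
          r * ((t : ℂ) ^ (k + 1) * Complex.exp (-(r * t)))) (Set.Ioi 0) :=
      ((spl_int_aux k hr).const_mul _).sub ((spl_int_aux (k + 1) hr).const_mul _)
    have h3 := integral_Ioi_of_hasDerivAt_of_tendsto (a := 0) ((hd 0).continuousAt.continuousWithinAt)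
      (fun t _ => hd t) hint (spl_tendsto_aux (k + 1) hr)
    rw [integral_sub ((spl_int_aux k hr).const_mul _) ((spl_int_aux (k + 1) hr).const_mul _),
      integral_const_mul, integral_const_mul, ih] at h3
    simp only [ofReal_zero, ne_eq, Nat.add_eq_zero_iff, one_ne_zero, and_false, not_false_eq_true,
      zero_pow, zero_mul, sub_zero] at h3
    rw [Nat.factorial_succ]
    push_cast
    have h4 : r * ∫ t : ℝ in Set.Ioi 0, (t : ℂ) ^ (k + 1) * Complex.exp (-(r * t)) =
        ((k : ℂ) + 1) * (k.factorial / r ^ (k + 1)) := by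
      linear_combination -h3
    have h5 : (∫ t : ℝ in Set.Ioi 0, (t : ℂ) ^ (k + 1) * Complex.exp (-(r * t))) =
      (((k : ℂ) + 1) * (k.factorial / r ^ (k + 1))) / r := by
      rw [← h4]; field_simp
    rw [h5, pow_succ r (k + 1)]
    field_simp

theorem norm_ci (c y : ℝ) : ‖(c : ℂ) + y * I‖ ^ 2 = c ^ 2 + y ^ 2 := by
  rw [← Complex.normSq_eq_norm_sq, Complex.normSq_add_mul_I]

theorem ci_ne {c : ℝ} (hc : 0 < c) (y : ℝ) : (c : ℂ) + y * I ≠ 0 := by
  intro h
  have := congrArg Complex.re h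
  simp at this
  exact hc.ne' this

theorem spl_int_inv {c : ℝ} (hc : 0 < c) : Integrable (fun y : ℝ => (c ^ 2 + y ^ 2)⁻¹) := by
  have h := (integrable_inv_one_add_sq.comp_div hc.ne').const_mul ((c ^ 2)⁻¹)
  refine h.congr (Filter.Eventually.of_forall fun y => ?_)
  simp only
  rw [← mul_inv]
  congr 1
  field_simp

theorem tp_integrable (k : ℕ) (hk : 1 ≤ k) {c : ℝ} (hc : 0 < c) (x : ℝ) :
    Integrable (fun y : ℝ => Complex.exp (((c : ℂ) + y * I) * x) / ((c : ℂ) + y * I) ^ (k + 1)) := by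
  have h := (spl_int_inv hc).const_mul (Real.exp (c * x) * (c ^ (k - 1))⁻¹)
  refine Integrable.mono' h ?_ (Filter.Eventually.of_forall fun y => ?_)
  · apply Continuous.aestronglyMeasurable
    apply Continuous.div
    · fun_prop
    · fun_prop
    · intro y
      exact pow_ne_zero _ (ci_ne hc y)
  · rw [norm_div, Complex.norm_exp, norm_pow]
    have e1 : (((c : ℂ) + y * I) * x).re = c * x := by simp
    rw [e1, div_eq_mul_inv, mul_assoc]
    refine mul_le_mul_of_nonneg_left ?_ (Real.exp_pos _).le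
    rw [← mul_inv]
    refine inv_anti₀ (by positivity) ?_
    have e2 : k + 1 = (k - 1) + 2 := by omega
    rw [e2, pow_add, norm_ci]
    refine mul_le_mul_of_nonneg_right ?_ (by positivity)
    refine pow_le_pow_left₀ hc.le ?_ _
    have := Complex.abs_re_le_norm ((c : ℂ) + y * I)
    simp at this
    exact (le_abs_self c).trans this

theorem tp_rep (k : ℕ) (hk : 1 ≤ k) {c : ℝ} (hc : 0 < c) (x : ℝ) :
    ∫ y : ℝ, Complex.exp (((c : ℂ) + y * I) * x) / ((c : ℂ) + y * I) ^ (k + 1) =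
      ((2 * Real.pi * (max x 0) ^ k / (k.factorial : ℝ) : ℝ) : ℂ) := by
  set F : ℝ → ℂ := fun u => (((max u 0) ^ k : ℝ) : ℂ) * Complex.exp (-(c * u)) with hF
  have hk0 : k ≠ 0 := by omega
  have hFc : Continuous F := by
    rw [hF]
    fun_prop
  have hFpos : ∀ u ∈ Set.Ioi (0 : ℝ), F u = (u : ℂ) ^ k * Complex.exp (-(c * u)) := by
    intro u hu
    have hu' : (0 : ℝ) < u := hu
    simp only [hF, max_eq_left hu'.le]
    push_cast
    rfl
  have hFneg : ∀ u, u ∉ Set.Ioi (0 : ℝ) → F u = 0 := by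
    intro u hu
    have hu' : u ≤ 0 := not_lt.1 hu
    simp only [hF, max_eq_right hu', zero_pow hk0]
    simp
  have hFind : F = Set.indicator (Set.Ioi 0) (fun u : ℝ => (u : ℂ) ^ k * Complex.exp (-(c * u))) := by
    funext u
    by_cases hu : u ∈ Set.Ioi (0 : ℝ)
    · rw [Set.indicator_of_mem hu, hFpos u hu]
    · rw [Set.indicator_of_notMem hu, hFneg u hu]
  have hFi : Integrable F := by
    rw [hFind, integrable_indicator_iff measurableSet_Ioi]
    exact spl_int_aux k (r := c) (by simpa using hc)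
  have hFT : ∀ w : ℝ, FourierTransform.fourier F w = (k.factorial : ℂ) / ((c : ℂ) + (2 * Real.pi * w : ℝ) * I) ^ (k + 1) := by
    intro w
    have hg := spl_gamma_aux k (r := (c : ℂ) + (2 * Real.pi * w : ℝ) * I) (by simpa using hc)
    rw [← hg, Real.fourier_real_eq_integral_exp_smul, ← integral_indicator measurableSet_Ioi]
    congr 1
    funext u
    by_cases hu : u ∈ Set.Ioi (0 : ℝ)
    · rw [Set.indicator_of_mem hu, hFpos u hu, smul_eq_mul, mul_left_comm, ← Complex.exp_add]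
      congr 2
      push_cast
      ring
    · rw [Set.indicator_of_notMem hu, hFneg u hu, smul_zero]
  have hFTi : Integrable (FourierTransform.fourier F) := by
    have h0 := tp_integrable k hk hc 0
    have h1 := (h0.comp_mul_left' (R := 2 * Real.pi) (by positivity)).const_mul (k.factorial : ℂ)
    refine h1.congr (Filter.Eventually.of_forall fun w => ?_)
    simp only
    rw [hFT]
    push_cast
    simp
    rfl
  have hinv := hFc.fourierInv_fourier_eq hFi hFTi
  have hx := congrFun hinv x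
  rw [Real.fourierInv_eq'] at hx
  have hsub := MeasureTheory.Measure.integral_comp_mul_left
    (fun y : ℝ => Complex.exp ((y * x : ℝ) * I) / ((c : ℂ) + y * I) ^ (k + 1)) (2 * Real.pi)
  have e1 : ∀ v : ℝ, Complex.exp (↑(2 * Real.pi * inner ℝ v x) * I) • FourierTransform.fourier F v =
      (k.factorial : ℂ) * (Complex.exp (((2 * Real.pi * v) * x : ℝ) * I) / ((c : ℂ) + (2 * Real.pi * v : ℝ) * I) ^ (k + 1)) := by
    intro v
    rw [hFT, smul_eq_mul]
    have : inner ℝ v x = v * x := by simp [mul_comm]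
    rw [this, ← mul_assoc (2 * Real.pi)]
    ring
  simp_rw [e1] at hx
  rw [integral_const_mul, hsub] at hx
  have e2 : ∀ y : ℝ, Complex.exp (((c : ℂ) + y * I) * x) / ((c : ℂ) + y * I) ^ (k + 1) =
      Complex.exp (c * x) * (Complex.exp ((y * x : ℝ) * I) / ((c : ℂ) + y * I) ^ (k + 1)) := by
    intro y
    rw [← mul_div_assoc, ← Complex.exp_add]
    congr 2
    push_cast
    ring
  simp_rw [e2]
  rw [integral_const_mul]
  have hfac : (k.factorial : ℂ) ≠ 0 := by exact_mod_cast k.factorial_ne_zero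
  have hpi : (Real.pi : ℂ) ≠ 0 := by exact_mod_cast Real.pi_ne_zero
  rw [abs_of_pos (by positivity), Complex.real_smul] at hx
  simp only [hF] at hx
  have h7 : (∫ y : ℝ, Complex.exp ((y * x : ℝ) * I) / ((c : ℂ) + y * I) ^ (k + 1)) =
      2 * Real.pi / k.factorial * ((((max x 0) ^ k : ℝ) : ℂ) * Complex.exp (-(c * x))) := by
    rw [← hx]
    generalize (∫ y : ℝ, Complex.exp ((y * x : ℝ) * I) / ((c : ℂ) + y * I) ^ (k + 1)) = J
    push_cast
    field_simp
  rw [h7]
  have h8 : Complex.exp (c * x) * Complex.exp (-(c * x)) = 1 := by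
    rw [← Complex.exp_add]; simp
  push_cast
  linear_combination (2 * Real.pi / k.factorial * (((max x 0 : ℝ) : ℂ) ^ k)) * h8

theorem Ex_eq {w : ℂ} (hw : w ≠ 0) : Ex w = (Complex.exp w - 1) / w := by
  rw [Ex, dslope_of_ne _ hw, slope_def_field]
  simp

theorem ker_div_eq (b : ℝ) {δ : ℝ} (hδ : 0 < δ) (k : ℕ) (x : ℝ) {z : ℂ} (hz : z ≠ 0) :
    Complex.exp (-(z * x)) * (ker b δ k z / z) =
      ∑ j ∈ Finset.range (k + 1), ((-1 : ℂ) ^ (k - j) * (k.choose j : ℂ) / (δ : ℂ) ^ k) *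
        (Complex.exp (z * ((b + j * δ - x : ℝ) : ℂ)) / z ^ (k + 1)) := by
  have hδ' : (δ : ℂ) ≠ 0 := by exact_mod_cast hδ.ne'
  rw [ker, Ex_eq (mul_ne_zero hδ' hz), div_pow, sub_eq_add_neg, add_pow]
  have e1 : Complex.exp (-(z * x)) * (Complex.exp (b * z) *
      ((∑ m ∈ Finset.range (k + 1), Complex.exp (δ * z) ^ m * (-1) ^ (k - m) * (k.choose m : ℂ)) /
        (δ * z) ^ k) / z) =
      ∑ m ∈ Finset.range (k + 1), Complex.exp (-(z * x)) * Complex.exp (b * z) *
        (Complex.exp (δ * z) ^ m * (-1) ^ (k - m) * (k.choose m : ℂ)) / ((δ * z) ^ k * z) := by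
    rw [← Finset.sum_div, ← Finset.mul_sum]
    field_simp
  rw [e1]
  refine Finset.sum_congr rfl fun j _ => ?_
  have e2 : Complex.exp (z * ((b + j * δ - x : ℝ) : ℂ)) =
      Complex.exp (-(z * x)) * Complex.exp (b * z) * Complex.exp (δ * z) ^ j := by
    rw [← Complex.exp_nat_mul, ← Complex.exp_add, ← Complex.exp_add]
    congr 1
    push_cast
    ring
  rw [e2, mul_pow, pow_succ]
  field_simp

theorem spl_rep (b : ℝ) {δ : ℝ} (hδ : 0 < δ) (k : ℕ) (hk : 1 ≤ k) {c : ℝ} (hc : 0 < c) (x : ℝ) :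
    ∫ y : ℝ, Complex.exp (-(((c : ℂ) + y * I) * x)) * (ker b δ k ((c : ℂ) + y * I) / ((c : ℂ) + y * I)) =
      ((2 * Real.pi * spl b δ k x : ℝ) : ℂ) := by
  simp_rw [fun y : ℝ => ker_div_eq b hδ k x (ci_ne hc y)]
  rw [integral_finsetSum _ (fun (j : ℕ) _ => (tp_integrable k hk hc (b + (j : ℝ) * δ - x)).const_mul _)]
  simp_rw [integral_const_mul, tp_rep k hk hc]
  rw [spl]
  have hδ' : (δ : ℂ) ≠ 0 := by exact_mod_cast hδ.ne'
  have hfac : (k.factorial : ℂ) ≠ 0 := by exact_mod_cast k.factorial_ne_zero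
  push_cast
  rw [← mul_div_assoc, Finset.mul_sum, Finset.sum_div]
  refine Finset.sum_congr rfl fun j _ => ?_
  field_simp

theorem spl_fd (k : ℕ) (y : ℝ) :
    ∑ j ∈ Finset.range (k + 1), (-1 : ℝ) ^ (k - j) * (k.choose j : ℝ) * (y + j) ^ k = k.factorial := by
  have h1 := fwdDiff_iter_eq_sum_shift (1 : ℝ) (fun t : ℝ => t ^ k) k y
  have h2 := congrFun (fwdDiff_iter_eq_factorial (R := ℝ) (n := k)) y
  rw [h2] at h1
  simp only [Pi.natCast_apply] at h1
  rw [h1]
  refine Finset.sum_congr rfl fun j _ => ?_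
  simp

theorem spl_eq_one {b δ x : ℝ} (hδ : 0 < δ) (k : ℕ) (hx : x ≤ b) : spl b δ k x = 1 := by
  have h := spl_fd k ((b - x) / δ)
  have hfac : (k.factorial : ℝ) ≠ 0 := by exact_mod_cast k.factorial_ne_zero
  rw [spl, div_eq_one_iff_eq (mul_ne_zero hfac (pow_ne_zero _ hδ.ne')), ← h, Finset.sum_mul]
  refine Finset.sum_congr rfl fun j _ => ?_
  have h1 : 0 ≤ b + j * δ - x := by
    have : (0 : ℝ) ≤ j * δ := by positivity
    linarith
  rw [max_eq_left h1, mul_assoc _ _ (δ ^ k), ← mul_pow]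
  congr 2
  field_simp
  ring

theorem spl_eq_zero {b δ x : ℝ} (hδ : 0 < δ) (k : ℕ) (hk : 1 ≤ k) (hx : b + k * δ ≤ x) : spl b δ k x = 0 := by
  rw [spl]
  rw [Finset.sum_eq_zero, zero_div]
  intro j hj
  have hj' : (j : ℝ) ≤ k := by
    have := Finset.mem_range.1 hj
    exact_mod_cast Nat.lt_succ_iff.1 this
  have h1 : b + j * δ - x ≤ 0 := by
    have : (j : ℝ) * δ ≤ k * δ := mul_le_mul_of_nonneg_right hj' hδ.le
    linarith
  rw [max_eq_right h1, zero_pow (by omega), mul_zero]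

theorem spl_bound (k : ℕ) (hk : 1 ≤ k) : ∃ C : ℝ, 1 ≤ C ∧ ∀ b δ x : ℝ, 0 < δ → |spl b δ k x| ≤ C := by
  refine ⟨max 1 ((2 : ℝ) ^ k * (k : ℝ) ^ k / k.factorial), le_max_left _ _, fun b δ x hδ => ?_⟩
  by_cases hx : x ≤ b
  · rw [spl_eq_one hδ k hx, abs_one]
    exact le_max_left _ _
  refine le_trans ?_ (le_max_right _ _)
  have hx' : b < x := not_le.1 hx
  have hfac : (0 : ℝ) < k.factorial := by exact_mod_cast k.factorial_pos
  rw [spl, abs_div, abs_of_pos (show 0 < (k.factorial : ℝ) * δ ^ k by positivity), div_le_div_iff₀ (by positivity) hfac]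
  have h1 : |∑ j ∈ Finset.range (k + 1), (-1 : ℝ) ^ (k - j) * (k.choose j : ℝ) * (max (b + j * δ - x) 0) ^ k| ≤
      ∑ j ∈ Finset.range (k + 1), (k.choose j : ℝ) * (k * δ) ^ k := by
    refine (Finset.abs_sum_le_sum_abs _ _).trans (Finset.sum_le_sum fun j hj => ?_)
    have hj' : (j : ℝ) ≤ k := by
      have := Finset.mem_range.1 hj
      exact_mod_cast Nat.lt_succ_iff.1 this
    rw [abs_mul, abs_mul, abs_pow, abs_neg, abs_one, one_pow, one_mul, abs_of_nonneg (show (0 : ℝ) ≤ (k.choose j : ℝ) by positivity),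
      abs_of_nonneg (by positivity)]
    refine mul_le_mul_of_nonneg_left (pow_le_pow_left₀ (le_max_right _ _) (max_le ?_ (by positivity)) _) (by positivity)
    have : (j : ℝ) * δ ≤ k * δ := mul_le_mul_of_nonneg_right hj' hδ.le
    linarith
  have h2 : ∑ j ∈ Finset.range (k + 1), (k.choose j : ℝ) * (k * δ) ^ k = 2 ^ k * (k * δ) ^ k := by
    rw [← Finset.sum_mul]
    congr 1
    exact_mod_cast Nat.sum_range_choose k
  rw [h2] at h1
  calc _ ≤ 2 ^ k * (k * δ) ^ k * (k.factorial : ℝ) := mul_le_mul_of_nonneg_right h1 hfac.le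
    _ = _ := by rw [mul_pow]; ring

end Pool.Agent.P4f18dfS
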