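import Pool.Agent.Lib.P4f18dfS.Diag
import Pool.Agent.Lib.P4f18dfS.CoreRep
import Pool.Agent.Lib.P4f18dfS.MV

/-!
# Twisted second moment of zeta

PROOF. `L = log T`, `Δ = De T = T^{9/10}`, `N = ⌊T^{3/5}⌋`, `P = ⌊T^{1/20}⌋`. Let `p, q` be weights supported on `n ≤ P` with
`Rep L (1/L) p A1`, `Rep L (1/L) q A2` (`rep_gM`, `rep_gm`), `Mp = dp (mt p) P`, `Mq = dp (mt q) P`, `β : ℂ`.
(I) For `a := L Re β`: `∫ wt ‖dp (tw (gz L) β) N t‖² ‖Mp‖² ‖Mq‖² ≤ C e^{2·(3/5)·max(a,1)}(1 + max(a,1))^{20} (1 + L‖β‖)^8 Δ L`: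
the product is `dp (tw gz β * mt p * mt q) (N P P)` (`dp_mul`), `N P P ≤ T^{7/10}`; `mv` with `Δ²/(16 (NPP)²) ≥ T^{2/5}/16`
(the factor in brackets is `≤ 2`), then `core_bound` with `c = max(a,1)/L`, `c1 = c2 = 1/L`, `log(NPP) ≤ L` and `rep_spl`
(`gz L n = spl (11L/20) (θL) K0 (log n)`, `θ = 1/2000`: `A = C (1+Lc)^8 (1 + 1/(Lc)) e^{(11/20+1/20) L c}`, `L c = max(a,1)`).
(II) By `afe`, on the range of integration (`t + Im α ∈ [T/20, T]`), with `(x+y+z)² ≤ 3(x²+y²+z²)`: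
 * first term: (I) with `β = -α`, `a = -L Re α`;
 * second: Cauchy-Schwarz `(∫ ‖kz‖ (1+|y|)³ D(y))² ≤ (∫ ‖kz‖ (1+|y|)³) ∫ ‖kz‖ (1+|y|)³ D(y)²`, exchange the integrals and apply (I) with
   `β = conj α + conj z`, `z = -1/L + iy`, `a = L Re α - 1`, `(1+L‖β‖)^8 ≤ (1+L‖α‖)^8 (1+L‖z‖)^8`, `ker_norm` (`m = 3`, `c = -1/L`):
   total factor `C e^{-2 L Re α} e^{(6/5) max(L Re α - 1, 1)} (1 + max(..))^{20}`, which is `≤ C` for `Re α ≥ 0` and `≤ C e^{2 |L Re α|}` otherwise;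
 * third: `T^{-2} ‖Mp‖² ‖Mq‖² ≤ T^{-2} (C T^{1/20})^4`, negligible.
Everything is continuous in `t`, `y` and dominated (`dp` is bounded), so Fubini is easy.
-/

set_option autoImplicit false

open Complex MeasureTheory

namespace Pool.Agent.P4f18dfS

namespace Twisted

theorem mul_supp (a b : ArithmeticFunction ℂ) (N N' : ℕ) (ha : ∀ n, N < n → a n = 0)
    (hb : ∀ n, N' < n → b n = 0) : ∀ n, N * N' < n → (a * b) n = 0 := by
  intro n hn
  rw [ArithmeticFunction.mul_apply]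
  refine Finset.sum_eq_zero fun x hx => ?_
  rw [Nat.mem_divisorsAntidiagonal] at hx
  by_cases h1 : N < x.1
  · rw [ha _ h1, zero_mul]
  · by_cases h2 : N' < x.2
    · rw [hb _ h2, mul_zero]
    · exfalso
      push Not at h1 h2
      have := Nat.mul_le_mul h1 h2
      rw [hx.1] at this
      omega

theorem tw_apply (g : ℕ → ℂ) (β : ℂ) (n : ℕ) :
    tw g β n = if n = 0 then 0 else g n * (n : ℂ) ^ β := rfl

theorem mt_apply (g : ℕ → ℂ) (n : ℕ) :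
    mt g n = ((ArithmeticFunction.moebius n : ℤ) : ℂ) * g n := rfl

theorem tw_supp (g : ℕ → ℂ) (β : ℂ) (N : ℕ) (h : ∀ n, N < n → g n = 0) :
    ∀ n, N < n → tw g β n = 0 := by
  intro n hn
  rw [tw_apply, h n hn]
  simp

theorem mt_supp (g : ℕ → ℂ) (N : ℕ) (h : ∀ n, N < n → g n = 0) :
    ∀ n, N < n → mt g n = 0 := by
  intro n hn
  rw [mt_apply, h n hn, mul_zero]

/-- the constant in the range of `T` -/
theorem exp_large {T : ℝ} (hT : (24576 : ℝ) ^ 5 ≤ T) {M : ℝ} (hM1 : 1 ≤ M)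
    (hM : M ≤ T ^ (7 / 10 : ℝ)) :
    M * Real.exp (-((De T) ^ 2 / (16 * M ^ 2))) ≤ 1 := by
  have hT1 : (1 : ℝ) ≤ T := le_trans (by norm_num) hT
  have hT0 : (0 : ℝ) < T := by linarith
  have hM0 : 0 < M := by linarith
  have h1 : T ^ (2 / 5 : ℝ) / 16 ≤ (De T) ^ 2 / (16 * M ^ 2) := by
    rw [div_le_div_iff₀ (by norm_num) (by positivity)]
    have h2 : M ^ 2 ≤ T ^ (7 / 5 : ℝ) := by
      calc M ^ 2 ≤ (T ^ (7 / 10 : ℝ)) ^ 2 := pow_le_pow_left₀ hM0.le hM 2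
        _ = T ^ (7 / 5 : ℝ) := by
          rw [← Real.rpow_natCast, ← Real.rpow_mul hT0.le]; norm_num
    have h3 : (De T) ^ 2 = T ^ (9 / 5 : ℝ) := by
      unfold De
      rw [← Real.rpow_natCast, ← Real.rpow_mul hT0.le]; norm_num
    rw [h3]
    have h4 : T ^ (2 / 5 : ℝ) * T ^ (7 / 5 : ℝ) = T ^ (9 / 5 : ℝ) := by
      rw [← Real.rpow_add hT0]; norm_num
    have h5 : T ^ (2 / 5 : ℝ) * M ^ 2 ≤ T ^ (9 / 5 : ℝ) := by
      rw [← h4]; exact mul_le_mul_of_nonneg_left h2 (Real.rpow_nonneg hT0.le _)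
    nlinarith
  have h6 : T ≤ Real.exp (T ^ (2 / 5 : ℝ) / 16) := by
    have h7 := Real.pow_div_factorial_le_exp (T ^ (2 / 5 : ℝ) / 16) (by positivity) 3
    refine le_trans ?_ h7
    have h8 : (24576 : ℝ) ≤ T ^ (1 / 5 : ℝ) := by
      calc (24576 : ℝ) = ((24576 : ℝ) ^ 5) ^ (1 / 5 : ℝ) := by
            rw [← Real.rpow_natCast, ← Real.rpow_mul (by norm_num)]; norm_num
        _ ≤ T ^ (1 / 5 : ℝ) := Real.rpow_le_rpow (by norm_num) hT (by norm_num)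
    have h9 : (T ^ (2 / 5 : ℝ)) ^ 3 = T * T ^ (1 / 5 : ℝ) := by
      rw [← Real.rpow_natCast, ← Real.rpow_mul hT0.le]
      nth_rewrite 2 [← Real.rpow_one T]
      rw [← Real.rpow_add hT0]; norm_num
    rw [div_pow, h9]
    have h10 : ((3 : ℕ).factorial : ℝ) = 6 := by norm_num [Nat.factorial]
    rw [h10]
    have h11 : T * 24576 ≤ T * T ^ (1 / 5 : ℝ) := mul_le_mul_of_nonneg_left h8 hT0.le
    rw [div_div, le_div_iff₀ (by norm_num)]
    nlinarith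
  have h12 : M ≤ T := by
    refine hM.trans ?_
    nth_rewrite 2 [← Real.rpow_one T]
    exact Real.rpow_le_rpow_of_exponent_le hT1 (by norm_num)
  calc M * Real.exp (-((De T) ^ 2 / (16 * M ^ 2)))
      ≤ T * Real.exp (-(T ^ (2 / 5 : ℝ) / 16)) := by
        apply mul_le_mul h12 _ (Real.exp_pos _).le hT0.le
        exact Real.exp_le_exp.mpr (by linarith)
    _ ≤ Real.exp (T ^ (2 / 5 : ℝ) / 16) * Real.exp (-(T ^ (2 / 5 : ℝ) / 16)) :=
        mul_le_mul_of_nonneg_right h6 (Real.exp_pos _).le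
    _ = 1 := by rw [← Real.exp_add]; simp

theorem size_bounds {T : ℝ} (hT : 1 ≤ T) :
    1 ≤ ⌊T ^ (3 / 5 : ℝ)⌋₊ * ⌊T ^ (1 / 20 : ℝ)⌋₊ * ⌊T ^ (1 / 20 : ℝ)⌋₊ ∧
    ((⌊T ^ (3 / 5 : ℝ)⌋₊ * ⌊T ^ (1 / 20 : ℝ)⌋₊ * ⌊T ^ (1 / 20 : ℝ)⌋₊ : ℕ) : ℝ) ≤ T ^ (7 / 10 : ℝ) := by
  have hT0 : (0 : ℝ) < T := by linarith
  have h1 : ∀ e : ℝ, 0 ≤ e → 1 ≤ ⌊T ^ e⌋₊ := by
    intro e he
    rw [Nat.one_le_floor_iff]
    exact Real.one_le_rpow hT he
  have h2 : ∀ e : ℝ, ((⌊T ^ e⌋₊ : ℕ) : ℝ) ≤ T ^ e := fun e => Nat.floor_le (Real.rpow_nonneg hT0.le _)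
  constructor
  · have a1 := h1 (3 / 5) (by norm_num)
    have a2 := h1 (1 / 20) (by norm_num)
    exact Nat.mul_pos (Nat.mul_pos a1 a2) a2
  · push_cast
    have a1 := h2 (3 / 5)
    have a2 := h2 (1 / 20)
    calc (⌊T ^ (3 / 5 : ℝ)⌋₊ : ℝ) * ⌊T ^ (1 / 20 : ℝ)⌋₊ * ⌊T ^ (1 / 20 : ℝ)⌋₊
        ≤ T ^ (3 / 5 : ℝ) * T ^ (1 / 20 : ℝ) * T ^ (1 / 20 : ℝ) := by gcongr
      _ = T ^ (7 / 10 : ℝ) := by
        rw [← Real.rpow_add hT0, ← Real.rpow_add hT0]; norm_num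

theorem De_pos {T : ℝ} (hT : 0 < T) : 0 < De T := Real.rpow_pos_of_pos hT _

theorem core (A1 A2 : ℝ) (hA1 : 0 < A1) (hA2 : 0 < A2) : ∃ C : ℝ, 0 < C ∧ ∀ T : ℝ,
    (24576 : ℝ) ^ 5 ≤ T →
    ∀ p q : ℕ → ℂ, Rep (Real.log T) (1 / Real.log T) p A1 → Rep (Real.log T) (1 / Real.log T) q A2 →
    (∀ n, ⌊T ^ (1 / 20 : ℝ)⌋₊ < n → p n = 0) → (∀ n, ⌊T ^ (1 / 20 : ℝ)⌋₊ < n → q n = 0) →
    ∀ τ : ℝ, ∀ β : ℂ,
    ∫ t : ℝ, wt τ (De T) t * (‖dp (tw (gz (Real.log T)) β) ⌊T ^ (3 / 5 : ℝ)⌋₊ t‖ ^ 2 *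
      ‖dp (mt p) ⌊T ^ (1 / 20 : ℝ)⌋₊ t‖ ^ 2 * ‖dp (mt q) ⌊T ^ (1 / 20 : ℝ)⌋₊ t‖ ^ 2) ≤
      C * Real.exp (6 / 5 * max (Real.log T * β.re) 1) * (1 + max (Real.log T * β.re) 1) ^ 16 *
        (1 + Real.log T * ‖β‖) ^ 8 * (De T * Real.log T) := by
  obtain ⟨C1, hC1, h1⟩ := core_bound
  obtain ⟨C2, hC2, h2⟩ := rep_spl 100 (by norm_num) (θ := 1 / 2000) (by norm_num)
  refine ⟨Real.sqrt Real.pi * 2 * (C1 * (C2 * 2 * A1 * A2) ^ 2), by positivity, ?_⟩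
  intro T hT p q hp hq hps hqs τ β
  have hT1 : (1 : ℝ) ≤ T := le_trans (by norm_num) hT
  have hT3 : (3 : ℝ) ≤ T := le_trans (by norm_num) hT
  have hT0 : (0 : ℝ) < T := by linarith
  obtain ⟨hs1, hs2⟩ := size_bounds hT1
  set L := Real.log T with hL
  set N := ⌊T ^ (3 / 5 : ℝ)⌋₊ with hN
  set P := ⌊T ^ (1 / 20 : ℝ)⌋₊ with hP
  have hL1 : 1 ≤ L := by
    rw [hL, ← Real.log_exp 1]
    apply Real.log_le_log (Real.exp_pos 1)
    have := Real.exp_one_lt_d9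
    linarith
  have hL0 : 0 < L := by linarith
  have hDe : 0 < De T := De_pos hT0
  -- the product
  have hgz : ∀ n, N < n → tw (gz L) β n = 0 := tw_supp _ _ _ (gz_supp hT3)
  have hmp : ∀ n, P < n → mt p n = 0 := mt_supp _ _ hps
  have hmq : ∀ n, P < n → mt q n = 0 := mt_supp _ _ hqs
  have hprod : ∀ t, dp (tw (gz L) β) N t * dp (mt p) P t * dp (mt q) P t =
      dp (tw (gz L) β * mt p * mt q) (N * P * P) t := by
    intro t
    rw [dp_mul _ _ _ _ hgz hmp, dp_mul _ _ _ _ (mul_supp _ _ _ _ hgz hmp) hmq]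
  have hint : ∀ t, wt τ (De T) t * (‖dp (tw (gz L) β) N t‖ ^ 2 * ‖dp (mt p) P t‖ ^ 2 *
      ‖dp (mt q) P t‖ ^ 2) = wt τ (De T) t * ‖dp (tw (gz L) β * mt p * mt q) (N * P * P) t‖ ^ 2 := by
    intro t
    rw [← hprod t, norm_mul, norm_mul]
    ring
  simp_rw [hint]
  refine (mv hDe τ _ (N * P * P) hs1).trans ?_
  set M : ℝ := ((N * P * P : ℕ) : ℝ) with hM
  have hM1 : 1 ≤ M := by rw [hM]; exact_mod_cast hs1
  have h3 := exp_large hT hM1 hs2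
  have hlog : Real.log M ≤ L := by
    apply Real.log_le_log (by linarith)
    refine hs2.trans ?_
    nth_rewrite 2 [← Real.rpow_one T]
    exact Real.rpow_le_rpow_of_exponent_le hT1 (by norm_num)
  set X := max (L * β.re) 1 with hX
  have hX1 : 1 ≤ X := le_max_right _ _
  have hX0 : 0 < X := by linarith
  have hcX : L * (X / L) = X := by field_simp
  have hrep := h2 L hL1 (11 / 20 * L) (X / L) (by positivity)
  have hgzeq : (fun n : ℕ => (spl (11 / 20 * L) (1 / 2000 * L) 100 (Real.log n) : ℂ)) = gz L := by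
    funext n
    unfold gz
    have : L / 20 / (K0 : ℝ) = 1 / 2000 * L := by
      unfold K0
      push_cast
      ring
    rw [this]
    rfl
  rw [hgzeq, hcX] at hrep
  have hβ : β.re ≤ X / L := by
    rw [le_div_iff₀ hL0, mul_comm]
    exact le_max_left _ _
  have hcb := h1 L hL1 (N * P * P) hs1 hlog (X / L) (1 / L) (1 / L) β hβ (by positivity)
    (by positivity) (gz L) p q _ A1 A2 hrep hp hq
  have hexp : (11 / 20 * L) * (X / L) + (100 : ℕ) * (1 / 2000 * L) * (X / L) = 3 / 5 * X := by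
    push_cast
    field_simp
    ring
  rw [hexp] at hcb
  have hA : C2 * (1 + X) ^ 8 * (1 + 1 / X) * Real.exp (3 / 5 * X) ≤
      C2 * 2 * ((1 + X) ^ 8 * Real.exp (3 / 5 * X)) := by
    have : 1 / X ≤ 1 := by rw [div_le_one hX0]; exact hX1
    have h5 : 0 < (1 + X) ^ 8 * Real.exp (3 / 5 * X) := by positivity
    have h6 : (1 + 1 / X) ≤ 2 := by linarith
    calc C2 * (1 + X) ^ 8 * (1 + 1 / X) * Real.exp (3 / 5 * X)
        = C2 * (1 + 1 / X) * ((1 + X) ^ 8 * Real.exp (3 / 5 * X)) := by ring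
      _ ≤ C2 * 2 * ((1 + X) ^ 8 * Real.exp (3 / 5 * X)) := by gcongr
  have hA' : (C2 * (1 + X) ^ 8 * (1 + 1 / X) * Real.exp (3 / 5 * X) * A1 * A2) ^ 2 ≤
      (C2 * 2 * A1 * A2) ^ 2 * ((1 + X) ^ 16 * Real.exp (6 / 5 * X)) := by
    have h7 : C2 * (1 + X) ^ 8 * (1 + 1 / X) * Real.exp (3 / 5 * X) * A1 * A2 ≤
        C2 * 2 * ((1 + X) ^ 8 * Real.exp (3 / 5 * X)) * A1 * A2 := by gcongr
    refine (pow_le_pow_left₀ (by positivity) h7 2).trans (le_of_eq ?_)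
    have h8 : Real.exp (6 / 5 * X) = Real.exp (3 / 5 * X) ^ 2 := by
      rw [← Real.exp_nat_mul]; congr 1; push_cast; ring
    rw [h8]
    ring
  have hsum : ∑ n ∈ Finset.Icc 1 (N * P * P), ‖(tw (gz L) β * mt p * mt q) n‖ ^ 2 / (n : ℝ) ≤
      C1 * L * (1 + L * ‖β‖) ^ 8 * ((C2 * 2 * A1 * A2) ^ 2 *
        ((1 + X) ^ 16 * Real.exp (6 / 5 * X))) := by
    refine hcb.trans ?_
    gcongr
  have hsum0 : 0 ≤ ∑ n ∈ Finset.Icc 1 (N * P * P),
      ‖(tw (gz L) β * mt p * mt q) n‖ ^ 2 / (n : ℝ) :=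
    Finset.sum_nonneg fun n _ => by positivity
  calc Real.sqrt Real.pi * De T * (1 + M * Real.exp (-(De T ^ 2 / (16 * M ^ 2)))) *
        ∑ n ∈ Finset.Icc 1 (N * P * P), ‖(tw (gz L) β * mt p * mt q) n‖ ^ 2 / (n : ℝ)
      ≤ Real.sqrt Real.pi * De T * (1 + 1) * (C1 * L * (1 + L * ‖β‖) ^ 8 *
        ((C2 * 2 * A1 * A2) ^ 2 * ((1 + X) ^ 16 * Real.exp (6 / 5 * X)))) := by gcongr
    _ = _ := by ring



theorem wt_nonneg (τ Δ t : ℝ) : 0 ≤ wt τ Δ t := (Real.exp_pos _).le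

theorem wt_continuous (τ Δ : ℝ) : Continuous (wt τ Δ) := by
  unfold wt
  fun_prop

theorem wt_eq (τ : ℝ) {Δ : ℝ} (hΔ : 0 < Δ) (t : ℝ) :
    wt τ Δ t = (fun x : ℝ => Real.exp (-(1 / Δ ^ 2) * x ^ 2)) (t - τ) := by
  unfold wt
  congr 1
  field_simp

theorem wt_integrable (τ : ℝ) {Δ : ℝ} (hΔ : 0 < Δ) : Integrable (wt τ Δ) := by
  have h1 : Integrable (fun x : ℝ => Real.exp (-(1 / Δ ^ 2) * x ^ 2)) :=
    integrable_exp_neg_mul_sq (by positivity)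
  have h2 := h1.comp_sub_right τ
  refine h2.congr (Filter.Eventually.of_forall fun t => ?_)
  exact (wt_eq τ hΔ t).symm

theorem wt_integral (τ : ℝ) {Δ : ℝ} (hΔ : 0 < Δ) : ∫ t, wt τ Δ t = Real.sqrt Real.pi * Δ := by
  simp_rw [wt_eq τ hΔ]
  rw [integral_sub_right_eq_self (fun x : ℝ => Real.exp (-(1 / Δ ^ 2) * x ^ 2)) τ,
    integral_gaussian]
  rw [show Real.pi / (1 / Δ ^ 2) = Real.pi * Δ ^ 2 by field_simp, Real.sqrt_mul Real.pi_pos.le,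
    Real.sqrt_sq hΔ.le]

theorem norm_cpow_le_one {n : ℕ} (hn : 1 ≤ n) (t : ℝ) :
    ‖(n : ℂ) ^ (-((1 / 2 : ℂ) + t * I))‖ ≤ 1 := by
  have h0 : 0 < n := hn
  rw [Complex.norm_natCast_cpow_of_pos h0]
  have h1 : (-((1 / 2 : ℂ) + t * I)).re = -(1 / 2) := by simp
  rw [h1]
  apply Real.rpow_le_one_of_one_le_of_nonpos
  · exact_mod_cast hn
  · norm_num

theorem dp_norm_le (a : ArithmeticFunction ℂ) (N : ℕ) (t : ℝ) :
    ‖dp a N t‖ ≤ ∑ n ∈ Finset.Icc 1 N, ‖a n‖ := by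
  unfold dp
  refine (norm_sum_le _ _).trans (Finset.sum_le_sum fun n hn => ?_)
  rw [norm_mul]
  have h1 := norm_cpow_le_one (Finset.mem_Icc.mp hn).1 t
  have h2 := norm_nonneg (a n)
  nlinarith

theorem rep_norm_le {L c A : ℝ} (hL : 0 ≤ L) (hc : 0 ≤ c) {g : ℕ → ℂ} (h : Rep L c g A) {n : ℕ}
    (hn : 1 ≤ n) : ‖g n‖ ≤ A := by
  obtain ⟨f, _, hi, hle, hrep⟩ := h
  rw [hrep n hn]
  refine (norm_integral_le_of_norm_le hi (Filter.Eventually.of_forall fun y => ?_)).trans hle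
  rw [norm_mul, Complex.norm_natCast_cpow_of_pos (by omega : 0 < n)]
  have h1 : (-((c : ℂ) + y * I)).re = -c := by simp
  rw [h1]
  have h2 : (n : ℝ) ^ (-c) ≤ 1 :=
    Real.rpow_le_one_of_one_le_of_nonpos (by exact_mod_cast hn) (by linarith)
  have h3 : (1 : ℝ) ≤ (1 + L * ‖(c : ℂ) + y * I‖) ^ 4 := by
    apply one_le_pow₀
    have := norm_nonneg ((c : ℂ) + y * I)
    nlinarith
  have h4 := norm_nonneg (f y)
  exact mul_le_mul_of_nonneg_left (h2.trans h3) h4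

theorem dp_mt_le {L c A : ℝ} (hL : 0 ≤ L) (hc : 0 ≤ c) {g : ℕ → ℂ} (h : Rep L c g A) (P : ℕ)
    (t : ℝ) : ‖dp (mt g) P t‖ ≤ P * A := by
  refine (dp_norm_le _ _ _).trans ?_
  calc ∑ n ∈ Finset.Icc 1 P, ‖mt g n‖ ≤ ∑ n ∈ Finset.Icc 1 P, A := by
        refine Finset.sum_le_sum fun n hn => ?_
        rw [mt_apply, norm_mul]
        have h1 := rep_norm_le hL hc h (Finset.mem_Icc.mp hn).1
        have h2 : ‖((ArithmeticFunction.moebius n : ℤ) : ℂ)‖ ≤ 1 := by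
          rw [Complex.norm_intCast]
          have := ArithmeticFunction.abs_moebius_le_one (n := n)
          exact_mod_cast this
        have h3 := norm_nonneg (g n)
        nlinarith
    _ = P * A := by rw [Finset.sum_const, Nat.card_Icc, nsmul_eq_mul]; simp

theorem fub {E w : ℝ → ℝ} {D : ℝ → ℝ → ℝ} (hE : Integrable E) (hw : Integrable w)
    (hD : Continuous (fun z : ℝ × ℝ => D z.2 z.1)) {K : ℝ} (hDK : ∀ y t, |D y t| ≤ K) :
    Integrable (fun t => E t * ∫ y, w y * D y t ^ 2) ∧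
    Integrable (fun y => w y * ∫ t, E t * D y t ^ 2) ∧
    ∫ t, E t * ∫ y, w y * D y t ^ 2 = ∫ y, w y * ∫ t, E t * D y t ^ 2 := by
  have h1 : Integrable (fun z : ℝ × ℝ => E z.1 * w z.2) (volume.prod volume) := hE.mul_prod hw
  have h2 : Integrable (fun z : ℝ × ℝ => E z.1 * w z.2 * D z.2 z.1 ^ 2) (volume.prod volume) := by
    refine (h1.norm.const_mul (K ^ 2)).mono' (h1.aestronglyMeasurable.mul
      (hD.pow 2).aestronglyMeasurable) (Filter.Eventually.of_forall fun z => ?_)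
    rw [norm_mul]
    have h3 : ‖D z.2 z.1 ^ 2‖ ≤ K ^ 2 := by
      rw [norm_pow]
      exact pow_le_pow_left₀ (norm_nonneg _) (hDK _ _) 2
    have h4 := norm_nonneg (E z.1 * w z.2)
    nlinarith
  have e1 : ∀ t, ∫ y, E t * w y * D y t ^ 2 = E t * ∫ y, w y * D y t ^ 2 := by
    intro t
    rw [← integral_const_mul]
    congr 1
    funext y
    ring
  have e2 : ∀ y, ∫ t, E t * w y * D y t ^ 2 = w y * ∫ t, E t * D y t ^ 2 := by
    intro y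
    rw [← integral_const_mul]
    congr 1
    funext t
    ring
  refine ⟨?_, ?_, ?_⟩
  · have := h2.integral_prod_left
    refine this.congr (Filter.Eventually.of_forall fun t => ?_)
    exact e1 t
  · have := h2.integral_prod_right
    refine this.congr (Filter.Eventually.of_forall fun y => ?_)
    exact e2 y
  · have := integral_integral_swap (f := fun t y => E t * w y * D y t ^ 2) h2
    simp_rw [e1, e2] at this
    exact this

/-- Cauchy-Schwarz with a nonnegative weight -/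
theorem cs {w D : ℝ → ℝ} (hw : Integrable w) (hw0 : ∀ y, 0 ≤ w y) (hD : Continuous D) {K : ℝ}
    (hDK : ∀ y, |D y| ≤ K) : (∫ y, w y * D y) ^ 2 ≤ (∫ y, w y) * ∫ y, w y * D y ^ 2 := by
  have h1 : Integrable (fun y => w y * D y) := by
    refine hw.mul_bdd (c := K) hD.aestronglyMeasurable (Filter.Eventually.of_forall fun y => ?_)
    exact hDK y
  have h2 : Integrable (fun y => w y * D y ^ 2) := by
    refine hw.mul_bdd (c := K ^ 2) (hD.pow 2).aestronglyMeasurable (Filter.Eventually.of_forall fun y => ?_)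
    rw [norm_pow]
    exact pow_le_pow_left₀ (norm_nonneg _) (hDK _) 2
  have h3 : ∀ x : ℝ, 0 ≤ (∫ y, w y) * (x * x) + (-2 * ∫ y, w y * D y) * x +
      ∫ y, w y * D y ^ 2 := by
    intro x
    have h4 : 0 ≤ ∫ y, w y * (D y - x) ^ 2 :=
      integral_nonneg fun y => mul_nonneg (hw0 y) (sq_nonneg _)
    have h5 : ∫ y, w y * (D y - x) ^ 2 = (∫ y, w y) * (x * x) + (-2 * ∫ y, w y * D y) * x +
        ∫ y, w y * D y ^ 2 := by
      have : (fun y => w y * (D y - x) ^ 2) =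
          fun y => (w y * (x * x) + (w y * D y) * (-2 * x)) + w y * D y ^ 2 := by
        funext y; ring
      have h7 : Integrable (fun y => w y * (x * x) + (w y * D y) * (-2 * x)) :=
        (hw.mul_const _).add (h1.mul_const _)
      rw [this, integral_add h7 h2,
        integral_add (hw.mul_const _) (h1.mul_const _), integral_mul_const, integral_mul_const]
      ring
    rw [← h5]
    exact h4
  have h6 := discrim_le_zero h3
  unfold discrim at h6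
  nlinarith

theorem dp_tw_eq (g : ℕ → ℂ) (β : ℂ) (N : ℕ) (t : ℝ) : dp (tw g β) N t =
    ∑ n ∈ Finset.Icc 1 N, g n * (n : ℂ) ^ β * (n : ℂ) ^ (-((1 / 2 : ℂ) + t * I)) := by
  unfold dp
  refine Finset.sum_congr rfl fun n hn => ?_
  rw [tw_apply, if_neg (by have := (Finset.mem_Icc.mp hn).1; omega)]

theorem dp_tw_continuous (g : ℕ → ℂ) {β : ℝ → ℂ} (hβ : Continuous β) (N : ℕ) :
    Continuous (fun z : ℝ × ℝ => ‖dp (tw g (β z.2)) N z.1‖) := by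
  simp_rw [dp_tw_eq]
  apply Continuous.norm
  refine continuous_finsetSum _ fun n hn => ?_
  have hn0 : (n : ℂ) ≠ 0 := by
    have := (Finset.mem_Icc.mp hn).1
    exact_mod_cast (by omega : n ≠ 0)
  have h1 : Continuous (fun z : ℝ × ℝ => (n : ℂ) ^ (β z.2)) :=
    (hβ.comp continuous_snd).const_cpow (Or.inl hn0)
  have h2 : Continuous (fun z : ℝ × ℝ => (n : ℂ) ^ (-((1 / 2 : ℂ) + (z.1 : ℂ) * I))) := by
    apply Continuous.const_cpow _ (Or.inl hn0)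
    fun_prop
  exact (continuous_const.mul h1).mul h2

theorem dp_tw_bound (g : ℕ → ℂ) {β : ℂ} {r : ℝ} (hβ : β.re = r) (N : ℕ) (t : ℝ) :
    |‖dp (tw g β) N t‖| ≤ ∑ n ∈ Finset.Icc 1 N, ‖g n‖ * (n : ℝ) ^ r := by
  rw [abs_of_nonneg (norm_nonneg _)]
  refine (dp_norm_le _ _ _).trans (le_of_eq (Finset.sum_congr rfl fun n hn => ?_))
  have := (Finset.mem_Icc.mp hn).1
  rw [tw_apply, if_neg (by omega), norm_mul, Complex.norm_natCast_cpow_of_pos (by omega), hβ]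

theorem pow_bound {u : ℝ} (hu : 0 ≤ u) : (2 + u) ^ 16 ≤ 20 ^ 16 * Real.exp (4 / 5 * u) := by
  have h1 : 2 + u ≤ 20 * Real.exp (u / 20) := by
    have := Real.add_one_le_exp (u / 20)
    linarith
  calc (2 + u) ^ 16 ≤ (20 * Real.exp (u / 20)) ^ 16 := pow_le_pow_left₀ (by linarith) h1 16
    _ = 20 ^ 16 * Real.exp (4 / 5 * u) := by
      rw [mul_pow, ← Real.exp_nat_mul]
      congr 2
      push_cast
      ring

/-- first factor -/
theorem fac1 (a : ℝ) : Real.exp (6 / 5 * max (-a) 1) * (1 + max (-a) 1) ^ 16 ≤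
    20 ^ 16 * Real.exp 2 * Real.exp (6 * max (-a) 0) := by
  set x := max (-a) 0 with hx
  have hx0 : 0 ≤ x := le_max_right _ _
  have h1 : max (-a) 1 ≤ x + 1 := by
    apply max_le
    · have := le_max_left (-a) 0
      linarith
    · linarith
  have h2 : 0 ≤ max (-a) 1 := le_trans (by norm_num) (le_max_right (-a) 1)
  have h3 := pow_bound hx0
  calc Real.exp (6 / 5 * max (-a) 1) * (1 + max (-a) 1) ^ 16
      ≤ Real.exp (6 / 5 * (x + 1)) * (2 + x) ^ 16 := by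
        apply mul_le_mul _ _ (by positivity) (by positivity)
        · apply Real.exp_le_exp.mpr; linarith
        · apply pow_le_pow_left₀ (by linarith); linarith
    _ ≤ Real.exp (6 / 5 * (x + 1)) * (20 ^ 16 * Real.exp (4 / 5 * x)) := by gcongr
    _ = 20 ^ 16 * Real.exp (2 * x + 6 / 5) := by
        rw [show (2 : ℝ) * x + 6 / 5 = 6 / 5 * (x + 1) + 4 / 5 * x by ring, Real.exp_add]; ring
    _ ≤ 20 ^ 16 * Real.exp (2 + 6 * x) :=
        mul_le_mul_of_nonneg_left (Real.exp_le_exp.mpr (by linarith)) (by positivity)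
    _ = _ := by rw [Real.exp_add]; ring

/-- second factor -/
theorem fac2 (a : ℝ) : Real.exp (-(2 * a)) * (Real.exp (6 / 5 * max (a - 1) 1) *
    (1 + max (a - 1) 1) ^ 16) ≤ 20 ^ 16 * Real.exp 2 * Real.exp (6 * max (-a) 0) := by
  set x := max (-a) 0 with hx
  set b := max a 0 with hb
  have hx0 : 0 ≤ x := le_max_right _ _
  have hb0 : 0 ≤ b := le_max_right _ _
  have hab : a = b - x := by
    rw [hb, hx]
    rcases le_total 0 a with h | h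
    · rw [max_eq_left h, max_eq_right (by linarith)]; ring
    · rw [max_eq_right h, max_eq_left (by linarith)]; ring
  have h1 : max (a - 1) 1 ≤ b + 1 := by
    apply max_le
    · have := le_max_left a 0
      linarith
    · linarith
  have h2 : 0 ≤ max (a - 1) 1 := le_trans (by norm_num) (le_max_right (a - 1) 1)
  have h3 := pow_bound hb0
  calc Real.exp (-(2 * a)) * (Real.exp (6 / 5 * max (a - 1) 1) * (1 + max (a - 1) 1) ^ 16)
      ≤ Real.exp (-(2 * a)) * (Real.exp (6 / 5 * (b + 1)) * (2 + b) ^ 16) := by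
        apply mul_le_mul_of_nonneg_left _ (Real.exp_pos _).le
        apply mul_le_mul _ _ (by positivity) (by positivity)
        · apply Real.exp_le_exp.mpr; linarith
        · apply pow_le_pow_left₀ (by linarith); linarith
    _ ≤ Real.exp (-(2 * a)) * (Real.exp (6 / 5 * (b + 1)) * (20 ^ 16 * Real.exp (4 / 5 * b))) := by
        gcongr
    _ = 20 ^ 16 * Real.exp (2 * x + 6 / 5) := by
        rw [show (2 : ℝ) * x + 6 / 5 = -(2 * a) + (6 / 5 * (b + 1) + 4 / 5 * b) by rw [hab]; ring,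
          Real.exp_add, Real.exp_add]; ring
    _ ≤ 20 ^ 16 * Real.exp (2 + 6 * x) :=
        mul_le_mul_of_nonneg_left (Real.exp_le_exp.mpr (by linarith)) (by positivity)
    _ = _ := by rw [Real.exp_add]; ring

/-- Abstract form of the last step. -/
theorem assemble {E Z F1 w : ℝ → ℝ} {D : ℝ → ℝ → ℝ} {a b K C e k1 k2 k3 W ε : ℝ} (hab : a ≤ b)
    (hEi : Integrable E) (hE0 : ∀ t, 0 ≤ E t)
    (hF1 : Integrable (fun t => E t * F1 t ^ 2))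
    (hw : Integrable w) (hw0 : ∀ y, 0 ≤ w y) (hW : ∫ y, w y = W)
    (hD : Continuous (fun z : ℝ × ℝ => D z.2 z.1)) (hDK : ∀ y t, |D y t| ≤ K)
    (hD0 : ∀ y t, 0 ≤ D y t)
    (hZ : ∀ t ∈ Set.Icc a b, Z t ≤ F1 t + C * e * (∫ y, w y * D y t) + ε)
    (hZ0 : ∀ t, 0 ≤ Z t)
    (h1 : ∫ t, E t * F1 t ^ 2 ≤ k1) (h2 : ∫ t, E t * ∫ y, w y * D y t ^ 2 ≤ k2)
    (h3 : ∫ t, E t ≤ k3) :
    ∫ t in a..b, E t * Z t ^ 2 ≤ 3 * (k1 + (C * e) ^ 2 * W * k2 + ε ^ 2 * k3) := by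
  obtain ⟨f1, _, _⟩ := fub hEi hw hD hDK
  have hW0 : 0 ≤ W := by rw [← hW]; exact integral_nonneg hw0
  set H : ℝ → ℝ := fun t => 3 * (E t * F1 t ^ 2 +
    (C * e) ^ 2 * W * (E t * ∫ y, w y * D y t ^ 2) + ε ^ 2 * E t) with hH
  have hHi : Integrable H := ((hF1.add (f1.const_mul _)).add (hEi.const_mul _)).const_mul _
  have hin0 : ∀ t, 0 ≤ ∫ y, w y * D y t ^ 2 := fun t =>
    integral_nonneg fun y => mul_nonneg (hw0 y) (sq_nonneg _)
  have hH0 : ∀ t, 0 ≤ H t := by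
    intro t
    have e1 := mul_nonneg (hE0 t) (sq_nonneg (F1 t))
    have e2 := mul_nonneg (mul_nonneg (sq_nonneg (C * e)) hW0) (mul_nonneg (hE0 t) (hin0 t))
    have e3 := mul_nonneg (sq_nonneg ε) (hE0 t)
    simp only [hH]
    linarith
  have hHint : ∫ t, H t ≤ 3 * (k1 + (C * e) ^ 2 * W * k2 + ε ^ 2 * k3) := by
    simp only [hH]
    rw [integral_const_mul]
    have i2 : Integrable (fun t => E t * F1 t ^ 2 + (C * e) ^ 2 * W * (E t * ∫ y, w y * D y t ^ 2)) :=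
      hF1.add (f1.const_mul _)
    rw [integral_add i2 (hEi.const_mul _), integral_add hF1 (f1.const_mul _),
      integral_const_mul, integral_const_mul]
    have e2 := mul_le_mul_of_nonneg_left h2 (mul_nonneg (sq_nonneg (C * e)) hW0)
    have e3 := mul_le_mul_of_nonneg_left h3 (sq_nonneg ε)
    linarith
  have hRHS0 : 0 ≤ 3 * (k1 + (C * e) ^ 2 * W * k2 + ε ^ 2 * k3) :=
    (integral_nonneg hH0).trans hHint
  by_cases hG : IntervalIntegrable (fun t => E t * Z t ^ 2) volume a b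
  · have hpt : ∀ t ∈ Set.Icc a b, E t * Z t ^ 2 ≤ H t := by
      intro t ht
      have e1 := hZ t ht
      have hDt : Continuous (fun y => D y t) := by
        exact hD.comp (continuous_const.prodMk continuous_id)
      have e2 := cs hw hw0 hDt (fun y => hDK y t)
      rw [hW] at e2
      have e3 : 0 ≤ ∫ y, w y * D y t := integral_nonneg fun y => mul_nonneg (hw0 y) (hD0 y t)
      have e4 : Z t ^ 2 ≤ (F1 t + C * e * (∫ y, w y * D y t) + ε) ^ 2 :=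
        pow_le_pow_left₀ (hZ0 t) e1 2
      have e5 : (F1 t + C * e * (∫ y, w y * D y t) + ε) ^ 2 ≤
          3 * (F1 t ^ 2 + (C * e * (∫ y, w y * D y t)) ^ 2 + ε ^ 2) := by
        nlinarith [sq_nonneg (F1 t - C * e * (∫ y, w y * D y t)),
          sq_nonneg (F1 t - ε), sq_nonneg (C * e * (∫ y, w y * D y t) - ε)]
      have e6 : (C * e * (∫ y, w y * D y t)) ^ 2 ≤ (C * e) ^ 2 * (W * ∫ y, w y * D y t ^ 2) := by
        rw [mul_pow]
        exact mul_le_mul_of_nonneg_left e2 (sq_nonneg _)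
      have e7 : Z t ^ 2 ≤ 3 * (F1 t ^ 2 + (C * e) ^ 2 * (W * ∫ y, w y * D y t ^ 2) + ε ^ 2) := by
        linarith
      have e8 := mul_le_mul_of_nonneg_left e7 (hE0 t)
      refine e8.trans (le_of_eq ?_)
      simp only [hH]
      ring
    have h4 : ∫ t in a..b, E t * Z t ^ 2 ≤ ∫ t in a..b, H t :=
      intervalIntegral.integral_mono_on hab hG hHi.intervalIntegrable hpt
    have h5 : ∫ t in a..b, H t ≤ ∫ t, H t := by
      rw [intervalIntegral.integral_of_le hab]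
      exact setIntegral_le_integral hHi (Filter.Eventually.of_forall hH0)
    linarith
  · rw [intervalIntegral.integral_undef hG]
    exact hRHS0

theorem log_ge_one {T : ℝ} (hT : (24576 : ℝ) ^ 5 ≤ T) : 1 ≤ Real.log T := by
  have hT3 : (3 : ℝ) ≤ T := le_trans (by norm_num) hT
  rw [← Real.log_exp 1]
  apply Real.log_le_log (Real.exp_pos 1)
  have := Real.exp_one_lt_d9
  linarith

/-- the mass term -/
theorem mass_bound {T : ℝ} (hT : (24576 : ℝ) ^ 5 ≤ T) (A1 A2 : ℝ) (hA1 : 0 < A1) (hA2 : 0 < A2)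
    (p q : ℕ → ℂ) (hp : Rep (Real.log T) (1 / Real.log T) p A1)
    (hq : Rep (Real.log T) (1 / Real.log T) q A2) (τ : ℝ) :
    (1 / T) ^ 2 * ∫ t : ℝ, wt τ (De T) t * (‖dp (mt p) ⌊T ^ (1 / 20 : ℝ)⌋₊ t‖ ^ 2 *
      ‖dp (mt q) ⌊T ^ (1 / 20 : ℝ)⌋₊ t‖ ^ 2) ≤
      Real.sqrt Real.pi * (A1 * A2) ^ 2 * (De T * Real.log T) := by
  have hT1 : (1 : ℝ) ≤ T := le_trans (by norm_num) hT
  have hT0 : (0 : ℝ) < T := by linarith
  have hL1 := log_ge_one hT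
  have hL0 : 0 < Real.log T := by linarith
  have hDe : 0 < De T := De_pos hT0
  set P := ⌊T ^ (1 / 20 : ℝ)⌋₊ with hP
  have hP1 : (P : ℝ) ≤ T ^ (1 / 20 : ℝ) := Nat.floor_le (Real.rpow_nonneg hT0.le _)
  have hP0 : (0 : ℝ) ≤ P := Nat.cast_nonneg _
  have h4 : (P : ℝ) ^ 4 ≤ T ^ 2 := by
    calc (P : ℝ) ^ 4 ≤ (T ^ (1 / 20 : ℝ)) ^ 4 := pow_le_pow_left₀ hP0 hP1 4
      _ = T ^ (1 / 5 : ℝ) := by
        rw [← Real.rpow_natCast, ← Real.rpow_mul hT0.le]; norm_num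
      _ ≤ T ^ (2 : ℝ) := Real.rpow_le_rpow_of_exponent_le hT1 (by norm_num)
      _ = T ^ 2 := by norm_cast
  have h5 : ∀ t, wt τ (De T) t * (‖dp (mt p) P t‖ ^ 2 * ‖dp (mt q) P t‖ ^ 2) ≤
      wt τ (De T) t * (T ^ 2 * (A1 * A2) ^ 2) := by
    intro t
    apply mul_le_mul_of_nonneg_left _ (wt_nonneg _ _ _)
    have h6 := dp_mt_le hL0.le (by positivity) hp P t
    have h7 := dp_mt_le hL0.le (by positivity) hq P t
    calc ‖dp (mt p) P t‖ ^ 2 * ‖dp (mt q) P t‖ ^ 2 ≤ (P * A1) ^ 2 * (P * A2) ^ 2 := by gcongr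
      _ = (P : ℝ) ^ 4 * (A1 * A2) ^ 2 := by ring
      _ ≤ T ^ 2 * (A1 * A2) ^ 2 := by gcongr
  have h8 : ∫ t : ℝ, wt τ (De T) t * (‖dp (mt p) P t‖ ^ 2 * ‖dp (mt q) P t‖ ^ 2) ≤
      ∫ t : ℝ, wt τ (De T) t * (T ^ 2 * (A1 * A2) ^ 2) := by
    apply integral_mono_of_nonneg (Filter.Eventually.of_forall fun t => ?_)
      ((wt_integrable τ hDe).mul_const _) (Filter.Eventually.of_forall h5)
    exact mul_nonneg (wt_nonneg _ _ _) (by positivity)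
  rw [integral_mul_const, wt_integral τ hDe] at h8
  calc (1 / T) ^ 2 * ∫ t : ℝ, wt τ (De T) t * (‖dp (mt p) P t‖ ^ 2 * ‖dp (mt q) P t‖ ^ 2)
      ≤ (1 / T) ^ 2 * (Real.sqrt Real.pi * De T * (T ^ 2 * (A1 * A2) ^ 2)) :=
        mul_le_mul_of_nonneg_left h8 (by positivity)
    _ = Real.sqrt Real.pi * (A1 * A2) ^ 2 * (De T * 1) := by field_simp
    _ ≤ _ := by gcongr

theorem wt_dp_integrable {T : ℝ} (hT : (24576 : ℝ) ^ 5 ≤ T) (A1 A2 : ℝ)
    (p q : ℕ → ℂ) (hp : Rep (Real.log T) (1 / Real.log T) p A1)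
    (hq : Rep (Real.log T) (1 / Real.log T) q A2) (τ : ℝ) :
    Integrable (fun t : ℝ => wt τ (De T) t * (‖dp (mt p) ⌊T ^ (1 / 20 : ℝ)⌋₊ t‖ ^ 2 *
      ‖dp (mt q) ⌊T ^ (1 / 20 : ℝ)⌋₊ t‖ ^ 2)) := by
  have hT1 : (1 : ℝ) ≤ T := le_trans (by norm_num) hT
  have hT0 : (0 : ℝ) < T := by linarith
  have hL1 := log_ge_one hT
  have hL0 : 0 < Real.log T := by linarith
  have hDe : 0 < De T := De_pos hT0
  set P := ⌊T ^ (1 / 20 : ℝ)⌋₊ with hP
  refine (wt_integrable τ hDe).mul_bdd (c := (P * A1) ^ 2 * (P * A2) ^ 2) ?_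
    (Filter.Eventually.of_forall fun t => ?_)
  · exact (((dp_continuous _ _).norm.pow 2).mul ((dp_continuous _ _).norm.pow 2)).aestronglyMeasurable
  · have h6 := dp_mt_le hL0.le (by positivity) hp P t
    have h7 := dp_mt_le hL0.le (by positivity) hq P t
    rw [Real.norm_of_nonneg (by positivity)]
    gcongr


theorem facs : ∃ B : ℝ, 0 < B ∧
    (∀ a : ℝ, Real.exp (6 / 5 * max (-a) 1) * (1 + max (-a) 1) ^ 16 ≤
      B * Real.exp (6 * max (-a) 0)) ∧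
    ∀ a : ℝ, Real.exp (-(2 * a)) * (Real.exp (6 / 5 * max (a - 1) 1) *
      (1 + max (a - 1) 1) ^ 16) ≤ B * Real.exp (6 * max (-a) 0) :=
  ⟨20 ^ 16 * Real.exp 2, by positivity, fac1, fac2⟩

theorem kernel_facts : ∃ W1 : ℝ, 0 < W1 ∧ ∀ L : ℝ, 1 ≤ L →
    Integrable (fun y : ℝ => ‖kz L y‖ * (1 + |y|) ^ 3) ∧
    Integrable (fun y : ℝ => ‖kz L y‖ * (1 + |y|) ^ 3 *
      (1 + L * ‖((-(1 / L) : ℝ) : ℂ) + y * I‖) ^ 8) ∧
    (∫ y : ℝ, ‖kz L y‖ * (1 + |y|) ^ 3) ≤ W1 ∧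
    (∫ y : ℝ, ‖kz L y‖ * (1 + |y|) ^ 3 *
      (1 + L * ‖((-(1 / L) : ℝ) : ℂ) + y * I‖) ^ 8) ≤ W1 := by
  obtain ⟨C3, hC3, hker⟩ := ker_norm 100 3 (by norm_num) (θ := 1 / 2000) (by norm_num)
  refine ⟨C3 * (1 + 1) ^ 8 * (1 + 1), by positivity, fun L hL1 => ?_⟩
  have hL0 : 0 < L := by linarith
  have hkz : ∀ y : ℝ, kz L y = ker (11 / 20 * L) (1 / 2000 * L) 100
      (((-(1 / L) : ℝ) : ℂ) + y * I) / (((-(1 / L) : ℝ) : ℂ) + y * I) := by
    intro y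
    unfold kz
    have : L / 20 / (K0 : ℝ) = 1 / 2000 * L := by
      unfold K0
      push_cast
      ring
    rw [this]
    rfl
  have hker1 := hker L hL1 (11 / 20 * L) (-(1 / L)) (by
    rw [neg_ne_zero]; positivity)
  simp_rw [← hkz] at hker1
  have habs : L * |-(1 / L)| = 1 := by
    rw [abs_neg, abs_of_pos (by positivity)]; field_simp
  rw [habs] at hker1
  obtain ⟨hk1, hk2⟩ := hker1
  have hexpo : Real.exp (11 / 20 * L * -(1 / L) + (100 : ℕ) * (1 / 2000 * L) * max (-(1 / L)) 0) ≤ 1 := by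
    rw [Real.exp_le_one_iff]
    have : max (-(1 / L)) 0 = 0 := max_eq_right (by
      have : 0 < 1 / L := by positivity
      linarith)
    rw [this, mul_zero, add_zero]
    have : 11 / 20 * L * -(1 / L) = -(11 / 20) := by field_simp
    rw [this]
    norm_num
  have hW8 : ∫ y : ℝ, ‖kz L y‖ * (1 + |y|) ^ 3 *
      (1 + L * ‖((-(1 / L) : ℝ) : ℂ) + y * I‖) ^ 8 ≤ C3 * (1 + 1) ^ 8 * (1 + 1) := by
    refine hk2.trans ?_
    have : C3 * (1 + 1) ^ 8 * (1 + 1 / 1) = C3 * (1 + 1) ^ 8 * (1 + 1) := by norm_num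
    rw [this]
    have h9 : 0 ≤ C3 * (1 + 1) ^ 8 * (1 + 1) := by positivity
    exact mul_le_of_le_one_right h9 hexpo
  have hw0 : ∀ y : ℝ, 0 ≤ ‖kz L y‖ * (1 + |y|) ^ 3 := fun y => by positivity
  have hzc : ∀ y : ℝ, ((-(1 / L) : ℝ) : ℂ) + y * I ≠ 0 := by
    intro y h
    have := congrArg Complex.re h
    simp at this
    linarith
  have hkzc : Continuous (kz L) := by
    have : kz L = fun y : ℝ => ker (11 / 20 * L) (1 / 2000 * L) 100
      (((-(1 / L) : ℝ) : ℂ) + y * I) / (((-(1 / L) : ℝ) : ℂ) + y * I) := funext hkz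
    rw [this]
    apply Continuous.div _ _ hzc
    · exact (ker_diff _ _ _).continuous.comp (by fun_prop)
    · fun_prop
  have hwc : Continuous (fun y : ℝ => ‖kz L y‖ * (1 + |y|) ^ 3) := by
    apply hkzc.norm.mul
    fun_prop
  have hw8 : ∀ y : ℝ, ‖kz L y‖ * (1 + |y|) ^ 3 ≤ ‖kz L y‖ * (1 + |y|) ^ 3 *
      (1 + L * ‖((-(1 / L) : ℝ) : ℂ) + y * I‖) ^ 8 := by
    intro y
    have h9 : (1 : ℝ) ≤ (1 + L * ‖((-(1 / L) : ℝ) : ℂ) + y * I‖) ^ 8 := by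
      apply one_le_pow₀
      have := norm_nonneg (((-(1 / L) : ℝ) : ℂ) + y * I)
      nlinarith
    exact le_mul_of_one_le_right (hw0 y) h9
  have hwi : Integrable (fun y : ℝ => ‖kz L y‖ * (1 + |y|) ^ 3) := by
    refine hk1.mono' hwc.aestronglyMeasurable (Filter.Eventually.of_forall fun y => ?_)
    rw [Real.norm_of_nonneg (hw0 y)]
    exact hw8 y
  exact ⟨hwi, hk1, (integral_mono hwi hk1 hw8).trans hW8, hW8⟩

/-- exchange of the integrals in the second term -/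
theorem second {E w u : ℝ → ℝ} {D : ℝ → ℝ → ℝ} {K Q W1 : ℝ} {v Y : ℝ} (hE : Integrable E)
    (hw : Integrable w) (hD : Continuous (fun z : ℝ × ℝ => D z.2 z.1))
    (hDK : ∀ y t, |D y t| ≤ K) (hw0 : ∀ y, 0 ≤ w y) (hQ : 0 ≤ Q) (hY : 0 ≤ Y)
    (hu : Integrable (fun y => w y * (1 + u y) ^ 8))
    (hu1 : ∫ y, w y * (1 + u y) ^ 8 ≤ W1) {b : ℝ → ℝ} (hb0 : ∀ y, 0 ≤ b y)
    (hb : ∀ y, b y ≤ Y * (1 + u y))
    (hcore : ∀ y, ∫ t, E t * D y t ^ 2 ≤ Q * b y ^ 8 * v) (hv : 0 ≤ v) :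
    ∫ t, E t * ∫ y, w y * D y t ^ 2 ≤ Q * Y ^ 8 * v * W1 := by
  obtain ⟨_, hf2, hf3⟩ := fub hE hw hD hDK
  rw [hf3]
  have h1 : ∀ y, w y * ∫ t, E t * D y t ^ 2 ≤ Q * Y ^ 8 * v * (w y * (1 + u y) ^ 8) := by
    intro y
    have h6 : b y ^ 8 ≤ (Y * (1 + u y)) ^ 8 := pow_le_pow_left₀ (hb0 y) (hb y) 8
    have h7 : Q * b y ^ 8 * v ≤ Q * (Y * (1 + u y)) ^ 8 * v :=
      mul_le_mul_of_nonneg_right (mul_le_mul_of_nonneg_left h6 hQ) hv
    calc w y * ∫ t, E t * D y t ^ 2 ≤ w y * (Q * (Y * (1 + u y)) ^ 8 * v) :=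
          mul_le_mul_of_nonneg_left ((hcore y).trans h7) (hw0 y)
      _ = _ := by ring
  calc ∫ y, w y * ∫ t, E t * D y t ^ 2 ≤ ∫ y, Q * Y ^ 8 * v * (w y * (1 + u y) ^ 8) :=
        integral_mono hf2 (hu.const_mul _) h1
    _ = Q * Y ^ 8 * v * ∫ y, (w y * (1 + u y) ^ 8) := integral_const_mul _ _
    _ ≤ _ := mul_le_mul_of_nonneg_left hu1 (by positivity)

/-- the final bookkeeping -/
theorem numeric {C1 B Ca W1 W ex e2 e6 G Y S k3 P3 : ℝ} (hC1 : 0 ≤ C1) (hB : 0 ≤ B)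
    (hW : 0 ≤ W) (hWW : W ≤ W1) (hex : ex ^ 2 = e2) (hG : 0 ≤ G) (h2 : e2 * G ≤ B * e6)
    (hY : 1 ≤ Y) (hS : 0 ≤ S) (he6 : 1 ≤ e6) (hP3 : 0 ≤ P3) (hk3 : k3 ≤ P3 * S) :
    3 * (C1 * (B * e6) * Y ^ 8 * S + (Ca * ex) ^ 2 * W * (C1 * G * Y ^ 8 * S * W1) + k3) ≤
      3 * (C1 * B + Ca ^ 2 * W1 * (W1 * (C1 * B)) + P3) * e6 * Y ^ 20 * S := by
  have hY0 : 0 ≤ Y := by linarith
  have hW1 : 0 ≤ W1 := hW.trans hWW
  have hY20 : Y ^ 8 ≤ Y ^ 20 := pow_le_pow_right₀ hY (by norm_num)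
  have hY20' : 1 ≤ Y ^ 20 := one_le_pow₀ hY
  have he6' : 0 ≤ e6 := by linarith
  have t1 : C1 * (B * e6) * Y ^ 8 * S ≤ C1 * B * (e6 * Y ^ 20 * S) := by
    have h1 : 0 ≤ C1 * B * e6 * S := by positivity
    have := mul_le_mul_of_nonneg_left hY20 h1
    nlinarith
  have t2 : (Ca * ex) ^ 2 * W * (C1 * G * Y ^ 8 * S * W1) ≤
      Ca ^ 2 * W1 * (W1 * (C1 * B)) * (e6 * Y ^ 20 * S) := by
    have he2 : 0 ≤ e2 := by rw [← hex]; positivity
    have s1 : (Ca * ex) ^ 2 * W * (C1 * G * Y ^ 8 * S * W1) =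
        (Ca ^ 2 * C1 * W1 * S) * (W * (e2 * G) * Y ^ 8) := by
      rw [mul_pow, hex]; ring
    have s2 : Ca ^ 2 * W1 * (W1 * (C1 * B)) * (e6 * Y ^ 20 * S) =
        (Ca ^ 2 * C1 * W1 * S) * (W1 * (B * e6) * Y ^ 20) := by ring
    rw [s1, s2]
    apply mul_le_mul_of_nonneg_left _ (by positivity)
    apply mul_le_mul _ hY20 (by positivity) (by positivity)
    exact mul_le_mul hWW h2 (by positivity) hW1
  have t3 : k3 ≤ P3 * (e6 * Y ^ 20 * S) := by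
    refine hk3.trans ?_
    apply mul_le_mul_of_nonneg_left _ hP3
    have h2 : 1 ≤ e6 * Y ^ 20 := by nlinarith
    exact le_mul_of_one_le_left hS h2
  calc 3 * (C1 * (B * e6) * Y ^ 8 * S + (Ca * ex) ^ 2 * W * (C1 * G * Y ^ 8 * S * W1) + k3)
      ≤ 3 * (C1 * B * (e6 * Y ^ 20 * S) + Ca ^ 2 * W1 * (W1 * (C1 * B)) * (e6 * Y ^ 20 * S) +
        P3 * (e6 * Y ^ 20 * S)) := by linarith
    _ = _ := by ring

end Twisted

theorem twisted_gen (A1 A2 : ℝ) (hA1 : 0 < A1) (hA2 : 0 < A2) : ∃ C : ℝ, 0 < C ∧ ∀ R : ℝ, 1 ≤ R →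
    ∃ T0 : ℝ, ∀ T : ℝ, T0 ≤ T →
    ∀ p q : ℕ → ℂ, Rep (Real.log T) (1 / Real.log T) p A1 → Rep (Real.log T) (1 / Real.log T) q A2 →
    (∀ n, ⌊T ^ (1 / 20 : ℝ)⌋₊ < n → p n = 0) → (∀ n, ⌊T ^ (1 / 20 : ℝ)⌋₊ < n → q n = 0) →
    ∀ τ : ℝ, T / 8 ≤ τ → τ ≤ T / 4 → ∀ α : ℂ, |α.re| ≤ R / Real.log T → |α.im| ≤ T / 50 →
    ∫ t in (τ - T / 100)..(τ + T / 100), wt τ (De T) t * (‖riemannZeta (1 / 2 + α + t * I)‖ ^ 2 *
      ‖dp (mt p) ⌊T ^ (1 / 20 : ℝ)⌋₊ t‖ ^ 2 * ‖dp (mt q) ⌊T ^ (1 / 20 : ℝ)⌋₊ t‖ ^ 2) ≤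
      C * Real.exp (6 * max (-(Real.log T * α.re)) 0) * (1 + Real.log T * ‖α‖) ^ 20 * (De T * Real.log T) := by
  obtain ⟨C1, hC1, hcore⟩ := Twisted.core A1 A2 hA1 hA2
  obtain ⟨W1, hW1, hker⟩ := Twisted.kernel_facts
  obtain ⟨Ca, hCa, hafe⟩ := afe
  obtain ⟨B, hB0, hfac1, hfac2⟩ := Twisted.facs
  refine ⟨3 * (C1 * B + Ca ^ 2 * W1 * (W1 * (C1 * B)) + Real.sqrt Real.pi * (A1 * A2) ^ 2),
    by positivity, fun R hR => ?_⟩
  obtain ⟨T1, hT1⟩ := hafe R hR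
  refine ⟨max T1 ((24576 : ℝ) ^ 5), ?_⟩
  intro T hT p q hp hq hps hqs τ hτ1 hτ2 α hα1 hα2
  have hTa : T1 ≤ T := le_trans (le_max_left _ _) hT
  have hTb : (24576 : ℝ) ^ 5 ≤ T := le_trans (le_max_right _ _) hT
  have hT1' : (1 : ℝ) ≤ T := le_trans (by norm_num) hTb
  have hT0 : (0 : ℝ) < T := by linarith
  have hL1 := Twisted.log_ge_one hTb
  have hafeT := hT1 T hTa α hα1
  have hcoreT := hcore T hTb p q hp hq hps hqs τ
  have hmass := Twisted.mass_bound hTb A1 A2 hA1 hA2 p q hp hq τ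
  have hEi := Twisted.wt_dp_integrable hTb A1 A2 p q hp hq τ
  have hDe : 0 < De T := Twisted.De_pos hT0
  obtain ⟨hwi, hk1, hWle, hW8⟩ := hker _ hL1
  clear hcore hafe hker hT hTa hTb hp hq hps hqs hT1
  generalize Real.log T = L at *
  generalize ⌊T ^ (3 / 5 : ℝ)⌋₊ = N at *
  generalize ⌊T ^ (1 / 20 : ℝ)⌋₊ = P at *
  generalize De T = Δ at *
  have hL0 : 0 < L := by linarith
  have hw0 : ∀ y : ℝ, 0 ≤ ‖kz L y‖ * (1 + |y|) ^ 3 := fun y => by positivity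
  -- the polynomials
  have hβc : Continuous (fun y : ℝ => (starRingEnd ℂ) α +
      (starRingEnd ℂ) (((-(1 / L) : ℝ) : ℂ) + y * I)) := by
    apply continuous_const.add
    exact Complex.continuous_conj.comp (by fun_prop)
  have hβre : ∀ y : ℝ, ((starRingEnd ℂ) α +
      (starRingEnd ℂ) (((-(1 / L) : ℝ) : ℂ) + y * I)).re = α.re - 1 / L := by
    intro y
    simp only [Complex.add_re, Complex.conj_re, Complex.ofReal_re, Complex.mul_re,
      Complex.I_re, Complex.ofReal_im, Complex.I_im]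
    ring
  have hβnorm : ∀ y : ℝ, ‖(starRingEnd ℂ) α +
      (starRingEnd ℂ) (((-(1 / L) : ℝ) : ℂ) + y * I)‖ ≤ ‖α‖ + ‖((-(1 / L) : ℝ) : ℂ) + y * I‖ := by
    intro y
    refine (norm_add_le _ _).trans ?_
    rw [Complex.norm_conj, Complex.norm_conj]
  have hDc := Twisted.dp_tw_continuous (gz L) hβc N
  have hDK := fun y t => Twisted.dp_tw_bound (gz L) (hβre y) N t
  have hE0 : ∀ t, 0 ≤ wt τ Δ t * (‖dp (mt p) P t‖ ^ 2 * ‖dp (mt q) P t‖ ^ 2) :=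
    fun t => mul_nonneg (Twisted.wt_nonneg _ _ _) (by positivity)
  have hF1i : Integrable (fun t => wt τ Δ t * (‖dp (mt p) P t‖ ^ 2 * ‖dp (mt q) P t‖ ^ 2) *
      ‖dp (tw (gz L) (-α)) N t‖ ^ 2) := by
    refine hEi.mul_bdd (c := (∑ n ∈ Finset.Icc 1 N, ‖gz L n‖ * (n : ℝ) ^ ((-α).re)) ^ 2) ?_
      (Filter.Eventually.of_forall fun t => ?_)
    · exact ((dp_continuous _ _).norm.pow 2).aestronglyMeasurable
    · rw [norm_pow]
      exact pow_le_pow_left₀ (norm_nonneg _) (Twisted.dp_tw_bound _ rfl N t) 2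
  have hY1 : 1 ≤ 1 + L * ‖α‖ := by
    have := norm_nonneg α
    nlinarith
  have hX1 : (0 : ℝ) ≤ max (L * α.re - 1) 1 := le_trans (by norm_num) (le_max_right _ _)
  -- first term
  have hk1' : ∫ t, wt τ Δ t * (‖dp (mt p) P t‖ ^ 2 * ‖dp (mt q) P t‖ ^ 2) *
      ‖dp (tw (gz L) (-α)) N t‖ ^ 2 ≤
      C1 * (B * Real.exp (6 * max (-(L * α.re)) 0)) * (1 + L * ‖α‖) ^ 8 * (Δ * L) := by
    have h1 := hcoreT (-α)
    have h2 : ∀ t, wt τ Δ t * (‖dp (tw (gz L) (-α)) N t‖ ^ 2 * ‖dp (mt p) P t‖ ^ 2 *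
        ‖dp (mt q) P t‖ ^ 2) = wt τ Δ t * (‖dp (mt p) P t‖ ^ 2 * ‖dp (mt q) P t‖ ^ 2) *
        ‖dp (tw (gz L) (-α)) N t‖ ^ 2 := fun t => by ring
    simp_rw [h2] at h1
    refine h1.trans ?_
    have h3 := hfac1 (L * α.re)
    have h4 : L * (-α).re = -(L * α.re) := by simp
    rw [h4, norm_neg]
    have h5 := mul_le_mul_of_nonneg_left h3 hC1.le
    have h6 : 0 ≤ (1 + L * ‖α‖) ^ 8 * (Δ * L) := by positivity
    have h7 := mul_le_mul_of_nonneg_right h5 h6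
    have e1 : C1 * Real.exp (6 / 5 * max (-(L * α.re)) 1) * (1 + max (-(L * α.re)) 1) ^ 16 *
          (1 + L * ‖α‖) ^ 8 * (Δ * L)
        = C1 * (Real.exp (6 / 5 * max (-(L * α.re)) 1) * (1 + max (-(L * α.re)) 1) ^ 16) *
          ((1 + L * ‖α‖) ^ 8 * (Δ * L)) := by ring
    rw [e1]
    refine h7.trans (le_of_eq ?_)
    ring
  -- second term
  have hk2' := Twisted.second (E := fun t => wt τ Δ t * (‖dp (mt p) P t‖ ^ 2 *
      ‖dp (mt q) P t‖ ^ 2)) (w := fun y => ‖kz L y‖ * (1 + |y|) ^ 3)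
    (u := fun y => L * ‖((-(1 / L) : ℝ) : ℂ) + y * I‖)
    (D := fun y t => ‖dp (tw (gz L) ((starRingEnd ℂ) α +
      (starRingEnd ℂ) (((-(1 / L) : ℝ) : ℂ) + y * I))) N t‖)
    (Q := C1 * (Real.exp (6 / 5 * max (L * α.re - 1) 1) * (1 + max (L * α.re - 1) 1) ^ 16))
    (v := Δ * L) (Y := 1 + L * ‖α‖) hEi hwi hDc hDK hw0 (by positivity) (by linarith) hk1 hW8
    (b := fun y => 1 + L * ‖(starRingEnd ℂ) α +
      (starRingEnd ℂ) (((-(1 / L) : ℝ) : ℂ) + y * I)‖)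
    (fun y => by positivity)
    (by
      intro y
      have e1 := hβnorm y
      have e2 := norm_nonneg α
      have e3 := norm_nonneg (((-(1 / L) : ℝ) : ℂ) + y * I)
      have e4 := mul_le_mul_of_nonneg_left e1 hL0.le
      have e5 := mul_nonneg (mul_nonneg hL0.le e2) (mul_nonneg hL0.le e3)
      have e6 : (1 + L * ‖α‖) * (1 + L * ‖((-(1 / L) : ℝ) : ℂ) + y * I‖) =
        1 + L * (‖α‖ + ‖((-(1 / L) : ℝ) : ℂ) + y * I‖) +
        L * ‖α‖ * (L * ‖((-(1 / L) : ℝ) : ℂ) + y * I‖) := by ring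
      rw [e6]
      linarith)
    (by
      intro y
      have h2 := hcoreT ((starRingEnd ℂ) α + (starRingEnd ℂ) (((-(1 / L) : ℝ) : ℂ) + y * I))
      have h3 : ∀ t, wt τ Δ t * (‖dp (tw (gz L) ((starRingEnd ℂ) α +
        (starRingEnd ℂ) (((-(1 / L) : ℝ) : ℂ) + y * I))) N t‖ ^ 2 * ‖dp (mt p) P t‖ ^ 2 *
        ‖dp (mt q) P t‖ ^ 2) = wt τ Δ t * (‖dp (mt p) P t‖ ^ 2 * ‖dp (mt q) P t‖ ^ 2) *
        ‖dp (tw (gz L) ((starRingEnd ℂ) α +
        (starRingEnd ℂ) (((-(1 / L) : ℝ) : ℂ) + y * I))) N t‖ ^ 2 := fun t => by ring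
      simp_rw [h3] at h2
      have h4 : L * ((starRingEnd ℂ) α +
        (starRingEnd ℂ) (((-(1 / L) : ℝ) : ℂ) + y * I)).re = L * α.re - 1 := by
        rw [hβre]; field_simp
      rw [h4] at h2
      refine h2.trans (le_of_eq ?_)
      ring) (by positivity)
  -- assemble
  have hab : τ - T / 100 ≤ τ + T / 100 := by linarith
  have hmain := Twisted.assemble (E := fun t => wt τ Δ t * (‖dp (mt p) P t‖ ^ 2 *
      ‖dp (mt q) P t‖ ^ 2)) (Z := fun t => ‖riemannZeta (1 / 2 + α + t * I)‖)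
    (F1 := fun t => ‖dp (tw (gz L) (-α)) N t‖) (w := fun y => ‖kz L y‖ * (1 + |y|) ^ 3)
    (D := fun y t => ‖dp (tw (gz L) ((starRingEnd ℂ) α +
      (starRingEnd ℂ) (((-(1 / L) : ℝ) : ℂ) + y * I))) N t‖)
    (C := Ca) (e := Real.exp (-(L * α.re))) (ε := 1 / T) hab
    hEi hE0 hF1i hwi hw0 rfl hDc hDK (fun y t => norm_nonneg _)
    (by
      intro t ht
      have e1 : T / 20 ≤ t + α.im := by
        have := (abs_le.mp hα2).1
        linarith [ht.1]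
      have e2 : t + α.im ≤ T := by
        have := (abs_le.mp hα2).2
        linarith [ht.2]
      exact hafeT t e1 e2)
    (fun t => norm_nonneg _) hk1' hk2' le_rfl
  have hfin : ∀ t : ℝ, wt τ Δ t * (‖riemannZeta (1 / 2 + α + t * I)‖ ^ 2 * ‖dp (mt p) P t‖ ^ 2 *
      ‖dp (mt q) P t‖ ^ 2) = wt τ Δ t * (‖dp (mt p) P t‖ ^ 2 * ‖dp (mt q) P t‖ ^ 2) *
      ‖riemannZeta (1 / 2 + α + t * I)‖ ^ 2 := by
    intro t
    ring
  simp_rw [hfin]
  refine hmain.trans ?_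
  have hex : Real.exp (-(L * α.re)) ^ 2 = Real.exp (-(2 * (L * α.re))) := by
    rw [← Real.exp_nat_mul]; congr 1; push_cast; ring
  have hex1 : 1 ≤ Real.exp (6 * max (-(L * α.re)) 0) :=
    Real.one_le_exp (mul_nonneg (by norm_num) (le_max_right _ _))
  have hnum := Twisted.numeric (C1 := C1) (B := B) (Ca := Ca) (W1 := W1)
    (W := ∫ y : ℝ, ‖kz L y‖ * (1 + |y|) ^ 3) (S := Δ * L) (P3 := Real.sqrt Real.pi * (A1 * A2) ^ 2)
    hC1.le hB0.le (integral_nonneg hw0) hWle hex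
    (G := Real.exp (6 / 5 * max (L * α.re - 1) 1) * (1 + max (L * α.re - 1) 1) ^ 16)
    (by positivity) (hfac2 (L * α.re)) hY1 (by positivity) hex1 (by positivity) hmass
  exact hnum

end Pool.Agent.P4f18dfS
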